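import Pool.Agent.Run7.h385.Growth

set_option autoImplicit false

namespace Run7.h385

open MvPolynomial Filter Topology Module
open Pool.Agent.Helper259.AbsHt

variable {n : ℕ}

open Classical in
/-- the point with given homogeneous coordinates -/
noncomputable def pt (x : Fin (n + 1) → Qbar) : PSpace n :=
  if h : x ≠ 0 then Projectivization.mk Qbar x h else
    Projectivization.mk Qbar (fun _ => 1) (fun h => one_ne_zero (congrFun h 0))

lemma pt_of_ne {x : Fin (n + 1) → Qbar} (h : x ≠ 0) : pt x = Projectivization.mk Qbar x h := by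
  rw [pt, dif_pos h]

lemma pt_rep (P : PSpace n) : pt P.rep = P := by
  rw [pt_of_ne P.rep_nonzero, Projectivization.mk_rep]

lemma pt_eq_iff {x y : Fin (n + 1) → Qbar} (hx : x ≠ 0) (hy : y ≠ 0) :
    pt x = pt y ↔ ∀ i j, x i * y j = x j * y i := by
  rw [pt_of_ne hx, pt_of_ne hy, Projectivization.mk_eq_mk_iff']
  constructor
  · rintro ⟨a, ha⟩ i j
    rw [← ha]
    simp only [Pi.smul_apply, smul_eq_mul]
    ring
  · intro h
    obtain ⟨j, hj⟩ := Function.ne_iff.mp hy
    have hj' : y j ≠ 0 := hj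
    refine ⟨x j / y j, ?_⟩
    funext i
    simp only [Pi.smul_apply, smul_eq_mul]
    rw [div_mul_eq_mul_div, div_eq_iff hj']
    exact (h i j).symm

lemma ht_pt {x : Fin (n + 1) → Qbar} (h : x ≠ 0) : ht (pt x) = absLogHeight x := by
  rw [pt_of_ne h, ht_mk]

lemma ratPts_pt {L : IntermediateField ℚ Qbar} {x : Fin (n + 1) → Qbar} (h : x ≠ 0)
    (hL : ∀ i, x i ∈ L) : pt x ∈ ratPts L n := ⟨x, hL, h, pt_of_ne h⟩

lemma eval_pt {F : MvPolynomial (Fin (n + 1)) Qbar} {e : ℕ} (hF : F.IsHomogeneous e)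
    {x : Fin (n + 1) → Qbar} (h : x ≠ 0) : eval (pt x).rep F = 0 ↔ eval x F = 0 := by
  rw [pt_of_ne h, eval_mk_ne hF]

/-- the points of bounded height over a number field are finite in number -/
lemma finite_pts {X : Set (PSpace n)} {H : PSpace n → ℝ} (hH : IsAmpleHeight X H)
    {U : Set (PSpace n)} (hU : U ⊆ X) (L : IntermediateField ℚ Qbar) [FiniteDimensional ℚ L]
    (T : ℝ) : {P : PSpace n | P ∈ U ∧ P ∈ ratPts L n ∧ H P ≤ T}.Finite := by
  obtain ⟨C, hC, h⟩ := ample_compare hH
  obtain ⟨C', c', -, -, h'⟩ := count_rat L n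
  have h0 : 0 ≤ C * (Real.log (max T 1) + 1) := by
    have : 0 ≤ Real.log (max T 1) := Real.log_nonneg (le_max_right _ _)
    positivity
  refine (h' _ h0).1.subset ?_
  rintro P ⟨hP, hPL, hPT⟩
  refine ⟨hPL, ?_⟩
  obtain ⟨h1, h2, h3⟩ := h P (hU hP)
  refine h3.trans ?_
  have : Real.log (H P) ≤ Real.log (max T 1) :=
    Real.log_le_log (by linarith) (hPT.trans (le_max_left _ _))
  gcongr

lemma card_le_count {X : Set (PSpace n)} {H : PSpace n → ℝ} (hH : IsAmpleHeight X H)
    {U : Set (PSpace n)} (hU : U ⊆ X) (L : IntermediateField ℚ Qbar) [FiniteDimensional ℚ L]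
    (T : ℝ) (s : Finset (PSpace n)) (hs : ∀ P ∈ s, P ∈ U ∧ P ∈ ratPts L n ∧ H P ≤ T) :
    s.card ≤ count H U L T := by
  unfold count
  rw [← Set.ncard_coe_finset s]
  exact Set.ncard_le_ncard (fun P hP => hs P hP) (finite_pts hH hU L T)

/-- the trivial upper bound -/
lemma count_upper {X : Set (PSpace n)} {H : PSpace n → ℝ} (hH : IsAmpleHeight X H)
    {U : Set (PSpace n)} (hU : U ⊆ X) (L : IntermediateField ℚ Qbar) [FiniteDimensional ℚ L] :
    ∃ β C : ℝ, ∀ T : ℝ, 1 ≤ T → Real.log (count H U L T) ≤ β * Real.log T + C := by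
  obtain ⟨C, hC, h⟩ := ample_compare hH
  obtain ⟨C', c', hC', hc', h'⟩ := count_rat L n
  refine ⟨c' * C, |Real.log C'| + c' * C, fun T hT => ?_⟩
  have hlog : 0 ≤ Real.log T := Real.log_nonneg hT
  have h0 : 0 ≤ C * (Real.log T + 1) := by positivity
  rcases Nat.eq_zero_or_pos (count H U L T) with h1 | h1
  · rw [h1, Nat.cast_zero, Real.log_zero]
    positivity
  have h1' : (0 : ℝ) < count H U L T := by exact_mod_cast h1
  obtain ⟨h2, h3⟩ := h' _ h0
  have h4 : (count H U L T : ℝ) ≤ C' * Real.exp (c' * (C * (Real.log T + 1))) := by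
    refine le_trans ?_ h3
    have h6 : count H U L T ≤ {P | P ∈ ratPts L n ∧ ht P ≤ C * (Real.log T + 1)}.ncard := by
      unfold count
      refine Set.ncard_le_ncard ?_ h2
      rintro P ⟨hP1, hP2, hP3⟩
      obtain ⟨g1, g2, g3⟩ := h P (hU hP1)
      refine ⟨hP2, g3.trans ?_⟩
      have : Real.log (H P) ≤ Real.log T := Real.log_le_log (by linarith) hP3
      gcongr
    exact_mod_cast h6
  have h5 := Real.log_le_log h1' h4
  rw [Real.log_mul hC'.ne' (Real.exp_pos _).ne', Real.log_exp] at h5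
  have := le_abs_self (Real.log C')
  linarith

/-- a finite set lies in a bigger number field; coefficients of finitely many polynomials -/
lemma exists_field_poly (K : IntermediateField ℚ Qbar) [FiniteDimensional ℚ K] {ι : Type}
    [Finite ι] (p : ι → Polynomial Qbar) : ∃ L : IntermediateField ℚ Qbar, K ≤ L ∧
      FiniteDimensional ℚ L ∧ ∀ i k, (p i).coeff k ∈ L := by
  obtain ⟨L, h1, h2, h3⟩ := exists_field K (⋃ i, ((p i).coeffs : Set Qbar))
    (Set.finite_iUnion fun i => Finset.finite_toSet _)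
  refine ⟨L, h1, h2, fun i k => ?_⟩
  by_cases h : (p i).coeff k = 0
  · rw [h]; exact L.zero_mem
  · exact h3 _ (Set.mem_iUnion.2 ⟨i, Polynomial.coeff_mem_coeffs h⟩)

lemma eval_mem {L : IntermediateField ℚ Qbar} {p : Polynomial Qbar} (hp : ∀ k, p.coeff k ∈ L)
    {t : Qbar} (ht : t ∈ L) : p.eval t ∈ L := by
  rw [Polynomial.eval_eq_sum_range]
  exact L.sum_mem fun i _ => L.mul_mem (hp i) (pow_mem ht i)

/-- height of the values of polynomials at natural numbers -/
lemma ht_poly_nat (p : Fin (n + 1) → Polynomial Qbar) :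
    ∃ C : ℝ, 0 < C ∧ ∀ k M : ℕ, k ≤ M →
      absLogHeight (fun i => (p i).eval (k : Qbar)) ≤ C * (Real.log (M + 1) + 1) := by
  classical
  set D : ℕ := ∑ i, (p i).natDegree with hD
  have hle : ∀ i, (p i).natDegree ≤ D := fun i =>
    Finset.single_le_sum (f := fun i => (p i).natDegree) (fun _ _ => Nat.zero_le _)
      (Finset.mem_univ i)
  set A : Fin (n + 1) × Fin (D + 1) → Qbar := fun a => (p a.1).coeff a.2 with hA
  refine ⟨|Real.log (Nat.card (Fin (D + 1)))| + absLogHeight A + D + 1, ?_, fun k M hk => ?_⟩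
  · have := absLogHeight_nonneg A
    positivity
  have h1 := absLogHeight_linear A (fun l : Fin (D + 1) => (k : Qbar) ^ (l : ℕ))
  have e1 : (fun j => ∑ i : Fin (D + 1), A (j, i) * (k : Qbar) ^ (i : ℕ)) =
      fun i => (p i).eval (k : Qbar) := by
    funext j
    rw [Polynomial.eval_eq_sum_range' (lt_of_le_of_lt (hle j) (Nat.lt_succ_self D)),
      Finset.sum_range]
  rw [e1] at h1
  have h2 : absLogHeight (fun l : Fin (D + 1) => (k : Qbar) ^ (l : ℕ)) ≤
      D * Real.log (M + 1) := by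
    have hgcd : Finset.univ.gcd (fun l : Fin (D + 1) => ((k : ℤ) ^ (l : ℕ))) = 1 := by
      have : Finset.univ.gcd (fun l : Fin (D + 1) => ((k : ℤ) ^ (l : ℕ))) ∣ 1 := by
        have := Finset.gcd_dvd (s := Finset.univ) (f := fun l : Fin (D + 1) => ((k : ℤ) ^ (l : ℕ)))
          (Finset.mem_univ 0)
        simpa using this
      have h3 := Finset.normalize_gcd (s := Finset.univ)
        (f := fun l : Fin (D + 1) => ((k : ℤ) ^ (l : ℕ)))
      rw [← h3]
      exact normalize_eq_one.mpr (isUnit_of_dvd_one this)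
    have h4 := absLogHeight_int (fun l : Fin (D + 1) => ((k : ℤ) ^ (l : ℕ))) hgcd
    have e2 : (fun i : Fin (D + 1) => ((((k : ℤ) ^ (i : ℕ) : ℤ)) : Qbar)) =
        fun l : Fin (D + 1) => (k : Qbar) ^ (l : ℕ) := by
      funext i; push_cast; rfl
    rw [e2] at h4
    rw [h4]
    have h5 : (⨆ i : Fin (D + 1), |((k : ℤ) ^ (i : ℕ))|) ≤ ((M : ℤ) + 1) ^ D := by
      refine ciSup_le fun i => ?_
      rw [abs_of_nonneg (by positivity)]
      calc ((k : ℤ)) ^ (i : ℕ) ≤ ((M : ℤ) + 1) ^ (i : ℕ) :=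
            pow_le_pow_left₀ (by positivity) (by exact_mod_cast (by omega : k ≤ M + 1)) _
        _ ≤ ((M : ℤ) + 1) ^ D := pow_le_pow_right₀ (by omega) (by omega)
    have h6 : (1 : ℤ) ≤ ⨆ i : Fin (D + 1), |((k : ℤ) ^ (i : ℕ))| := by
      refine le_trans ?_ (Finite.le_ciSup (fun i : Fin (D + 1) => |((k : ℤ) ^ (i : ℕ))|) 0)
      simp
    calc Real.log ((⨆ i : Fin (D + 1), |((k : ℤ) ^ (i : ℕ))| : ℤ) : ℝ)
        ≤ Real.log ((((M : ℤ) + 1) ^ D : ℤ) : ℝ) :=
          Real.log_le_log (by exact_mod_cast (by omega : 0 < ⨆ i : Fin (D + 1), |((k : ℤ) ^ (i : ℕ))|))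
            (by exact_mod_cast h5)
      _ = D * Real.log (M + 1) := by
          push_cast
          rw [Real.log_pow]
  have h7 : 0 ≤ Real.log ((M : ℝ) + 1) := Real.log_nonneg (by
    have : (0 : ℝ) ≤ M := Nat.cast_nonneg M
    linarith)
  have h8 := le_abs_self (Real.log (Nat.card (Fin (D + 1))))
  have h9 := absLogHeight_nonneg A
  have h10 : (0 : ℝ) ≤ D := Nat.cast_nonneg D
  have h11 : 0 ≤ |Real.log (Nat.card (Fin (D + 1)))| := abs_nonneg _
  calc _ ≤ _ := h1
    _ ≤ |Real.log (Nat.card (Fin (D + 1)))| + absLogHeight A + D * Real.log (M + 1) := by linarith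
    _ ≤ _ := by nlinarith

/-- points on a rational curve outside of a closed set -/
lemma rat_family {X : Set (PSpace n)} {p : Fin (n + 1) → Polynomial Qbar}
    (hp : IsRationalCurve X p) {F : MvPolynomial (Fin (n + 1)) Qbar} {e : ℕ}
    (hF : F.IsHomogeneous e) {t₀ : Qbar} (h0 : (fun i => (p i).eval t₀) ≠ 0)
    (hF0 : eval (fun i => (p i).eval t₀) F ≠ 0) {L : IntermediateField ℚ Qbar}
    (hL : ∀ i k, (p i).coeff k ∈ L) :
    ∃ (D c : ℕ) (C : ℝ), 0 < D ∧ 0 < C ∧ ∀ M : ℕ, ∃ s : Finset (PSpace n),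
      (∀ P ∈ s, P ∈ X ∧ eval P.rep F ≠ 0 ∧ P ∈ ratPts L n ∧
        ht P ≤ C * (Real.log (M + 1) + 1)) ∧ M ≤ D * s.card + c := by
  classical
  obtain ⟨C, hC, hht⟩ := ht_poly_nat p
  set v : Qbar → Fin (n + 1) → Qbar := fun t i => (p i).eval t with hv
  -- the exceptional parameters
  set g : Polynomial Qbar := MvPolynomial.aeval p F with hg
  have hgev : ∀ t, g.eval t = eval (v t) F := by
    intro t
    rw [hg, ← Polynomial.coe_evalRingHom, MvPolynomial.aeval_def, MvPolynomial.hom_eval₂,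
      ← MvPolynomial.eval₂_id]
    congr 1
    ext a
    simp
  have hg0 : g ≠ 0 := by
    intro h
    apply hF0
    have := hgev t₀
    rw [h, Polynomial.eval_zero] at this
    exact this.symm
  obtain ⟨i₀, hi₀⟩ := Function.ne_iff.mp h0
  have hq0 : p i₀ ≠ 0 := by
    intro h
    apply hi₀
    simp [h]
  set B : Finset Qbar := g.roots.toFinset ∪ (p i₀).roots.toFinset with hB
  have hgood : ∀ t, t ∉ B → v t ≠ 0 ∧ eval (v t) F ≠ 0 := by
    intro t ht
    rw [hB, Finset.mem_union, not_or] at ht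
    obtain ⟨h1, h2⟩ := ht
    rw [Multiset.mem_toFinset, Polynomial.mem_roots hg0, Polynomial.IsRoot.def] at h1
    rw [Multiset.mem_toFinset, Polynomial.mem_roots hq0, Polynomial.IsRoot.def] at h2
    rw [hgev] at h1
    exact ⟨fun h => h2 (congrFun h i₀), h1⟩
  set D : ℕ := 2 * (∑ i, (p i).natDegree) + 1 with hD
  have hle : ∀ i, (p i).natDegree ≤ ∑ i, (p i).natDegree := fun i =>
    Finset.single_le_sum (f := fun i => (p i).natDegree) (fun _ _ => Nat.zero_le _)
      (Finset.mem_univ i)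
  -- fibres
  have hfib : ∀ t₁, v t₁ ≠ 0 → ∃ r : Polynomial Qbar, r ≠ 0 ∧ r.natDegree ≤ D ∧
      ∀ t, v t ≠ 0 → pt (v t) = pt (v t₁) → r.eval t = 0 := by
    intro t₁ ht₁
    by_cases hall : ∀ i j, p i * Polynomial.C (v t₁ j) - p j * Polynomial.C (v t₁ i) = 0
    · exfalso
      obtain ⟨-, s, t, hs, ht, hne⟩ := hp
      apply hne
      have key : ∀ s, v s ≠ 0 → pt (v s) = pt (v t₁) := by
        intro s hs
        rw [pt_eq_iff hs ht₁]
        intro i j
        have := congrArg (Polynomial.eval s) (hall i j)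
        simp only [Polynomial.eval_sub, Polynomial.eval_mul, Polynomial.eval_C,
          Polynomial.eval_zero] at this
        exact sub_eq_zero.mp this
      have h1 := key s hs
      have h2 := key t ht
      rw [pt_of_ne hs, ← h2, pt_of_ne ht] at h1
      exact h1
    · push Not at hall
      obtain ⟨i, j, hij⟩ := hall
      refine ⟨_, hij, ?_, fun t ht hh => ?_⟩
      · refine (Polynomial.natDegree_sub_le _ _).trans (max_le ?_ ?_)
        · refine (Polynomial.natDegree_mul_C_le _ _).trans ((hle i).trans (by omega))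
        · refine (Polynomial.natDegree_mul_C_le _ _).trans ((hle j).trans (by omega))
      · rw [pt_eq_iff ht ht₁] at hh
        simp only [Polynomial.eval_sub, Polynomial.eval_mul, Polynomial.eval_C]
        exact sub_eq_zero.mpr (hh i j)
  refine ⟨D, B.card, C, by omega, hC, fun M => ?_⟩
  set A : Finset ℕ := (Finset.range (M + 1)).filter (fun k => (k : Qbar) ∉ B) with hA
  refine ⟨A.image (fun k : ℕ => pt (v (k : Qbar))), ?_, ?_⟩
  · intro P hP
    obtain ⟨k, hk, rfl⟩ := Finset.mem_image.1 hP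
    rw [hA, Finset.mem_filter, Finset.mem_range] at hk
    obtain ⟨h1, h2⟩ := hgood _ hk.2
    refine ⟨?_, ?_, ratPts_pt h1 fun i => eval_mem (hL i) (natCast_mem L k), ?_⟩
    · rw [pt_of_ne h1]
      exact hp.1 _ h1
    · rw [Ne, eval_pt hF h1]
      exact h2
    · rw [ht_pt h1]
      exact hht k M (by omega)
  · have h1 : A.card ≤ D * (A.image (fun k : ℕ => pt (v (k : Qbar)))).card := by
      refine Finset.card_le_mul_card_image A D fun P hP => ?_
      obtain ⟨k₁, hk₁, rfl⟩ := Finset.mem_image.1 hP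
      rw [hA, Finset.mem_filter] at hk₁
      obtain ⟨h1, -⟩ := hgood _ hk₁.2
      obtain ⟨r, hr0, hrD, hr⟩ := hfib _ h1
      have h2 : ((A.filter fun x : ℕ => pt (v (x : Qbar)) = pt (v (k₁ : Qbar))).image
          (fun k : ℕ => (k : Qbar))) ⊆ r.roots.toFinset := by
        intro t ht
        obtain ⟨k, hk, rfl⟩ := Finset.mem_image.1 ht
        rw [Finset.mem_filter, hA, Finset.mem_filter] at hk
        rw [Multiset.mem_toFinset, Polynomial.mem_roots hr0]
        exact hr _ (hgood _ hk.1.2).1 hk.2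
      calc _ = ((A.filter fun x : ℕ => pt (v (x : Qbar)) = pt (v (k₁ : Qbar))).image
          (fun k : ℕ => (k : Qbar))).card := by
            rw [Finset.card_image_of_injective _ Nat.cast_injective]
        _ ≤ r.roots.toFinset.card := Finset.card_le_card h2
        _ ≤ r.natDegree := (Multiset.toFinset_card_le _).trans (Polynomial.card_roots' r)
        _ ≤ D := hrD
    have h2 : M + 1 ≤ A.card + B.card := by
      have h3 := Finset.card_filter_add_card_filter_not (s := Finset.range (M + 1))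
        (fun k : ℕ => (k : Qbar) ∉ B)
      rw [Finset.card_range] at h3
      have h4 : ((Finset.range (M + 1)).filter (fun k : ℕ => ¬ ((k : Qbar) ∉ B))).card ≤ B.card := by
        refine Finset.card_le_card_of_injOn (fun k : ℕ => (k : Qbar)) (fun k hk => ?_)
          (fun a _ b _ h => Nat.cast_injective h)
        rw [Finset.mem_coe, Finset.mem_filter, not_not] at hk
        exact hk.2
      rw [hA]
      omega
    omega

/-- **Dense rational curves give arithmetic order zero.** -/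
theorem order_zero {K : IntermediateField ℚ Qbar} [FiniteDimensional ℚ K] {X : Set (PSpace n)}
    (hX : IsVarietyOver K X) (hd : ZariskiDenseIn (rationalLocus X) X) {H : PSpace n → ℝ}
    (hH : IsAmpleHeight X H) : HasOrder K X H 0 := by
  classical
  obtain ⟨C₀, hC₀, hcmp⟩ := ample_compare hH
  refine order_eq_of_bounds 0 X ?_ hX.nonempty fun U hU hUX hne => ?_
  · refine ⟨{1}, ?_, ?_⟩
    · intro F hF
      rw [Set.mem_singleton_iff] at hF
      subst hF
      refine ⟨⟨0, isHomogeneous_one _ _⟩, fun s => ?_⟩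
      rw [coeff_one]
      split_ifs
      · exact K.one_mem
      · exact K.zero_mem
    · ext P
      simp
  · obtain ⟨T, hT, rfl⟩ := hU
    obtain ⟨P₀, hP₀X, F, hFT, hFP₀⟩ := hne
    obtain ⟨⟨e, hFe⟩, -⟩ := hT F hFT
    -- a rational curve which meets `F ≠ 0`
    obtain ⟨P₁, ⟨p, hp, t₀, h0, rfl⟩, hP₁⟩ : ∃ P ∈ rationalLocus X, eval P.rep F ≠ 0 := by
      by_contra hcon
      push Not at hcon
      exact hFP₀ (hd F ⟨e, hFe⟩ hcon P₀ hP₀X)
    rw [Ne, eval_mk_ne hFe] at hP₁
    obtain ⟨L₀, hKL, hfd, hcoef⟩ := exists_field_poly K p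
    refine ⟨L₀, hKL, hfd, fun L hL hLfd => ?_⟩
    obtain ⟨D, c, C, hD, hC, hfam⟩ := rat_family (L := L) hp hFe h0 hP₁
      (fun i k => hL (hcoef i k))
    obtain ⟨β, C', hup⟩ := count_upper hH hUX L
    have hD' : (0 : ℝ) < D := by exact_mod_cast hD
    obtain ⟨α, c', hα, hlow⟩ := lower_poly
      (N := count H {P | P ∈ X ∧ ∃ F ∈ T, eval P.rep F ≠ 0} L) (D := D) (e := c)
      (C := C₀ * (C + 1)) hD' (by positivity) (by
        intro M T' hT' hM
        obtain ⟨s, hs, hcard⟩ := hfam M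
        have h1 := card_le_count hH hUX L T' s (fun P hP => by
          obtain ⟨g1, g2, g3, g4⟩ := hs P hP
          refine ⟨⟨g1, F, hFT, g2⟩, g3, ?_⟩
          obtain ⟨k1, k2, k3⟩ := hcmp P g1
          have h7 : 0 ≤ Real.log ((M : ℝ) + 1) := Real.log_nonneg (by
            have : (0 : ℝ) ≤ M := Nat.cast_nonneg M
            linarith)
          have h8 : Real.log (H P) ≤ Real.log T' := by
            refine k2.trans (le_trans ?_ hM)
            rw [mul_assoc]
            refine mul_le_mul_of_nonneg_left ?_ (by linarith)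
            nlinarith
          exact (Real.log_le_log_iff (by linarith) (by linarith)).mp h8)
        have h2 : (M : ℝ) ≤ D * s.card + c := by exact_mod_cast hcard
        have h3 : (s.card : ℝ) ≤ count H {P | P ∈ X ∧ ∃ F ∈ T, eval P.rep F ≠ 0} L T' := by
          exact_mod_cast h1
        have : (D : ℝ) * s.card ≤
            D * count H {P | P ∈ X ∧ ∃ F ∈ T, eval P.rep F ≠ 0} L T' :=
          mul_le_mul_of_nonneg_left h3 hD'.le
        linarith)
    refine ⟨α, c', β, C', hα, ?_⟩
    filter_upwards [hlow, eventually_ge_atTop (1 : ℝ)] with T' h1 h2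
    exact ⟨h1, by simpa using hup T' h2⟩

end Run7.h385
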