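import Pool.Agent.Run7.h385.Defs
import Pool.Agent.Helper259.AbsHt
import Pool.Agent.N906.EQ.Hgt

set_option autoImplicit false

namespace Run7.h385

open MvPolynomial Filter Topology Module
open Pool.Agent.Helper259.AbsHt

variable {n : ℕ}

lemma ht_mk (x : Fin (n + 1) → Qbar) (h : x ≠ 0) :
    ht (Projectivization.mk Qbar x h) = absLogHeight x := by
  unfold ht
  obtain ⟨a, ha⟩ := Projectivization.exists_smul_eq_mk_rep Qbar x h
  rw [← ha]
  exact absLogHeight_smul x a.ne_zero

lemma ht_nonneg (P : PSpace n) : 0 ≤ ht P := absLogHeight_nonneg _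

lemma eval_smul {F : MvPolynomial (Fin (n + 1)) Qbar} {e : ℕ} (hF : F.IsHomogeneous e) (c : Qbar)
    (x : Fin (n + 1) → Qbar) : eval (c • x) F = c ^ e * eval x F := by
  simp only [MvPolynomial.eval_eq, Finset.mul_sum]
  refine Finset.sum_congr rfl fun d hd => ?_
  have hdeg : ∑ i ∈ d.support, d i = e := by
    have := hF (mem_support_iff.mp hd)
    rw [← this, Finsupp.weight_apply, Finsupp.sum]
    simp
  simp only [Pi.smul_apply, smul_eq_mul, mul_pow, Finset.prod_mul_distrib,
    Finset.prod_pow_eq_pow_sum, hdeg]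
  ring

lemma exists_rep (x : Fin (n + 1) → Qbar) (h : x ≠ 0) :
    ∃ a : Qbar, a ≠ 0 ∧ (Projectivization.mk Qbar x h).rep = a • x := by
  obtain ⟨a, ha⟩ := Projectivization.exists_smul_eq_mk_rep Qbar x h
  exact ⟨a, a.ne_zero, ha.symm⟩

lemma eval_mk_ne {F : MvPolynomial (Fin (n + 1)) Qbar} {e : ℕ} (hF : F.IsHomogeneous e)
    (x : Fin (n + 1) → Qbar) (h : x ≠ 0) :
    eval (Projectivization.mk Qbar x h).rep F = 0 ↔ eval x F = 0 := by
  obtain ⟨a, ha, hr⟩ := exists_rep x h
  rw [hr, eval_smul hF]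
  simp [ha]

lemma finrank_pos'' (L : IntermediateField ℚ Qbar) [FiniteDimensional ℚ L] :
    (0 : ℝ) < finrank ℚ L := by
  exact_mod_cast Module.finrank_pos (R := ℚ) (M := L)

instance instNF (L : IntermediateField ℚ Qbar) [FiniteDimensional ℚ L] : NumberField L where
  to_charZero := inferInstance
  to_finiteDimensional := inferInstance

/-- There are at most `C exp (c B)` points of height at most `B` over a number field. -/
theorem count_rat (L : IntermediateField ℚ Qbar) [FiniteDimensional ℚ L] (n : ℕ) :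
    ∃ C c : ℝ, 0 < C ∧ 0 < c ∧ ∀ B : ℝ, 0 ≤ B →
      {P : PSpace n | P ∈ ratPts L n ∧ ht P ≤ B}.Finite ∧
      ({P : PSpace n | P ∈ ratPts L n ∧ ht P ≤ B}.ncard : ℝ) ≤ C * Real.exp (c * B) := by
  obtain ⟨C, hC, h⟩ := Pool.Agent.N906.EQ.count_le L (n + 1)
  have hd := finrank_pos'' L
  refine ⟨C, (n + 1 : ℕ) * finrank ℚ L, hC, by positivity, fun B hB => ?_⟩
  obtain ⟨hfin, hcard⟩ := h (Real.exp B) (Real.one_le_exp hB)
  have hne : ∀ Q : Projectivization L (Fin (n + 1) → L),
      (fun i => (Q.rep i : Qbar)) ≠ 0 := by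
    intro Q hQ
    apply Q.rep_nonzero
    funext i
    have := congrFun hQ i
    simpa using this
  set g : Projectivization L (Fin (n + 1) → L) → PSpace n :=
    fun Q => Projectivization.mk Qbar (fun i => (Q.rep i : Qbar)) (hne Q) with hg
  have hsub : {P : PSpace n | P ∈ ratPts L n ∧ ht P ≤ B} ⊆
      g '' {Q | Height.mulHeight Q.rep ≤ Real.exp B ^ finrank ℚ L} := by
    rintro P ⟨⟨x, hx, h0, rfl⟩, hP⟩
    obtain ⟨y, rfl⟩ := lift_vec L x hx
    have hy0 : y ≠ 0 := by
      rintro rfl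
      exact h0 (by funext i; simp)
    refine ⟨Projectivization.mk L y hy0, ?_, ?_⟩
    · obtain ⟨a, ha⟩ := Projectivization.exists_smul_eq_mk_rep L y hy0
      rw [Set.mem_ofPred_eq, ← ha]
      have h1 : Height.mulHeight (a • y) = Height.mulHeight y :=
        Height.mulHeight_smul_eq_mulHeight y a.ne_zero
      rw [h1]
      rw [ht_mk, val_eq] at hP
      rw [div_le_iff₀ hd] at hP
      have h2 : Height.mulHeight y = Real.exp (Height.logHeight y) := by
        rw [Height.logHeight_eq_log_mulHeight, Real.exp_log (Height.mulHeight_pos y)]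
      rw [h2, ← Real.exp_nat_mul]
      apply Real.exp_le_exp.mpr
      rw [mul_comm]
      exact hP
    · obtain ⟨a, ha⟩ := Projectivization.exists_smul_eq_mk_rep L y hy0
      simp only [hg]
      rw [Projectivization.mk_eq_mk_iff']
      refine ⟨(a : L), ?_⟩
      funext i
      have := congrFun ha i
      rw [← this]
      simp [Units.smul_def]
  refine ⟨(hfin.image g).subset hsub, ?_⟩
  have h1 : {P : PSpace n | P ∈ ratPts L n ∧ ht P ≤ B}.ncard ≤
      {Q : Projectivization L (Fin (n + 1) → L) |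
        Height.mulHeight Q.rep ≤ Real.exp B ^ finrank ℚ L}.ncard :=
    (Set.ncard_le_ncard hsub (hfin.image g)).trans (Set.ncard_image_le hfin)
  calc _ ≤ (({Q : Projectivization L (Fin (n + 1) → L) |
        Height.mulHeight Q.rep ≤ Real.exp B ^ finrank ℚ L}.ncard : ℕ) : ℝ) := by exact_mod_cast h1
    _ ≤ C * Real.exp B ^ ((n + 1) * finrank ℚ L) := hcard
    _ = _ := by
        rw [← Real.exp_nat_mul]
        push_cast
        ring_nf

/-- a finite set of algebraic numbers lies in a number field which contains a given one -/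
lemma exists_field (K : IntermediateField ℚ Qbar) [FiniteDimensional ℚ K] (s : Set Qbar)
    (hs : s.Finite) : ∃ L : IntermediateField ℚ Qbar, K ≤ L ∧ FiniteDimensional ℚ L ∧
      ∀ y ∈ s, y ∈ L := by
  obtain ⟨M, hM, h⟩ := exists_nf s hs
  have : FiniteDimensional ℚ M := inferInstance
  refine ⟨K ⊔ M, le_sup_left, IntermediateField.finiteDimensional_sup K M, fun y hy =>
    le_sup_right (a := K) (h y hy)⟩

/-- heights under regular maps -/
lemma ht_regular {m : ℕ} {X : Set (PSpace n)} {φ : PSpace n → PSpace m} (h : IsRegularMap X φ) :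
    ∃ C : ℝ, 0 ≤ C ∧ ∀ P ∈ X, ht (φ P) ≤ C * (ht P + 1) := by
  obtain ⟨r, d, F, hF, h1, h2⟩ := h
  choose c hc using fun j => absLogHeight_eval (d j) (F j) (hF j)
  refine ⟨∑ j, (|c j| + d j), by positivity, fun P hP => ?_⟩
  obtain ⟨j, hj⟩ := h1 P hP
  rw [h2 P hP j hj, ht_mk]
  have h3 := hc j P.rep
  have h4 : |c j| + d j ≤ ∑ j, (|c j| + (d j : ℝ)) :=
    Finset.single_le_sum (f := fun j => |c j| + (d j : ℝ)) (fun _ _ => by positivity)
      (Finset.mem_univ j)
  have h5 : 0 ≤ ht P := ht_nonneg P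
  have h6 : absLogHeight P.rep = ht P := rfl
  rw [h6] at h3
  calc _ ≤ c j + d j * ht P := h3
    _ ≤ |c j| + d j * ht P := by linarith [le_abs_self (c j)]
    _ ≤ (|c j| + d j) * (ht P + 1) := by
        have : 0 ≤ |c j| * ht P := by positivity
        have : (0 : ℝ) ≤ d j := by positivity
        nlinarith
    _ ≤ _ := by
        apply mul_le_mul_of_nonneg_right h4
        linarith

/-- comparison of an ample height with the height of the ambient space -/
lemma ample_compare {X : Set (PSpace n)} {H : PSpace n → ℝ} (h : IsAmpleHeight X H) :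
    ∃ C : ℝ, 1 ≤ C ∧ ∀ P ∈ X, 1 ≤ H P ∧ Real.log (H P) ≤ C * (ht P + 1) ∧
      ht P ≤ C * (Real.log (H P) + 1) := by
  obtain ⟨h1, k, m, ι, κ, C, hk, hι, hκ, hinv, hC⟩ := h
  obtain ⟨C₁, hC₁, h3⟩ := ht_regular hι
  obtain ⟨C₂, hC₂, h4⟩ := ht_regular hκ
  have hk1 : (1 : ℝ) ≤ k := by exact_mod_cast hk
  obtain ⟨P₀, hP₀⟩ | hX : X.Nonempty ∨ X = ∅ := (Set.eq_empty_or_nonempty X).symm
  swap
  · exact ⟨1, le_refl _, fun P hP => by rw [hX] at hP; exact absurd hP (Set.notMem_empty P)⟩
  have hC0 : 0 ≤ C := (abs_nonneg _).trans (hC P₀ hP₀)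
  refine ⟨1 + C₁ + C + C₂ * (k + C + 1), ?_, fun P hP => ⟨h1 P hP, ?_, ?_⟩⟩
  · have : 0 ≤ C₂ * (k + C + 1) := by positivity
    linarith
  · have h5 := hC P hP
    have h6 := h3 P hP
    have h7 := ht_nonneg P
    have h8 : 0 ≤ Real.log (H P) := Real.log_nonneg (h1 P hP)
    have h9 := (abs_le.mp h5).2
    have h10 : Real.log (H P) ≤ k * Real.log (H P) := by nlinarith
    have h11 : 0 ≤ C₂ * (k + C + 1) * (ht P + 1) := by positivity
    nlinarith
  · have h5 := hC P hP
    have h8 : 0 ≤ Real.log (H P) := Real.log_nonneg (h1 P hP)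
    have h6 := h4 (ι P) ⟨P, hP, rfl⟩
    rw [hinv P hP] at h6
    have h9 := (abs_le.mp h5).1
    have h10 : ht (ι P) ≤ k * Real.log (H P) + C := by linarith
    have h11 : ht (ι P) + 1 ≤ (k + C + 1) * (Real.log (H P) + 1) := by nlinarith
    have h12 : 0 ≤ (1 + C₁ + C) * (Real.log (H P) + 1) := by positivity
    calc ht P ≤ C₂ * (ht (ι P) + 1) := h6
      _ ≤ C₂ * ((k + C + 1) * (Real.log (H P) + 1)) := mul_le_mul_of_nonneg_left h11 hC₂
      _ ≤ _ := by linarith

end Run7.h385
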