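import Mathlib
import Pool.Agent.Helper259.HtDef

set_option autoImplicit false

/-!
# Arithmetic order of projective varieties: definitions

`Qbar` is the algebraic closure `AlgebraicClosure ℚ` of `ℚ`; number fields are intermediate fields
of `Qbar / ℚ` of finite degree over `ℚ`, and projective varieties are given by their sets of
`Qbar`-points, as in classical algebraic geometry.
-/

namespace Run7.h385

open MvPolynomial Filter Topology
open Pool.Agent.Helper259.AbsHt (Qbar absLogHeight)

/-- The points of projective `n`-space with coordinates in `Qbar`. -/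
abbrev PSpace (n : ℕ) : Type := Projectivization Qbar (Fin (n + 1) → Qbar)

/-- The absolute logarithmic Weil height of a point of projective space. -/
noncomputable def ht {n : ℕ} (P : PSpace n) : ℝ := absLogHeight P.rep

/-- `F` is a form (a homogeneous polynomial) in `n + 1` variables with coefficients in the
field `K`. -/
def IsFormOver (K : IntermediateField ℚ Qbar) {n : ℕ} (F : MvPolynomial (Fin (n + 1)) Qbar) : Prop :=
  (∃ e : ℕ, F.IsHomogeneous e) ∧ ∀ s, F.coeff s ∈ K

/-- `X` is (the set of the `Qbar`-points of) a geometrically irreducible closed subvariety of `ℙⁿ`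
defined over `K`: it is the set of the common zeros of a set of forms with coefficients in `K`, it
is not empty, and if a product of two forms over `Qbar` vanishes on `X`, then one of the two does. -/
structure IsVarietyOver (K : IntermediateField ℚ Qbar) {n : ℕ} (X : Set (PSpace n)) : Prop where
  /-- `X` is closed and defined over `K` -/
  closed : ∃ T : Set (MvPolynomial (Fin (n + 1)) Qbar), (∀ F ∈ T, IsFormOver K F) ∧
    X = {P : PSpace n | ∀ F ∈ T, eval P.rep F = 0}
  /-- `X` is not empty -/
  nonempty : X.Nonempty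
  /-- `X` is irreducible over `Qbar` -/
  irreducible : ∀ F G : MvPolynomial (Fin (n + 1)) Qbar, (∃ e : ℕ, F.IsHomogeneous e) →
    (∃ e : ℕ, G.IsHomogeneous e) → (∀ P ∈ X, eval P.rep (F * G) = 0) →
    (∀ P ∈ X, eval P.rep F = 0) ∨ (∀ P ∈ X, eval P.rep G = 0)

/-- `U` is a Zariski open subset, defined over `K`, of `X`: it consists of the points of `X` at
which some form of a given set of forms with coefficients in `K` does not vanish. -/
def IsOpenOver (K : IntermediateField ℚ Qbar) {n : ℕ} (X U : Set (PSpace n)) : Prop :=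
  ∃ T : Set (MvPolynomial (Fin (n + 1)) Qbar), (∀ F ∈ T, IsFormOver K F) ∧
    U = {P : PSpace n | P ∈ X ∧ ∃ F ∈ T, eval P.rep F ≠ 0}

/-- `φ` is a regular map (a morphism) on `X` with values in `ℙᵐ`: there are finitely many
`(m + 1)`-tuples of forms of equal degree over `Qbar`, such that at each point of `X` one of the
tuples does not vanish, and such that `φ` is given on `X` by each of the tuples wherever this tuple
does not vanish. -/
def IsRegularMap {n m : ℕ} (X : Set (PSpace n)) (φ : PSpace n → PSpace m) : Prop :=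
  ∃ (r : ℕ) (d : Fin r → ℕ) (F : Fin r → Fin (m + 1) → MvPolynomial (Fin (n + 1)) Qbar),
    (∀ j i, (F j i).IsHomogeneous (d j)) ∧
    (∀ P ∈ X, ∃ j, (fun i => eval P.rep (F j i)) ≠ 0) ∧
    ∀ P ∈ X, ∀ j, ∀ h : (fun i => eval P.rep (F j i)) ≠ 0, φ P = Projectivization.mk Qbar _ h

/-- `H` is a (multiplicative) Weil height on `X` attached to an ample divisor `D`: it has values
`≥ 1` on `X`, and for some integer `k ≥ 1` (with `k D` very ample) there is a closed immersion `ι`
of `X` in a projective space (a regular map with a regular inverse `κ` on the image, attached to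
the divisor `k D`) such that `k log H` differs from the absolute logarithmic height of `ι` on `X` by
a bounded function. -/
def IsAmpleHeight {n : ℕ} (X : Set (PSpace n)) (H : PSpace n → ℝ) : Prop :=
  (∀ P ∈ X, 1 ≤ H P) ∧
  ∃ (k m : ℕ) (ι : PSpace n → PSpace m) (κ : PSpace m → PSpace n) (C : ℝ),
    0 < k ∧ IsRegularMap X ι ∧ IsRegularMap (ι '' X) κ ∧ (∀ P ∈ X, κ (ι P) = P) ∧
    ∀ P ∈ X, |k * Real.log (H P) - ht (ι P)| ≤ C

/-- The `L`-rational points of `ℙⁿ`. -/
def ratPts (L : IntermediateField ℚ Qbar) (n : ℕ) : Set (PSpace n) :=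
  {P | ∃ x : Fin (n + 1) → Qbar, (∀ i, x i ∈ L) ∧ ∃ h : x ≠ 0, P = Projectivization.mk Qbar x h}

/-- The number `#{P ∈ U(L) : H(P) ≤ T}`. -/
noncomputable def count {n : ℕ} (H : PSpace n → ℝ) (U : Set (PSpace n))
    (L : IntermediateField ℚ Qbar) (T : ℝ) : ℕ :=
  Set.ncard {P : PSpace n | P ∈ U ∧ P ∈ ratPts L n ∧ H P ≤ T}

/-- The variety `X` over `K`, with the height `H`, has arithmetic order `a`. -/
def HasOrder (K : IntermediateField ℚ Qbar) {n : ℕ} (X : Set (PSpace n)) (H : PSpace n → ℝ)
    (a : ℕ) : Prop :=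
  ∃ m : ℕ, 2 ≤ m ∧ ∃ U₀ : Set (PSpace n), IsOpenOver K X U₀ ∧ U₀.Nonempty ∧
    ∀ U : Set (PSpace n), IsOpenOver K X U → U ⊆ U₀ → U.Nonempty →
    ∃ L₀ : IntermediateField ℚ Qbar, K ≤ L₀ ∧ FiniteDimensional ℚ L₀ ∧
    ∀ L : IntermediateField ℚ Qbar, L₀ ≤ L → FiniteDimensional ℚ L →
      Tendsto (fun T : ℝ => Real.log^[m] (count H U L T) / Real.log^[m + a] T) atTop (𝓝 1)

/-- The variety `X` over `K`, with the height `H`, has arithmetic order `∞`. -/
def HasOrderTop (K : IntermediateField ℚ Qbar) {n : ℕ} (X : Set (PSpace n)) (H : PSpace n → ℝ) :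
    Prop :=
  ∃ m : ℕ, 2 ≤ m ∧ ∃ U₀ : Set (PSpace n), IsOpenOver K X U₀ ∧ U₀.Nonempty ∧
    ∀ U : Set (PSpace n), IsOpenOver K X U → U ⊆ U₀ → U.Nonempty →
    ∃ L₀ : IntermediateField ℚ Qbar, K ≤ L₀ ∧ FiniteDimensional ℚ L₀ ∧
    ∀ L : IntermediateField ℚ Qbar, L₀ ≤ L → FiniteDimensional ℚ L → ∀ a : ℕ,
      Tendsto (fun T : ℝ => Real.log^[m] (count H U L T) / Real.log^[m + a] T) atTop (𝓝 0)

/-- The set `S` of points is Zariski dense in `X`: every form over `Qbar` which vanishes on `S`
vanishes on `X`. -/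
def ZariskiDenseIn {n : ℕ} (S X : Set (PSpace n)) : Prop :=
  ∀ F : MvPolynomial (Fin (n + 1)) Qbar, (∃ e : ℕ, F.IsHomogeneous e) →
    (∀ P ∈ S, eval P.rep F = 0) → ∀ P ∈ X, eval P.rep F = 0

/-- The polynomials `p 0, …, p n` in one variable over `Qbar` define a nonconstant rational map
`t ↦ (p 0 (t) : … : p n (t))` from the projective line to `X`; its image is a rational curve. -/
def IsRationalCurve {n : ℕ} (X : Set (PSpace n)) (p : Fin (n + 1) → Polynomial Qbar) : Prop :=
  (∀ (t : Qbar) (h : (fun i => (p i).eval t) ≠ 0), Projectivization.mk Qbar _ h ∈ X) ∧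
  ∃ (s t : Qbar) (hs : (fun i => (p i).eval s) ≠ 0) (ht : (fun i => (p i).eval t) ≠ 0),
    Projectivization.mk Qbar _ hs ≠ Projectivization.mk Qbar _ ht

/-- The union of the rational curves in `X`. -/
def rationalLocus {n : ℕ} (X : Set (PSpace n)) : Set (PSpace n) :=
  {P | ∃ p : Fin (n + 1) → Polynomial Qbar, IsRationalCurve X p ∧
    ∃ (t : Qbar) (h : (fun i => (p i).eval t) ≠ 0), P = Projectivization.mk Qbar _ h}

end Run7.h385
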