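import Mathlib
import Pool.Agent.Run7.h385.Defs

set_option autoImplicit false

/-!
# Group varieties and the special locus of a projective variety: definitions
-/

namespace Run7.h385

open MvPolynomial
open Pool.Agent.Helper259.AbsHt (Qbar)

/-- The polynomial `F` in two groups of `a + 1` and `b + 1` variables is bihomogeneous of bidegree
`(d, e)`. -/
def IsBihomogeneous {k : Type} [Field k] {a b : ℕ}
    (F : MvPolynomial (Fin (a + 1) ⊕ Fin (b + 1)) k) (d e : ℕ) : Prop :=
  ∀ s, F.coeff s ≠ 0 → ∑ i, s (Sum.inl i) = d ∧ ∑ j, s (Sum.inr j) = e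

/-- `μ` is a regular map (a morphism) on `A × B` with values in `ℙᶜ`: there are finitely many
`(c + 1)`-tuples of bihomogeneous forms over `Qbar`, each tuple of one bidegree, such that at each
point of `A × B` one of the tuples does not vanish, and such that `μ` is given on `A × B` by each
of the tuples wherever this tuple does not vanish. -/
def IsRegularMapTwo {a b c : ℕ} (A : Set (PSpace a)) (B : Set (PSpace b))
    (μ : PSpace a → PSpace b → PSpace c) : Prop :=
  ∃ (r : ℕ) (d e : Fin r → ℕ)
    (F : Fin r → Fin (c + 1) → MvPolynomial (Fin (a + 1) ⊕ Fin (b + 1)) Qbar),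
    (∀ j i, IsBihomogeneous (F j i) (d j) (e j)) ∧
    (∀ P ∈ A, ∀ Q ∈ B, ∃ j, (fun i => eval (Sum.elim P.rep Q.rep) (F j i)) ≠ 0) ∧
    ∀ P ∈ A, ∀ Q ∈ B, ∀ j, ∀ h : (fun i => eval (Sum.elim P.rep Q.rep) (F j i)) ≠ 0,
      μ P Q = Projectivization.mk Qbar _ h

/-- `G` is (the set of the points of) a group variety over `Qbar`, that is, of a connected
algebraic group: a nonempty Zariski open subset of an irreducible closed subvariety `Z` of `ℙᴺ`,
with a group law whose multiplication `mul` and inversion `inv` are regular maps; `one` is the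
neutral element. -/
structure IsGroupVariety {N : ℕ} (G : Set (PSpace N)) (mul : PSpace N → PSpace N → PSpace N)
    (inv : PSpace N → PSpace N) (one : PSpace N) : Prop where
  /-- `G` is an irreducible quasi-projective variety -/
  quasiprojective : ∃ Z : Set (PSpace N), IsVarietyOver ⊤ Z ∧ IsOpenOver ⊤ Z G
  one_mem : one ∈ G
  mul_mem : ∀ P ∈ G, ∀ Q ∈ G, mul P Q ∈ G
  inv_mem : ∀ P ∈ G, inv P ∈ G
  mul_assoc : ∀ P ∈ G, ∀ Q ∈ G, ∀ R ∈ G, mul (mul P Q) R = mul P (mul Q R)
  one_mul : ∀ P ∈ G, mul one P = P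
  inv_mul : ∀ P ∈ G, mul (inv P) P = one
  regular_mul : IsRegularMapTwo G G mul
  regular_inv : IsRegularMap G inv

/-- The forms `f 0, …, f n` of equal degree define a nonconstant rational map
`P ↦ (f 0 (P) : … : f n (P))` from `G` to `X`. -/
structure IsNonconstRationalMap {N n : ℕ} (G : Set (PSpace N)) (X : Set (PSpace n))
    (f : Fin (n + 1) → MvPolynomial (Fin (N + 1)) Qbar) : Prop where
  homogeneous : ∃ d : ℕ, ∀ i, (f i).IsHomogeneous d
  maps : ∀ P ∈ G, ∀ h : (fun i => eval P.rep (f i)) ≠ 0, Projectivization.mk Qbar _ h ∈ X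
  nonconstant : ∃ P ∈ G, ∃ Q ∈ G, ∃ (hP : (fun i => eval P.rep (f i)) ≠ 0)
    (hQ : (fun i => eval Q.rep (f i)) ≠ 0),
    Projectivization.mk Qbar _ hP ≠ Projectivization.mk Qbar _ hQ

/-- The special locus of `X` in the sense of Lang (before Zariski closure): the union of the images
of all nonconstant rational maps from group varieties over `Qbar` to `X`. -/
def groupLocus {n : ℕ} (X : Set (PSpace n)) : Set (PSpace n) :=
  {x | ∃ (N : ℕ) (G : Set (PSpace N)) (mul : PSpace N → PSpace N → PSpace N)
    (inv : PSpace N → PSpace N) (one : PSpace N)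
    (f : Fin (n + 1) → MvPolynomial (Fin (N + 1)) Qbar),
    IsGroupVariety G mul inv one ∧ IsNonconstRationalMap G X f ∧
    ∃ P ∈ G, ∃ h : (fun i => eval P.rep (f i)) ≠ 0, x = Projectivization.mk Qbar _ h}

end Run7.h385
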