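import Mathlib

set_option autoImplicit false

/-!
# Powers of an element close to the identity in a `p`-adic group
-/

namespace Run7.h385

lemma norm_nat_eq_one {k : Type*} [NormedField k] [IsUltrametricDist k] {p : ℕ} (hp : p.Prime)
    (hp1 : ‖(p : k)‖ < 1) {n : ℕ} (hn : ¬ p ∣ n) : ‖(n : k)‖ = 1 := by
  have h1 : ‖(n : k)‖ ≤ 1 := IsUltrametricDist.norm_natCast_le_one k n
  by_contra hne
  have h2 : ‖(n : k)‖ < 1 := lt_of_le_of_ne h1 hne
  have hco : IsCoprime (p : ℤ) (n : ℤ) :=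
    Nat.isCoprime_iff_coprime.mpr ((Nat.Prime.coprime_iff_not_dvd hp).mpr hn)
  obtain ⟨u, v, huv⟩ := hco
  have h3 : (u : k) * p + v * n = 1 := by exact_mod_cast congrArg (Int.cast : ℤ → k) huv
  have h4 : ‖(u : k) * p + v * n‖ ≤ max ‖(u : k) * p‖ ‖(v : k) * n‖ :=
    IsUltrametricDist.norm_add_le_max _ _
  rw [h3, norm_one, norm_mul, norm_mul] at h4
  have h5 : ‖(u : k)‖ ≤ 1 := IsUltrametricDist.norm_intCast_le_one k u
  have h6 : ‖(v : k)‖ ≤ 1 := IsUltrametricDist.norm_intCast_le_one k v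
  have h7 : ‖(u : k)‖ * ‖(p : k)‖ < 1 := by
    nlinarith [norm_nonneg (u : k), norm_nonneg (p : k)]
  have h8 : ‖(v : k)‖ * ‖(n : k)‖ < 1 := by
    nlinarith [norm_nonneg (v : k), norm_nonneg (n : k)]
  exact absurd h4 (not_le.mpr (max_lt h7 h8))

variable {Γ k E : Type*} [Group Γ] [NormedField k] [IsUltrametricDist k] [CharZero k]
  [NormedAddCommGroup E] [NormedSpace k E] [IsUltrametricDist E]

/-- `B` is a ball around the identity, `z` the coordinates -/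
theorem core_pow (p : ℕ) (hp : p.Prime) (hp1 : ‖(p : k)‖ < 1) (z : Γ → E) (W : Γ → Prop)
    (hW : W 1) (hz : z 1 = 0) (C ε : ℝ) (hC : 0 ≤ C) (hε : 0 < ε)
    (hmul : ∀ Q R, W Q → W R → ‖z Q‖ < ε → ‖z R‖ < ε →
      W (Q * R) ∧ ‖z (Q * R) - z Q - z R‖ ≤ C * ‖z Q‖ * ‖z R‖) :
    ∃ δ : ℝ, 0 < δ ∧ δ ≤ ε ∧ ∀ Q, W Q → ‖z Q‖ < δ → ∀ n : ℕ, W (Q ^ n) ∧
      ‖z (Q ^ n)‖ ≤ ‖(n : k)‖ * ‖z Q‖ := by
  have hp0 : 0 < ‖(p : k)‖ := norm_pos_iff.mpr (by exact_mod_cast hp.ne_zero)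
  set δ := min ε (‖(p : k)‖ / (C + 1)) with hδ
  have hδε : δ ≤ ε := min_le_left _ _
  have hδC : ∀ t, 0 ≤ t → t < δ → C * t ≤ ‖(p : k)‖ := by
    intro t ht0 ht
    have h1 : t ≤ ‖(p : k)‖ / (C + 1) := ht.le.trans (min_le_right _ _)
    have h2 : (C + 1) * t ≤ ‖(p : k)‖ := by
      rw [le_div_iff₀ (by positivity)] at h1
      linarith
    linarith
  -- the powers stay in the ball
  have ha : ∀ Q, W Q → ‖z Q‖ < δ → ∀ n : ℕ, W (Q ^ n) ∧ ‖z (Q ^ n)‖ ≤ ‖z Q‖ := by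
    intro Q hQ hQδ n
    induction n with
    | zero => simpa [hz] using hW
    | succ n ih =>
      obtain ⟨h1, h2⟩ := ih
      obtain ⟨h3, h4⟩ := hmul (Q ^ n) Q h1 hQ ((h2.trans_lt hQδ).trans_le hδε)
        (hQδ.trans_le hδε)
      rw [pow_succ]
      refine ⟨h3, ?_⟩
      have e : z (Q ^ n * Q) = (z (Q ^ n * Q) - z (Q ^ n) - z Q) + (z (Q ^ n) + z Q) := by abel
      rw [e]
      refine (IsUltrametricDist.norm_add_le_max _ _).trans (max_le ?_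
        ((IsUltrametricDist.norm_add_le_max _ _).trans (max_le h2 (le_refl _))))
      have h5 := hδC _ (norm_nonneg (z (Q ^ n))) (h2.trans_lt hQδ)
      calc _ ≤ C * ‖z (Q ^ n)‖ * ‖z Q‖ := h4
        _ ≤ 1 * ‖z Q‖ := mul_le_mul_of_nonneg_right (h5.trans hp1.le) (norm_nonneg _)
        _ = _ := one_mul _
  have hb : ∀ Q, W Q → ‖z Q‖ < δ → ∀ n : ℕ, ‖z (Q ^ n) - (n : k) • z Q‖ ≤ C * ‖z Q‖ * ‖z Q‖ := by
    intro Q hQ hQδ n
    induction n with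
    | zero =>
      simp only [pow_zero, hz, Nat.cast_zero, zero_smul, sub_zero, norm_zero]
      positivity
    | succ n ih =>
      obtain ⟨h1, h2⟩ := ha Q hQ hQδ n
      obtain ⟨h3, h4⟩ := hmul (Q ^ n) Q h1 hQ ((h2.trans_lt hQδ).trans_le hδε)
        (hQδ.trans_le hδε)
      have e : z (Q ^ (n + 1)) - ((n + 1 : ℕ) : k) • z Q = (z (Q ^ n * Q) - z (Q ^ n) - z Q) +
          (z (Q ^ n) - (n : k) • z Q) := by
        rw [pow_succ, Nat.cast_succ, add_smul, one_smul]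
        abel
      rw [e]
      refine (IsUltrametricDist.norm_add_le_max _ _).trans (max_le (h4.trans ?_) ih)
      gcongr
  have hc : ∀ Q, W Q → ‖z Q‖ < δ → ‖z (Q ^ p)‖ ≤ ‖(p : k)‖ * ‖z Q‖ := by
    intro Q hQ hQδ
    have e : z (Q ^ p) = (z (Q ^ p) - (p : k) • z Q) + (p : k) • z Q := by abel
    rw [e]
    refine (IsUltrametricDist.norm_add_le_max _ _).trans (max_le ((hb Q hQ hQδ p).trans ?_) ?_)
    · exact mul_le_mul_of_nonneg_right (hδC _ (norm_nonneg _) hQδ) (norm_nonneg _)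
    · rw [norm_smul]
  refine ⟨δ, by positivity, hδε, fun Q hQ hQδ n => ?_⟩
  induction n using Nat.strong_induction_on generalizing Q with
  | _ n ih =>
    refine ⟨(ha Q hQ hQδ n).1, ?_⟩
    by_cases hn : p ∣ n
    · rcases Nat.eq_zero_or_pos n with rfl | hn0
      · simp [hz]
      obtain ⟨m, rfl⟩ := hn
      have hm : 0 < m := Nat.pos_of_mul_pos_left hn0
      have hmlt : m < p * m := by
        have := hp.two_le
        nlinarith
      obtain ⟨h1, h2⟩ := ih m hmlt Q hQ hQδ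
      have h3 : ‖z (Q ^ m)‖ < δ := by
        refine lt_of_le_of_lt h2 (lt_of_le_of_lt ?_ hQδ)
        have := IsUltrametricDist.norm_natCast_le_one k m
        nlinarith [norm_nonneg (z Q)]
      have h4 := hc (Q ^ m) h1 h3
      rw [← pow_mul, mul_comm m p] at h4
      rw [Nat.cast_mul, norm_mul]
      calc _ ≤ ‖(p : k)‖ * ‖z (Q ^ m)‖ := h4
        _ ≤ ‖(p : k)‖ * (‖(m : k)‖ * ‖z Q‖) := mul_le_mul_of_nonneg_left h2 hp0.le
        _ = _ := by ring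
    · rw [norm_nat_eq_one hp hp1 hn, one_mul]
      exact (ha Q hQ hQδ n).2

/-- the values of a function on the powers -/
theorem core_inj (p : ℕ) (hp : p.Prime) (hp1 : ‖(p : k)‖ < 1) (z : Γ → E) (W : Γ → Prop)
    (hW : W 1) (hz : z 1 = 0) (C ε : ℝ) (hC : 0 ≤ C) (hε : 0 < ε)
    (hmul : ∀ Q R, W Q → W R → ‖z Q‖ < ε → ‖z R‖ < ε →
      W (Q * R) ∧ ‖z (Q * R) - z Q - z R‖ ≤ C * ‖z Q‖ * ‖z R‖)
    (φ : Γ → k) (x : Γ)
    (hφ : ∀ S Q R, W S → W Q → W R → ‖z S‖ < ε → ‖z Q‖ < ε → ‖z R‖ < ε →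
      ‖φ (x * S * Q * R) - φ (x * S * Q) - φ (x * S * R) + φ (x * S)‖ ≤ C * ‖z Q‖ * ‖z R‖) :
    ∃ δ D : ℝ, 0 < δ ∧ 0 ≤ D ∧ ∀ Q, W Q → ‖z Q‖ < δ →
      (∀ n : ℕ, W (Q ^ n) ∧ ‖z (Q ^ n)‖ ≤ ‖z Q‖) ∧
      (D * ‖z Q‖ * ‖z Q‖ < ‖φ (x * Q) - φ x‖ → Function.Injective fun n : ℕ => φ (x * Q ^ n)) := by
  obtain ⟨δ, hδ, hδε, hpow⟩ := core_pow (k := k) p hp hp1 z W hW hz C ε hC hε hmul
  have hp0 : 0 < ‖(p : k)‖ := norm_pos_iff.mpr (by exact_mod_cast hp.ne_zero)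
  have hle : ∀ n : ℕ, ‖(n : k)‖ ≤ 1 := IsUltrametricDist.norm_natCast_le_one k
  have hpow' : ∀ Q, W Q → ‖z Q‖ < δ → ∀ n : ℕ, W (Q ^ n) ∧ ‖z (Q ^ n)‖ ≤ ‖z Q‖ := by
    intro Q hQ hQδ n
    obtain ⟨h1, h2⟩ := hpow Q hQ hQδ n
    refine ⟨h1, h2.trans ?_⟩
    have := hle n
    nlinarith [norm_nonneg (z Q)]
  -- additivity in the exponent
  have he : ∀ S Q, W S → W Q → ‖z S‖ < ε → ‖z Q‖ < δ → ∀ j : ℕ,
      ‖(φ (x * S * Q ^ j) - φ (x * S)) - (j : k) * (φ (x * S * Q) - φ (x * S))‖ ≤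
        C * ‖z Q‖ * ‖z Q‖ := by
    intro S Q hS hQ hSε hQδ j
    induction j with
    | zero =>
      simp only [pow_zero, mul_one, sub_self, Nat.cast_zero, zero_mul, norm_zero]
      positivity
    | succ j ih =>
      obtain ⟨h1, h2⟩ := hpow' Q hQ hQδ j
      have h3 := hφ S (Q ^ j) Q hS h1 hQ hSε ((h2.trans_lt hQδ).trans_le hδε)
        (hQδ.trans_le hδε)
      have e : (φ (x * S * Q ^ (j + 1)) - φ (x * S)) -
          ((j + 1 : ℕ) : k) * (φ (x * S * Q) - φ (x * S)) =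
          (φ (x * S * Q ^ j * Q) - φ (x * S * Q ^ j) - φ (x * S * Q) + φ (x * S)) +
          ((φ (x * S * Q ^ j) - φ (x * S)) - (j : k) * (φ (x * S * Q) - φ (x * S))) := by
        rw [pow_succ, ← mul_assoc]
        push_cast
        ring
      rw [e]
      refine (IsUltrametricDist.norm_add_le_max _ _).trans (max_le (h3.trans ?_) ih)
      gcongr
  have hkey : ∀ l : ℕ, 0 < l → ∀ S Q, W S → W Q → ‖z S‖ < ε → ‖z Q‖ < δ →
      ‖(φ (x * S * Q ^ l) - φ (x * S)) - (l : k) * (φ (x * S * Q) - φ (x * S))‖ ≤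
        C / ‖(p : k)‖ * ‖(l : k)‖ * (‖z Q‖ * ‖z Q‖) := by
    intro l
    induction l using Nat.strong_induction_on with
    | _ l ih =>
      intro hl S Q hS hQ hSε hQδ
      by_cases hd : p ∣ l
      · obtain ⟨m, rfl⟩ := hd
        have hm : 0 < m := Nat.pos_of_mul_pos_left hl
        have hmlt : m < p * m := by
          have := hp.two_le
          nlinarith
        obtain ⟨h1, h2⟩ := hpow Q hQ hQδ p
        have h3 : ‖z (Q ^ p)‖ < δ := ((hpow' Q hQ hQδ p).2).trans_lt hQδ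
        have h4 := ih m hmlt hm S (Q ^ p) hS h1 hSε h3
        have h5 := he S Q hS hQ hSε hQδ p
        have e : (φ (x * S * Q ^ (p * m)) - φ (x * S)) -
            ((p * m : ℕ) : k) * (φ (x * S * Q) - φ (x * S)) =
            ((φ (x * S * (Q ^ p) ^ m) - φ (x * S)) -
              (m : k) * (φ (x * S * Q ^ p) - φ (x * S))) +
            (m : k) * ((φ (x * S * Q ^ p) - φ (x * S)) -
              (p : k) * (φ (x * S * Q) - φ (x * S))) := by
          rw [pow_mul]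
          push_cast
          ring
        rw [e]
        refine (IsUltrametricDist.norm_add_le_max _ _).trans (max_le (h4.trans ?_) ?_)
        · rw [Nat.cast_mul, norm_mul]
          have h6 : ‖z (Q ^ p)‖ * ‖z (Q ^ p)‖ ≤ ‖(p : k)‖ * (‖z Q‖ * ‖z Q‖) := by
            calc _ ≤ (‖(p : k)‖ * ‖z Q‖) * ‖z Q‖ :=
                  mul_le_mul h2 (hpow' Q hQ hQδ p).2 (norm_nonneg _) (by positivity)
              _ = _ := by ring
          calc _ ≤ C / ‖(p : k)‖ * ‖(m : k)‖ * (‖(p : k)‖ * (‖z Q‖ * ‖z Q‖)) := by gcongr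
            _ = _ := by ring
        · rw [norm_mul, Nat.cast_mul, norm_mul]
          calc _ ≤ ‖(m : k)‖ * (C * ‖z Q‖ * ‖z Q‖) := by gcongr
            _ = _ := by field_simp
      · rw [norm_nat_eq_one hp hp1 hd, mul_one]
        refine (he S Q hS hQ hSε hQδ l).trans ?_
        have h6 : C ≤ C / ‖(p : k)‖ := by
          rw [le_div_iff₀ hp0]
          nlinarith
        calc _ = C * (‖z Q‖ * ‖z Q‖) := by ring
          _ ≤ _ := by gcongr
  refine ⟨δ, C / ‖(p : k)‖ + C, hδ, by positivity, fun Q hQ hQδ => ⟨hpow' Q hQ hQδ, fun hlt => ?_⟩⟩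
  have main : ∀ m l : ℕ, 0 < l → φ (x * Q ^ (m + l)) ≠ φ (x * Q ^ m) := by
    intro m l hl heq
    obtain ⟨h1, h2⟩ := hpow' Q hQ hQδ m
    have hmε : ‖z (Q ^ m)‖ < ε := (h2.trans_lt hQδ).trans_le hδε
    have h3 := hkey l hl (Q ^ m) Q h1 hQ hmε hQδ
    have h4 := hφ 1 (Q ^ m) Q hW h1 hQ (by rw [hz, norm_zero]; exact hε) hmε
      (hQδ.trans_le hδε)
    simp only [mul_one] at h4
    rw [mul_assoc x (Q ^ m) (Q ^ l), ← pow_add, heq, sub_self, zero_sub, norm_neg, norm_mul] at h3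
    have hl0 : 0 < ‖(l : k)‖ := norm_pos_iff.mpr (by exact_mod_cast hl.ne')
    have h5 : ‖φ (x * Q ^ m * Q) - φ (x * Q ^ m)‖ ≤ C / ‖(p : k)‖ * (‖z Q‖ * ‖z Q‖) := by
      have : ‖(l : k)‖ * ‖φ (x * Q ^ m * Q) - φ (x * Q ^ m)‖ ≤
          ‖(l : k)‖ * (C / ‖(p : k)‖ * (‖z Q‖ * ‖z Q‖)) := by
        calc _ ≤ _ := h3
          _ = _ := by ring
      exact le_of_mul_le_mul_left this hl0
    have h6 : ‖φ (x * Q ^ m * Q) - φ (x * Q ^ m) - φ (x * Q) + φ x‖ ≤ C * (‖z Q‖ * ‖z Q‖) := by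
      refine h4.trans ?_
      calc _ ≤ C * ‖z Q‖ * ‖z Q‖ := by gcongr
        _ = _ := by ring
    have e : φ (x * Q) - φ x = (φ (x * Q ^ m * Q) - φ (x * Q ^ m)) -
        (φ (x * Q ^ m * Q) - φ (x * Q ^ m) - φ (x * Q) + φ x) := by ring
    rw [e] at hlt
    have h7 := norm_sub_le (φ (x * Q ^ m * Q) - φ (x * Q ^ m))
        (φ (x * Q ^ m * Q) - φ (x * Q ^ m) - φ (x * Q) + φ x)
    have h8 : (C / ‖(p : k)‖ + C) * ‖z Q‖ * ‖z Q‖ =
      C / ‖(p : k)‖ * (‖z Q‖ * ‖z Q‖) + C * (‖z Q‖ * ‖z Q‖) := by ring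
    linarith
  intro m n hmn
  by_contra hne
  rcases lt_or_gt_of_ne hne with h | h
  · obtain ⟨l, rfl⟩ := Nat.exists_eq_add_of_lt h
    exact main m (l + 1) (by omega) (by simpa [add_assoc] using hmn.symm)
  · obtain ⟨l, rfl⟩ := Nat.exists_eq_add_of_lt h
    exact main n (l + 1) (by omega) (by simpa [add_assoc] using hmn)

end Run7.h385
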