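import Mathlib

set_option autoImplicit false

/-!
# One-parameter families of points on an affine variety, for a nonarchimedean absolute value
-/

namespace Run7.h385

open Polynomial TensorProduct Filter Topology




/-- a nonconstant function on an affine variety restricts to a nonconstant function on a curve -/
theorem exists_curve {k A : Type} [Field k] [IsAlgClosed k] [CommRing A] [IsDomain A]
    [Algebra k A] [Algebra.FiniteType k A] (φ : A) (hφ : ∀ c : k, φ ≠ algebraMap k A c) :
    ∃ (F : Type) (_ : Field F) (_ : Algebra k F) (_ : Algebra k[X] F)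
      (_ : IsScalarTower k k[X] F) (ψ : A →ₐ[k] F),
      ψ φ = algebraMap k[X] F X ∧ Function.Injective (algebraMap k[X] F) ∧
      Algebra.IsAlgebraic k[X] F := by
  have hinj : Function.Injective (aeval φ : k[X] →ₐ[k] A) := by
    rw [injective_iff_map_eq_zero]
    intro g hg
    by_contra hne
    have hs := IsAlgClosed.splits g
    have h2 := hs.eq_prod_roots
    rw [h2, map_mul] at hg
    rcases mul_eq_zero.mp hg with h | h
    · rw [aeval_C] at h
      have := (map_eq_zero_iff _ (FaithfulSMul.algebraMap_injective k A)).mp h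
      exact hne (leadingCoeff_eq_zero.mp this)
    · rw [map_multiset_prod, Multiset.prod_eq_zero_iff, Multiset.mem_map] at h
      obtain ⟨q, hq, hq0⟩ := h
      rw [Multiset.mem_map] at hq
      obtain ⟨c, -, rfl⟩ := hq
      rw [map_sub, aeval_X, aeval_C, sub_eq_zero] at hq0
      exact hφ c hq0
  let iA : Algebra k[X] A := (aeval φ : k[X] →ₐ[k] A).toRingHom.toAlgebra
  have iT : IsScalarTower k k[X] A := IsScalarTower.of_algebraMap_eq fun c => by
    change _ = aeval φ (C c)
    simp
  have hFT : Algebra.FiniteType k[X] A :=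
    Algebra.FiniteType.of_restrictScalars_finiteType k k[X] A
  have hinj' : Function.Injective (algebraMap k[X] A) := hinj
  let K := FractionRing k[X]
  let B := K ⊗[k[X]] A
  have : FaithfulSMul k[X] A := (faithfulSMul_iff_algebraMap_injective _ _).mpr hinj'
  have : FaithfulSMul k[X] (FractionRing A) := by
    rw [faithfulSMul_iff_algebraMap_injective, IsScalarTower.algebraMap_eq k[X] A (FractionRing A)]
    exact (IsFractionRing.injective A (FractionRing A)).comp hinj'
  let i1 : Algebra K (FractionRing A) := FractionRing.liftAlgebra k[X] (FractionRing A)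
  have i2 : IsScalarTower k[X] K (FractionRing A) := FractionRing.isScalarTower_liftAlgebra _ _
  have : Nontrivial B := by
    have f : B →ₐ[K] FractionRing A := Algebra.TensorProduct.lift (Algebra.ofId K _)
      (IsScalarTower.toAlgHom k[X] A (FractionRing A)) (fun _ _ => Commute.all _ _)
    exact f.toRingHom.domain_nontrivial
  obtain ⟨m, hm⟩ := Ideal.exists_maximal B
  let iF : Field (B ⧸ m) := Ideal.Quotient.field m
  have hfin : Module.Finite K (B ⧸ m) := finite_of_finite_type_of_isJacobsonRing K (B ⧸ m)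
  let ψ₀ : A →ₐ[k[X]] (B ⧸ m) := (Ideal.Quotient.mkₐ k[X] m).comp
    Algebra.TensorProduct.includeRight
  have iS : IsScalarTower k k[X] (B ⧸ m) := inferInstance
  have iK : IsScalarTower k[X] K (B ⧸ m) := inferInstance
  refine ⟨B ⧸ m, iF, inferInstance, inferInstance, iS, ψ₀.restrictScalars k, ?_, ?_, ?_⟩
  · have h1 : φ = algebraMap k[X] A X := by
      change _ = aeval φ X
      simp
    conv_lhs => rw [h1]
    exact ψ₀.commutes X
  · rw [IsScalarTower.algebraMap_eq k[X] K (B ⧸ m)]
    exact (RingHom.injective (algebraMap K (B ⧸ m))).comp (IsFractionRing.injective k[X] K)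
  · have h1 : Algebra.IsAlgebraic K (B ⧸ m) := Algebra.IsAlgebraic.of_finite _ _
    exact (IsFractionRing.comap_isAlgebraic_iff (A := k[X]) (K := K) (C := B ⧸ m)).mpr h1





lemma integral_mult {k F ι : Type} [Field k] [Field F] [Algebra k F] [Algebra k[X] F]
    [IsScalarTower k k[X] F] (a : ι → F) (r : k[X]) (hr : ∀ i, IsIntegral k[X] (r • a i))
    (P : MvPolynomial ι k) : ∃ N : ℕ, IsIntegral k[X] (r ^ N • MvPolynomial.aeval a P) := by
  induction P using MvPolynomial.induction_on with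
  | C c =>
    refine ⟨0, ?_⟩
    rw [MvPolynomial.aeval_C, pow_zero, one_smul, IsScalarTower.algebraMap_apply k k[X] F]
    exact isIntegral_algebraMap
  | add p q hp hq =>
    obtain ⟨N, hN⟩ := hp
    obtain ⟨M, hM⟩ := hq
    refine ⟨N + M, ?_⟩
    rw [map_add, smul_add]
    refine IsIntegral.add ?_ ?_
    · rw [add_comm N M, pow_add, mul_smul]
      exact hN.smul _
    · rw [pow_add, mul_smul]
      exact hM.smul _
  | mul_X p i hp =>
    obtain ⟨N, hN⟩ := hp
    refine ⟨N + 1, ?_⟩
    rw [map_mul, MvPolynomial.aeval_X, pow_succ]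
    have : (r ^ N * r) • (MvPolynomial.aeval a p * a i) =
        (r ^ N • MvPolynomial.aeval a p) * (r • a i) := by
      simp only [Algebra.smul_def, map_mul]
      ring
    rw [this]
    exact hN.mul (hr i)

lemma eval_eq_zero_of_mul {k F : Type} [Field k] [Field F] [Algebra k[X] F]
    (hinj : Function.Injective (algebraMap k[X] F)) (τ : k) (s : k[X]) (z : F)
    (hz : IsIntegral k[X] z) (h : algebraMap k[X] F (X - C τ) * z = algebraMap k[X] F s) :
    s.eval τ = 0 := by
  obtain ⟨p, hp, hpz⟩ := hz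
  have h1 : aeval (algebraMap k[X] F (X - C τ) * z) (p.scaleRoots (X - C τ)) = 0 :=
    scaleRoots_aeval_eq_zero hpz
  rw [h, aeval_algebraMap_apply, map_eq_zero_iff _ hinj] at h1
  have h2 := congrArg (evalRingHom τ) h1
  rw [map_zero, coe_aeval_eq_eval] at h2
  have h3 : evalRingHom τ (eval s (p.scaleRoots (X - C τ))) =
      eval (evalRingHom τ s) ((p.scaleRoots (X - C τ)).map (evalRingHom τ)) := by
    rw [eval_map, ← eval₂_hom]
  rw [h3, map_scaleRoots _ _ _ (by rw [hp.leadingCoeff]; simp)] at h2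
  have h4 : evalRingHom τ (X - C τ) = 0 := by simp
  have h5 : (p.map (evalRingHom τ)).Monic := hp.map _
  rw [h4, scaleRoots_zero] at h2
  rw [h5.leadingCoeff] at h2
  simp only [coe_evalRingHom, one_smul, eval_pow, eval_X] at h2
  by_contra h6
  exact pow_ne_zero _ h6 h2

/-- points of an affine curve above almost all values of a nonconstant function -/
theorem points_above {k F ι : Type} [Finite ι] [Field k] [IsAlgClosed k] [Field F] [Algebra k F]
    [Algebra k[X] F] [IsScalarTower k k[X] F] [Algebra.IsAlgebraic k[X] F]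
    (hinj : Function.Injective (algebraMap k[X] F)) (a : ι → F) (Φ : MvPolynomial ι k)
    (hΦ : MvPolynomial.aeval a Φ = algebraMap k[X] F X) :
    ∃ r : k[X], r ≠ 0 ∧ ∀ τ : k, r.eval τ ≠ 0 → ∃ b : ι → k,
      (∀ P : MvPolynomial ι k, MvPolynomial.aeval a P = 0 → MvPolynomial.eval b P = 0) ∧
      MvPolynomial.eval b Φ = τ := by
  classical
  have := Fintype.ofFinite ι
  obtain ⟨r, hr0, hr⟩ := Algebra.IsAlgebraic.exists_integral_multiples k[X]
    (Finset.univ.image a)
  refine ⟨r, hr0, fun τ hτ => ?_⟩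
  let B : Subalgebra k F := (MvPolynomial.aeval a : MvPolynomial ι k →ₐ[k] F).range
  have hmem : ∀ P : MvPolynomial ι k, MvPolynomial.aeval a P ∈ B := fun P => ⟨P, rfl⟩
  let f : MvPolynomial ι k →ₐ[k] B := (MvPolynomial.aeval a : MvPolynomial ι k →ₐ[k] F).rangeRestrict
  have hf : Function.Surjective f := AlgHom.rangeRestrict_surjective _
  have hfv : ∀ P, ((f P : B) : F) = MvPolynomial.aeval a P := fun P => rfl
  let t : B := f (Φ - MvPolynomial.C τ)
  have hJ : Ideal.span {t} ≠ ⊤ := by
    intro h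
    rw [Ideal.eq_top_iff_one, Ideal.mem_span_singleton] at h
    obtain ⟨c, hc⟩ := h
    obtain ⟨P, rfl⟩ := hf c
    obtain ⟨N, hN⟩ := integral_mult a r (fun i => hr _ (by simp)) P
    apply hτ
    have h1 := eval_eq_zero_of_mul hinj τ (r ^ N) _ hN (by
      have h2 : (1 : F) = MvPolynomial.aeval a (Φ - MvPolynomial.C τ) *
          MvPolynomial.aeval a P := congrArg (fun z : B => (z : F)) hc
      rw [map_sub, hΦ, MvPolynomial.aeval_C] at h2
      have h3 : algebraMap k[X] F (C τ) = algebraMap k F τ :=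
        (IsScalarTower.algebraMap_apply k k[X] F τ).symm
      rw [Algebra.smul_def, map_sub, mul_left_comm, h3, ← h2, mul_one])
    rw [eval_pow] at h1
    by_contra h6
    exact pow_ne_zero _ h6 h1
  obtain ⟨m, hm, hle⟩ := Ideal.exists_le_maximal _ hJ
  let iF : Field (B ⧸ m) := Ideal.Quotient.field m
  have hft : Algebra.FiniteType k B := Algebra.FiniteType.of_surjective f hf
  have hfin : Module.Finite k (B ⧸ m) := finite_of_finite_type_of_isJacobsonRing k (B ⧸ m)
  have hbij : Function.Bijective (algebraMap k (B ⧸ m)) :=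
    IsAlgClosed.algebraMap_bijective_of_isIntegral
  let e : k ≃ₐ[k] (B ⧸ m) := AlgEquiv.ofBijective (Algebra.ofId k _) hbij
  let χ : MvPolynomial ι k →ₐ[k] k :=
    (e.symm.toAlgHom.comp (Ideal.Quotient.mkₐ k m)).comp f
  have hχ : ∀ P, χ P = MvPolynomial.eval (fun i => χ (MvPolynomial.X i)) P := by
    intro P
    have h1 := DFunLike.congr_fun (MvPolynomial.aeval_unique χ) P
    rw [h1]
    rfl
  refine ⟨fun i => χ (MvPolynomial.X i), fun P hP => ?_, ?_⟩
  · rw [← hχ]
    have : f P = 0 := Subtype.ext hP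
    simp only [χ, AlgHom.comp_apply, this, map_zero]
  · rw [← hχ]
    have h1 : χ (Φ - MvPolynomial.C τ) = 0 := by
      have : Ideal.Quotient.mkₐ k m t = 0 := Ideal.Quotient.eq_zero_iff_mem.mpr
        (hle (Ideal.mem_span_singleton_self t))
      simp only [χ, AlgHom.comp_apply]
      simp only [t] at this
      rw [this, map_zero]
    rw [map_sub, sub_eq_zero] at h1
    rw [h1]
    exact χ.commutes τ





/-- an equation of least degree -/
lemma exists_sep {k F : Type} [Field k] [CharZero k] [Field F] [Algebra k[X] F]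
    [Algebra.IsAlgebraic k[X] F] (hinj : Function.Injective (algebraMap k[X] F)) (z : F) :
    ∃ f : k[X][X], f ≠ 0 ∧ aeval z f = 0 ∧ aeval z (derivative f) ≠ 0 := by
  classical
  obtain ⟨p, hp0, hp⟩ := Algebra.IsAlgebraic.isAlgebraic (R := k[X]) z
  have hex : ∃ d : ℕ, ∃ f : k[X][X], f ≠ 0 ∧ aeval z f = 0 ∧ f.natDegree = d :=
    ⟨_, p, hp0, hp, rfl⟩
  obtain ⟨f, hf0, hf, hd⟩ := Nat.find_spec hex
  refine ⟨f, hf0, hf, fun h => ?_⟩
  have hpos : f.natDegree ≠ 0 := by
    intro h0
    rw [eq_C_of_natDegree_eq_zero h0, aeval_C, map_eq_zero_iff _ hinj] at hf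
    apply hf0
    rw [eq_C_of_natDegree_eq_zero h0, hf, C_0]
  have hdf : derivative f ≠ 0 := by
    intro h0
    exact hpos (derivative_eq_zero.mp h0)
  exact Nat.find_min hex (m := (derivative f).natDegree)
    (by rw [← hd]; exact natDegree_derivative_lt hpos) ⟨_, hdf, h, rfl⟩

lemma poly_bdd {k : Type} [NormedField k] (q : k[X]) (M : ℝ) :
    ∃ C : ℝ, 0 ≤ C ∧ ∀ z : k, ‖z‖ ≤ M → ‖q.eval z‖ ≤ C := by
  refine ⟨∑ j ∈ q.support, ‖q.coeff j‖ * |M| ^ j, by positivity, fun z hz => ?_⟩
  rw [eval_eq_sum, Polynomial.sum]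
  refine (norm_sum_le _ _).trans (Finset.sum_le_sum fun j _ => ?_)
  rw [norm_mul, norm_pow]
  gcongr
  exact hz.trans (le_abs_self M)

lemma poly_lip {k : Type} [NormedField k] (c : k[X]) (τ : k) :
    ∃ C : ℝ, 0 ≤ C ∧ ∀ δ : k, ‖δ‖ ≤ 1 → ‖c.eval (τ + δ) - c.eval τ‖ ≤ C * ‖δ‖ := by
  obtain ⟨q, hq⟩ : (X - C τ) ∣ c - C (c.eval τ) := by
    rw [dvd_iff_isRoot]
    simp
  obtain ⟨M, hM, h⟩ := poly_bdd q (‖τ‖ + 1)
  refine ⟨M, hM, fun δ hδ => ?_⟩
  have h1 := congrArg (eval (τ + δ)) hq
  simp only [eval_sub, eval_C, eval_mul, eval_X, add_sub_cancel_left] at h1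
  rw [h1, norm_mul, mul_comm]
  gcongr
  exact h _ ((norm_add_le _ _).trans (by linarith))

/-- the coefficients of `f` vary, the value at `z` does not change much -/
lemma coeff_var {k : Type} [NormedField k] (f : k[X][X]) (τ : k) (M : ℝ) :
    ∃ C : ℝ, 0 ≤ C ∧ ∀ δ z : k, ‖δ‖ ≤ 1 → ‖z‖ ≤ M →
      ‖(f.map (evalRingHom (τ + δ))).eval z - (f.map (evalRingHom τ)).eval z‖ ≤ C * ‖δ‖ := by
  choose c hc0 hc using fun j : ℕ => poly_lip (f.coeff j) τ
  refine ⟨∑ j ∈ Finset.range (f.natDegree + 1), c j * |M| ^ j, Finset.sum_nonneg fun j _ => by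
    have := hc0 j; positivity, fun δ z hδ hz => ?_⟩
  rw [eval_eq_sum_range' (n := f.natDegree + 1) (by
      have := natDegree_map_le (f := evalRingHom (τ + δ)) (p := f); omega),
    eval_eq_sum_range' (n := f.natDegree + 1) (by
      have := natDegree_map_le (f := evalRingHom τ) (p := f); omega),
    ← Finset.sum_sub_distrib, Finset.sum_mul]
  refine (norm_sum_le _ _).trans (Finset.sum_le_sum fun j _ => ?_)
  rw [coeff_map, coeff_map, ← sub_mul, norm_mul, norm_pow, coe_evalRingHom, coe_evalRingHom]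
  calc _ ≤ (c j * ‖δ‖) * |M| ^ j := by
        have := hc0 j
        gcongr
        · exact hc j δ hδ
        · exact hz.trans (le_abs_self M)
    _ = _ := by ring

/-- the roots of `f` stay bounded -/
lemma root_bdd {k : Type} [NormedField k] (f : k[X][X]) (τ : k)
    (hlc : f.leadingCoeff.eval τ ≠ 0) :
    ∃ M ρ : ℝ, 0 < ρ ∧ ∀ δ z : k, ‖δ‖ ≤ ρ → (f.map (evalRingHom (τ + δ))).eval z = 0 → ‖z‖ ≤ M := by
  classical
  set d := f.natDegree with hd
  obtain ⟨c, hc0, hc⟩ := poly_lip f.leadingCoeff τ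
  set m := ‖f.leadingCoeff.eval τ‖ with hm
  have hmpos : 0 < m := norm_pos_iff.mpr hlc
  choose c' hc'0 hc' using fun j : ℕ => poly_bdd (f.coeff j) (‖τ‖ + 1)
  set S := ∑ j ∈ Finset.range d, c' j with hS
  have hS0 : 0 ≤ S := Finset.sum_nonneg fun j _ => hc'0 j
  refine ⟨1 + S / (m / 2), min 1 (m / (2 * (c + 1))), by positivity, fun δ z hδ hz => ?_⟩
  have hδ1 : ‖δ‖ ≤ 1 := hδ.trans (min_le_left _ _)
  have hδ2 : ‖δ‖ ≤ m / (2 * (c + 1)) := hδ.trans (min_le_right _ _)
  have h1 : m / 2 ≤ ‖f.leadingCoeff.eval (τ + δ)‖ := by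
    have h2 := hc δ hδ1
    have h3 : m ≤ ‖f.leadingCoeff.eval (τ + δ)‖ +
        ‖f.leadingCoeff.eval (τ + δ) - f.leadingCoeff.eval τ‖ := by
      have := norm_sub_le (f.leadingCoeff.eval (τ + δ))
        (f.leadingCoeff.eval (τ + δ) - f.leadingCoeff.eval τ)
      rw [sub_sub_cancel] at this
      exact this
    have h4 : c * ‖δ‖ ≤ m / 2 := by
      calc c * ‖δ‖ ≤ (c + 1) * (m / (2 * (c + 1))) := by
            apply mul_le_mul (by linarith) hδ2 (norm_nonneg _) (by linarith)
        _ = m / 2 := by field_simp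
    linarith
  by_cases hz1 : ‖z‖ ≤ 1
  · have : 0 ≤ S / (m / 2) := by positivity
    linarith
  push Not at hz1
  rw [eval_eq_sum_range' (n := d + 1) (by
      have := natDegree_map_le (f := evalRingHom (τ + δ)) (p := f); omega),
    Finset.sum_range_succ] at hz
  have h5 : ‖(f.map (evalRingHom (τ + δ))).coeff d * z ^ d‖ ≤
      ∑ j ∈ Finset.range d, c' j * ‖z‖ ^ (d - 1) := by
    rw [← norm_neg, neg_eq_of_add_eq_zero_left hz]
    refine (norm_sum_le _ _).trans (Finset.sum_le_sum fun j hj => ?_)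
    rw [coeff_map, norm_mul, norm_pow, coe_evalRingHom]
    have := hc'0 j
    gcongr
    · exact hc' j _ ((norm_add_le _ _).trans (by linarith))
    · exact hz1.le
    · have := Finset.mem_range.mp hj
      omega
  rw [norm_mul, norm_pow, coeff_map, coe_evalRingHom, ← Finset.sum_mul] at h5
  rcases Nat.eq_zero_or_pos d with h0 | h0
  · rw [h0] at h5 hS
    simp only [Finset.range_zero, Finset.sum_empty, zero_mul, pow_zero, mul_one] at h5
    have h6 : f.coeff 0 = f.leadingCoeff := by rw [leadingCoeff, ← hd, h0]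
    rw [h6] at h5
    linarith
  · have h6 : f.coeff d = f.leadingCoeff := rfl
    rw [h6] at h5
    have hzp : 0 < ‖z‖ ^ (d - 1) := by
      have : 0 < ‖z‖ := by linarith
      positivity
    have h7 : ‖z‖ ^ d = ‖z‖ * ‖z‖ ^ (d - 1) := by
      rw [← pow_succ']
      congr 1
      omega
    rw [h7, ← mul_assoc] at h5
    have h8 := le_of_mul_le_mul_right h5 hzp
    have h9 : m / 2 * ‖z‖ ≤ S := (mul_le_mul_of_nonneg_right h1 (norm_nonneg z)).trans h8
    have h10 : ‖z‖ ≤ S / (m / 2) := by
      rw [le_div_iff₀ (by positivity)]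
      linarith
    linarith

/-- if `g z` is small then `z` is close to a root of `g` -/
lemma near_root {k : Type} [NormedField k] [IsAlgClosed k] (g : k[X]) (hg : g ≠ 0) (z : k) (ε : ℝ)
    (hε : 0 < ε) (h : ‖g.eval z‖ < ‖g.leadingCoeff‖ * ε ^ g.natDegree) :
    ∃ β ∈ g.roots, ‖z - β‖ < ε := by
  by_contra hcon
  push Not at hcon
  have h1 := (IsAlgClosed.splits g).eq_prod_roots
  have h2 : g.natDegree = Multiset.card g.roots := (IsAlgClosed.splits g).natDegree_eq_card_roots
  have h3 : ‖g.eval z‖ = ‖g.leadingCoeff‖ * (g.roots.map fun β => ‖z - β‖).prod := by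
    conv_lhs => rw [h1]
    rw [eval_mul, eval_C, norm_mul, eval_multiset_prod]
    congr 1
    have : ‖(Multiset.map (eval z) (Multiset.map (fun a => X - C a) g.roots)).prod‖ =
        (Multiset.map (fun x : k => ‖x‖)
          (Multiset.map (eval z) (Multiset.map (fun a => X - C a) g.roots))).prod :=
      map_multiset_prod (normHom : k →*₀ ℝ) _
    rw [this]
    simp only [Multiset.map_map, Function.comp_def, eval_sub, eval_X, eval_C]
  have h4 : ε ^ g.natDegree ≤ (g.roots.map fun β => ‖z - β‖).prod := by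
    rw [h2]
    have : ∀ s : Multiset k, (∀ β ∈ s, ε ≤ ‖z - β‖) →
        ε ^ Multiset.card s ≤ (s.map fun β => ‖z - β‖).prod := by
      intro s
      induction s using Multiset.induction with
      | empty => simp
      | cons β s ih =>
        intro hs
        rw [Multiset.card_cons, Multiset.map_cons, Multiset.prod_cons, pow_succ']
        have h5 := ih fun γ hγ => hs γ (Multiset.mem_cons_of_mem hγ)
        have h6 := hs β (Multiset.mem_cons_self β s)
        exact mul_le_mul h6 h5 (by positivity) (norm_nonneg _)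
    exact this _ hcon
  rw [h3] at h
  have h5 : 0 < ‖g.leadingCoeff‖ := norm_pos_iff.mpr (leadingCoeff_ne_zero.mpr hg)
  have := mul_le_mul_of_nonneg_left h4 h5.le
  linarith

/-- near a simple root, `|g z|` is comparable with the distance to the root -/
lemma simple_root {k : Type} [NormedField k] (g : k[X]) (β : k) (hβ : g.eval β = 0)
    (hβ' : (derivative g).eval β ≠ 0) :
    ∃ C ε : ℝ, 0 ≤ C ∧ 0 < ε ∧ ∀ z, ‖z - β‖ < ε → ‖z - β‖ ≤ C * ‖g.eval z‖ := by
  obtain ⟨q, hq⟩ : (X - C β) ∣ g := dvd_iff_isRoot.mpr hβ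
  have h1 : (derivative g).eval β = q.eval β := by
    rw [hq, derivative_mul]
    simp
  rw [h1] at hβ'
  have h2 : ContinuousAt (fun z => ‖q.eval z‖) β := q.continuous.norm.continuousAt
  have h3 : 0 < ‖q.eval β‖ := norm_pos_iff.mpr hβ'
  have h4 : ∀ᶠ z in 𝓝 β, ‖q.eval β‖ / 2 < ‖q.eval z‖ :=
    h2.eventually_const_lt (by linarith)
  obtain ⟨ε, hε, h5⟩ := Metric.eventually_nhds_iff.mp h4
  refine ⟨2 / ‖q.eval β‖, ε, by positivity, hε, fun z hz => ?_⟩
  have h6 := h5 (by rwa [dist_eq_norm])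
  rw [hq, eval_mul, eval_sub, eval_X, eval_C, norm_mul, div_mul_eq_mul_div, le_div_iff₀ h3]
  nlinarith [norm_nonneg (z - β)]


end Run7.h385
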