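import Mathlib
import Pool.Agent.Run7.h385.Germ

set_option autoImplicit false

/-!
# One-parameter families of points on an affine variety: the main lemma
-/

namespace Run7.h385

open Polynomial Filter Topology

section sub

variable {k ι : Type} [Field k]

/-- substitution of `Φ` for the inner variable and of `G` for the outer variable -/
noncomputable def sub (Φ : MvPolynomial ι k) (f : k[X][X]) (G : MvPolynomial ι k) :
    MvPolynomial ι k :=
  f.eval₂ (aeval Φ : k[X] →ₐ[k] MvPolynomial ι k).toRingHom G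

lemma sub_aeval {F : Type} [Field F] [Algebra k F] [Algebra k[X] F] [IsScalarTower k k[X] F]
    {a : ι → F} {Φ : MvPolynomial ι k} (hΦ : MvPolynomial.aeval a Φ = algebraMap k[X] F X)
    (f : k[X][X]) (G : MvPolynomial ι k) :
    MvPolynomial.aeval a (sub Φ f G) = aeval (MvPolynomial.aeval a G) f := by
  unfold sub
  have h1 := hom_eval₂ f (aeval Φ : k[X] →ₐ[k] MvPolynomial ι k).toRingHom
    (MvPolynomial.aeval a : MvPolynomial ι k →ₐ[k] F).toRingHom G
  have h2 : (MvPolynomial.aeval a : MvPolynomial ι k →ₐ[k] F).toRingHom.comp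
      (aeval Φ : k[X] →ₐ[k] MvPolynomial ι k).toRingHom = algebraMap k[X] F := by
    refine Polynomial.ringHom_ext (fun c => ?_) ?_
    · simp only [AlgHom.toRingHom_eq_coe, RingHom.coe_comp, RingHom.coe_coe, Function.comp_apply,
        aeval_C, AlgHom.commutes]
      exact IsScalarTower.algebraMap_apply k k[X] F c
    · simp only [AlgHom.toRingHom_eq_coe, RingHom.coe_comp, RingHom.coe_coe, Function.comp_apply,
        aeval_X, hΦ]
  rw [h2] at h1
  exact h1

lemma sub_eval (Φ : MvPolynomial ι k) (f : k[X][X]) (G : MvPolynomial ι k) (b : ι → k) :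
    MvPolynomial.eval b (sub Φ f G) =
      (f.map (evalRingHom (MvPolynomial.eval b Φ))).eval (MvPolynomial.eval b G) := by
  unfold sub
  rw [hom_eval₂, eval_map]
  congr 1
  refine Polynomial.ringHom_ext (fun c => ?_) ?_
  · simp only [AlgHom.toRingHom_eq_coe, RingHom.coe_comp, RingHom.coe_coe, Function.comp_apply,
      aeval_C, coe_evalRingHom, eval_C]
    exact MvPolynomial.eval_C c
  · simp only [AlgHom.toRingHom_eq_coe, RingHom.coe_comp, RingHom.coe_coe, Function.comp_apply,
      aeval_X, coe_evalRingHom, eval_X]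

end sub

/-- a nonconstant function `Φ` on an irreducible affine variety over a nonarchimedean field: there
is a sequence of points `b n` of the variety which converges to a point `β` such that
`|b n - β|` is bounded by a multiple of `|Φ (b n) - Φ β| ≠ 0` -/
theorem germ {k A ι : Type} [Finite ι] [NormedField k] [IsAlgClosed k] [CharZero k]
    [CommRing A] [IsDomain A] [Algebra k A] (a : ι → A) (Φ : MvPolynomial ι k)
    (hΦ : ∀ c : k, MvPolynomial.aeval a Φ ≠ algebraMap k A c) (π : k) (hπ : π ≠ 0)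
    (hπ1 : ‖π‖ < 1) :
    ∃ (C : ℝ) (β : ι → k) (b : ℕ → ι → k),
      (∀ P : MvPolynomial ι k, MvPolynomial.aeval a P = 0 → MvPolynomial.eval β P = 0) ∧
      (∀ n, ∀ P : MvPolynomial ι k, MvPolynomial.aeval a P = 0 →
        MvPolynomial.eval (b n) P = 0) ∧
      (∀ n, MvPolynomial.eval (b n) Φ ≠ MvPolynomial.eval β Φ) ∧
      (∀ n i, ‖b n i - β i‖ ≤ C * ‖MvPolynomial.eval (b n) Φ - MvPolynomial.eval β Φ‖) ∧
      Tendsto (fun n => MvPolynomial.eval (b n) Φ) atTop (𝓝 (MvPolynomial.eval β Φ)) := by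
  classical
  have hft := Fintype.ofFinite ι
  -- reduction to a curve
  let A₀ : Subalgebra k A := (MvPolynomial.aeval a : MvPolynomial ι k →ₐ[k] A).range
  let fr : MvPolynomial ι k →ₐ[k] A₀ :=
    (MvPolynomial.aeval a : MvPolynomial ι k →ₐ[k] A).rangeRestrict
  have hfr : Function.Surjective fr := AlgHom.rangeRestrict_surjective _
  have hA₀ : Algebra.FiniteType k A₀ := Algebra.FiniteType.of_surjective fr hfr
  have hφ₀ : ∀ c : k, fr Φ ≠ algebraMap k A₀ c := by
    intro c hc
    have h1 : A₀.val (fr Φ) = A₀.val (algebraMap k A₀ c) := congrArg A₀.val hc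
    exact hΦ c h1
  obtain ⟨F, iF, ikF, ikXF, iT, ψ, hψ, hinj, halg⟩ := exists_curve (fr Φ) hφ₀
  let a' : ι → F := fun i => ψ (fr (MvPolynomial.X i))
  have ha' : ∀ P, MvPolynomial.aeval a' P = ψ (fr P) := by
    intro P
    have := DFunLike.congr_fun (MvPolynomial.aeval_unique (ψ.comp fr)) P
    exact this.symm
  have hrel : ∀ P : MvPolynomial ι k, MvPolynomial.aeval a P = 0 → MvPolynomial.aeval a' P = 0 := by
    intro P hP
    rw [ha']
    have : fr P = 0 := Subtype.ext (by exact hP)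
    rw [this, map_zero]
  have hΦ' : MvPolynomial.aeval a' Φ = algebraMap k[X] F X := by rw [ha', hψ]
  obtain ⟨r₀, hr₀, habove⟩ := points_above hinj a' Φ hΦ'
  choose f hf0 hf hf' using fun i => exists_sep (k := k) hinj (a' i)
  have halg' : ∀ i, IsAlgebraic k[X] (aeval (a' i) (derivative (f i))) :=
    fun i => Algebra.IsAlgebraic.isAlgebraic _
  choose q hq0 hq using fun i => (halg' i).exists_nonzero_coeff_and_aeval_eq_zero
    (mem_nonZeroDivisors_of_ne_zero (hf' i))
  set r : k[X] := r₀ * ∏ i, ((f i).leadingCoeff * (q i).coeff 0) with hr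
  have hrne : r ≠ 0 := mul_ne_zero hr₀ (Finset.prod_ne_zero_iff.mpr fun i _ =>
    mul_ne_zero (leadingCoeff_ne_zero.mpr (hf0 i)) (hq0 i))
  obtain ⟨τ, hτ⟩ : ∃ τ : k, r.eval τ ≠ 0 := by
    by_contra hcon
    push Not at hcon
    exact hrne (Polynomial.funext fun x => by rw [hcon x, eval_zero])
  have hτ0 : r₀.eval τ ≠ 0 := fun h => hτ (by rw [hr, eval_mul, h, zero_mul])
  have hτi : ∀ i, (f i).leadingCoeff.eval τ ≠ 0 ∧ ((q i).coeff 0).eval τ ≠ 0 := by
    intro i
    rw [hr, eval_mul, eval_prod] at hτ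
    have h1 := Finset.prod_ne_zero_iff.mp (right_ne_zero_of_mul hτ) i (Finset.mem_univ i)
    rw [eval_mul] at h1
    exact ⟨left_ne_zero_of_mul h1, right_ne_zero_of_mul h1⟩
  -- the points above `τ + π ^ n`
  have hπlim : Tendsto (fun n : ℕ => π ^ n) atTop (𝓝 0) := tendsto_pow_atTop_nhds_zero_of_norm_lt_one hπ1
  have hev : ∀ᶠ n : ℕ in atTop, r₀.eval (τ + π ^ n) ≠ 0 := by
    have h1 : Tendsto (fun n : ℕ => r₀.eval (τ + π ^ n)) atTop (𝓝 (r₀.eval τ)) := by
      have h2 : Tendsto (fun n : ℕ => τ + π ^ n) atTop (𝓝 τ) := by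
        simpa using hπlim.const_add τ
      exact (r₀.continuous.tendsto τ).comp h2
    exact h1.eventually_ne hτ0
  obtain ⟨n₀, hn₀⟩ := eventually_atTop.mp hev
  choose b hb hbΦ using fun n : ℕ => habove (τ + π ^ (n + n₀)) (hn₀ _ (by omega))
  set g : ι → k[X] := fun i => (f i).map (evalRingHom τ) with hg
  have hglc : ∀ i, (g i).leadingCoeff = (f i).leadingCoeff.eval τ := fun i =>
    leadingCoeff_map_of_leadingCoeff_ne_zero _ (hτi i).1
  have hg0 : ∀ i, g i ≠ 0 := fun i h => by
    have := hglc i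
    rw [h, leadingCoeff_zero] at this
    exact (hτi i).1 this.symm
  have hroot : ∀ n i, ((f i).map (evalRingHom (τ + π ^ (n + n₀)))).eval (b n i) = 0 := by
    intro n i
    have h1 := hb n (sub Φ (f i) (MvPolynomial.X i)) (by
      rw [sub_aeval hΦ', MvPolynomial.aeval_X]
      exact hf i)
    rw [sub_eval, hbΦ, MvPolynomial.eval_X] at h1
    exact h1
  -- the values of `g`
  have hsmall : ∀ i, ∃ C : ℝ, 0 ≤ C ∧ ∀ᶠ n : ℕ in atTop, ‖(g i).eval (b n i)‖ ≤
      C * ‖π ^ (n + n₀)‖ := by
    intro i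
    obtain ⟨M, ρ, hρ, hM⟩ := root_bdd (f i) τ (hτi i).1
    obtain ⟨C, hC0, hC⟩ := coeff_var (f i) τ M
    refine ⟨C, hC0, ?_⟩
    have h1 : Tendsto (fun n : ℕ => ‖π ^ (n + n₀)‖) atTop (𝓝 0) := by
      have := (hπlim.comp (tendsto_add_atTop_nat n₀)).norm
      simpa using this
    have h2 : ∀ᶠ n : ℕ in atTop, ‖π ^ (n + n₀)‖ < min 1 ρ :=
      h1.eventually_lt_const (by positivity)
    filter_upwards [h2] with n hn
    have h3 := hM (π ^ (n + n₀)) (b n i) (hn.le.trans (min_le_right _ _)) (hroot n i)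
    have h4 := hC (π ^ (n + n₀)) (b n i) (hn.le.trans (min_le_left _ _)) h3
    rw [hroot, zero_sub, norm_neg] at h4
    exact h4
  choose C hC0 hC using hsmall
  -- nearest roots
  have hne : ∀ i, (g i).roots.toFinset.Nonempty := by
    intro i
    have hdeg : (f i).natDegree ≠ 0 := by
      intro h0
      apply hf' i
      rw [eq_C_of_natDegree_eq_zero h0, derivative_C, map_zero]
    have h1 : (g i).natDegree = (f i).natDegree :=
      natDegree_map_of_leadingCoeff_ne_zero _ (hτi i).1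
    have h2 : Multiset.card (g i).roots = (g i).natDegree :=
      ((IsAlgClosed.splits (g i)).natDegree_eq_card_roots).symm
    rw [Finset.nonempty_iff_ne_empty, Ne, Multiset.toFinset_eq_empty]
    intro h3
    rw [h3, Multiset.card_zero] at h2
    omega
  choose nr hnr1 hnr2 using fun (n : ℕ) (i : ι) =>
    (g i).roots.toFinset.exists_min_image (fun β => ‖b n i - β‖) (hne i)
  have hnear : ∀ i, ∀ ε : ℝ, 0 < ε → ∀ᶠ n : ℕ in atTop, ‖b n i - nr n i‖ < ε := by
    intro i ε hε
    have h1 : Tendsto (fun n : ℕ => C i * ‖π ^ (n + n₀)‖) atTop (𝓝 0) := by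
      have := ((hπlim.comp (tendsto_add_atTop_nat n₀)).norm).const_mul (C i)
      simpa using this
    have h2 : 0 < ‖(g i).leadingCoeff‖ * ε ^ (g i).natDegree := by
      have : 0 < ‖(g i).leadingCoeff‖ := norm_pos_iff.mpr (leadingCoeff_ne_zero.mpr (hg0 i))
      positivity
    filter_upwards [hC i, h1.eventually_lt_const h2] with n hn1 hn2
    obtain ⟨β, hβ, hβ2⟩ := near_root (g i) (hg0 i) (b n i) ε hε (hn1.trans_lt hn2)
    exact (hnr2 n i β (Multiset.mem_toFinset.mpr hβ)).trans_lt hβ2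
  obtain ⟨y, hy⟩ := Finite.exists_infinite_fiber
    (fun n : ℕ => (fun i => (⟨nr n i, hnr1 n i⟩ : {β : k // β ∈ (g i).roots.toFinset})))
  obtain ⟨β, hβdef⟩ : ∃ β : ι → k, β = fun i => (y i : k) := ⟨_, rfl⟩
  have hfreq : ∃ᶠ n in atTop, nr n = β := by
    rw [Nat.frequently_atTop_iff_infinite]
    refine Set.Infinite.mono ?_ (Set.infinite_coe_iff.mp hy)
    intro n hn
    rw [Set.mem_preimage, Set.mem_singleton_iff] at hn
    rw [Set.mem_ofPred_eq, hβdef]
    funext i
    rw [← hn]
  have hβroot : ∀ i, (g i).eval (β i) = 0 := by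
    intro i
    have := (y i).2
    rw [Multiset.mem_toFinset, mem_roots (hg0 i)] at this
    rw [hβdef]
    exact this
  obtain ⟨φ, hφ, hφβ⟩ := extraction_of_frequently_atTop hfreq
  have hbβ : Tendsto (fun n => b (φ n)) atTop (𝓝 β) := by
    rw [tendsto_pi_nhds]
    intro i
    rw [tendsto_iff_norm_sub_tendsto_zero]
    rw [Metric.tendsto_nhds]
    intro ε hε
    filter_upwards [hφ.tendsto_atTop.eventually (hnear i ε hε)] with n hn
    rw [hφβ n] at hn
    simpa using hn
  have hβrel : ∀ P : MvPolynomial ι k, MvPolynomial.aeval a' P = 0 → MvPolynomial.eval β P = 0 := by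
    intro P hP
    have h1 : Tendsto (fun n => MvPolynomial.eval (b (φ n)) P) atTop
        (𝓝 (MvPolynomial.eval β P)) := ((MvPolynomial.continuous_eval P).tendsto β).comp hbβ
    have h2 : (fun n => MvPolynomial.eval (b (φ n)) P) = fun _ => 0 := by
      funext n
      exact hb _ P hP
    rw [h2] at h1
    exact (tendsto_nhds_unique h1 tendsto_const_nhds)
  have hβΦ : MvPolynomial.eval β Φ = τ := by
    have h1 : Tendsto (fun n => MvPolynomial.eval (b (φ n)) Φ) atTop
        (𝓝 (MvPolynomial.eval β Φ)) := ((MvPolynomial.continuous_eval Φ).tendsto β).comp hbβ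
    have h2 : Tendsto (fun n => MvPolynomial.eval (b (φ n)) Φ) atTop (𝓝 τ) := by
      have h3 : (fun n => MvPolynomial.eval (b (φ n)) Φ) = fun n => τ + π ^ (φ n + n₀) := by
        funext n
        exact hbΦ _
      rw [h3]
      have h4 : Tendsto (fun n => π ^ (φ n + n₀)) atTop (𝓝 0) :=
        hπlim.comp ((tendsto_add_atTop_nat n₀).comp hφ.tendsto_atTop)
      simpa using h4.const_add τ
    exact tendsto_nhds_unique h1 h2
  have hβ' : ∀ i, (derivative (g i)).eval (β i) ≠ 0 := by
    intro i h0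
    have h1 := hβrel (sub Φ (q i) (sub Φ (derivative (f i)) (MvPolynomial.X i))) (by
      rw [sub_aeval hΦ', sub_aeval hΦ', MvPolynomial.aeval_X]
      exact hq i)
    rw [sub_eval, sub_eval, hβΦ, MvPolynomial.eval_X, ← derivative_map, h0] at h1
    rw [← coeff_zero_eq_eval_zero, coeff_map] at h1
    exact (hτi i).2 h1
  choose C' ε' hC'0 hε' hC' using fun i => simple_root (g i) (β i) (hβroot i) (hβ' i)
  have hfinal : ∀ᶠ n : ℕ in atTop, ∀ i, ‖b (φ n) i - β i‖ ≤
      (∑ i, C' i * C i) * ‖π ^ (φ n + n₀)‖ := by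
    rw [eventually_all]
    intro i
    filter_upwards [hφ.tendsto_atTop.eventually (hnear i (ε' i) (hε' i)),
      hφ.tendsto_atTop.eventually (hC i)] with n hn1 hn2
    rw [hφβ n] at hn1
    calc ‖b (φ n) i - β i‖ ≤ C' i * ‖(g i).eval (b (φ n) i)‖ := hC' i _ hn1
      _ ≤ C' i * (C i * ‖π ^ (φ n + n₀)‖) := mul_le_mul_of_nonneg_left hn2 (hC'0 i)
      _ = (C' i * C i) * ‖π ^ (φ n + n₀)‖ := by ring
      _ ≤ _ := by
        apply mul_le_mul_of_nonneg_right _ (norm_nonneg _)
        exact Finset.single_le_sum (f := fun i => C' i * C i)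
          (fun i _ => mul_nonneg (hC'0 i) (hC0 i)) (Finset.mem_univ i)
  obtain ⟨N, hN⟩ := eventually_atTop.mp hfinal
  have hval : ∀ n, MvPolynomial.eval (b (φ (n + N))) Φ - MvPolynomial.eval β Φ =
      π ^ (φ (n + N) + n₀) := by
    intro n
    rw [hbΦ, hβΦ, add_sub_cancel_left]
  refine ⟨∑ i, C' i * C i, β, fun n => b (φ (n + N)), fun P hP => hβrel P (hrel P hP),
    fun n P hP => hb _ P (hrel P hP), fun n h => ?_, fun n i => ?_, ?_⟩
  · have h1 := hval n
    rw [h, sub_self] at h1
    exact pow_ne_zero _ hπ h1.symm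
  · rw [hval n]
    exact hN (n + N) (by omega) i
  · exact ((MvPolynomial.continuous_eval Φ).tendsto β).comp
      (hbβ.comp (tendsto_add_atTop_nat N))

end Run7.h385
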