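import Mathlib

set_option autoImplicit false

/-!
# Functions of two variables with controlled mixed differences
-/

namespace Run7.h385

/-- `g` is bounded, Lipschitz in each variable, and its mixed differences are controlled -/
def Good {E E' k : Type*} [PseudoMetricSpace E] [PseudoMetricSpace E'] [NormedField k]
    (V : Set E) (W : Set E') (g : E → E' → k) : Prop :=
  ∃ C : ℝ, 0 ≤ C ∧ ∀ y ∈ V, ∀ y' ∈ V, ∀ q ∈ W, ∀ q' ∈ W,
    ‖g y q‖ ≤ C ∧ ‖g y q - g y' q‖ ≤ C * dist y y' ∧ ‖g y q - g y q'‖ ≤ C * dist q q' ∧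
    ‖g y q - g y' q - g y q' + g y' q'‖ ≤ C * dist y y' * dist q q'

section

variable {E E' k : Type*} [PseudoMetricSpace E] [PseudoMetricSpace E'] [NormedField k]
  {V : Set E} {W : Set E'}

lemma Good.mono {V' : Set E} {W' : Set E'} {g : E → E' → k} (h : Good V W g) (hV : V' ⊆ V)
    (hW : W' ⊆ W) : Good V' W' g := by
  obtain ⟨C, hC, h⟩ := h
  exact ⟨C, hC, fun y hy y' hy' q hq q' hq' => h y (hV hy) y' (hV hy') q (hW hq) q' (hW hq')⟩

lemma Good.congr {g g' : E → E' → k} (h : Good V W g) (hg : ∀ y ∈ V, ∀ q ∈ W, g y q = g' y q) :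
    Good V W g' := by
  obtain ⟨C, hC, h⟩ := h
  refine ⟨C, hC, fun y hy y' hy' q hq q' hq' => ?_⟩
  rw [← hg y hy q hq, ← hg y' hy' q hq, ← hg y hy q' hq', ← hg y' hy' q' hq']
  exact h y hy y' hy' q hq q' hq'

lemma good_const (c : k) : Good V W (fun _ _ => c) := by
  refine ⟨‖c‖, norm_nonneg c, fun y _ y' _ q _ q' _ => ⟨le_refl _, ?_, ?_, ?_⟩⟩ <;>
  · simp only [sub_self, zero_sub, neg_add_cancel, norm_zero]
    positivity

lemma good_left (u : E → k) (M : ℝ) (hM : ∀ y ∈ V, ‖u y‖ ≤ M)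
    (hL : ∀ y ∈ V, ∀ y' ∈ V, ‖u y - u y'‖ ≤ dist y y') : Good V W (fun y _ => u y) := by
  refine ⟨1 + |M|, by positivity, fun y hy y' hy' q _ q' _ => ⟨?_, ?_, ?_, ?_⟩⟩
  · have := hM y hy
    have := le_abs_self M
    linarith
  · refine (hL y hy y' hy').trans ?_
    have : 0 ≤ |M| * dist y y' := by positivity
    linarith
  · rw [sub_self, norm_zero]
    positivity
  · have : u y - u y' - u y + u y' = 0 := by ring
    rw [this, norm_zero]
    positivity

lemma good_right (u : E' → k) (M : ℝ) (hM : ∀ y ∈ W, ‖u y‖ ≤ M)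
    (hL : ∀ y ∈ W, ∀ y' ∈ W, ‖u y - u y'‖ ≤ dist y y') : Good V W (fun _ q => u q) := by
  refine ⟨1 + |M|, by positivity, fun y _ y' _ q hq q' hq' => ⟨?_, ?_, ?_, ?_⟩⟩
  · have := hM q hq
    have := le_abs_self M
    linarith
  · rw [sub_self, norm_zero]
    positivity
  · refine (hL q hq q' hq').trans ?_
    have : 0 ≤ |M| * dist q q' := by positivity
    linarith
  · have : u q - u q - u q' + u q' = 0 := by ring
    rw [this, norm_zero]
    positivity

lemma Good.add {g h : E → E' → k} (hg : Good V W g) (hh : Good V W h) :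
    Good V W (fun y q => g y q + h y q) := by
  obtain ⟨C, hC, hg⟩ := hg
  obtain ⟨D, hD, hh⟩ := hh
  refine ⟨C + D, by positivity, fun y hy y' hy' q hq q' hq' => ?_⟩
  obtain ⟨a1, a2, a3, a4⟩ := hg y hy y' hy' q hq q' hq'
  obtain ⟨b1, b2, b3, b4⟩ := hh y hy y' hy' q hq q' hq'
  refine ⟨?_, ?_, ?_, ?_⟩
  · exact (norm_add_le _ _).trans (by linarith)
  · have e : g y q + h y q - (g y' q + h y' q) = (g y q - g y' q) + (h y q - h y' q) := by ring
    rw [e]
    exact (norm_add_le _ _).trans (by linarith)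
  · have e : g y q + h y q - (g y q' + h y q') = (g y q - g y q') + (h y q - h y q') := by ring
    rw [e]
    exact (norm_add_le _ _).trans (by linarith)
  · have e : g y q + h y q - (g y' q + h y' q) - (g y q' + h y q') + (g y' q' + h y' q') =
        (g y q - g y' q - g y q' + g y' q') + (h y q - h y' q - h y q' + h y' q') := by ring
    rw [e]
    exact (norm_add_le _ _).trans (by linarith)

lemma Good.mul {g h : E → E' → k} (hg : Good V W g) (hh : Good V W h) :
    Good V W (fun y q => g y q * h y q) := by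
  obtain ⟨C, hC, hg⟩ := hg
  obtain ⟨D, hD, hh⟩ := hh
  refine ⟨4 * C * D, by positivity, fun y hy y' hy' q hq q' hq' => ?_⟩
  obtain ⟨a1, a2, a3, a4⟩ := hg y hy y' hy' q hq q' hq'
  obtain ⟨b1, b2, b3, b4⟩ := hh y hy y' hy' q hq q' hq'
  obtain ⟨c1, c2, c3, c4⟩ := hg y' hy' y hy q hq q' hq'
  obtain ⟨d1, d2, d3, d4⟩ := hh y' hy' y hy q hq q' hq'
  obtain ⟨e1, e2, e3, e4⟩ := hh y hy y' hy' q' hq' q hq
  obtain ⟨f1, -, f3, -⟩ := hh y' hy' y hy q' hq' q hq
  have hyy : 0 ≤ dist y y' := dist_nonneg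
  have hqq : 0 ≤ dist q q' := dist_nonneg
  refine ⟨?_, ?_, ?_, ?_⟩
  · rw [norm_mul]
    have := mul_le_mul a1 b1 (norm_nonneg _) hC
    have h0 : 0 ≤ C * D := by positivity
    linarith
  · have e : g y q * h y q - g y' q * h y' q =
        g y q * (h y q - h y' q) + (g y q - g y' q) * h y' q := by ring
    rw [e]
    refine (norm_add_le _ _).trans ?_
    rw [norm_mul, norm_mul]
    have h1 := mul_le_mul a1 b2 (norm_nonneg _) hC
    have h2 := mul_le_mul a2 d1 (norm_nonneg _) (by positivity)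
    have h0 : 0 ≤ C * D * dist y y' := by positivity
    linarith
  · have e : g y q * h y q - g y q' * h y q' =
        g y q * (h y q - h y q') + (g y q - g y q') * h y q' := by ring
    rw [e]
    refine (norm_add_le _ _).trans ?_
    rw [norm_mul, norm_mul]
    have h1 := mul_le_mul a1 b3 (norm_nonneg _) hC
    have h2 := mul_le_mul a3 e1 (norm_nonneg _) (by positivity)
    have h0 : 0 ≤ C * D * dist q q' := by positivity
    linarith
  · have e : g y q * h y q - g y' q * h y' q - g y q' * h y q' + g y' q' * h y' q' =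
        g y q * (h y q - h y' q - h y q' + h y' q') + (g y q - g y' q) * (h y' q - h y' q') +
        (g y q - g y q') * (h y q' - h y' q') +
        (g y q - g y' q - g y q' + g y' q') * h y' q' := by ring
    rw [e]
    have h1 := mul_le_mul a1 b4 (norm_nonneg _) hC
    have h2 := mul_le_mul a2 d3 (norm_nonneg _) (by positivity)
    have h3 := mul_le_mul a3 e2 (norm_nonneg _) (by positivity)
    have h4 := mul_le_mul a4 f1 (norm_nonneg _) (by positivity)
    refine (norm_add_le _ _).trans (le_trans (add_le_add ((norm_add_le _ _).trans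
      (add_le_add (norm_add_le _ _) (le_refl _))) (le_refl _)) ?_)
    rw [norm_mul, norm_mul, norm_mul, norm_mul]
    linarith

lemma Good.inv {g : E → E' → k} (hg : Good V W g) (c : ℝ) (hc : 0 < c)
    (h : ∀ y ∈ V, ∀ q ∈ W, c ≤ ‖g y q‖) : Good V W (fun y q => (g y q)⁻¹) := by
  obtain ⟨C, hC, hg⟩ := hg
  have h0 : ∀ y ∈ V, ∀ q ∈ W, g y q ≠ 0 := fun y hy q hq h1 => by
    have := h y hy q hq
    rw [h1, norm_zero] at this
    linarith
  have hb : ∀ y ∈ V, ∀ q ∈ W, ‖(g y q)⁻¹‖ ≤ c⁻¹ := fun y hy q hq => by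
    rw [norm_inv]
    exact inv_anti₀ hc (h y hy q hq)
  have hL1 : ∀ y ∈ V, ∀ y' ∈ V, ∀ q ∈ W, ‖(g y q)⁻¹ - (g y' q)⁻¹‖ ≤
      c⁻¹ * c⁻¹ * C * dist y y' := by
    intro y hy y' hy' q hq
    have e : (g y q)⁻¹ - (g y' q)⁻¹ = -((g y q)⁻¹ * (g y' q)⁻¹ * (g y q - g y' q)) := by
      have h1 := h0 y hy q hq
      have h2 := h0 y' hy' q hq
      field_simp
      ring
    rw [e, norm_neg, norm_mul, norm_mul]
    have h1 := (hg y hy y' hy' q hq q hq).2.1
    have h2 := mul_le_mul (mul_le_mul (hb y hy q hq) (hb y' hy' q hq) (norm_nonneg _)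
      (by positivity)) h1 (norm_nonneg _) (by positivity)
    linarith
  have hL2 : ∀ y ∈ V, ∀ q ∈ W, ∀ q' ∈ W, ‖(g y q)⁻¹ - (g y q')⁻¹‖ ≤
      c⁻¹ * c⁻¹ * C * dist q q' := by
    intro y hy q hq q' hq'
    have e : (g y q)⁻¹ - (g y q')⁻¹ = -((g y q)⁻¹ * (g y q')⁻¹ * (g y q - g y q')) := by
      have h1 := h0 y hy q hq
      have h2 := h0 y hy q' hq'
      field_simp
      ring
    rw [e, norm_neg, norm_mul, norm_mul]
    have h1 := (hg y hy y hy q hq q' hq').2.2.1
    have h2 := mul_le_mul (mul_le_mul (hb y hy q hq) (hb y hy q' hq') (norm_nonneg _)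
      (by positivity)) h1 (norm_nonneg _) (by positivity)
    linarith
  have hci : 0 < c⁻¹ := inv_pos.mpr hc
  refine ⟨c⁻¹ + c⁻¹ * c⁻¹ * C + c⁻¹ * (c⁻¹ * c⁻¹ * C * C + c⁻¹ * c⁻¹ * C * C + c⁻¹ * C),
    by positivity, fun y hy y' hy' q hq q' hq' => ?_⟩
  have hyy : 0 ≤ dist y y' := dist_nonneg
  have hqq : 0 ≤ dist q q' := dist_nonneg
  refine ⟨?_, ?_, ?_, ?_⟩
  · refine (hb y hy q hq).trans ?_
    have : 0 ≤ c⁻¹ * c⁻¹ * C + c⁻¹ * (c⁻¹ * c⁻¹ * C * C + c⁻¹ * c⁻¹ * C * C + c⁻¹ * C) := by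
      positivity
    linarith
  · refine (hL1 y hy y' hy' q hq).trans ?_
    apply mul_le_mul_of_nonneg_right _ hyy
    have : 0 ≤ c⁻¹ * (c⁻¹ * c⁻¹ * C * C + c⁻¹ * c⁻¹ * C * C + c⁻¹ * C) := by
      positivity
    linarith
  · refine (hL2 y hy q hq q' hq').trans ?_
    apply mul_le_mul_of_nonneg_right _ hqq
    have : 0 ≤ c⁻¹ * (c⁻¹ * c⁻¹ * C * C + c⁻¹ * c⁻¹ * C * C + c⁻¹ * C) := by
      positivity
    linarith
  · have e : (g y q)⁻¹ - (g y' q)⁻¹ - (g y q')⁻¹ + (g y' q')⁻¹ =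
        -((g y q)⁻¹ * ((g y q - g y' q) * ((g y' q)⁻¹ - (g y' q')⁻¹) +
          (g y q - g y q') * ((g y q')⁻¹ - (g y' q')⁻¹) +
          (g y q - g y' q - g y q' + g y' q') * (g y' q')⁻¹)) := by
      have h1 := h0 y hy q hq
      have h2 := h0 y' hy' q hq
      have h3 := h0 y hy q' hq'
      have h4 := h0 y' hy' q' hq'
      field_simp
      ring
    rw [e, norm_neg, norm_mul]
    obtain ⟨a1, a2, a3, a4⟩ := hg y hy y' hy' q hq q' hq'
    have b1 := mul_le_mul a2 (hL2 y' hy' q hq q' hq') (norm_nonneg _) (by positivity)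
    have b2 := mul_le_mul a3 (hL1 y hy y' hy' q' hq') (norm_nonneg _) (by positivity)
    have b3 := mul_le_mul a4 (hb y' hy' q' hq') (norm_nonneg _) (by positivity)
    have b4 : ‖(g y q - g y' q) * ((g y' q)⁻¹ - (g y' q')⁻¹) +
          (g y q - g y q') * ((g y q')⁻¹ - (g y' q')⁻¹) +
          (g y q - g y' q - g y q' + g y' q') * (g y' q')⁻¹‖ ≤
        (c⁻¹ * c⁻¹ * C * C + c⁻¹ * c⁻¹ * C * C + c⁻¹ * C) * dist y y' * dist q q' := by
      refine (norm_add_le _ _).trans (le_trans (add_le_add (norm_add_le _ _) (le_refl _)) ?_)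
      rw [norm_mul, norm_mul, norm_mul]
      linarith
    have b5 := mul_le_mul (hb y hy q hq) b4 (norm_nonneg _) hci.le
    refine b5.trans ?_
    have : 0 ≤ (c⁻¹ + c⁻¹ * c⁻¹ * C) * dist y y' * dist q q' := by positivity
    linarith

/-- polynomials in good functions are good -/
lemma good_poly {σ : Type*} (u : σ → E → E' → k) (hu : ∀ s, Good V W (u s))
    (F : MvPolynomial σ k) :
    Good V W (fun y q => MvPolynomial.eval (fun s => u s y q) F) := by
  induction F using MvPolynomial.induction_on with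
  | C c => simpa using good_const c
  | add p q hp hq => simpa using hp.add hq
  | mul_X p i hp => simpa using hp.mul (hu i)

end

end Run7.h385
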