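import Mathlib
import Pool.Agent.Run7.h385.Mixed
import Pool.Agent.Run7.h385.GroupDefs

set_option autoImplicit false

/-!
# Group laws given by bihomogeneous forms, in affine coordinates
-/

namespace Run7.h385

open MvPolynomial Metric

/-- projective `n`-space over `k` -/
abbrev Pr (k : Type) [Field k] (n : ℕ) : Type := Projectivization k (Fin (n + 1) → k)

section alg

variable {k : Type} [Field k]

lemma IsBihomogeneous.eval_smul {a b : ℕ} {F : MvPolynomial (Fin (a + 1) ⊕ Fin (b + 1)) k}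
    {d e : ℕ} (hF : IsBihomogeneous F d e) (c c' : k) (x : Fin (a + 1) → k)
    (y : Fin (b + 1) → k) :
    eval (Sum.elim (c • x) (c' • y)) F = c ^ d * c' ^ e * eval (Sum.elim x y) F := by
  rw [eval_eq', eval_eq', Finset.mul_sum]
  refine Finset.sum_congr rfl fun s hs => ?_
  obtain ⟨h1, h2⟩ := hF s (mem_support_iff.mp hs)
  simp only [Fintype.prod_sum_type, Sum.elim_inl, Sum.elim_inr, Pi.smul_apply, smul_eq_mul,
    mul_pow, Finset.prod_mul_distrib, Finset.prod_pow_eq_pow_sum, h1, h2]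
  ring

lemma IsBihomogeneous.isHomogeneous {a b : ℕ} {F : MvPolynomial (Fin (a + 1) ⊕ Fin (b + 1)) k}
    {d e : ℕ} (hF : IsBihomogeneous F d e) : F.IsHomogeneous (d + e) := by
  intro s hs
  obtain ⟨h1, h2⟩ := hF s hs
  rw [Finsupp.weight_apply, Finsupp.sum_fintype _ _ (by simp), Fintype.sum_sum_type]
  simp [h1, h2]

lemma hom_eval_smul {n : ℕ} {F : MvPolynomial (Fin (n + 1)) k} {e : ℕ} (hF : F.IsHomogeneous e)
    (c : k) (x : Fin (n + 1) → k) : eval (c • x) F = c ^ e * eval x F := by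
  simp only [MvPolynomial.eval_eq, Finset.mul_sum]
  refine Finset.sum_congr rfl fun d hd => ?_
  have hdeg : ∑ i ∈ d.support, d i = e := by
    have := hF (mem_support_iff.mp hd)
    rw [← this, Finsupp.weight_apply, Finsupp.sum]
    simp
  simp only [Pi.smul_apply, smul_eq_mul, mul_pow, Finset.prod_mul_distrib,
    Finset.prod_pow_eq_pow_sum, hdeg]
  ring

/-- affine coordinates -/
noncomputable def aff {n : ℕ} (i₀ : Fin (n + 1)) (P : Pr k n) : Fin (n + 1) → k :=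
  (P.rep i₀)⁻¹ • P.rep

lemma aff_mk {n : ℕ} (i₀ : Fin (n + 1)) (x : Fin (n + 1) → k) (h : x ≠ 0) :
    aff i₀ (Projectivization.mk k x h) = (x i₀)⁻¹ • x := by
  obtain ⟨a, ha⟩ := Projectivization.exists_smul_eq_mk_rep k x h
  unfold aff
  rw [← ha]
  have := a.ne_zero
  rw [Units.smul_def, Pi.smul_apply, smul_eq_mul, smul_smul, mul_inv, mul_assoc, mul_comm,
    mul_assoc]
  rw [mul_inv_cancel₀ this, mul_one]

lemma mk_rep_ne {n : ℕ} (i₀ : Fin (n + 1)) (x : Fin (n + 1) → k) (h : x ≠ 0) :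
    (Projectivization.mk k x h).rep i₀ ≠ 0 ↔ x i₀ ≠ 0 := by
  obtain ⟨a, ha⟩ := Projectivization.exists_smul_eq_mk_rep k x h
  rw [← ha, Units.smul_def, Pi.smul_apply, smul_eq_mul]
  simp

lemma aff_self {n : ℕ} {i₀ : Fin (n + 1)} {P : Pr k n} (h : P.rep i₀ ≠ 0) : aff i₀ P i₀ = 1 := by
  unfold aff
  rw [Pi.smul_apply, smul_eq_mul, inv_mul_cancel₀ h]

lemma eval_aff {n : ℕ} {i₀ : Fin (n + 1)} {P : Pr k n} {F : MvPolynomial (Fin (n + 1)) k} {e : ℕ}
    (hF : F.IsHomogeneous e) : eval (aff i₀ P) F = (P.rep i₀)⁻¹ ^ e * eval P.rep F :=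
  hom_eval_smul hF _ _

lemma eval_aff_ne {n : ℕ} {i₀ : Fin (n + 1)} {P : Pr k n} (h : P.rep i₀ ≠ 0)
    {F : MvPolynomial (Fin (n + 1)) k} {e : ℕ}
    (hF : F.IsHomogeneous e) : eval (aff i₀ P) F = 0 ↔ eval P.rep F = 0 := by
  rw [eval_aff hF]
  simp [h]

/-- an algebraic group in projective space, over `k` -/
structure GLaw {N : ℕ} (Z G : Set (Pr k N)) (mul : Pr k N → Pr k N → Pr k N) (one : Pr k N) :
    Prop where
  closed : ∃ T : Set (MvPolynomial (Fin (N + 1)) k), (∀ F ∈ T, ∃ e : ℕ, F.IsHomogeneous e) ∧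
    Z = {P : Pr k N | ∀ F ∈ T, eval P.rep F = 0}
  irr : ∀ F G : MvPolynomial (Fin (N + 1)) k, (∃ e : ℕ, F.IsHomogeneous e) →
    (∃ e : ℕ, G.IsHomogeneous e) → (∀ P ∈ Z, eval P.rep (F * G) = 0) →
    (∀ P ∈ Z, eval P.rep F = 0) ∨ (∀ P ∈ Z, eval P.rep G = 0)
  isOpen : ∃ T : Set (MvPolynomial (Fin (N + 1)) k), (∀ F ∈ T, ∃ e : ℕ, F.IsHomogeneous e) ∧
    G = {P : Pr k N | P ∈ Z ∧ ∃ F ∈ T, eval P.rep F ≠ 0}
  one_mem : one ∈ G
  mul_mem : ∀ P ∈ G, ∀ Q ∈ G, mul P Q ∈ G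
  exists_inv : ∀ P ∈ G, ∃ Q ∈ G, mul Q P = one
  assoc : ∀ P ∈ G, ∀ Q ∈ G, ∀ R ∈ G, mul (mul P Q) R = mul P (mul Q R)
  one_mul : ∀ P ∈ G, mul one P = P
  regular : ∃ (r : ℕ) (d e : Fin r → ℕ)
    (F : Fin r → Fin (N + 1) → MvPolynomial (Fin (N + 1) ⊕ Fin (N + 1)) k),
    (∀ j i, IsBihomogeneous (F j i) (d j) (e j)) ∧
    (∀ P ∈ G, ∀ Q ∈ G, ∃ j, (fun i => eval (Sum.elim P.rep Q.rep) (F j i)) ≠ 0) ∧
    ∀ P ∈ G, ∀ Q ∈ G, ∀ j, ∀ h : (fun i => eval (Sum.elim P.rep Q.rep) (F j i)) ≠ 0,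
      mul P Q = Projectivization.mk k _ h

/-- the group of the points of `G` -/
@[reducible] noncomputable def GLaw.group {N : ℕ} {Z G : Set (Pr k N)}
    {mul : Pr k N → Pr k N → Pr k N} {one : Pr k N} (h : GLaw Z G mul one) : Group G :=
  let _ : Mul G := ⟨fun P Q => ⟨mul P Q, h.mul_mem P P.2 Q Q.2⟩⟩
  let _ : One G := ⟨⟨one, h.one_mem⟩⟩
  let _ : Inv G := ⟨fun P => ⟨(h.exists_inv P P.2).choose, (h.exists_inv P P.2).choose_spec.1⟩⟩
  Group.ofLeftAxioms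
    (fun P Q R => Subtype.ext (h.assoc P P.2 Q Q.2 R R.2))
    (fun P => Subtype.ext (h.one_mul P P.2))
    (fun P => Subtype.ext ((h.exists_inv P P.2).choose_spec.2))

lemma GLaw.group_mul {N : ℕ} {Z G : Set (Pr k N)}
    {mul : Pr k N → Pr k N → Pr k N} {one : Pr k N} (h : GLaw Z G mul one) (P Q : G) :
    let _ := h.group
    ((P * Q : G) : Pr k N) = mul P Q := rfl

lemma GLaw.group_one {N : ℕ} {Z G : Set (Pr k N)}
    {mul : Pr k N → Pr k N → Pr k N} {one : Pr k N} (h : GLaw Z G mul one) :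
    let _ := h.group
    ((1 : G) : Pr k N) = one := rfl

end alg

section loc

variable {k : Type} [NormedField k] {N : ℕ}

lemma good_vars {n m : ℕ} (a : Fin n → k) (b : Fin m → k) (ε : ℝ)
    (F : MvPolynomial (Fin n ⊕ Fin m) k) :
    Good (ball a ε) (ball b ε) (fun y q => eval (Sum.elim y q) F) := by
  have h := good_poly (V := ball a ε) (W := ball b ε)
    (fun (s : Fin n ⊕ Fin m) (y : Fin n → k) (q : Fin m → k) => Sum.elim y q s) ?_ F
  · exact h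
  · rintro (i | i)
    · refine good_left (fun y : Fin n → k => y i) (‖a‖ + ε) (fun y hy => ?_) (fun y _ y' _ => ?_)
      · have h1 := norm_le_pi_norm y i
        have h2 : ‖y‖ ≤ ‖a‖ + ‖y - a‖ := by
          have := norm_add_le a (y - a)
          rwa [add_sub_cancel] at this
        have h3 : ‖y - a‖ < ε := by rwa [mem_ball, dist_eq_norm] at hy
        linarith
      · rw [dist_eq_norm]
        exact norm_le_pi_norm (y - y') i
    · refine good_right (fun y : Fin m → k => y i) (‖b‖ + ε) (fun y hy => ?_) (fun y _ y' _ => ?_)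
      · have h1 := norm_le_pi_norm y i
        have h2 : ‖y‖ ≤ ‖b‖ + ‖y - b‖ := by
          have := norm_add_le b (y - b)
          rwa [add_sub_cancel] at this
        have h3 : ‖y - b‖ < ε := by rwa [mem_ball, dist_eq_norm] at hy
        linarith
      · rw [dist_eq_norm]
        exact norm_le_pi_norm (y - y') i

/-- a good function which does not vanish at the centre is bounded below near the centre -/
lemma Good.near {n m : ℕ} {a : Fin n → k} {b : Fin m → k} {ε : ℝ} (hε : 0 < ε)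
    {g : (Fin n → k) → (Fin m → k) → k} (hg : Good (ball a ε) (ball b ε) g) (h0 : g a b ≠ 0) :
    ∃ ε' : ℝ, 0 < ε' ∧ ε' ≤ ε ∧ ∀ y ∈ ball a ε', ∀ q ∈ ball b ε', ‖g a b‖ / 2 ≤ ‖g y q‖ := by
  obtain ⟨C, hC, h⟩ := hg
  have hp : 0 < ‖g a b‖ := norm_pos_iff.mpr h0
  refine ⟨min ε (‖g a b‖ / (4 * (C + 1))), by positivity, min_le_left _ _, fun y hy q hq => ?_⟩
  have hy' : y ∈ ball a ε := ball_subset_ball (min_le_left _ _) hy
  have hq' : q ∈ ball b ε := ball_subset_ball (min_le_left _ _) hq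
  have h1 := (h a (mem_ball_self hε) y hy' b (mem_ball_self hε) b (mem_ball_self hε)).2.1
  have h2 := (h y hy' y hy' b (mem_ball_self hε) q hq').2.2.1
  have h3 : dist a y ≤ ‖g a b‖ / (4 * (C + 1)) := by
    rw [dist_comm]
    exact (mem_ball.mp hy).le.trans (min_le_right _ _)
  have h4 : dist b q ≤ ‖g a b‖ / (4 * (C + 1)) := by
    rw [dist_comm]
    exact (mem_ball.mp hq).le.trans (min_le_right _ _)
  have h5 : C * (‖g a b‖ / (4 * (C + 1))) ≤ ‖g a b‖ / 4 := by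
    rw [mul_div_assoc', div_le_div_iff₀ (by positivity) (by positivity)]
    nlinarith
  have h6 : ‖g a b‖ ≤ ‖g a b - g y b‖ + ‖g y b - g y q‖ + ‖g y q‖ := by
    have e : g a b = (g a b - g y b) + (g y b - g y q) + g y q := by ring
    conv_lhs => rw [e]
    exact (norm_add_le _ _).trans (add_le_add (norm_add_le _ _) (le_refl _))
  have h7 := mul_le_mul_of_nonneg_left h3 hC
  have h8 := mul_le_mul_of_nonneg_left h4 hC
  linarith

/-- the group law in affine coordinates -/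
theorem GLaw.local_mul {Z G : Set (Pr k N)} {mul : Pr k N → Pr k N → Pr k N} {one : Pr k N}
    (h : GLaw Z G mul one) {x u : Pr k N} (hxG : x ∈ G) (huG : u ∈ G) {i₀ i₁ i₂ : Fin (N + 1)}
    (hx : x.rep i₀ ≠ 0) (hu : u.rep i₁ ≠ 0) (hxu : (mul x u).rep i₂ ≠ 0) :
    ∃ (ε : ℝ) (μ : Fin (N + 1) → (Fin (N + 1) → k) → (Fin (N + 1) → k) → k), 0 < ε ∧
      (∀ i, Good (ball (aff i₀ x) ε) (ball (aff i₁ u) ε) (μ i)) ∧
      ∀ y ∈ G, ∀ v ∈ G, y.rep i₀ ≠ 0 → v.rep i₁ ≠ 0 → aff i₀ y ∈ ball (aff i₀ x) ε →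
        aff i₁ v ∈ ball (aff i₁ u) ε →
        (mul y v).rep i₂ ≠ 0 ∧ ∀ i, aff i₂ (mul y v) i = μ i (aff i₀ y) (aff i₁ v) := by
  obtain ⟨r, d, e, F, hF, h1, h2⟩ := h.regular
  obtain ⟨j, hj⟩ := h1 x hxG u huG
  have hsc : ∀ (y v : Pr k N) (i : Fin (N + 1)), eval (Sum.elim (aff i₀ y) (aff i₁ v)) (F j i) =
      (y.rep i₀)⁻¹ ^ d j * (v.rep i₁)⁻¹ ^ e j * eval (Sum.elim y.rep v.rep) (F j i) :=
    fun y v i => (hF j i).eval_smul _ _ _ _
  have hD0 : eval (Sum.elim (aff i₀ x) (aff i₁ u)) (F j i₂) ≠ 0 := by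
    rw [h2 x hxG u huG j hj, mk_rep_ne] at hxu
    rw [hsc]
    exact mul_ne_zero (mul_ne_zero (pow_ne_zero _ (inv_ne_zero hx))
      (pow_ne_zero _ (inv_ne_zero hu))) hxu
  have hg := fun i => good_vars (aff i₀ x) (aff i₁ u) 1 (F j i)
  obtain ⟨ε, hε, hε1, hnear⟩ := (hg i₂).near one_pos hD0
  have hpos : 0 < ‖eval (Sum.elim (aff i₀ x) (aff i₁ u)) (F j i₂)‖ / 2 := by
    have := norm_pos_iff.mpr hD0
    linarith
  refine ⟨ε, fun i y q => eval (Sum.elim y q) (F j i) * (eval (Sum.elim y q) (F j i₂))⁻¹, hε,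
    fun i => ?_, fun y hy v hv hyi hvi hyb hvb => ?_⟩
  · exact ((hg i).mono (ball_subset_ball hε1) (ball_subset_ball hε1)).mul
      (((hg i₂).mono (ball_subset_ball hε1) (ball_subset_ball hε1)).inv _ hpos hnear)
  · have h3 : eval (Sum.elim (aff i₀ y) (aff i₁ v)) (F j i₂) ≠ 0 := by
      rw [← norm_pos_iff]
      exact hpos.trans_le (hnear _ hyb _ hvb)
    have h4 : eval (Sum.elim y.rep v.rep) (F j i₂) ≠ 0 := by
      intro h0
      apply h3
      rw [hsc, h0, mul_zero]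
    have h5 : (fun i => eval (Sum.elim y.rep v.rep) (F j i)) ≠ 0 := fun h0 => h4 (congrFun h0 i₂)
    rw [h2 y hy v hv j h5]
    refine ⟨(mk_rep_ne _ _ _).mpr h4, fun i => ?_⟩
    beta_reduce
    rw [aff_mk, Pi.smul_apply, smul_eq_mul, hsc, hsc]
    have h6 : (y.rep i₀)⁻¹ ^ d j * (v.rep i₁)⁻¹ ^ e j ≠ 0 :=
      mul_ne_zero (pow_ne_zero _ (inv_ne_zero hyi)) (pow_ne_zero _ (inv_ne_zero hvi))
    rw [mul_inv, mul_comm, mul_mul_mul_comm, mul_inv_cancel₀ h6, _root_.one_mul]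

end loc

end Run7.h385
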