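import Mathlib
import Pool.Agent.Run7.h385.Germ2
import Pool.Agent.Run7.h385.Core
import Pool.Agent.Run7.h385.GroupLocal

set_option autoImplicit false

/-!
# Rational functions on the orbits of an element close to the identity
-/

namespace Run7.h385

open MvPolynomial Metric Filter Topology

section ring

variable {k : Type} [Field k] {N : ℕ}

/-- the regular functions `F / hh ^ M` on the set of the points of `Z` with `hh ≠ 0` -/
def ratSub (Z : Set (Pr k N)) (hh : MvPolynomial (Fin (N + 1)) k) (δ : ℕ)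
    (hδ : hh.IsHomogeneous δ) :
    Subalgebra k ({P : Pr k N // P ∈ Z ∧ eval P.rep hh ≠ 0} → k) where
  carrier := {u | ∃ (M : ℕ) (F : MvPolynomial (Fin (N + 1)) k), F.IsHomogeneous (M * δ) ∧
    ∀ P, u P = eval P.1.rep F / eval P.1.rep hh ^ M}
  mul_mem' := by
    rintro u v ⟨M, F, hF, hu⟩ ⟨M', F', hF', hv⟩
    refine ⟨M + M', F * F', ?_, fun P => ?_⟩
    · rw [add_mul]
      exact hF.mul hF'
    · rw [Pi.mul_apply, hu, hv, map_mul, pow_add, div_mul_div_comm]
  add_mem' := by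
    rintro u v ⟨M, F, hF, hu⟩ ⟨M', F', hF', hv⟩
    refine ⟨M + M', F * hh ^ M' + F' * hh ^ M, ?_, fun P => ?_⟩
    · refine IsHomogeneous.add ?_ ?_
      · have := hF.mul (hδ.pow M')
        rwa [show M * δ + δ * M' = (M + M') * δ by ring] at this
      · have := hF'.mul (hδ.pow M)
        rwa [show M' * δ + δ * M = (M + M') * δ by ring] at this
    · have hP := P.2.2
      rw [Pi.add_apply, hu, hv, map_add, map_mul, map_mul, map_pow, map_pow, pow_add]
      field_simp
  algebraMap_mem' := by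
    intro c
    refine ⟨0, C c, ?_, fun P => ?_⟩
    · rw [zero_mul]
      exact isHomogeneous_C _ _
    · rw [eval_C, pow_zero, div_one]
      rfl

lemma ratSub_isDomain (Z : Set (Pr k N)) (hh : MvPolynomial (Fin (N + 1)) k) (δ : ℕ)
    (hδ : hh.IsHomogeneous δ) (hne : ∃ P ∈ Z, eval P.rep hh ≠ 0)
    (irr : ∀ F G : MvPolynomial (Fin (N + 1)) k, (∃ e : ℕ, F.IsHomogeneous e) →
      (∃ e : ℕ, G.IsHomogeneous e) → (∀ P ∈ Z, eval P.rep (F * G) = 0) →
      (∀ P ∈ Z, eval P.rep F = 0) ∨ (∀ P ∈ Z, eval P.rep G = 0)) :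
    IsDomain (ratSub Z hh δ hδ) := by
  obtain ⟨P₀, hP₀, hP₀'⟩ := hne
  have hnt : Nontrivial (ratSub Z hh δ hδ) := by
    refine ⟨0, 1, fun h => ?_⟩
    have h1 := congrArg (fun u : ratSub Z hh δ hδ => u.1 ⟨P₀, hP₀, hP₀'⟩) h
    exact zero_ne_one h1
  have hnz : NoZeroDivisors (ratSub Z hh δ hδ) := by
    refine ⟨?_⟩
    rintro ⟨u, M, F, hF, hu⟩ ⟨v, M', F', hF', hv⟩ huv
    have h1 : ∀ P (hP : P ∈ Z) (hP' : eval P.rep hh ≠ 0), eval P.rep F * eval P.rep F' = 0 := by
      intro P hP hP'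
      have h2 : u ⟨P, hP, hP'⟩ * v ⟨P, hP, hP'⟩ = 0 :=
        congrArg (fun u : ratSub Z hh δ hδ => u.1 ⟨P, hP, hP'⟩) huv
      rw [hu, hv, div_mul_div_comm, div_eq_zero_iff] at h2
      rcases h2 with h2 | h2
      · exact h2
      · exact absurd h2 (mul_ne_zero (pow_ne_zero _ hP') (pow_ne_zero _ hP'))
    have h2 := irr F (F' * hh) ⟨_, hF⟩ ⟨_, hF'.mul hδ⟩ (fun P hP => by
      rw [map_mul, map_mul]
      by_cases hP' : eval P.rep hh = 0
      · rw [hP', mul_zero, mul_zero]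
      · rw [← mul_assoc, h1 P hP hP', zero_mul])
    rcases h2 with h2 | h2
    · left
      apply Subtype.ext
      funext P
      change u P = 0
      rw [hu, h2 P.1 P.2.1, zero_div]
    · right
      rcases irr F' hh ⟨_, hF'⟩ ⟨_, hδ⟩ h2 with h3 | h3
      · apply Subtype.ext
        funext P
        change v P = 0
        rw [hv, h3 P.1 P.2.1, zero_div]
      · exact absurd (h3 P₀ hP₀) hP₀'
  exact NoZeroDivisors.to_isDomain _

end ring

/-- sequences of points of a projective variety -/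
theorem germ_proj {k : Type} [NormedField k] [IsAlgClosed k] [CharZero k] {N : ℕ}
    (π : k) (hπ : π ≠ 0) (hπ1 : ‖π‖ < 1) (Z : Set (Pr k N))
    (closed : ∃ T : Set (MvPolynomial (Fin (N + 1)) k), (∀ F ∈ T, ∃ e : ℕ, F.IsHomogeneous e) ∧
      Z = {P : Pr k N | ∀ F ∈ T, eval P.rep F = 0})
    (irr : ∀ F G : MvPolynomial (Fin (N + 1)) k, (∃ e : ℕ, F.IsHomogeneous e) →
      (∃ e : ℕ, G.IsHomogeneous e) → (∀ P ∈ Z, eval P.rep (F * G) = 0) →
      (∀ P ∈ Z, eval P.rep F = 0) ∨ (∀ P ∈ Z, eval P.rep G = 0))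
    (fa fb : MvPolynomial (Fin (N + 1)) k) (d : ℕ) (hfa : fa.IsHomogeneous d)
    (hfb : fb.IsHomogeneous d)
    (hnc : ∃ P ∈ Z, ∃ Q ∈ Z, eval P.rep fa * eval Q.rep fb ≠ eval P.rep fb * eval Q.rep fa)
    (i₀ : Fin (N + 1)) (h₁ : MvPolynomial (Fin (N + 1)) k) (e₁ : ℕ) (hh₁ : h₁.IsHomogeneous e₁)
    (hne : ∃ P ∈ Z, eval P.rep (h₁ * fb * X i₀) ≠ 0) :
    ∃ (C : ℝ) (x : Pr k N) (P : ℕ → Pr k N), x ∈ Z ∧ eval x.rep (h₁ * fb * X i₀) ≠ 0 ∧
      (∀ n, P n ∈ Z ∧ eval (P n).rep (h₁ * fb * X i₀) ≠ 0) ∧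
      (∀ n, eval (P n).rep fa / eval (P n).rep fb ≠ eval x.rep fa / eval x.rep fb) ∧
      (∀ n, ‖aff i₀ (P n) - aff i₀ x‖ ≤
        C * ‖eval (P n).rep fa / eval (P n).rep fb - eval x.rep fa / eval x.rep fb‖) ∧
      Tendsto (fun n => eval (P n).rep fa / eval (P n).rep fb) atTop
        (𝓝 (eval x.rep fa / eval x.rep fb)) := by
  classical
  obtain ⟨hh, hhdef⟩ : ∃ hh, hh = h₁ * fb * X i₀ := ⟨_, rfl⟩
  obtain ⟨δ, hδdef⟩ : ∃ δ, δ = e₁ + d + 1 := ⟨_, rfl⟩
  have hδ : hh.IsHomogeneous δ := by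
    rw [hhdef, hδdef]
    exact (hh₁.mul hfb).mul (isHomogeneous_X _ _)
  rw [← hhdef] at hne ⊢
  have hdom := ratSub_isDomain Z hh δ hδ hne irr
  obtain ⟨P₀, hP₀, hP₀'⟩ := hne
  -- nonvanishing of the factors
  have hev : ∀ x : Fin (N + 1) → k, eval x hh = eval x h₁ * eval x fb * x i₀ := by
    intro x
    rw [hhdef, map_mul, map_mul, eval_X]
  have hfac : ∀ P : Pr k N, eval P.rep hh ≠ 0 → eval P.rep fb ≠ 0 ∧ P.rep i₀ ≠ 0 := by
    intro P hP
    rw [hev] at hP
    exact ⟨right_ne_zero_of_mul (left_ne_zero_of_mul hP), right_ne_zero_of_mul hP⟩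
  -- the coordinate functions
  have ha1 : ∀ i, (fun P : {P : Pr k N // P ∈ Z ∧ eval P.rep hh ≠ 0} => aff i₀ P.1 i) ∈
      ratSub Z hh δ hδ := by
    intro i
    refine ⟨1, X i * (h₁ * fb), ?_, fun P => ?_⟩
    · rw [one_mul, hδdef]
      have := (isHomogeneous_X k i).mul (hh₁.mul hfb)
      rwa [show 1 + (e₁ + d) = e₁ + d + 1 by ring] at this
    · have h1 := P.2.2
      have h2 := (hfac P.1 h1).2
      rw [hev] at h1
      have h3 := left_ne_zero_of_mul h1
      beta_reduce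
      rw [pow_one, hev, map_mul, map_mul, eval_X]
      unfold aff
      rw [Pi.smul_apply, smul_eq_mul]
      have h4 := left_ne_zero_of_mul h3
      have h5 := right_ne_zero_of_mul h3
      field_simp
  have ha2 : (fun P : {P : Pr k N // P ∈ Z ∧ eval P.rep hh ≠ 0} => (eval (aff i₀ P.1) hh)⁻¹) ∈
      ratSub Z hh δ hδ := by
    refine ⟨1, X i₀ ^ δ, ?_, fun P => ?_⟩
    · have := (isHomogeneous_X k i₀).pow δ
      rwa [one_mul] at this ⊢
    · beta_reduce
      rw [eval_aff hδ, pow_one, map_pow, eval_X, mul_inv, inv_pow, inv_inv, div_eq_mul_inv]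
  let a : Option (Fin (N + 1)) → ratSub Z hh δ hδ := fun s => match s with
    | some i => ⟨_, ha1 i⟩
    | none => ⟨_, ha2⟩
  have haeval : ∀ (F : MvPolynomial (Option (Fin (N + 1))) k)
      (P : {P : Pr k N // P ∈ Z ∧ eval P.rep hh ≠ 0}),
      (aeval a F : ratSub Z hh δ hδ).1 P = eval (fun s => (a s).1 P) F := by
    intro F P
    let ev : ratSub Z hh δ hδ →ₐ[k] k :=
      (Pi.evalAlgHom k (fun _ : {P : Pr k N // P ∈ Z ∧ eval P.rep hh ≠ 0} => k) P).comp
        (ratSub Z hh δ hδ).val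
    have h1 := DFunLike.congr_fun (comp_aeval a ev) F
    exact h1
  have hren : ∀ (F : MvPolynomial (Fin (N + 1)) k)
      (P : {P : Pr k N // P ∈ Z ∧ eval P.rep hh ≠ 0}),
      eval (fun s => (a s).1 P) (rename some F) = eval (aff i₀ P.1) F := by
    intro F P
    rw [eval_rename]
    rfl
  -- the function
  set Φ : MvPolynomial (Option (Fin (N + 1))) k :=
    rename some (fa * (h₁ * X i₀)) * X none with hΦ
  have hΦeval : ∀ (b : Option (Fin (N + 1)) → k), eval (fun i => b (some i)) hh * b none = 1 →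
      eval b Φ = eval (fun i => b (some i)) fa / eval (fun i => b (some i)) fb := by
    intro b hb
    have h0 : eval (fun i => b (some i)) hh ≠ 0 := left_ne_zero_of_mul (by rw [hb]; exact one_ne_zero)
    have h1 : b none = (eval (fun i => b (some i)) hh)⁻¹ := by
      apply mul_left_cancel₀ h0
      rw [hb, mul_inv_cancel₀ h0]
    rw [hΦ, map_mul, eval_rename, eval_X, h1, map_mul, map_mul, eval_X]
    rw [hev] at h0 ⊢
    have h2 := left_ne_zero_of_mul h0
    have h3 := right_ne_zero_of_mul h0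
    have h4 := left_ne_zero_of_mul h2
    have h5 := right_ne_zero_of_mul h2
    change eval (fun i => b (some i)) fa * (eval (fun i => b (some i)) h₁ * b (some i₀)) *
      (eval (fun i => b (some i)) h₁ * eval (fun i => b (some i)) fb * b (some i₀))⁻¹ = _
    field_simp
  have hratio : ∀ P : Pr k N, P.rep i₀ ≠ 0 →
      eval (aff i₀ P) fa / eval (aff i₀ P) fb = eval P.rep fa / eval P.rep fb := by
    intro P hP
    rw [eval_aff hfa, eval_aff hfb]
    exact mul_div_mul_left _ _ (pow_ne_zero _ (inv_ne_zero hP))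
  have hΦP : ∀ P : {P : Pr k N // P ∈ Z ∧ eval P.rep hh ≠ 0},
      (aeval a Φ : ratSub Z hh δ hδ).1 P = eval P.1.rep fa / eval P.1.rep fb := by
    intro P
    rw [haeval, hΦeval]
    · exact hratio P.1 (hfac P.1 P.2.2).2
    · have h1 : eval (aff i₀ P.1) hh ≠ 0 := by
        rw [Ne, eval_aff_ne (hfac P.1 P.2.2).2 hδ]
        exact P.2.2
      exact mul_inv_cancel₀ h1
  have hΦc : ∀ c : k, aeval a Φ ≠ algebraMap k (ratSub Z hh δ hδ) c := by
    intro c hc
    obtain ⟨P, hP, Q, hQ, hPQ⟩ := hnc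
    have h1 : ∀ P ∈ Z, eval P.rep hh ≠ 0 → eval P.rep fa = c * eval P.rep fb := by
      intro P hP hP'
      have h2 := hΦP ⟨P, hP, hP'⟩
      rw [hc] at h2
      have h3 : c = eval P.rep fa / eval P.rep fb := h2
      rw [eq_div_iff (hfac P hP').1] at h3
      exact h3.symm
    have h2 := irr (fa - C c * fb) hh ⟨d, hfa.sub (by
      have := (isHomogeneous_C (Fin (N + 1)) c).mul hfb
      rwa [zero_add] at this)⟩ ⟨_, hδ⟩ (fun P hP => by
        rw [map_mul, map_sub, map_mul, eval_C]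
        by_cases hP' : eval P.rep hh = 0
        · rw [hP', mul_zero]
        · rw [h1 P hP hP', sub_self, zero_mul])
    rcases h2 with h2 | h2
    · have h3 := h2 P hP
      have h4 := h2 Q hQ
      rw [map_sub, map_mul, eval_C, sub_eq_zero] at h3 h4
      apply hPQ
      rw [h3, h4]
      ring
    · exact hP₀' (h2 P₀ hP₀)
  obtain ⟨C, β, b, hβ, hb, h1, h2, h3⟩ := germ a Φ hΦc π hπ hπ1
  -- the relations
  have hpt : ∀ β : Option (Fin (N + 1)) → k, (∀ P : MvPolynomial (Option (Fin (N + 1))) k,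
      aeval a P = 0 → eval β P = 0) →
      ∃ x : Pr k N, x ∈ Z ∧ eval x.rep hh ≠ 0 ∧ (∀ i, aff i₀ x i = β (some i)) ∧
        eval β Φ = eval x.rep fa / eval x.rep fb := by
    intro β hβ
    set y : Fin (N + 1) → k := fun i => β (some i) with hy
    have hrel1 : y i₀ = 1 := by
      have := hβ (X (some i₀) - 1) (by
        apply Subtype.ext
        funext P
        rw [haeval, map_sub, eval_X, map_one]
        change aff i₀ P.1 i₀ - 1 = 0
        rw [aff_self (hfac P.1 P.2.2).2, sub_self])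
      rw [map_sub, eval_X, map_one, sub_eq_zero] at this
      exact this
    have hrel2 : eval y hh * β none = 1 := by
      have := hβ (rename some hh * X none - 1) (by
        apply Subtype.ext
        funext P
        rw [haeval, map_sub, map_mul, hren, eval_X, map_one]
        change eval (aff i₀ P.1) hh * (eval (aff i₀ P.1) hh)⁻¹ - 1 = 0
        have h1 : eval (aff i₀ P.1) hh ≠ 0 := by
          rw [Ne, eval_aff_ne (hfac P.1 P.2.2).2 hδ]
          exact P.2.2
        rw [mul_inv_cancel₀ h1, sub_self])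
      rw [map_sub, map_mul, eval_rename, eval_X, map_one, sub_eq_zero] at this
      exact this
    have hy0 : y ≠ 0 := fun h => by
      rw [h] at hrel1
      exact zero_ne_one hrel1
    have haffx : aff i₀ (Projectivization.mk k y hy0) = y := by
      rw [aff_mk, hrel1, inv_one, one_smul]
    have hrepx : (Projectivization.mk k y hy0).rep i₀ ≠ 0 := by
      rw [mk_rep_ne, hrel1]
      exact one_ne_zero
    refine ⟨Projectivization.mk k y hy0, ?_, ?_, fun i => congrFun haffx i, ?_⟩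
    · obtain ⟨T, hT, hZ⟩ := closed
      have hZ' : ∀ P, P ∈ Z ↔ ∀ F ∈ T, eval P.rep F = 0 := by
        intro P
        conv_lhs => rw [hZ]
        rfl
      rw [hZ']
      intro F hF
      obtain ⟨e, he⟩ := hT F hF
      rw [← eval_aff_ne hrepx he, haffx]
      have := hβ (rename some F) (by
        apply Subtype.ext
        funext P
        rw [haeval, hren]
        change eval (aff i₀ P.1) F = 0
        rw [eval_aff_ne (hfac P.1 P.2.2).2 he]
        exact (hZ' P.1).mp P.2.1 F hF)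
      rw [eval_rename] at this
      exact this
    · rw [Ne, ← eval_aff_ne hrepx hδ, haffx]
      exact left_ne_zero_of_mul (by rw [hrel2]; exact one_ne_zero)
    · rw [hΦeval β hrel2, ← hratio _ hrepx, haffx]
  obtain ⟨x, hx1, hx2, hx3, hx4⟩ := hpt β hβ
  choose P hP1 hP2 hP3 hP4 using fun n => hpt (b n) (hb n)
  refine ⟨|C|, x, P, hx1, hx2, fun n => ⟨hP1 n, hP2 n⟩, fun n => ?_, fun n => ?_, ?_⟩
  · rw [← hx4, ← hP4]
    exact h1 n
  · rw [← hx4, ← hP4]
    rw [pi_norm_le_iff_of_nonneg (by positivity)]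
    intro i
    rw [Pi.sub_apply, hP3, hx3]
    refine (h2 n (some i)).trans ?_
    apply mul_le_mul_of_nonneg_right (le_abs_self C) (norm_nonneg _)
  · simp only [← hx4, ← hP4]
    exact h3

end Run7.h385
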