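import Mathlib
import Pool.Agent.Run7.h385.GroupPadic

set_option autoImplicit false

/-!
# Rational functions on the orbits of an element close to the identity, continued
-/

namespace Run7.h385

open MvPolynomial Metric Filter Topology

lemma irr_mul {k : Type} [Field k] {N : ℕ} {Z : Set (Pr k N)}
    (irr : ∀ F G : MvPolynomial (Fin (N + 1)) k, (∃ e : ℕ, F.IsHomogeneous e) →
      (∃ e : ℕ, G.IsHomogeneous e) → (∀ P ∈ Z, eval P.rep (F * G) = 0) →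
      (∀ P ∈ Z, eval P.rep F = 0) ∨ (∀ P ∈ Z, eval P.rep G = 0))
    {F G : MvPolynomial (Fin (N + 1)) k} (hF : ∃ e : ℕ, F.IsHomogeneous e)
    (hG : ∃ e : ℕ, G.IsHomogeneous e) (h1 : ∃ P ∈ Z, eval P.rep F ≠ 0)
    (h2 : ∃ P ∈ Z, eval P.rep G ≠ 0) : ∃ P ∈ Z, eval P.rep (F * G) ≠ 0 := by
  by_contra hcon
  push Not at hcon
  obtain ⟨P, hP, hP'⟩ := h1
  obtain ⟨Q, hQ, hQ'⟩ := h2
  rcases irr F G hF hG hcon with h | h
  · exact hP' (h P hP)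
  · exact hQ' (h Q hQ)

lemma lt_aux {t a c : ℝ} (ht : 0 ≤ t) (hc : 0 ≤ c) (h : t < a / (c + 1)) : c * t < a := by
  rw [lt_div_iff₀ (by positivity)] at h
  nlinarith

lemma lt_aux2 {t c : ℝ} (ht : 0 < t) (h : c * t < 1) : (c * t) * t < t := by
  nlinarith

section

variable {k : Type} [NormedField k] {N : ℕ}

lemma exists_rep_ne {k : Type} [Field k] {N : ℕ} (P : Pr k N) : ∃ i, P.rep i ≠ 0 := by
  by_contra h
  push Not at h
  exact P.rep_nonzero (funext h)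

/-- the affine coordinates of `y v` for `v` close to the identity -/
lemma GLaw.near_one {Z G : Set (Pr k N)} {mul : Pr k N → Pr k N → Pr k N} {one : Pr k N}
    (h : GLaw Z G mul one) (hmul_one : ∀ P ∈ G, mul P one = P) {x : Pr k N} (hxG : x ∈ G)
    {i₀ i₁ : Fin (N + 1)} (hx : x.rep i₀ ≠ 0) (h1 : one.rep i₁ ≠ 0) :
    ∃ (ε C : ℝ) (μ : Fin (N + 1) → (Fin (N + 1) → k) → (Fin (N + 1) → k) → k), 0 < ε ∧ 0 ≤ C ∧
      (∀ i, Good (ball (aff i₀ x) ε) (ball (aff i₁ one) ε) (μ i)) ∧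
      (∀ y ∈ G, ∀ v ∈ G, y.rep i₀ ≠ 0 → v.rep i₁ ≠ 0 → aff i₀ y ∈ ball (aff i₀ x) ε →
        aff i₁ v ∈ ball (aff i₁ one) ε →
        (mul y v).rep i₀ ≠ 0 ∧ (∀ i, aff i₀ (mul y v) i = μ i (aff i₀ y) (aff i₁ v)) ∧
        ‖aff i₀ (mul y v) - aff i₀ y‖ ≤ C * ‖aff i₁ v - aff i₁ one‖) := by
  obtain ⟨ε, μ, hε, hμ, hloc⟩ := h.local_mul hxG h.one_mem hx h1
    (i₂ := i₀) (by rw [hmul_one x hxG]; exact hx)
  choose C hC0 hC using hμ
  refine ⟨ε, ∑ i, C i, μ, hε, Finset.sum_nonneg fun i _ => hC0 i,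
    fun i => ⟨C i, hC0 i, hC i⟩, fun y hy v hv hyi hvi hyb hvb => ?_⟩
  obtain ⟨h2, h3⟩ := hloc y hy v hv hyi hvi hyb hvb
  refine ⟨h2, h3, ?_⟩
  rw [pi_norm_le_iff_of_nonneg (by
    have : 0 ≤ ∑ i, C i := Finset.sum_nonneg fun i _ => hC0 i
    positivity)]
  intro i
  obtain ⟨-, h4⟩ := hloc y hy one h.one_mem hyi h1 hyb (mem_ball_self hε)
  rw [hmul_one y hy] at h4
  rw [Pi.sub_apply, h3, h4]
  refine ((hC i _ hyb _ hyb _ hvb _ (mem_ball_self hε)).2.2.1).trans ?_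
  rw [dist_eq_norm]
  apply mul_le_mul_of_nonneg_right _ (norm_nonneg _)
  exact Finset.single_le_sum (f := C) (fun i _ => hC0 i) (Finset.mem_univ i)

theorem GLaw.orbit [IsUltrametricDist k] [IsAlgClosed k] [CharZero k] (p : ℕ) (hp : p.Prime)
    (hp1 : ‖(p : k)‖ < 1) {Z G : Set (Pr k N)} {mul : Pr k N → Pr k N → Pr k N} {one : Pr k N}
    (h : GLaw Z G mul one) {n : ℕ} (f : Fin (n + 1) → MvPolynomial (Fin (N + 1)) k) (d : ℕ)
    (hf : ∀ i, (f i).IsHomogeneous d) (g : MvPolynomial (Fin (N + 1)) k) (e : ℕ)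
    (hg : g.IsHomogeneous e) (hgP : ∃ P ∈ G, eval P.rep g ≠ 0) (a b : Fin (n + 1))
    (hnc : ∃ P ∈ G, ∃ Q ∈ G, eval P.rep (f a) * eval Q.rep (f b) ≠
      eval P.rep (f b) * eval Q.rep (f a)) :
    let _ := h.group
    ∃ x Q : G, (∀ m : ℕ, eval ((x * Q ^ m : G) : Pr k N).rep g ≠ 0 ∧
      eval ((x * Q ^ m : G) : Pr k N).rep (f b) ≠ 0) ∧
      Function.Injective fun m : ℕ => eval ((x * Q ^ m : G) : Pr k N).rep (f a) /
        eval ((x * Q ^ m : G) : Pr k N).rep (f b) := by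
  intro iG
  have hGZ : ∀ P ∈ G, P ∈ Z := by
    obtain ⟨T, -, hT⟩ := h.isOpen
    intro P hP
    rw [hT] at hP
    exact hP.1
  obtain ⟨F₁, e₁, hF₁, hF₁one, hF₁G⟩ : ∃ (F₁ : MvPolynomial (Fin (N + 1)) k) (e₁ : ℕ),
      F₁.IsHomogeneous e₁ ∧ eval one.rep F₁ ≠ 0 ∧ ∀ P ∈ Z, eval P.rep F₁ ≠ 0 → P ∈ G := by
    obtain ⟨T, hT, hG⟩ := h.isOpen
    have hG' : ∀ P, P ∈ G ↔ P ∈ Z ∧ ∃ F ∈ T, eval P.rep F ≠ 0 := by
      intro P
      conv_lhs => rw [hG]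
      rfl
    obtain ⟨-, F, hF, hF1⟩ := (hG' one).mp h.one_mem
    obtain ⟨e₁, he₁⟩ := hT F hF
    exact ⟨F, e₁, he₁, hF1, fun P hP hPF => (hG' P).mpr ⟨hP, F, hF, hPF⟩⟩
  have hmul_one : ∀ P ∈ G, mul P one = P := by
    intro P hP
    have h1 := mul_one (⟨P, hP⟩ : G)
    exact congrArg Subtype.val h1
  obtain ⟨i₀, hi₀⟩ := exists_rep_ne one
  -- the open set
  have hne : ∃ P ∈ Z, eval P.rep (F₁ * g * f b * X i₀) ≠ 0 := by
    refine irr_mul h.irr ⟨_, (hF₁.mul hg).mul (hf b)⟩ ⟨_, isHomogeneous_X _ _⟩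
      (irr_mul h.irr ⟨_, hF₁.mul hg⟩ ⟨_, hf b⟩ (irr_mul h.irr ⟨_, hF₁⟩ ⟨_, hg⟩ ?_ ?_) ?_) ?_
    · exact ⟨one, hGZ _ h.one_mem, hF₁one⟩
    · obtain ⟨P, hP, hP'⟩ := hgP
      exact ⟨P, hGZ P hP, hP'⟩
    · by_contra hcon
      push Not at hcon
      obtain ⟨P, hP, Q, hQ, hPQ⟩ := hnc
      apply hPQ
      rw [hcon P (hGZ P hP), hcon Q (hGZ Q hQ), mul_zero, zero_mul]
    · exact ⟨one, hGZ _ h.one_mem, by rw [eval_X]; exact hi₀⟩
  have hp0 : (p : k) ≠ 0 := by exact_mod_cast hp.ne_zero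
  obtain ⟨C, x, P, hxZ, hx, hP, hne', hlip, hlim⟩ := germ_proj (p : k) hp0 hp1 Z h.closed h.irr
    (f a) (f b) d (hf a) (hf b) (by
      obtain ⟨P, hP, Q, hQ, hPQ⟩ := hnc
      exact ⟨P, hGZ P hP, Q, hGZ Q hQ, hPQ⟩) i₀ (F₁ * g) (e₁ + e) (hF₁.mul hg) hne
  obtain ⟨hh, hhdef⟩ : ∃ hh, hh = F₁ * g * f b * X i₀ := ⟨_, rfl⟩
  rw [← hhdef] at hx hP
  have hhh : hh.IsHomogeneous (e₁ + e + d + 1) := by
    rw [hhdef]
    exact ((hF₁.mul hg).mul (hf b)).mul (isHomogeneous_X _ _)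
  have hfac : ∀ P : Pr k N, eval P.rep hh ≠ 0 → eval P.rep F₁ ≠ 0 ∧ eval P.rep g ≠ 0 ∧
      eval P.rep (f b) ≠ 0 ∧ P.rep i₀ ≠ 0 := by
    intro P hP
    rw [hhdef, map_mul, map_mul, map_mul, eval_X] at hP
    have h1 := left_ne_zero_of_mul hP
    have h2 := left_ne_zero_of_mul h1
    exact ⟨left_ne_zero_of_mul h2, right_ne_zero_of_mul h2, right_ne_zero_of_mul h1,
      right_ne_zero_of_mul hP⟩
  obtain ⟨hx1, hx2, hx3, hx4⟩ := hfac x hx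
  have hxG : x ∈ G := hF₁G x hxZ hx1
  have hPG : ∀ n, P n ∈ G := fun n => hF₁G (P n) (hP n).1 (hfac _ (hP n).2).1
  have hPi : ∀ n, (P n).rep i₀ ≠ 0 := fun n => (hfac _ (hP n).2).2.2.2
  -- the coordinates near the identity
  set z : G → (Fin (N + 1) → k) := fun Q => aff i₀ (Q : Pr k N) - aff i₀ one with hz
  set W : G → Prop := fun Q => (Q : Pr k N).rep i₀ ≠ 0 with hW
  have hball : ∀ (Q : G) (ε : ℝ), ‖z Q‖ < ε ↔ aff i₀ (Q : Pr k N) ∈ ball (aff i₀ one) ε := by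
    intro Q ε
    rw [mem_ball, dist_eq_norm]
  obtain ⟨ε₁, C₁, μ₁, hε₁, hC₁, hμ₁, hloc₁⟩ := h.near_one hmul_one h.one_mem hi₀ hi₀
  obtain ⟨ε₂, C₂, μ₂, hε₂, hC₂, hμ₂, hloc₂⟩ := h.near_one hmul_one hxG hx4 hi₀
  choose D₁ hD₁0 hD₁ using hμ₁
  -- the function `ψ`
  have hμ₂x : ∀ i, μ₂ i (aff i₀ x) (aff i₀ one) = aff i₀ x i := by
    intro i
    obtain ⟨-, h2, -⟩ := hloc₂ x hxG one h.one_mem hx4 hi₀ (mem_ball_self hε₂)
      (mem_ball_self hε₂)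
    rw [← h2 i, hmul_one x hxG]
  have hgood : ∀ F : MvPolynomial (Fin (N + 1)) k, Good (ball (aff i₀ x) ε₂)
      (ball (aff i₀ one) ε₂) (fun y q => eval (fun i => μ₂ i y q) F) := fun F =>
    good_poly _ hμ₂ F
  have hval : ∀ F : MvPolynomial (Fin (N + 1)) k,
      eval (fun i => μ₂ i (aff i₀ x) (aff i₀ one)) F = eval (aff i₀ x) F := by
    intro F
    congr 1
    congr 1
    funext i
    exact hμ₂x i
  have hfbx : eval (fun i => μ₂ i (aff i₀ x) (aff i₀ one)) (f b) ≠ 0 := by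
    rw [hval, Ne, eval_aff_ne hx4 (hf b)]
    exact hx3
  obtain ⟨ε₃, hε₃, hε₃₂, hnear⟩ := (hgood (f b)).near hε₂ hfbx
  have hpos3 : 0 < ‖eval (fun i => μ₂ i (aff i₀ x) (aff i₀ one)) (f b)‖ / 2 := by
    have := norm_pos_iff.mpr hfbx
    linarith
  have hψ : Good (ball (aff i₀ x) ε₃) (ball (aff i₀ one) ε₃)
      (fun y q => eval (fun i => μ₂ i y q) (f a) * (eval (fun i => μ₂ i y q) (f b))⁻¹) :=
    ((hgood (f a)).mono (ball_subset_ball hε₃₂) (ball_subset_ball hε₃₂)).mul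
      (((hgood (f b)).mono (ball_subset_ball hε₃₂) (ball_subset_ball hε₃₂)).inv _ hpos3 hnear)
  obtain ⟨Cψ, hCψ0, hCψ⟩ := hψ
  set φ : G → k := fun Q => eval (Q : Pr k N).rep (f a) / eval (Q : Pr k N).rep (f b) with hφ
  have hratio : ∀ P : Pr k N, P.rep i₀ ≠ 0 →
      eval (aff i₀ P) (f a) / eval (aff i₀ P) (f b) = eval P.rep (f a) / eval P.rep (f b) := by
    intro P hP
    rw [eval_aff (hf a), eval_aff (hf b)]
    exact mul_div_mul_left _ _ (pow_ne_zero _ (inv_ne_zero hP))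
  have hφψ : ∀ y v : G, W y → W v → aff i₀ (y : Pr k N) ∈ ball (aff i₀ x) ε₃ → ‖z v‖ < ε₃ →
      φ (y * v) = eval (fun i => μ₂ i (aff i₀ (y : Pr k N)) (aff i₀ (v : Pr k N))) (f a) *
        (eval (fun i => μ₂ i (aff i₀ (y : Pr k N)) (aff i₀ (v : Pr k N))) (f b))⁻¹ := by
    intro y v hy hv hyb hvb
    obtain ⟨h2, h3, -⟩ := hloc₂ y y.2 v v.2 hy hv (ball_subset_ball hε₃₂ hyb)
      (ball_subset_ball hε₃₂ ((hball v _).mp hvb))
    have h4 : (fun i => μ₂ i (aff i₀ (y : Pr k N)) (aff i₀ (v : Pr k N))) =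
        aff i₀ (mul (y : Pr k N) (v : Pr k N)) := by
      funext i
      rw [h3]
    rw [h4, ← div_eq_mul_inv, hratio _ h2]
    rfl
  -- the radius
  set ε := min ε₁ (min ε₃ (ε₃ / (2 * (C₂ + 1)))) with hε
  have hεpos : 0 < ε := by positivity
  have hεε₁ : ε ≤ ε₁ := min_le_left _ _
  have hεε₃ : ε ≤ ε₃ := (min_le_right _ _).trans (min_le_left _ _)
  have hεε₃' : C₂ * ε ≤ ε₃ / 2 := by
    have h1 : ε ≤ ε₃ / (2 * (C₂ + 1)) := (min_le_right _ _).trans (min_le_right _ _)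
    calc C₂ * ε ≤ (C₂ + 1) * (ε₃ / (2 * (C₂ + 1))) := by
          apply mul_le_mul (by linarith) h1 hεpos.le (by linarith)
      _ = ε₃ / 2 := by field_simp
  have hxS : ∀ S : G, W S → ‖z S‖ < ε → W (⟨x, hxG⟩ * S) ∧
      ‖aff i₀ ((⟨x, hxG⟩ * S : G) : Pr k N) - aff i₀ x‖ ≤ C₂ * ‖z S‖ := by
    intro S hS hSε
    obtain ⟨h2, -, h3⟩ := hloc₂ x hxG S S.2 hx4 hS (mem_ball_self hε₂)
      (ball_subset_ball (hεε₃.trans hε₃₂) ((hball S _).mp hSε))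
    exact ⟨h2, h3⟩
  have hone : W 1 := hi₀
  have hz1 : z 1 = 0 := sub_self _
  have hmulz : ∀ Q R : G, W Q → W R → ‖z Q‖ < ε → ‖z R‖ < ε →
      W (Q * R) ∧ ‖z (Q * R) - z Q - z R‖ ≤ (∑ i, D₁ i + Cψ * C₂) * ‖z Q‖ * ‖z R‖ := by
    intro Q R hQ hR hQε hRε
    have hQb := ball_subset_ball hεε₁ ((hball Q _).mp hQε)
    have hRb := ball_subset_ball hεε₁ ((hball R _).mp hRε)
    obtain ⟨h2, h3, -⟩ := hloc₁ Q Q.2 R R.2 hQ hR hQb hRb
    refine ⟨h2, ?_⟩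
    have hsum : 0 ≤ ∑ i, D₁ i := Finset.sum_nonneg fun i _ => hD₁0 i
    rw [pi_norm_le_iff_of_nonneg (by positivity)]
    intro i
    obtain ⟨-, h4, -⟩ := hloc₁ Q Q.2 one h.one_mem hQ hi₀ hQb (mem_ball_self hε₁)
    obtain ⟨-, h5, -⟩ := hloc₁ one h.one_mem R R.2 hi₀ hR (mem_ball_self hε₁) hRb
    obtain ⟨-, h6, -⟩ := hloc₁ one h.one_mem one h.one_mem hi₀ hi₀ (mem_ball_self hε₁)
      (mem_ball_self hε₁)
    rw [hmul_one Q Q.2] at h4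
    rw [h.one_mul R R.2] at h5
    rw [hmul_one one h.one_mem] at h6
    have h7 := (hD₁ i _ hQb _ (mem_ball_self hε₁) _ hRb _ (mem_ball_self hε₁)).2.2.2
    rw [← h3 i, ← h4 i, ← h5 i, ← h6 i] at h7
    have e1 : (z (Q * R) - z Q - z R) i = aff i₀ (mul (Q : Pr k N) (R : Pr k N)) i -
        aff i₀ (R : Pr k N) i - aff i₀ (Q : Pr k N) i + aff i₀ one i := by
      simp only [hz, Pi.sub_apply]
      rw [show ((Q * R : G) : Pr k N) = mul (Q : Pr k N) (R : Pr k N) from rfl]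
      ring
    rw [e1]
    refine h7.trans ?_
    rw [dist_eq_norm, dist_eq_norm]
    apply mul_le_mul_of_nonneg_right _ (norm_nonneg _)
    apply mul_le_mul_of_nonneg_right _ (norm_nonneg _)
    have := Finset.single_le_sum (f := D₁) (fun i _ => hD₁0 i) (Finset.mem_univ i)
    have h8 : 0 ≤ Cψ * C₂ := by positivity
    linarith
  have hmulφ : ∀ S Q R : G, W S → W Q → W R → ‖z S‖ < ε → ‖z Q‖ < ε → ‖z R‖ < ε →
      ‖φ (⟨x, hxG⟩ * S * Q * R) - φ (⟨x, hxG⟩ * S * Q) - φ (⟨x, hxG⟩ * S * R) +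
        φ (⟨x, hxG⟩ * S)‖ ≤ (∑ i, D₁ i + Cψ * C₂) * ‖z Q‖ * ‖z R‖ := by
    intro S Q R hS hQ hR hSε hQε hRε
    obtain ⟨h1, h2⟩ := hxS S hS hSε
    set y : G := ⟨x, hxG⟩ * S with hy
    have hyb : aff i₀ (y : Pr k N) ∈ ball (aff i₀ x) ε₃ := by
      rw [mem_ball, dist_eq_norm]
      have : C₂ * ‖z S‖ ≤ C₂ * ε := mul_le_mul_of_nonneg_left hSε.le hC₂
      linarith
    have hQb := ball_subset_ball (hεε₃.trans hε₃₂) ((hball Q _).mp hQε)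
    obtain ⟨h3, -, h4⟩ := hloc₂ y y.2 Q Q.2 h1 hQ (ball_subset_ball hε₃₂ hyb) hQb
    have h4' : ‖aff i₀ ((y * Q : G) : Pr k N) - aff i₀ (y : Pr k N)‖ ≤ C₂ * ‖z Q‖ := h4
    have hyQb : aff i₀ ((y * Q : G) : Pr k N) ∈ ball (aff i₀ x) ε₃ := by
      rw [mem_ball, dist_eq_norm]
      have h5 : C₂ * ‖z S‖ ≤ C₂ * ε := mul_le_mul_of_nonneg_left hSε.le hC₂
      have h6 : C₂ * ‖z Q‖ ≤ C₂ * ε := mul_le_mul_of_nonneg_left hQε.le hC₂
      have e1 : aff i₀ ((y * Q : G) : Pr k N) - aff i₀ x =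
        (aff i₀ ((y * Q : G) : Pr k N) - aff i₀ (y : Pr k N)) + (aff i₀ (y : Pr k N) - aff i₀ x) := by
        abel
      rw [e1]
      -- use the ultrametric inequality
      refine lt_of_le_of_lt (IsUltrametricDist.norm_add_le_max _ _) (max_lt ?_ ?_)
      · linarith
      · linarith
    have h1W : ‖z 1‖ < ε₃ := by rw [hz1, norm_zero]; exact hε₃
    have hRε₃ : ‖z R‖ < ε₃ := hRε.trans_le hεε₃
    have e1 := hφψ (y * Q) R h3 hR hyQb hRε₃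
    have e2 := hφψ (y * Q) 1 h3 hone hyQb h1W
    have e3 := hφψ y R h1 hR hyb hRε₃
    have e4 := hφψ y 1 h1 hone hyb h1W
    rw [mul_one] at e2 e4
    rw [e1, e2, e3, e4]
    have h5 := (hCψ _ hyQb _ hyb _ ((hball R _).mp hRε₃) _ ((hball 1 _).mp h1W)).2.2.2
    have e5 : ∀ a b c d : k, a - b - c + d = a - c - b + d := fun a b c d => by ring
    rw [e5]
    refine h5.trans ?_
    rw [dist_eq_norm, dist_eq_norm]
    have h6 : ‖aff i₀ ((R : G) : Pr k N) - aff i₀ ((1 : G) : Pr k N)‖ = ‖z R‖ := rfl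
    rw [h6]
    apply mul_le_mul_of_nonneg_right _ (norm_nonneg _)
    have hsum : 0 ≤ (∑ i, D₁ i) * ‖z Q‖ :=
      mul_nonneg (Finset.sum_nonneg fun i _ => hD₁0 i) (norm_nonneg _)
    have h7 := mul_le_mul_of_nonneg_left h4' hCψ0
    linarith
  have hsum : 0 ≤ ∑ i, D₁ i := Finset.sum_nonneg fun i _ => hD₁0 i
  obtain ⟨δ, D, hδ, hD, hcore⟩ := core_inj p hp hp1 z W hone hz1 (∑ i, D₁ i + Cψ * C₂) ε
    (by positivity) hεpos hmulz φ ⟨x, hxG⟩ hmulφ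
  -- the elements `x⁻¹ P n`
  set x' : G := ⟨x, hxG⟩ with hx'
  obtain ⟨i₂, hi₂⟩ := exists_rep_ne ((x'⁻¹ : G) : Pr k N)
  have hinvmul : mul ((x'⁻¹ : G) : Pr k N) x = one := by
    have h1 := inv_mul_cancel x'
    exact congrArg Subtype.val h1
  obtain ⟨ε₄, μ₄, hε₄, hμ₄, hloc₄⟩ := h.local_mul (x'⁻¹).2 hxG hi₂ hx4 (i₂ := i₀)
    (by rw [hinvmul]; exact hi₀)
  choose D₄ hD₄0 hD₄ using hμ₄
  have hS₄ : 0 ≤ ∑ i, D₄ i := Finset.sum_nonneg fun i _ => hD₄0 i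
  set t : ℕ → ℝ := fun n => ‖eval (P n).rep (f a) / eval (P n).rep (f b) -
    eval x.rep (f a) / eval x.rep (f b)‖ with ht
  have htlim : Tendsto t atTop (𝓝 0) := by
    have := (tendsto_iff_norm_sub_tendsto_zero).mp hlim
    exact this
  have htpos : ∀ n, 0 < t n := fun n => norm_pos_iff.mpr (sub_ne_zero.mpr (hne' n))
  have hz4 : ∀ n, ‖aff i₀ (P n) - aff i₀ x‖ < ε₄ → W (x'⁻¹ * ⟨P n, hPG n⟩) ∧
      ‖z (x'⁻¹ * ⟨P n, hPG n⟩)‖ ≤ (∑ i, D₄ i) * ‖aff i₀ (P n) - aff i₀ x‖ := by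
    intro n hn
    have hb : aff i₀ (P n) ∈ ball (aff i₀ x) ε₄ := by rwa [mem_ball, dist_eq_norm]
    obtain ⟨h2, h3⟩ := hloc₄ _ (x'⁻¹).2 (P n) (hPG n) hi₂ (hPi n) (mem_ball_self hε₄) hb
    obtain ⟨-, h4⟩ := hloc₄ _ (x'⁻¹).2 x hxG hi₂ hx4 (mem_ball_self hε₄) (mem_ball_self hε₄)
    refine ⟨h2, ?_⟩
    rw [pi_norm_le_iff_of_nonneg (by positivity)]
    intro i
    have e1 : (z (x'⁻¹ * ⟨P n, hPG n⟩)) i = aff i₀ (mul ((x'⁻¹ : G) : Pr k N) (P n)) i -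
        aff i₀ (mul ((x'⁻¹ : G) : Pr k N) x) i := by
      rw [hinvmul]
      rfl
    rw [e1, h3, h4]
    refine ((hD₄ i _ (mem_ball_self hε₄) _ (mem_ball_self hε₄) _ hb _
      (mem_ball_self hε₄)).2.2.1).trans ?_
    rw [dist_eq_norm]
    apply mul_le_mul_of_nonneg_right _ (norm_nonneg _)
    exact Finset.single_le_sum (f := D₄) (fun i _ => hD₄0 i) (Finset.mem_univ i)
  -- the open set `hh ≠ 0`
  have hcont : ContinuousAt (fun y : Fin (N + 1) → k => eval y hh) (aff i₀ x) :=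
    (continuous_eval hh).continuousAt
  have hhaff : eval (aff i₀ x) hh ≠ 0 := by
    rw [Ne, eval_aff_ne hx4 hhh]
    exact hx
  obtain ⟨ε₅, hε₅, hhball⟩ := Metric.eventually_nhds_iff.mp (hcont.eventually_ne hhaff)
  set E := (∑ i, D₄ i) * |C| with hE
  have hE0 : 0 ≤ E := by positivity
  have hev : ∀ᶠ n in atTop, t n < min (ε₄ / (|C| + 1)) (min (min δ ε / (E + 1))
      (min (ε₅ / (C₂ * E + 1)) (1 / (D * E * E + 1)))) := by
    apply htlim.eventually_lt_const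
    positivity
  obtain ⟨n, hn⟩ := hev.exists
  have hn1 : t n < ε₄ / (|C| + 1) := hn.trans_le (min_le_left _ _)
  have hn2 : t n < min δ ε / (E + 1) := hn.trans_le ((min_le_right _ _).trans (min_le_left _ _))
  have hn3 : t n < ε₅ / (C₂ * E + 1) := hn.trans_le ((min_le_right _ _).trans
    ((min_le_right _ _).trans (min_le_left _ _)))
  have hn4 : t n < 1 / (D * E * E + 1) := hn.trans_le ((min_le_right _ _).trans
    ((min_le_right _ _).trans (min_le_right _ _)))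
  have htn := htpos n
  have hCt : ‖aff i₀ (P n) - aff i₀ x‖ ≤ |C| * t n :=
    (hlip n).trans (mul_le_mul_of_nonneg_right (le_abs_self C) htn.le)
  obtain ⟨hQW, hQz⟩ := hz4 n (hCt.trans_lt (lt_aux htn.le (abs_nonneg C) hn1))
  set Q : G := x'⁻¹ * ⟨P n, hPG n⟩ with hQ
  have hQz' : ‖z Q‖ ≤ E * t n := by
    calc ‖z Q‖ ≤ _ := hQz
      _ ≤ (∑ i, D₄ i) * (|C| * t n) := mul_le_mul_of_nonneg_left hCt hS₄
      _ = _ := by rw [hE]; ring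
  have hQδε : ‖z Q‖ < min δ ε := hQz'.trans_lt (lt_aux htn.le hE0 hn2)
  have hQδ : ‖z Q‖ < δ := hQδε.trans_le (min_le_left _ _)
  have hQε : ‖z Q‖ < ε := hQδε.trans_le (min_le_right _ _)
  obtain ⟨hpow, hinj⟩ := hcore Q hQW hQδ
  have hxQ : x' * Q = ⟨P n, hPG n⟩ := by rw [hQ, mul_inv_cancel_left]
  refine ⟨x', Q, fun m => ?_, ?_⟩
  · obtain ⟨h1, h2⟩ := hpow m
    obtain ⟨h3, h4⟩ := hxS (Q ^ m) h1 (h2.trans_lt hQε)
    have h5 : eval (aff i₀ ((x' * Q ^ m : G) : Pr k N)) hh ≠ 0 := by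
      apply hhball
      rw [dist_eq_norm]
      refine h4.trans_lt ?_
      have h6 : C₂ * ‖z (Q ^ m)‖ ≤ C₂ * (E * t n) :=
        mul_le_mul_of_nonneg_left (h2.trans hQz') hC₂
      refine h6.trans_lt ?_
      rw [← mul_assoc]
      exact lt_aux htn.le (by positivity) hn3
    rw [Ne, eval_aff_ne h3 hhh] at h5
    obtain ⟨-, h6, h7, -⟩ := hfac _ h5
    exact ⟨h6, h7⟩
  · apply hinj
    have h1 : ‖φ (x' * Q) - φ x'‖ = t n := by rw [hxQ]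
    rw [h1]
    have h2 : D * ‖z Q‖ * ‖z Q‖ ≤ D * (E * t n) * (E * t n) := by
      have h3 := norm_nonneg (z Q)
      gcongr
    refine h2.trans_lt ?_
    have h3 : D * (E * t n) * (E * t n) = (D * E * E * t n) * t n := by ring
    rw [h3]
    exact lt_aux2 htn (lt_aux htn.le (by positivity) hn4)

end

end Run7.h385
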