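import Mathlib
import Pool.Agent.Run7.h385.GroupDefs
import Pool.Agent.Run7.h385.GroupOrbit

set_option autoImplicit false

/-!
# The orbit theorem over the field of algebraic numbers
-/

namespace Run7.h385

open MvPolynomial Filter Topology
open Pool.Agent.Helper259.AbsHt (Qbar absLogHeight)

theorem orbit_qbar {N : ℕ} {Z G : Set (PSpace N)} {mul : PSpace N → PSpace N → PSpace N}
    {one : PSpace N}
    (h : GLaw (k := Qbar) Z G mul one) {n : ℕ} (f : Fin (n + 1) → MvPolynomial (Fin (N + 1)) Qbar)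
    (d : ℕ)
    (hf : ∀ i, (f i).IsHomogeneous d) (g : MvPolynomial (Fin (N + 1)) Qbar) (e : ℕ)
    (hg : g.IsHomogeneous e) (hgP : ∃ P ∈ G, eval P.rep g ≠ 0) (a b : Fin (n + 1))
    (hnc : ∃ P ∈ G, ∃ Q ∈ G, eval P.rep (f a) * eval Q.rep (f b) ≠
      eval P.rep (f b) * eval Q.rep (f a)) :
    let _ := h.group
    ∃ x Q : G, (∀ m : ℕ, eval ((x * Q ^ m : G) : PSpace N).rep g ≠ 0 ∧
      eval ((x * Q ^ m : G) : PSpace N).rep (f b) ≠ 0) ∧
      Function.Injective fun m : ℕ => eval ((x * Q ^ m : G) : PSpace N).rep (f a) /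
        eval ((x * Q ^ m : G) : PSpace N).rep (f b) := by
  have : Fact (Nat.Prime 2) := ⟨Nat.prime_two⟩
  have halg : Algebra.IsAlgebraic ℚ Qbar := AlgebraicClosure.isAlgebraic ℚ
  let σ : Qbar →+* PadicAlgCl 2 := (IsAlgClosed.lift : AlgebraicClosure ℚ →ₐ[ℚ] PadicAlgCl 2).toRingHom
  let nf : NormedField Qbar := NormedField.induced Qbar (PadicAlgCl 2) σ σ.injective
  have hnorm : ∀ x : Qbar, ‖x‖ = ‖σ x‖ := fun x => rfl
  have hu : IsUltrametricDist Qbar := by
    refine IsUltrametricDist.isUltrametricDist_of_forall_norm_add_le_max_norm fun x y => ?_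
    rw [hnorm, hnorm, hnorm, map_add]
    exact PadicAlgCl.isNonarchimedean 2 _ _
  have hp1 : ‖((2 : ℕ) : Qbar)‖ < 1 := by
    rw [hnorm, map_natCast]
    have h1 : ‖((2 : ℕ) : PadicAlgCl 2)‖ = ‖((2 : ℕ) : ℚ_[2])‖ := by
      have := PadicAlgCl.norm_extends 2 ((2 : ℕ) : ℚ_[2])
      rw [← this, map_natCast]
    rw [h1]
    exact Padic.norm_p_lt_one
  exact @GLaw.orbit Qbar nf N hu _ _ 2 Nat.prime_two hp1 Z G mul one h n f d hf g e hg hgP a b hnc

end Run7.h385
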