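import Mathlib
import Pool.Agent.Run7.h385.GroupQbar
import Pool.Agent.Run7.h385.Basic

set_option autoImplicit false

/-!
# Heights of the powers of an element of a group variety
-/

namespace Run7.h385

open MvPolynomial Filter Topology
open Pool.Agent.Helper259.AbsHt

/-- heights of values of bihomogeneous forms -/
lemma ht_bihom {a b c : ℕ} (F : Fin (c + 1) → MvPolynomial (Fin (a + 1) ⊕ Fin (b + 1)) Qbar)
    (d e : ℕ) (hF : ∀ i, IsBihomogeneous (F i) d e) :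
    ∃ C : ℝ, ∀ (x : Fin (a + 1) → Qbar) (y : Fin (b + 1) → Qbar), x ≠ 0 → y ≠ 0 →
      absLogHeight (fun i => eval (Sum.elim x y) (F i)) ≤
        C + (d + e : ℕ) * (absLogHeight x + absLogHeight y) := by
  obtain ⟨C, hC⟩ := absLogHeight_eval (d + e) F (fun i => (hF i).isHomogeneous)
  refine ⟨C, fun x y hx hy => ?_⟩
  obtain ⟨i₀, hi₀⟩ : ∃ i, x i ≠ 0 := by
    by_contra h
    push Not at h
    exact hx (funext h)
  obtain ⟨j₀, hj₀⟩ : ∃ j, y j ≠ 0 := by
    by_contra h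
    push Not at h
    exact hy (funext h)
  set x' : Fin (a + 1) → Qbar := (x i₀)⁻¹ • x with hx'
  set y' : Fin (b + 1) → Qbar := (y j₀)⁻¹ • y with hy'
  have hx'0 : x' ≠ 0 := smul_ne_zero (inv_ne_zero hi₀) hx
  have hy'0 : y' ≠ 0 := smul_ne_zero (inv_ne_zero hj₀) hy
  have hx'i : x' i₀ = 1 := by
    rw [hx', Pi.smul_apply, smul_eq_mul, inv_mul_cancel₀ hi₀]
  have hy'j : y' j₀ = 1 := by
    rw [hy', Pi.smul_apply, smul_eq_mul, inv_mul_cancel₀ hj₀]
  have h1 : (fun i => eval (Sum.elim x' y') (F i)) =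
      ((x i₀)⁻¹ ^ d * (y j₀)⁻¹ ^ e) • fun i => eval (Sum.elim x y) (F i) := by
    funext i
    rw [(hF i).eval_smul]
    rfl
  have h2 : absLogHeight (fun i => eval (Sum.elim x' y') (F i)) =
      absLogHeight (fun i => eval (Sum.elim x y) (F i)) := by
    rw [h1]
    exact absLogHeight_smul _ (mul_ne_zero (pow_ne_zero _ (inv_ne_zero hi₀))
      (pow_ne_zero _ (inv_ne_zero hj₀)))
  have h3 : absLogHeight (Sum.elim x' y') ≤ absLogHeight x + absLogHeight y := by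
    have h4 := absLogHeight_comp_le (Sum.elim (fun i => (i, j₀)) (fun j => (i₀, j)))
      (fun s : Fin (a + 1) × Fin (b + 1) => x' s.1 * y' s.2)
    rw [absLogHeight_segre hx'0 hy'0, hx', hy', absLogHeight_smul _ (inv_ne_zero hi₀),
      absLogHeight_smul _ (inv_ne_zero hj₀), ← hx', ← hy'] at h4
    refine le_trans (le_of_eq ?_) h4
    congr 1
    funext s
    rcases s with i | j
    · simp [hy'j]
    · simp [hx'i]
  rw [← h2]
  refine (hC _).trans ?_
  have := mul_le_mul_of_nonneg_left h3 (Nat.cast_nonneg (α := ℝ) (d + e))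
  linarith

lemma ht_mul {N : ℕ} {G : Set (PSpace N)} {mul : PSpace N → PSpace N → PSpace N}
    (h : IsRegularMapTwo G G mul) :
    ∃ C : ℝ, 1 ≤ C ∧ ∀ P ∈ G, ∀ Q ∈ G, ht (mul P Q) ≤ C * (ht P + ht Q + 1) := by
  obtain ⟨r, d, e, F, hF, h1, h2⟩ := h
  choose C hC using fun j => ht_bihom (F j) (d j) (e j) (hF j)
  refine ⟨1 + ∑ j, (|C j| + (d j + e j : ℕ)), ?_, fun P hP Q hQ => ?_⟩
  · have : 0 ≤ ∑ j, (|C j| + ((d j + e j : ℕ) : ℝ)) :=
      Finset.sum_nonneg fun j _ => by positivity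
    linarith
  obtain ⟨j, hj⟩ := h1 P hP Q hQ
  rw [h2 P hP Q hQ j hj, ht_mk]
  have h3 := hC j P.rep Q.rep P.rep_nonzero Q.rep_nonzero
  have h4 : |C j| + ((d j + e j : ℕ) : ℝ) ≤ ∑ j, (|C j| + ((d j + e j : ℕ) : ℝ)) :=
    Finset.single_le_sum (f := fun j => |C j| + ((d j + e j : ℕ) : ℝ))
      (fun _ _ => by positivity) (Finset.mem_univ j)
  have h5 : 0 ≤ ht P := ht_nonneg P
  have h5' : 0 ≤ ht Q := ht_nonneg Q
  have h6 : absLogHeight P.rep = ht P := rfl
  have h7 : absLogHeight Q.rep = ht Q := rfl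
  rw [h6, h7] at h3
  have h8 : (0 : ℝ) ≤ ((d j + e j : ℕ) : ℝ) := Nat.cast_nonneg _
  have h9 := le_abs_self (C j)
  have h10 : 0 ≤ |C j| := abs_nonneg _
  calc _ ≤ C j + (d j + e j : ℕ) * (ht P + ht Q) := h3
    _ ≤ (|C j| + (d j + e j : ℕ)) * (ht P + ht Q + 1) := by nlinarith
    _ ≤ _ := by
        apply mul_le_mul_of_nonneg_right _ (by linarith)
        linarith

/-- doubling -/
lemma doubling {u : ℕ → ℝ} {K : ℝ} (hu : ∀ n, 1 ≤ u n) (hK : ∀ n, 1 ≤ n → u n ≤ K * u (n / 2)) :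
    ∃ (B : ℝ) (κ : ℕ), 0 < B ∧ 0 < κ ∧ ∀ n, u n ≤ B * ((n : ℝ) + 1) ^ κ := by
  obtain ⟨κ, hκ⟩ := pow_unbounded_of_one_lt |K| (show (1 : ℝ) < 3 / 2 by norm_num)
  have hKκ : K ≤ (3 / 2 : ℝ) ^ (κ + 1) := by
    have h1 : (3 / 2 : ℝ) ^ κ ≤ (3 / 2 : ℝ) ^ (κ + 1) := pow_le_pow_right₀ (by norm_num) (by omega)
    linarith [le_abs_self K]
  have hu0 : 0 < u 0 := by linarith [hu 0]
  refine ⟨u 0, κ + 1, hu0, by omega, fun n => ?_⟩
  induction n using Nat.strong_induction_on with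
  | _ n ih =>
    rcases Nat.eq_zero_or_pos n with rfl | hn
    · simp
    have h1 := ih (n / 2) (by omega)
    have h2 := hK n hn
    have h3 : (3 / 2 : ℝ) * (((n / 2 : ℕ) : ℝ) + 1) ≤ (n : ℝ) + 1 := by
      have h4 : 3 * (n / 2 + 1) ≤ 2 * (n + 1) := by omega
      have h5 : (3 : ℝ) * (((n / 2 : ℕ) : ℝ) + 1) ≤ 2 * ((n : ℝ) + 1) := by exact_mod_cast h4
      linarith
    have h0 : 0 ≤ u (n / 2) := by linarith [hu (n / 2)]
    calc u n ≤ K * u (n / 2) := h2
      _ ≤ (3 / 2 : ℝ) ^ (κ + 1) * (u 0 * (((n / 2 : ℕ) : ℝ) + 1) ^ (κ + 1)) := by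
          apply mul_le_mul hKκ h1 h0 (by positivity)
      _ = u 0 * ((3 / 2 : ℝ) * (((n / 2 : ℕ) : ℝ) + 1)) ^ (κ + 1) := by
          rw [mul_pow]
          ring
      _ ≤ _ := by
          apply mul_le_mul_of_nonneg_left _ hu0.le
          apply pow_le_pow_left₀ (by positivity) h3

/-- heights of the powers of an element of a group with a height -/
lemma ht_pow {Γ : Type*} [Group Γ] (η : Γ → ℝ) (hη : ∀ P, 0 ≤ η P) {C : ℝ} (hC : 1 ≤ C)
    (hmul : ∀ P Q, η (P * Q) ≤ C * (η P + η Q + 1)) (x Q : Γ) :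
    ∃ (B : ℝ) (κ : ℕ), 0 < B ∧ 0 < κ ∧ ∀ n : ℕ, η (x * Q ^ n) ≤ B * ((n : ℝ) + 1) ^ κ := by
  have hηQ := hη Q
  obtain ⟨B, κ, hB, hκ, h⟩ := doubling (u := fun n => η (Q ^ n) + 1)
    (K := C * (2 * C + η Q + 2) + 1) (fun n => by linarith [hη (Q ^ n)]) (fun n hn => by
      set m := n / 2 with hm
      have hηm := hη (Q ^ m)
      have h1 : η (Q ^ (m + m)) ≤ C * (η (Q ^ m) + η (Q ^ m) + 1) := by
        rw [pow_add]
        exact hmul _ _
      rcases Nat.even_or_odd n with hev | hodd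
      · have hn2 : n = m + m := by
          obtain ⟨r, hr⟩ := hev
          omega
        rw [hn2]
        have h6 : 2 * C ≤ C * (2 * C + η Q + 2) := by nlinarith
        have h7 : (2 * C + 1) * (η (Q ^ m) + 1) ≤
            (C * (2 * C + η Q + 2) + 1) * (η (Q ^ m) + 1) :=
          mul_le_mul_of_nonneg_right (by linarith) (by linarith)
        nlinarith
      · have hn2 : n = m + m + 1 := by
          obtain ⟨r, hr⟩ := hodd
          omega
        have h2 : η (Q ^ (m + m + 1)) ≤ C * (η (Q ^ (m + m)) + η Q + 1) := by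
          rw [pow_succ]
          exact hmul _ _
        rw [hn2]
        have h3 : C * (η (Q ^ (m + m)) + η Q + 1) ≤
            C * (C * (η (Q ^ m) + η (Q ^ m) + 1) + η Q + 1) := by
          apply mul_le_mul_of_nonneg_left _ (by linarith)
          linarith
        have h4 : C * (C * (η (Q ^ m) + η (Q ^ m) + 1) + η Q + 1) ≤
            C * (2 * C + η Q + 2) * (η (Q ^ m) + 1) := by
          have h5 : C * (η (Q ^ m) + η (Q ^ m) + 1) + η Q + 1 ≤
              (2 * C + η Q + 2) * (η (Q ^ m) + 1) := by nlinarith [mul_nonneg hηQ hηm]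
          calc _ ≤ C * ((2 * C + η Q + 2) * (η (Q ^ m) + 1)) :=
                mul_le_mul_of_nonneg_left h5 (by linarith)
            _ = _ := by ring
        linarith)
  have hηx := hη x
  refine ⟨C * (B + η x + 1), κ, by positivity, hκ, fun n => ?_⟩
  have h1 := hmul x (Q ^ n)
  have h2 := h n
  have h3 : (1 : ℝ) ≤ ((n : ℝ) + 1) ^ κ := one_le_pow₀ (by
    have : (0 : ℝ) ≤ n := Nat.cast_nonneg n
    linarith)
  calc η (x * Q ^ n) ≤ C * (η x + η (Q ^ n) + 1) := h1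
    _ ≤ C * ((B + η x + 1) * ((n : ℝ) + 1) ^ κ) := by
        apply mul_le_mul_of_nonneg_left _ (by linarith)
        nlinarith
    _ = _ := by ring

end Run7.h385
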