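import Mathlib
import Pool.Agent.Run7.h385.GroupHeight
import Pool.Agent.Run7.h385.RatCurve

set_option autoImplicit false

/-!
# Varieties with a dense special locus have arithmetic order at most 1
-/

namespace Run7.h385

open MvPolynomial Filter Topology
open Pool.Agent.Helper259.AbsHt

lemma mv_eval_mem {σ : Type*} [Fintype σ] (L : IntermediateField ℚ Qbar) {F : MvPolynomial σ Qbar}
    (hF : ∀ s, F.coeff s ∈ L) {x : σ → Qbar} (hx : ∀ i, x i ∈ L) : eval x F ∈ L := by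
  rw [eval_eq']
  exact sum_mem fun s _ => mul_mem (hF s) (prod_mem fun i _ => pow_mem (hx i) _)

lemma coeff_finite {σ τ : Type*} [Finite τ] (F : τ → MvPolynomial σ Qbar) :
    {c : Qbar | ∃ t s, c = (F t).coeff s}.Finite := by
  have h : {c : Qbar | ∃ t s, c = (F t).coeff s} ⊆
      {0} ∪ ⋃ t, ((F t).coeff '' (F t).support) := by
    rintro c ⟨t, s, rfl⟩
    by_cases hs : (F t).coeff s = 0
    · left
      exact hs
    · right
      rw [Set.mem_iUnion]
      exact ⟨t, s, by simpa [mem_support_iff] using hs, rfl⟩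
  refine Set.Finite.subset ?_ h
  exact (Set.finite_singleton 0).union (Set.finite_iUnion fun t => (F t).support.finite_toSet.image _)

lemma ratPts_mk {n : ℕ} {L : IntermediateField ℚ Qbar} {P : PSpace n} (hP : P ∈ ratPts L n) :
    ∃ (c : Qbar) (x : Fin (n + 1) → Qbar), c ≠ 0 ∧ x ≠ 0 ∧ (∀ i, x i ∈ L) ∧ P.rep = c • x := by
  obtain ⟨x, hx, h, rfl⟩ := hP
  obtain ⟨a, ha, hr⟩ := exists_rep x h
  exact ⟨a, x, ha, h, hx, hr⟩

/-- the product of two rational points is rational -/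
lemma ratPts_mul {N : ℕ} {G : Set (PSpace N)} {mul : PSpace N → PSpace N → PSpace N}
    (h : IsRegularMapTwo G G mul) (K : IntermediateField ℚ Qbar) [FiniteDimensional ℚ K] :
    ∃ L₀ : IntermediateField ℚ Qbar, K ≤ L₀ ∧ FiniteDimensional ℚ L₀ ∧
      ∀ L : IntermediateField ℚ Qbar, L₀ ≤ L → ∀ P ∈ G, ∀ Q ∈ G, P ∈ ratPts L N →
        Q ∈ ratPts L N → mul P Q ∈ ratPts L N := by
  obtain ⟨r, d, e, F, hF, h1, h2⟩ := h
  obtain ⟨L₀, hK, hfd, hL₀⟩ := exists_field K _ (coeff_finite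
    (fun t : Fin r × Fin (N + 1) => F t.1 t.2))
  refine ⟨L₀, hK, hfd, fun L hL P hP Q hQ hPL hQL => ?_⟩
  obtain ⟨a, x, ha, hx, hxL, hPx⟩ := ratPts_mk hPL
  obtain ⟨b, y, hb, hy, hyL, hQy⟩ := ratPts_mk hQL
  obtain ⟨j, hj⟩ := h1 P hP Q hQ
  have hsc : ∀ i, eval (Sum.elim P.rep Q.rep) (F j i) =
      a ^ d j * b ^ e j * eval (Sum.elim x y) (F j i) := by
    intro i
    rw [hPx, hQy, (hF j i).eval_smul]
  have hne : (fun i => eval (Sum.elim x y) (F j i)) ≠ 0 := by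
    intro h0
    apply hj
    funext i
    rw [hsc, congrFun h0 i]
    simp
  refine ⟨fun i => eval (Sum.elim x y) (F j i), fun i => mv_eval_mem L
    (fun s => hL (hL₀ _ ⟨(j, i), s, rfl⟩)) (fun s => ?_), hne, ?_⟩
  · rcases s with s | s
    · exact hxL s
    · exact hyL s
  · rw [h2 P hP Q hQ j hj, Projectivization.mk_eq_mk_iff']
    exact ⟨a ^ d j * b ^ e j, by
      funext i
      rw [Pi.smul_apply, smul_eq_mul, hsc]⟩

lemma IsGroupVariety.glaw {N : ℕ} {G : Set (PSpace N)} {mul : PSpace N → PSpace N → PSpace N}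
    {inv : PSpace N → PSpace N} {one : PSpace N} (h : IsGroupVariety G mul inv one) :
    ∃ Z : Set (PSpace N), GLaw (k := Qbar) Z G mul one := by
  obtain ⟨Z, ⟨⟨T, hT, hZ⟩, -, hirr⟩, T', hT', hG⟩ := h.quasiprojective
  exact ⟨Z, ⟨⟨T, fun F hF => (hT F hF).1, hZ⟩, hirr, ⟨T', fun F hF => (hT' F hF).1, hG⟩,
    h.one_mem, h.mul_mem, fun P hP => ⟨inv P, h.inv_mem P hP, h.inv_mul P hP⟩, h.mul_assoc,
    h.one_mul, h.regular_mul⟩⟩

lemma exists_ratio {n : ℕ} {u v : Fin (n + 1) → Qbar} (hu : u ≠ 0) (hv : v ≠ 0)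
    (h : Projectivization.mk Qbar u hu ≠ Projectivization.mk Qbar v hv) :
    ∃ a b, u a * v b ≠ u b * v a := by
  by_contra hcon
  push Not at hcon
  apply h
  obtain ⟨b, hb⟩ : ∃ i, v i ≠ 0 := by
    by_contra h
    push Not at h
    exact hv (funext h)
  rw [Projectivization.mk_eq_mk_iff']
  refine ⟨u b / v b, ?_⟩
  funext a
  rw [Pi.smul_apply, smul_eq_mul, div_mul_eq_mul_div, div_eq_iff hb]
  exact (hcon a b).symm

/-- the points of a special family -/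
theorem group_family {K : IntermediateField ℚ Qbar} [FiniteDimensional ℚ K] {N n : ℕ}
    {G : Set (PSpace N)} {mul : PSpace N → PSpace N → PSpace N} {inv : PSpace N → PSpace N}
    {one : PSpace N} (hG : IsGroupVariety G mul inv one) {X : Set (PSpace n)}
    {f : Fin (n + 1) → MvPolynomial (Fin (N + 1)) Qbar} (hf : IsNonconstRationalMap G X f)
    {F : MvPolynomial (Fin (n + 1)) Qbar} {e₀ : ℕ} (hF : F.IsHomogeneous e₀) {P : PSpace N}
    (hP : P ∈ G)
    (hFP : eval (fun i => eval P.rep (f i)) F ≠ 0) :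
    ∃ (L₀ : IntermediateField ℚ Qbar) (R : ℕ → PSpace n) (B : ℝ) (κ : ℕ),
      K ≤ L₀ ∧ FiniteDimensional ℚ L₀ ∧ Function.Injective R ∧ 0 < B ∧ 0 < κ ∧
      ∀ m, R m ∈ X ∧ eval (R m).rep F ≠ 0 ∧ ht (R m) ≤ B * ((m : ℝ) + 1) ^ κ ∧
        ∀ L : IntermediateField ℚ Qbar, L₀ ≤ L → R m ∈ ratPts L n := by
  classical
  obtain ⟨Z, hlaw⟩ := hG.glaw
  obtain ⟨d, hd⟩ := hf.homogeneous
  obtain ⟨P₁, hP₁, P₂, hP₂, h1, h2, h12⟩ := hf.nonconstant
  obtain ⟨a, b, hab⟩ := exists_ratio h1 h2 h12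
  set g : MvPolynomial (Fin (N + 1)) Qbar := aeval f F with hg
  have hgh : g.IsHomogeneous (d * e₀) := hF.aeval f hd
  have hgev : ∀ x : Fin (N + 1) → Qbar, eval x g = eval (fun i => eval x (f i)) F := by
    intro x
    rw [hg]
    have := comp_aeval_apply (aeval x : MvPolynomial (Fin (N + 1)) Qbar →ₐ[Qbar] Qbar) (f := f) F
    exact this
  let iG := hlaw.group
  obtain ⟨x, Q, hxQ, hinj⟩ := orbit_qbar hlaw f d hd g (d * e₀) hgh ⟨P, hP, by
    rw [hgev]; exact hFP⟩ a b ⟨P₁, hP₁, P₂, hP₂, hab⟩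
  -- the field
  obtain ⟨L₁, hKL₁, hfd₁, hL₁⟩ := ratPts_mul hG.regular_mul K
  obtain ⟨L₂, hL₁₂, hfd₂, hL₂⟩ := exists_field L₁
    ({c : Qbar | ∃ t s, c = (f t).coeff s} ∪ (Set.range (x : PSpace N).rep ∪
      (Set.range (Q : PSpace N).rep ∪ Set.range one.rep)))
    ((coeff_finite f).union ((Set.finite_range _).union ((Set.finite_range _).union
      (Set.finite_range _))))
  have hrep : ∀ (P : PSpace N) (L : IntermediateField ℚ Qbar), (∀ i, P.rep i ∈ L) →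
      P ∈ ratPts L N := fun P L h => ⟨P.rep, h, P.rep_nonzero, (Projectivization.mk_rep P).symm⟩
  have hrat : ∀ L : IntermediateField ℚ Qbar, L₂ ≤ L → ∀ m : ℕ,
      ((x * Q ^ m : G) : PSpace N) ∈ ratPts L N := by
    intro L hL m
    have hx : (x : PSpace N) ∈ ratPts L N := hrep _ _ fun i => hL (hL₂ _ (Or.inr (Or.inl ⟨i, rfl⟩)))
    have hQ : (Q : PSpace N) ∈ ratPts L N :=
      hrep _ _ fun i => hL (hL₂ _ (Or.inr (Or.inr (Or.inl ⟨i, rfl⟩))))
    have hone : one ∈ ratPts L N :=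
      hrep _ _ fun i => hL (hL₂ _ (Or.inr (Or.inr (Or.inr ⟨i, rfl⟩))))
    have hpow : ∀ m : ℕ, ((Q ^ m : G) : PSpace N) ∈ ratPts L N := by
      intro m
      induction m with
      | zero =>
        rw [pow_zero]
        exact hone
      | succ m ih =>
        rw [pow_succ]
        exact hL₁ L (hL₁₂.trans hL) _ (Q ^ m).2 _ Q.2 ih hQ
    exact hL₁ L (hL₁₂.trans hL) _ x.2 _ (Q ^ m).2 hx (hpow m)
  -- the heights
  obtain ⟨C, hC, hmul⟩ := ht_mul hG.regular_mul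
  obtain ⟨B, κ, hB, hκ, hht⟩ := ht_pow (Γ := G) (fun P => ht (P : PSpace N))
    (fun P => ht_nonneg _) hC (fun P Q => hmul P P.2 Q Q.2) x Q
  obtain ⟨C', hC'⟩ := absLogHeight_eval d f hd
  have hne : ∀ m : ℕ, (fun i => eval ((x * Q ^ m : G) : PSpace N).rep (f i)) ≠ 0 := by
    intro m h0
    exact (hxQ m).2 (congrFun h0 b)
  refine ⟨L₂, fun m => Projectivization.mk Qbar _ (hne m), |C'| + d * B + 1, κ,
    hKL₁.trans hL₁₂, hfd₂, ?_, by positivity, hκ, fun m => ⟨?_, ?_, ?_, ?_⟩⟩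
  · intro m m' hmm
    apply hinj
    have hmm' := hmm
    simp only at hmm'
    rw [Projectivization.mk_eq_mk_iff'] at hmm'
    obtain ⟨c, hc⟩ := hmm'
    have ea := congrFun hc a
    have eb := congrFun hc b
    simp only [Pi.smul_apply, smul_eq_mul] at ea eb
    have hc0 : c ≠ 0 := by
      rintro rfl
      rw [zero_mul] at eb
      exact (hxQ m).2 eb.symm
    beta_reduce
    rw [← ea, ← eb]
    exact mul_div_mul_left _ _ hc0
  · exact hf.maps _ (x * Q ^ m).2 (hne m)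
  · rw [Ne, eval_mk_ne hF, ← hgev]
    exact (hxQ m).1
  · rw [ht_mk]
    have h3 := hC' ((x * Q ^ m : G) : PSpace N).rep
    have h4 := hht m
    have h5 : absLogHeight ((x * Q ^ m : G) : PSpace N).rep = ht ((x * Q ^ m : G) : PSpace N) := rfl
    rw [h5] at h3
    have h6 : (1 : ℝ) ≤ ((m : ℝ) + 1) ^ κ := one_le_pow₀ (by
      have : (0 : ℝ) ≤ m := Nat.cast_nonneg m
      linarith)
    have h7 : (d : ℝ) * ht ((x * Q ^ m : G) : PSpace N) ≤ d * (B * ((m : ℝ) + 1) ^ κ) :=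
      mul_le_mul_of_nonneg_left h4 (Nat.cast_nonneg d)
    have h8 : |C'| ≤ |C'| * ((m : ℝ) + 1) ^ κ := le_mul_of_one_le_right (abs_nonneg _) h6
    calc _ ≤ C' + d * ht ((x * Q ^ m : G) : PSpace N) := h3
      _ ≤ |C'| * ((m : ℝ) + 1) ^ κ + d * (B * ((m : ℝ) + 1) ^ κ) + 1 * ((m : ℝ) + 1) ^ κ := by
          linarith [le_abs_self C']
      _ = _ := by ring
  · intro L hL
    obtain ⟨c, y, hc, hy, hyL, hey⟩ := ratPts_mk (hrat L hL m)
    have hsc : ∀ i, eval ((x * Q ^ m : G) : PSpace N).rep (f i) = c ^ d * eval y (f i) := by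
      intro i
      rw [hey]
      exact eval_smul (hd i) c y
    have hne' : (fun i => eval y (f i)) ≠ 0 := by
      intro h0
      apply hne m
      funext i
      rw [hsc, congrFun h0 i]
      simp
    refine ⟨fun i => eval y (f i), fun i => mv_eval_mem L
      (fun s => hL (hL₂ _ (Or.inl ⟨i, s, rfl⟩))) hyL, hne', ?_⟩
    rw [Projectivization.mk_eq_mk_iff']
    exact ⟨c ^ d, by
      funext i
      rw [Pi.smul_apply, smul_eq_mul, hsc]⟩

/-- the lower bound for the number of points of a variety with a dense special locus -/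
theorem group_lower {K : IntermediateField ℚ Qbar} [FiniteDimensional ℚ K] {n : ℕ}
    {X : Set (PSpace n)} (hd : ZariskiDenseIn (groupLocus X) X) {H : PSpace n → ℝ}
    (hH : IsAmpleHeight X H) (U : Set (PSpace n)) (hU : IsOpenOver K X U) (hne : U.Nonempty) :
    ∃ L₀ : IntermediateField ℚ Qbar, K ≤ L₀ ∧ FiniteDimensional ℚ L₀ ∧
      ∀ L : IntermediateField ℚ Qbar, L₀ ≤ L → FiniteDimensional ℚ L →
        ∃ α c : ℝ, 0 < α ∧ ∀ᶠ T in atTop,
          α * Real.log^[1 + 1] T - c ≤ Real.log (count H U L T) := by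
  classical
  obtain ⟨C₀, hC₀, hcmp⟩ := ample_compare hH
  obtain ⟨T, hT, rfl⟩ := hU
  obtain ⟨P₀, hP₀X, F, hFT, hFP₀⟩ := hne
  obtain ⟨⟨e, hFe⟩, -⟩ := hT F hFT
  obtain ⟨P₁, ⟨N, G, mul, inv, one, f, hG, hf, Q₁, hQ₁, hfQ₁, rfl⟩, hP₁⟩ :
      ∃ P ∈ groupLocus X, eval P.rep F ≠ 0 := by
    by_contra hcon
    push Not at hcon
    exact hFP₀ (hd F ⟨e, hFe⟩ hcon P₀ hP₀X)
  rw [Ne, eval_mk_ne hFe] at hP₁
  obtain ⟨L₀, R, B, κ, hKL, hfd, hinj, hB, hκ, hR⟩ := group_family (K := K) hG hf hFe hQ₁ hP₁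
  refine ⟨L₀, hKL, hfd, fun L hL hLfd => ?_⟩
  have hUX : {P | P ∈ X ∧ ∃ F ∈ T, eval P.rep F ≠ 0} ⊆ X := fun P hP => hP.1
  refine lower_log (N := count H {P | P ∈ X ∧ ∃ F ∈ T, eval P.rep F ≠ 0} L) (D := 1) (e := 0)
    (C := C₀ * (B + 1)) κ hκ one_pos (by positivity) (fun M T' hT' hM => ?_)
  have h1 := card_le_count hH hUX L T' ((Finset.range M).image R) (fun P hP => by
    obtain ⟨m, hm, rfl⟩ := Finset.mem_image.mp hP
    rw [Finset.mem_range] at hm
    obtain ⟨g1, g2, g3, g4⟩ := hR m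
    refine ⟨⟨g1, F, hFT, g2⟩, g4 L hL, ?_⟩
    obtain ⟨k1, k2, k3⟩ := hcmp (R m) g1
    have h7 : ((m : ℝ) + 1) ^ κ ≤ ((M : ℝ) + 1) ^ κ := by
      apply pow_le_pow_left₀ (by positivity)
      have : (m : ℝ) ≤ M := by exact_mod_cast hm.le
      linarith
    have h6 : (1 : ℝ) ≤ ((M : ℝ) + 1) ^ κ := one_le_pow₀ (by
      have : (0 : ℝ) ≤ M := Nat.cast_nonneg M
      linarith)
    have h8 : Real.log (H (R m)) ≤ Real.log T' := by
      refine k2.trans (le_trans ?_ hM)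
      rw [mul_assoc]
      refine mul_le_mul_of_nonneg_left ?_ (by linarith)
      have h9 : B * ((m : ℝ) + 1) ^ κ ≤ B * ((M : ℝ) + 1) ^ κ :=
        mul_le_mul_of_nonneg_left h7 hB.le
      calc ht (R m) + 1 ≤ B * ((M : ℝ) + 1) ^ κ + 1 * ((M : ℝ) + 1) ^ κ := by linarith
        _ = _ := by ring
    exact (Real.log_le_log_iff (by linarith) (by linarith)).mp h8)
  rw [Finset.card_image_of_injective _ hinj, Finset.card_range] at h1
  have h2 : (M : ℝ) ≤ count H {P | P ∈ X ∧ ∃ F ∈ T, eval P.rep F ≠ 0} L T' := by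
    exact_mod_cast h1
  linarith

/-- a variety with a dense special locus has no arithmetic order `≥ 2` -/
theorem order_le_one {K : IntermediateField ℚ Qbar} [FiniteDimensional ℚ K] {n : ℕ}
    {X : Set (PSpace n)} (hd : ZariskiDenseIn (groupLocus X) X) {H : PSpace n → ℝ}
    (hH : IsAmpleHeight X H) :
    (∀ a, HasOrder K X H a → a ≤ 1) ∧ ¬ HasOrderTop K X H :=
  order_le_of_lower 1 fun U hU hne => group_lower hd hH U hU hne

end Run7.h385
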