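import Mathlib
import Pool.Agent.Run7.h385.GroupDefs

set_option autoImplicit false

/-!
# Abelian varieties in a projective model, generically finite rational maps: definitions
-/

namespace Run7.h385

open MvPolynomial
open Pool.Agent.Helper259.AbsHt (Qbar)

/-- `A` is (the set of the points of) an abelian variety over `Qbar` in a projective model in which
addition and subtraction are given by forms of bidegree `(2, 2)`: `A` is an irreducible closed
subvariety of `ℙᴺ` with a commutative group law `add`, `neg`, `zero`, and there are forms `F i j` of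
bidegree `(2, 2)` whose values at a point `(P, Q)` of `A × A` are, up to a common nonzero factor,
the products of the `i`-th coordinate of `P + Q` and the `j`-th coordinate of `P - Q`. -/
structure IsAbelianModel {N : ℕ} (A : Set (PSpace N)) (add : PSpace N → PSpace N → PSpace N)
    (neg : PSpace N → PSpace N) (zero : PSpace N) : Prop where
  variety : IsVarietyOver ⊤ A
  zero_mem : zero ∈ A
  add_mem : ∀ P ∈ A, ∀ Q ∈ A, add P Q ∈ A
  neg_mem : ∀ P ∈ A, neg P ∈ A
  add_assoc : ∀ P ∈ A, ∀ Q ∈ A, ∀ R ∈ A, add (add P Q) R = add P (add Q R)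
  add_comm : ∀ P ∈ A, ∀ Q ∈ A, add P Q = add Q P
  zero_add : ∀ P ∈ A, add zero P = P
  neg_add : ∀ P ∈ A, add (neg P) P = zero
  forms : ∃ F : Fin (N + 1) → Fin (N + 1) → MvPolynomial (Fin (N + 1) ⊕ Fin (N + 1)) Qbar,
    (∀ i j, IsBihomogeneous (F i j) 2 2) ∧
    ∀ P ∈ A, ∀ Q ∈ A, ∃ c : Qbar, c ≠ 0 ∧ ∀ i j,
      eval (Sum.elim P.rep Q.rep) (F i j) = c * ((add P Q).rep i * (add P (neg Q)).rep j)

/-- The forms `f 0, …, f N` of equal degree define a generically finite rational map
`P ↦ (f 0 (P) : … : f N (P))` from `X` to `A`: on some nonempty Zariski open subset `F ≠ 0` of `X`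
it is defined and its fibres have at most `M` points. -/
structure IsGenFiniteRationalMap {n N : ℕ} (X : Set (PSpace n)) (A : Set (PSpace N))
    (f : Fin (N + 1) → MvPolynomial (Fin (n + 1)) Qbar) : Prop where
  homogeneous : ∃ d : ℕ, ∀ i, (f i).IsHomogeneous d
  maps : ∀ P ∈ X, ∀ h : (fun i => eval P.rep (f i)) ≠ 0, Projectivization.mk Qbar _ h ∈ A
  finite : ∃ (F : MvPolynomial (Fin (n + 1)) Qbar) (M : ℕ), (∃ e : ℕ, F.IsHomogeneous e) ∧
    (∃ P ∈ X, eval P.rep F ≠ 0) ∧
    (∀ P ∈ X, eval P.rep F ≠ 0 → (fun i => eval P.rep (f i)) ≠ 0) ∧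
    ∀ Q : PSpace N, {P : PSpace n | P ∈ X ∧ eval P.rep F ≠ 0 ∧
      ∃ h : (fun i => eval P.rep (f i)) ≠ 0, Projectivization.mk Qbar _ h = Q}.encard ≤ M

end Run7.h385
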