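import Mathlib

set_option autoImplicit false

/-!
# Forms without common zeros on a cone; finite endomorphisms
-/

namespace Run7.h385

open MvPolynomial

/-- substitution `x ↦ T x` -/
noncomputable def coneHom {k ι : Type*} [CommRing k] (x : ι → k) :
    MvPolynomial ι k →ₐ[k] Polynomial k :=
  aeval fun i => Polynomial.C (x i) * Polynomial.X

lemma coneHom_eval {k ι : Type*} [CommRing k] (x : ι → k) (g : MvPolynomial ι k) (c : k) :
    (coneHom x g).eval c = eval (c • x) g := by
  have h := DFunLike.congr_fun (comp_aeval (fun i => Polynomial.C (x i) * Polynomial.X)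
    (Polynomial.aeval c : Polynomial k →ₐ[k] k)) g
  have h2 : (Polynomial.aeval c) (coneHom x g) = (coneHom x g).eval c := rfl
  rw [← h2]
  refine h.trans ?_
  have h3 : (fun i => (Polynomial.aeval c) (Polynomial.C (x i) * Polynomial.X)) = c • x := by
    funext i
    rw [Polynomial.coe_aeval_eq_eval, Polynomial.eval_mul, Polynomial.eval_C, Polynomial.eval_X,
      Pi.smul_apply, smul_eq_mul, mul_comm]
  rw [h3]
  rfl

lemma coneHom_coeff {k ι : Type*} [CommRing k] (x : ι → k) (g : MvPolynomial ι k) (j : ℕ) :
    (coneHom x g).coeff j = eval x (homogeneousComponent j g) := by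
  induction g using MvPolynomial.induction_on' with
  | monomial u a =>
    have h1 : coneHom x (monomial u a) =
        Polynomial.C (a * u.prod fun i e => x i ^ e) * Polynomial.X ^ u.degree := by
      rw [coneHom, aeval_monomial]
      simp only [mul_pow, Finsupp.prod, ← Polynomial.C_pow]
      rw [Finset.prod_mul_distrib, Finset.prod_pow_eq_pow_sum, ← Polynomial.C_eq_algebraMap,
        ← map_prod, ← mul_assoc, ← Polynomial.C_mul]
      rfl
    rw [h1, Polynomial.coeff_C_mul_X_pow]
    by_cases h : j = u.degree
    · rw [if_pos h, h, homogeneousComponent_eq_self (isHomogeneous_monomial a rfl), eval_monomial]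
    · rw [if_neg h, homogeneousComponent_of_mem (isHomogeneous_monomial a rfl), if_neg h,
        map_zero]
  | add p q hp hq => rw [map_add, Polynomial.coeff_add, hp, hq, map_add, map_add]

lemma hom_eval_smul' {k ι : Type*} [Field k] {F : MvPolynomial ι k} {e : ℕ}
    (hF : F.IsHomogeneous e) (c : k) (x : ι → k) : eval (c • x) F = c ^ e * eval x F := by
  simp only [MvPolynomial.eval_eq, Finset.mul_sum]
  refine Finset.sum_congr rfl fun d hd => ?_
  have hdeg : ∑ i ∈ d.support, d i = e := by
    have := hF (mem_support_iff.mp hd)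
    rw [← this, Finsupp.weight_apply, Finsupp.sum]
    simp
  simp only [Pi.smul_apply, smul_eq_mul, mul_pow, Finset.prod_mul_distrib,
    Finset.prod_pow_eq_pow_sum, hdeg]
  ring

/-- the Nullstellensatz for forms without common zeros on a cone -/
theorem null_identity {k ι lam : Type} [Field k] [IsAlgClosed k] [Finite ι] [Fintype lam]
    (T : Set (MvPolynomial ι k)) (hT : ∀ f ∈ T, ∃ e : ℕ, f.IsHomogeneous e)
    (F : lam → MvPolynomial ι k) (d : ℕ) (hF : ∀ l, (F l).IsHomogeneous d)
    (h0 : ∀ x : ι → k, (∀ f ∈ T, eval x f = 0) → (∀ l, eval x (F l) = 0) → x = 0) :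
    ∃ m : ℕ, d ≤ m ∧ 0 < m ∧ ∀ v : ι →₀ ℕ, v.degree = m → ∃ G : lam → MvPolynomial ι k,
      (∀ l, (G l).IsHomogeneous (m - d)) ∧
      ∀ x : ι → k, (∀ f ∈ T, eval x f = 0) →
        eval x (monomial v 1) = ∑ l, eval x (G l) * eval x (F l) := by
  classical
  have := Fintype.ofFinite ι
  set J : Ideal (MvPolynomial ι k) := Ideal.span (T ∪ Set.range F) with hJ
  have hrad : ∀ i, (X i : MvPolynomial ι k) ∈ J.radical := by
    intro i
    rw [← vanishingIdeal_zeroLocus_eq_radical (K := k) J]
    intro x hx
    have h1 : x = 0 := by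
      refine h0 x (fun f hf => ?_) (fun l => ?_)
      · exact hx f (Ideal.subset_span (Or.inl hf))
      · exact hx (F l) (Ideal.subset_span (Or.inr ⟨l, rfl⟩))
    rw [h1]
    simp
  choose M hM using hrad
  set N := ∑ i, M i with hN
  set m := d + 1 + Fintype.card ι * N with hm
  refine ⟨m, by omega, by omega, fun v hv => ?_⟩
  -- the monomial lies in the ideal
  have hmem : (monomial v 1 : MvPolynomial ι k) ∈ J := by
    obtain ⟨i, hi⟩ : ∃ i, M i ≤ v i := by
      by_contra hcon
      push Not at hcon
      have h2 : ∀ i, v i ≤ N := fun i =>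
        (hcon i).le.trans (Finset.single_le_sum (f := M) (fun _ _ => Nat.zero_le _)
          (Finset.mem_univ i))
      have h3 : ∑ i, v i ≤ Fintype.card ι * N := by
        refine (Finset.sum_le_card_nsmul _ _ N fun i _ => h2 i).trans ?_
        simp
      rw [← Finsupp.degree_eq_sum, hv] at h3
      omega
    have h1 : (monomial v 1 : MvPolynomial ι k) =
        monomial (v - Finsupp.single i (M i)) 1 * X i ^ M i := by
      rw [X_pow_eq_monomial, monomial_mul, mul_one, tsub_add_cancel_of_le]
      rwa [Finsupp.single_le_iff]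
    rw [h1]
    exact J.mul_mem_left _ (hM i)
  rw [hJ, Ideal.span_union, Submodule.mem_sup] at hmem
  obtain ⟨t, ht, u, hu, htu⟩ := hmem
  obtain ⟨g, hg⟩ := Ideal.mem_span_range_iff_exists_fun.mp hu
  have ht0 : ∀ x : ι → k, (∀ f ∈ T, eval x f = 0) → eval x t = 0 := by
    intro x hx
    have h1 : Ideal.span T ≤ RingHom.ker (eval x) := Ideal.span_le.mpr fun f hf => hx f hf
    exact h1 ht
  have hcone : ∀ x : ι → k, (∀ f ∈ T, eval x f = 0) → ∀ c : k, ∀ f ∈ T, eval (c • x) f = 0 := by
    intro x hx c f hf
    obtain ⟨e, he⟩ := hT f hf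
    rw [hom_eval_smul' he, hx f hf, mul_zero]
  refine ⟨fun l => homogeneousComponent (m - d) (g l), fun l =>
    homogeneousComponent_isHomogeneous _ _, fun x hx => ?_⟩
  have key : Polynomial.C (eval x (monomial v 1)) * Polynomial.X ^ m =
      ∑ l, coneHom x (g l) * (Polynomial.C (eval x (F l)) * Polynomial.X ^ d) := by
    apply Polynomial.funext
    intro c
    rw [Polynomial.eval_mul, Polynomial.eval_C, Polynomial.eval_pow, Polynomial.eval_X,
      Polynomial.eval_finsetSum]
    have h1 : eval x (monomial v 1) * c ^ m = eval (c • x) (monomial v 1) := by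
      rw [hom_eval_smul' (isHomogeneous_monomial 1 hv), mul_comm]
    rw [h1, ← htu, map_add, ht0 _ (hcone x hx c), zero_add, ← hg, map_sum]
    refine Finset.sum_congr rfl fun l _ => ?_
    rw [map_mul, Polynomial.eval_mul, Polynomial.eval_mul, Polynomial.eval_C,
      Polynomial.eval_pow, Polynomial.eval_X, coneHom_eval, hom_eval_smul' (hF l)]
    ring
  have h2 := congrArg (fun p => Polynomial.coeff p m) key
  simp only [Polynomial.coeff_C_mul, Polynomial.coeff_X_pow, if_true, mul_one,
    Polynomial.finsetSum_coeff] at h2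
  rw [h2]
  refine Finset.sum_congr rfl fun l _ => ?_
  rw [← coneHom_coeff]
  have h3 : coneHom x (g l) * (Polynomial.C (eval x (F l)) * Polynomial.X ^ d) =
      Polynomial.C (eval x (F l)) * coneHom x (g l) * Polynomial.X ^ d := by ring
  rw [h3, Polynomial.coeff_mul_X_pow', if_pos (by omega), Polynomial.coeff_C_mul, mul_comm]

/-- if all monomials of degree `m` in the generators `x` of `S` are combinations, with forms as
coefficients, of the values of forms of positive degree, then `S` is integral over these values -/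
theorem integral_of_null {k S ι lam : Type} [Field k] [CommRing S] [Algebra k S] [Finite ι]
    [Fintype lam] (x : ι → S) (hx : Function.Surjective (aeval x : MvPolynomial ι k →ₐ[k] S))
    (F : lam → MvPolynomial ι k) (m d : ℕ) (hd : 0 < d) (hdm : d ≤ m)
    (hnull : ∀ v : ι →₀ ℕ, v.degree = m → ∃ G : lam → MvPolynomial ι k,
      (∀ l, (G l).IsHomogeneous (m - d)) ∧
      aeval x (monomial v (1 : k)) = ∑ l, aeval x (G l) * aeval x (F l)) :
    (aeval (fun l => aeval x (F l)) : MvPolynomial lam k →ₐ[k] S).toRingHom.IsIntegral := by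
  classical
  have := Fintype.ofFinite ι
  let iA : Algebra (MvPolynomial lam k) S :=
    (aeval (fun l => aeval x (F l)) : MvPolynomial lam k →ₐ[k] S).toRingHom.toAlgebra
  have hmap : ∀ p : MvPolynomial lam k, algebraMap (MvPolynomial lam k) S p =
      aeval (fun l => aeval x (F l)) p := fun p => rfl
  -- the spanning set
  have hfin : {v : ι →₀ ℕ | v.degree < m}.Finite := by
    refine Set.Finite.subset (Set.finite_Iic (Finsupp.equivFunOnFinite.symm fun _ => m)) ?_
    intro v hv i
    rw [Set.mem_ofPred_eq, Finsupp.degree_eq_sum] at hv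
    have := Finset.single_le_sum (f := fun i => v i) (fun _ _ => Nat.zero_le _) (Finset.mem_univ i)
    simp only [Finsupp.equivFunOnFinite_symm_apply_apply]
    omega
  let W : Submodule (MvPolynomial lam k) S := Submodule.span _
    ((fun v : ι →₀ ℕ => aeval x (monomial v (1 : k))) '' {v : ι →₀ ℕ | v.degree < m})
  have hk : ∀ (c : k) (s : S), s ∈ W → c • s ∈ W := by
    intro c s hs
    have h1 : c • s = (C c : MvPolynomial lam k) • s := by
      rw [Algebra.smul_def, Algebra.smul_def, hmap, aeval_C]
    rw [h1]
    exact W.smul_mem _ hs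
  have hmono : ∀ (e : ℕ) (v : ι →₀ ℕ), v.degree = e → aeval x (monomial v (1 : k)) ∈ W := by
    intro e
    induction e using Nat.strong_induction_on with
    | _ e ih =>
      intro v hv
      by_cases hlt : v.degree < m
      · exact Submodule.subset_span ⟨v, hlt, rfl⟩
      · obtain ⟨g, hg, hgm⟩ := Finsupp.exists_le_degree_eq v m (not_lt.mp hlt)
        obtain ⟨G, hG, hGe⟩ := hnull g hgm
        have hdeg : (v - g).degree = e - m := by
          have h1 : (v - g).degree + g.degree = v.degree := by
            rw [← map_add, tsub_add_cancel_of_le hg]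
          omega
        have h1 : (monomial v (1 : k)) = monomial g 1 * monomial (v - g) 1 := by
          rw [monomial_mul, mul_one, add_tsub_cancel_of_le hg]
        rw [h1, map_mul, hGe, Finset.sum_mul]
        refine W.sum_mem fun l _ => ?_
        have h2 : aeval x (G l) * aeval x (F l) * aeval x (monomial (v - g) (1 : k)) =
            (X l : MvPolynomial lam k) • aeval x (G l * monomial (v - g) (1 : k)) := by
          rw [Algebra.smul_def, hmap, aeval_X, map_mul]
          ring
        rw [h2]
        apply W.smul_mem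
        have h3 : (G l * monomial (v - g) (1 : k)).IsHomogeneous (m - d + (e - m)) :=
          (hG l).mul (isHomogeneous_monomial 1 hdeg)
        rw [(G l * monomial (v - g) (1 : k)).as_sum, map_sum]
        refine W.sum_mem fun u hu => ?_
        have h4 : u.degree = m - d + (e - m) := by
          rw [Finsupp.degree_eq_weight_one]
          exact h3 (mem_support_iff.mp hu)
        have h5 : (monomial u (coeff u (G l * monomial (v - g) (1 : k)))) =
            coeff u (G l * monomial (v - g) (1 : k)) • monomial u (1 : k) := by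
          rw [smul_monomial, smul_eq_mul, mul_one]
        rw [h5, map_smul]
        exact hk _ _ (ih (m - d + (e - m)) (by omega) u h4)
  have htop : W = ⊤ := by
    rw [eq_top_iff]
    intro s _
    obtain ⟨p, rfl⟩ := hx s
    rw [p.as_sum, map_sum]
    refine W.sum_mem fun u _ => ?_
    have h5 : (monomial u (coeff u p)) = coeff u p • monomial u (1 : k) := by
      rw [smul_monomial, smul_eq_mul, mul_one]
    rw [h5, map_smul]
    exact hk _ _ (hmono _ u rfl)
  have hfinite : Module.Finite (MvPolynomial lam k) S :=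
    ⟨⟨(hfin.image _).toFinset, by rw [Set.Finite.coe_toFinset]; exact htop⟩⟩
  exact fun s => (Algebra.IsIntegral.of_finite (MvPolynomial lam k) S).isIntegral s

/-- an integral endomorphism of a Noetherian domain is injective -/
theorem injective_of_integral {S : Type*} [CommRing S] [IsDomain S] [IsNoetherianRing S]
    (φ : S →+* S) (hφ : φ.IsIntegral) : Function.Injective φ := by
  classical
  -- the kernels of the powers
  let ker : ℕ →o Ideal S := ⟨fun n => RingHom.ker (φ ^ n), by
    refine monotone_nat_of_le_succ fun n x hx => ?_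
    rw [RingHom.mem_ker] at hx ⊢
    rw [pow_succ', RingHom.mul_def, RingHom.comp_apply, hx, map_zero]⟩
  obtain ⟨n, hn⟩ := monotone_stabilizes_iff_noetherian.mpr (inferInstance : IsNoetherian S S) ker
  have hker : ∀ x, (φ ^ (n + 1)) x = 0 → (φ ^ n) x = 0 := by
    intro x hx
    have h1 : x ∈ ker (n + 1) := hx
    rw [← hn (n + 1) (by omega)] at h1
    exact h1
  have hint : (φ ^ n).IsIntegral := by
    clear hn hker
    induction n with
    | zero =>
      rw [pow_zero]
      exact RingHom.isIntegral_of_surjective _ Function.surjective_id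
    | succ n ih =>
      rw [pow_succ, RingHom.mul_def]
      exact RingHom.IsIntegral.trans _ _ hφ ih
  rw [injective_iff_map_eq_zero]
  intro f hf
  by_contra hf0
  have hex : ∃ d : ℕ, ∃ p : Polynomial S, p.Monic ∧ Polynomial.eval₂ (φ ^ n) f p = 0 ∧
      p.natDegree = d := by
    obtain ⟨p, hp, hp0⟩ := hint f
    exact ⟨_, p, hp, hp0, rfl⟩
  obtain ⟨p, hp, hp0, hd⟩ := Nat.find_spec hex
  have h1 : (φ ^ (n + 1)) (p.coeff 0) = 0 := by
    have h2 := congrArg φ hp0
    rw [Polynomial.hom_eval₂, map_zero, hf, Polynomial.eval₂_at_zero] at h2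
    rw [pow_succ', RingHom.mul_def]
    exact h2
  have h2 : (φ ^ n) (p.coeff 0) = 0 := hker _ h1
  have h3 : Polynomial.eval₂ (φ ^ n) f p.divX = 0 := by
    have h4 : p = p.divX * Polynomial.X + Polynomial.C (p.coeff 0) := (Polynomial.divX_mul_X_add p).symm
    rw [h4, Polynomial.eval₂_add, Polynomial.eval₂_mul, Polynomial.eval₂_X, Polynomial.eval₂_C, h2,
      add_zero] at hp0
    exact (mul_eq_zero.mp hp0).resolve_right hf0
  have hdeg : p.natDegree ≠ 0 := by
    intro h0
    rw [Polynomial.eq_one_of_monic_natDegree_zero hp h0, Polynomial.eval₂_one] at hp0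
    exact one_ne_zero hp0
  have h4 : p.divX.Monic := by
    rw [Polynomial.Monic, Polynomial.leadingCoeff, Polynomial.natDegree_divX_eq_natDegree_tsub_one,
      Polynomial.coeff_divX]
    have : p.natDegree - 1 + 1 = p.natDegree := by omega
    rw [this]
    exact hp
  refine Nat.find_min hex (m := p.divX.natDegree) ?_ ⟨p.divX, h4, h3, rfl⟩
  rw [← hd, Polynomial.natDegree_divX_eq_natDegree_tsub_one]
  omega

/-- a point of a variety has a preimage under a finite endomorphism -/
theorem surjective_of_integral {k S : Type*} [Field k] [IsAlgClosed k] [CommRing S] [IsDomain S]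
    [Algebra k S] [Algebra.FiniteType k S] (φ : S →ₐ[k] S) (hφ : φ.toRingHom.IsIntegral)
    (χ : S →ₐ[k] k) : ∃ χ' : S →ₐ[k] k, ∀ s, χ' (φ s) = χ s := by
  have : IsNoetherianRing S := Algebra.FiniteType.isNoetherianRing k S
  have hinj := injective_of_integral φ.toRingHom hφ
  have hker : RingHom.ker χ.toRingHom ≠ ⊤ := RingHom.ker_ne_top _
  have h1 : (RingHom.ker χ.toRingHom).map φ.toRingHom ≠ ⊤ := by
    rw [Ne, Ideal.map_eq_top_iff φ.toRingHom hinj hφ]
    exact hker
  obtain ⟨m, hm, hle⟩ := Ideal.exists_le_maximal _ h1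
  let iF : Field (S ⧸ m) := Ideal.Quotient.field m
  have hfin : Module.Finite k (S ⧸ m) := finite_of_finite_type_of_isJacobsonRing k (S ⧸ m)
  have hbij : Function.Bijective (algebraMap k (S ⧸ m)) :=
    IsAlgClosed.algebraMap_bijective_of_isIntegral
  let e : k ≃ₐ[k] (S ⧸ m) := AlgEquiv.ofBijective (Algebra.ofId k _) hbij
  let χ' : S →ₐ[k] k := e.symm.toAlgHom.comp (Ideal.Quotient.mkₐ k m)
  refine ⟨χ', fun s => ?_⟩
  have h2 : s - algebraMap k S (χ s) ∈ RingHom.ker χ.toRingHom := by
    rw [RingHom.mem_ker]
    change χ (s - algebraMap k S (χ s)) = 0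
    rw [map_sub, AlgHom.commutes]
    exact sub_self _
  have h3 : φ s - algebraMap k S (χ s) ∈ m := by
    have := hle (Ideal.mem_map_of_mem φ.toRingHom h2)
    have e1 : φ.toRingHom (s - algebraMap k S (χ s)) = φ s - algebraMap k S (χ s) := by
      change φ (s - algebraMap k S (χ s)) = _
      rw [map_sub, AlgHom.commutes]
    rwa [e1] at this
  have h4 : χ' (φ s - algebraMap k S (χ s)) = 0 := by
    have h5 : Ideal.Quotient.mkₐ k m (φ s - algebraMap k S (χ s)) = 0 :=
      Ideal.Quotient.eq_zero_iff_mem.mpr h3
    simp only [χ', AlgHom.comp_apply]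
    rw [h5, map_zero]
  rw [map_sub, AlgHom.commutes, sub_eq_zero] at h4
  exact h4

end Run7.h385
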