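import Mathlib
import Pool.Agent.Run7.h385.Cone

set_option autoImplicit false

/-!
# The coordinate ring of the cone over a projective variety and finite endomorphisms
-/

namespace Run7.h385

open MvPolynomial

section

variable {k : Type} [Field k] [IsAlgClosed k] {ι : Type} [Finite ι]

/-- the cone defined by the forms of `T` -/
def cone (T : Set (MvPolynomial ι k)) : Set (ι → k) := {x | ∀ f ∈ T, eval x f = 0}

omit [IsAlgClosed k] [Finite ι] in
lemma cone_smul {T : Set (MvPolynomial ι k)} (hT : ∀ f ∈ T, ∃ e : ℕ, f.IsHomogeneous e) {x : ι → k}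
    (hx : x ∈ cone T) (c : k) : c • x ∈ cone T := by
  intro f hf
  obtain ⟨e, he⟩ := hT f hf
  rw [hom_eval_smul' he, hx f hf, mul_zero]

omit [IsAlgClosed k] [Finite ι] in
lemma mem_van {T : Set (MvPolynomial ι k)} {f : MvPolynomial ι k} :
    f ∈ vanishingIdeal k (cone T) ↔ ∀ x ∈ cone T, eval x f = 0 := Iff.rfl

lemma van_component {T : Set (MvPolynomial ι k)} (hT : ∀ f ∈ T, ∃ e : ℕ, f.IsHomogeneous e)
    {f : MvPolynomial ι k} (hf : f ∈ vanishingIdeal k (cone T)) (j : ℕ) :
    homogeneousComponent j f ∈ vanishingIdeal k (cone T) := by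
  rw [mem_van] at hf ⊢
  intro x hx
  rw [← coneHom_coeff]
  have h1 : coneHom x f = 0 := by
    apply Polynomial.funext
    intro c
    rw [coneHom_eval, hf _ (cone_smul hT hx c), Polynomial.eval_zero]
  rw [h1, Polynomial.coeff_zero]

theorem cone_prime {T : Set (MvPolynomial ι k)} (hT : ∀ f ∈ T, ∃ e : ℕ, f.IsHomogeneous e)
    (hne : (cone T).Nonempty)
    (irr : ∀ F G : MvPolynomial ι k, (∃ e : ℕ, F.IsHomogeneous e) →
      (∃ e : ℕ, G.IsHomogeneous e) → (∀ x ∈ cone T, eval x (F * G) = 0) →
      (∀ x ∈ cone T, eval x F = 0) ∨ (∀ x ∈ cone T, eval x G = 0)) :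
    (vanishingIdeal k (cone T)).IsPrime := by
  classical
  let _ : GradedAlgebra (homogeneousSubmodule ι k) := MvPolynomial.gradedAlgebra
  refine Ideal.IsHomogeneous.isPrime_of_homogeneous_mem_or_mem
    (𝒜 := homogeneousSubmodule ι k) ?_ ?_ ?_
  · intro j f hf
    have h1 : ((DirectSum.decompose (homogeneousSubmodule ι k) f) j : MvPolynomial ι k) =
        homogeneousComponent j f := decomposition.decompose'_apply f j
    rw [h1]
    exact van_component hT hf j
  · intro h
    obtain ⟨x, hx⟩ := hne
    have h1 : (1 : MvPolynomial ι k) ∈ vanishingIdeal k (cone T) := by rw [h]; trivial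
    have h2 := mem_van.mp h1 x hx
    rw [map_one] at h2
    exact one_ne_zero h2
  · rintro F G ⟨e, he⟩ ⟨e', he'⟩ hFG
    exact irr F G ⟨e, he⟩ ⟨e', he'⟩ hFG

/-- an endomorphism of a cone given by forms without common zeros is surjective -/
theorem cone_surj {T : Set (MvPolynomial ι k)} (hT : ∀ f ∈ T, ∃ e : ℕ, f.IsHomogeneous e)
    (hp : (vanishingIdeal k (cone T)).IsPrime) (F : ι → MvPolynomial ι k) (d : ℕ) (hd : 0 < d)
    (hF : ∀ l, (F l).IsHomogeneous d) (hC : ∀ x ∈ cone T, (fun l => eval x (F l)) ∈ cone T)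
    (h0 : ∀ x ∈ cone T, (∀ l, eval x (F l) = 0) → x = 0) :
    (∀ y ∈ cone T, ∃ x ∈ cone T, ∀ l, eval x (F l) = y l) ∧
    ∀ y : ι → k, {x | x ∈ cone T ∧ ∀ l, eval x (F l) = y l}.Finite := by
  classical
  have hfι := Fintype.ofFinite ι
  set I := vanishingIdeal k (cone T) with hI
  let S := MvPolynomial ι k ⧸ I
  have hdom : IsDomain S := Ideal.Quotient.isDomain I
  let q : MvPolynomial ι k →ₐ[k] S := Ideal.Quotient.mkₐ k I
  have hq : Function.Surjective q := Ideal.Quotient.mkₐ_surjective k I
  have hq0 : ∀ f, q f = 0 ↔ f ∈ I := fun f => Ideal.Quotient.eq_zero_iff_mem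
  have hft : Algebra.FiniteType k S := Algebra.FiniteType.of_surjective q hq
  let x₀ : ι → S := fun i => q (X i)
  have hx₀ : ∀ f, aeval x₀ f = q f := by
    intro f
    have := DFunLike.congr_fun (aeval_unique q) f
    exact this.symm
  -- the points of the cone give homomorphisms
  have hpt : ∀ x ∈ cone T, ∃ χ : S →ₐ[k] k, ∀ f, χ (q f) = eval x f := by
    intro x hx
    refine ⟨Ideal.Quotient.liftₐ I (aeval x) (fun f hf => mem_van.mp hf x hx), fun f => ?_⟩
    exact Ideal.Quotient.lift_mk I _ _
  obtain ⟨m, hdm, hm0, hnull⟩ := null_identity T hT F d hF (fun x hx h => h0 x hx h)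
  have hint := integral_of_null (k := k) x₀ (fun s => by
    obtain ⟨f, rfl⟩ := hq s
    exact ⟨f, hx₀ f⟩) F m d hd hdm (fun v hv => by
      obtain ⟨G, hG, hGe⟩ := hnull v hv
      refine ⟨G, hG, ?_⟩
      simp only [hx₀]
      rw [← sub_eq_zero]
      have h1 : q (monomial v 1) - ∑ l, q (G l) * q (F l) =
          q (monomial v 1 - ∑ l, G l * F l) := by
        rw [map_sub, map_sum]
        simp only [map_mul]
      rw [h1, hq0, hI, mem_van]
      intro x hx
      rw [map_sub, map_sum, hGe x hx, sub_eq_zero]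
      simp only [map_mul])
  simp only [hx₀] at hint
  constructor
  · -- the endomorphism
    have hker : ∀ f ∈ I, (aeval (fun l => q (F l)) : MvPolynomial ι k →ₐ[k] S) f = 0 := by
      intro f hf
      have h1 : (aeval (fun l => q (F l)) : MvPolynomial ι k →ₐ[k] S) f = q (aeval F f) :=
        (comp_aeval_apply q (f := F) f).symm
      rw [h1, hq0, hI, mem_van]
      intro x hx
      have h2 : eval x (aeval F f) = eval (fun l => eval x (F l)) f :=
        comp_aeval_apply (aeval x : MvPolynomial ι k →ₐ[k] k) (f := F) f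
      rw [h2]
      exact mem_van.mp hf _ (hC x hx)
    let φ : S →ₐ[k] S := Ideal.Quotient.liftₐ I (aeval (fun l => q (F l))) hker
    have hφ : ∀ f, φ (q f) = aeval (fun l => q (F l)) f := fun f => Ideal.Quotient.lift_mk I _ _
    have hφint : φ.toRingHom.IsIntegral := by
      intro s
      obtain ⟨p, hp1, hp2⟩ := hint s
      refine ⟨p.map q.toRingHom, hp1.map _, ?_⟩
      rw [Polynomial.eval₂_map]
      have h1 : φ.toRingHom.comp q.toRingHom =
          (aeval (fun l => q (F l)) : MvPolynomial ι k →ₐ[k] S).toRingHom := by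
        ext f
        · simp
        · exact hφ _
      rw [h1]
      exact hp2
    intro y hy
    obtain ⟨χ, hχ⟩ := hpt y hy
    obtain ⟨χ', hχ'⟩ := surjective_of_integral φ hφint χ
    have hev : ∀ f, χ' (q f) = eval (fun i => χ' (q (X i))) f := by
      intro f
      have := DFunLike.congr_fun (aeval_unique (χ'.comp q)) f
      exact this
    refine ⟨fun i => χ' (q (X i)), fun f hf => ?_, fun l => ?_⟩
    · rw [← hev]
      have h1 : q f = 0 := by
        rw [hq0, hI, mem_van]
        exact fun x hx => hx f hf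
      rw [h1, map_zero]
    · rw [← hev]
      have h1 : q (F l) = φ (q (X l)) := by rw [hφ, aeval_X]
      rw [h1, hχ', hχ, eval_X]
  · intro y
    choose p hp1 hp2 using fun i => hint (x₀ i)
    have hev : ∀ i, ∀ x ∈ cone T, (∀ l, eval x (F l) = y l) →
        x i ∈ ((p i).map (eval y)).roots.toFinset := by
      intro i x hx hxy
      have hne : (p i).map (eval y) ≠ 0 := ((hp1 i).map (eval y)).ne_zero
      rw [Multiset.mem_toFinset, Polynomial.mem_roots hne, Polynomial.IsRoot, Polynomial.eval_map]
      obtain ⟨χ, hχ⟩ := hpt x hx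
      have h1 := congrArg χ.toRingHom (hp2 i)
      rw [Polynomial.hom_eval₂, map_zero] at h1
      have h2 : χ.toRingHom.comp (aeval (fun l => q (F l)) : MvPolynomial ι k →ₐ[k] S).toRingHom =
          eval y := by
        refine MvPolynomial.ringHom_ext (fun c => ?_) (fun l => ?_)
        · change χ (aeval (fun l => q (F l)) (C c)) = eval y (C c)
          rw [aeval_C, AlgHom.commutes, eval_C]
          rfl
        · change χ (aeval (fun l => q (F l)) (X l)) = eval y (X l)
          rw [aeval_X, eval_X, hχ, hxy]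
      rw [h2] at h1
      have h3 : χ.toRingHom (x₀ i) = x i := by
        change χ (q (X i)) = x i
        rw [hχ, eval_X]
      rw [h3] at h1
      exact h1
    refine Set.Finite.subset (Set.Finite.pi fun i =>
      (((p i).map (eval y)).roots.toFinset).finite_toSet) ?_
    rintro x ⟨hx, hxy⟩ i _
    exact hev i x hx hxy

end

end Run7.h385
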