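import Mathlib
import Pool.Agent.Run7.h385.AbDefs
import Pool.Agent.Run7.h385.ConeRing
import Pool.Agent.Run7.h385.GroupHeight

set_option autoImplicit false

/-!
# Abelian varieties in a projective model: the group of points, divisibility
-/

namespace Run7.h385

open MvPolynomial
open Pool.Agent.Helper259.AbsHt

variable {N : ℕ} {A : Set (PSpace N)} {add : PSpace N → PSpace N → PSpace N}
  {neg : PSpace N → PSpace N} {zero : PSpace N}

/-- the group of the points of `A` -/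
@[reducible] noncomputable def IsAbelianModel.group (h : IsAbelianModel A add neg zero) :
    AddCommGroup A :=
  let _ : Add A := ⟨fun P Q => ⟨add P Q, h.add_mem P P.2 Q Q.2⟩⟩
  let _ : Zero A := ⟨⟨zero, h.zero_mem⟩⟩
  let _ : Neg A := ⟨fun P => ⟨neg P, h.neg_mem P P.2⟩⟩
  { AddGroup.ofLeftAxioms
    (fun P Q R => Subtype.ext (h.add_assoc P P.2 Q Q.2 R R.2))
    (fun P => Subtype.ext (h.zero_add P P.2))
    (fun P => Subtype.ext (h.neg_add P P.2)) with
    add_comm := fun P Q => Subtype.ext (h.add_comm P P.2 Q Q.2) }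

/-- the doubling forms -/
noncomputable def dblForm (F : Fin (N + 1) → Fin (N + 1) → MvPolynomial (Fin (N + 1) ⊕ Fin (N + 1)) Qbar)
    (j : Fin (N + 1)) (i : Fin (N + 1)) : MvPolynomial (Fin (N + 1)) Qbar :=
  rename (Sum.elim id id) (F i j)

lemma eval_dblForm (F : Fin (N + 1) → Fin (N + 1) → MvPolynomial (Fin (N + 1) ⊕ Fin (N + 1)) Qbar)
    (j i : Fin (N + 1)) (x : Fin (N + 1) → Qbar) :
    eval x (dblForm F j i) = eval (Sum.elim x x) (F i j) := by
  rw [dblForm, eval_rename]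
  congr 1
  congr 1
  funext s
  rcases s with s | s <;> rfl

lemma eval_forms
    {F : Fin (N + 1) → Fin (N + 1) → MvPolynomial (Fin (N + 1) ⊕ Fin (N + 1)) Qbar}
    (hF : ∀ i j, IsBihomogeneous (F i j) 2 2)
    (hF' : ∀ P ∈ A, ∀ Q ∈ A, ∃ c : Qbar, c ≠ 0 ∧ ∀ i j,
      eval (Sum.elim P.rep Q.rep) (F i j) = c * ((add P Q).rep i * (add P (neg Q)).rep j))
    {x y : Fin (N + 1) → Qbar} (hx : x ≠ 0) (hy : y ≠ 0)
    (hxA : Projectivization.mk Qbar x hx ∈ A) (hyA : Projectivization.mk Qbar y hy ∈ A) :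
    ∃ c : Qbar, c ≠ 0 ∧ ∀ i j, eval (Sum.elim x y) (F i j) =
      c * ((add (Projectivization.mk Qbar x hx) (Projectivization.mk Qbar y hy)).rep i *
        (add (Projectivization.mk Qbar x hx) (neg (Projectivization.mk Qbar y hy))).rep j) := by
  obtain ⟨c, hc, h1⟩ := hF' _ hxA _ hyA
  obtain ⟨a, ha, hra⟩ := exists_rep x hx
  obtain ⟨b, hb, hrb⟩ := exists_rep y hy
  refine ⟨c / (a ^ 2 * b ^ 2), by positivity, fun i j => ?_⟩
  have h2 := h1 i j
  rw [hra, hrb, (hF i j).eval_smul] at h2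
  rw [div_mul_eq_mul_div, ← h2]
  field_simp

lemma mk_mem_iff {T : Set (MvPolynomial (Fin (N + 1)) Qbar)} (hT : ∀ F ∈ T, ∃ e : ℕ, F.IsHomogeneous e)
    (hA : A = {P : PSpace N | ∀ F ∈ T, eval P.rep F = 0}) {x : Fin (N + 1) → Qbar} (hx : x ≠ 0) :
    Projectivization.mk Qbar x hx ∈ A ↔ x ∈ cone T := by
  rw [hA]
  constructor
  · intro h f hf
    obtain ⟨e, he⟩ := hT f hf
    exact (eval_mk_ne he x hx).mp (h f hf)
  · intro h f hf
    obtain ⟨e, he⟩ := hT f hf
    exact (eval_mk_ne he x hx).mpr (h f hf)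

lemma rep_mem_iff {T : Set (MvPolynomial (Fin (N + 1)) Qbar)}
    (hA : A = {P : PSpace N | ∀ F ∈ T, eval P.rep F = 0}) {P : PSpace N} :
    P ∈ A ↔ P.rep ∈ cone T := by
  rw [hA]
  rfl

/-- the cone over an irreducible variety -/
lemma variety_cone_prime (hV : IsVarietyOver ⊤ A) {T : Set (MvPolynomial (Fin (N + 1)) Qbar)}
    (hT : ∀ F ∈ T, ∃ e : ℕ, F.IsHomogeneous e)
    (hA : A = {P : PSpace N | ∀ F ∈ T, eval P.rep F = 0}) :
    (vanishingIdeal Qbar (cone T)).IsPrime := by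
  obtain ⟨P₀, hP₀⟩ := hV.nonempty
  refine cone_prime hT ⟨P₀.rep, (rep_mem_iff hA).mp hP₀⟩ fun F G hF hG hFG => ?_
  have key : ∀ F : MvPolynomial (Fin (N + 1)) Qbar, (∃ e : ℕ, F.IsHomogeneous e) →
      (∀ P ∈ A, eval P.rep F = 0) → ∀ x ∈ cone T, eval x F = 0 := by
    rintro F ⟨e, he⟩ hF x hx
    by_cases hx0 : x = 0
    · have h1 := hF P₀ hP₀
      have h2 := hom_eval_smul' he 0 P₀.rep
      rw [h1, mul_zero, zero_smul] at h2
      rw [hx0]
      exact h2
    · exact (eval_mk_ne he x hx0).mp (hF _ ((mk_mem_iff hT hA hx0).mpr hx))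
  rcases hV.irreducible F G hF hG (fun P hP => hFG _ ((rep_mem_iff hA).mp hP)) with h | h
  · exact Or.inl (key F hF h)
  · exact Or.inr (key G hG h)

/-- data for the doubling map -/
theorem IsAbelianModel.doubling (h : IsAbelianModel A add neg zero) :
    (∀ P ∈ A, ∃ Q ∈ A, add Q Q = P) ∧ ∀ P : PSpace N, {Q | Q ∈ A ∧ add Q Q = P}.Finite := by
  classical
  obtain ⟨F, hF, hF'⟩ := h.forms
  obtain ⟨T, hT, hA⟩ := h.variety.closed
  have hT' : ∀ F ∈ T, ∃ e : ℕ, F.IsHomogeneous e := fun F hF => (hT F hF).1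
  have hp := variety_cone_prime h.variety hT' hA
  obtain ⟨j₀, hj₀⟩ : ∃ j, zero.rep j ≠ 0 := by
    by_contra hcon
    push Not at hcon
    exact zero.rep_nonzero (funext hcon)
  have hhom : ∀ i, (dblForm F j₀ i).IsHomogeneous 4 := fun i =>
    IsHomogeneous.rename_isHomogeneous (hF i j₀).isHomogeneous
  have hsub : ∀ P ∈ A, add P (neg P) = zero := by
    intro P hP
    rw [h.add_comm P hP (neg P) (h.neg_mem P hP), h.neg_add P hP]
  have hdbl : ∀ (x : Fin (N + 1) → Qbar) (hx : x ≠ 0) (hxA : Projectivization.mk Qbar x hx ∈ A),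
      ∃ c : Qbar, c ≠ 0 ∧ (fun i => eval x (dblForm F j₀ i)) =
        c • (add (Projectivization.mk Qbar x hx) (Projectivization.mk Qbar x hx)).rep := by
    intro x hx hxA
    obtain ⟨c, hc, h1⟩ := eval_forms hF hF' hx hx hxA hxA
    refine ⟨c * zero.rep j₀, mul_ne_zero hc hj₀, ?_⟩
    funext i
    rw [eval_dblForm, h1, hsub _ hxA, Pi.smul_apply, smul_eq_mul]
    ring
  obtain ⟨hs1, hs2⟩ := cone_surj hT' hp (dblForm F j₀) 4 (by norm_num) hhom (fun x hx => by
    by_cases hx0 : x = 0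
    · intro f hf
      have h1 : (fun l => eval x (dblForm F j₀ l)) = 0 := by
        funext l
        have := hom_eval_smul' (hhom l) 0 x
        rw [zero_smul] at this
        rw [hx0, this]
        simp
      rw [h1, ← hx0]
      exact hx f hf
    · obtain ⟨c, hc, h1⟩ := hdbl x hx0 ((mk_mem_iff hT' hA hx0).mpr hx)
      rw [h1]
      apply cone_smul hT'
      rw [← rep_mem_iff hA]
      exact h.add_mem _ ((mk_mem_iff hT' hA hx0).mpr hx) _ ((mk_mem_iff hT' hA hx0).mpr hx))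
    (fun x hx hx0 => by
      by_contra hne
      obtain ⟨c, hc, h1⟩ := hdbl x hne ((mk_mem_iff hT' hA hne).mpr hx)
      have h2 : (fun i => eval x (dblForm F j₀ i)) = 0 := funext hx0
      rw [h2] at h1
      exact (smul_ne_zero hc (Projectivization.rep_nonzero _)) h1.symm)
  constructor
  · intro P hP
    obtain ⟨x, hx, hxP⟩ := hs1 P.rep ((rep_mem_iff hA).mp hP)
    have hx0 : x ≠ 0 := by
      rintro rfl
      apply P.rep_nonzero
      funext l
      rw [← hxP l]
      have := hom_eval_smul' (hhom l) 0 (0 : Fin (N + 1) → Qbar)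
      rw [zero_smul] at this
      rw [this]
      simp
    have hxA := (mk_mem_iff hT' hA hx0).mpr hx
    refine ⟨Projectivization.mk Qbar x hx0, hxA, ?_⟩
    obtain ⟨c, hc, h1⟩ := hdbl x hx0 hxA
    rw [← Projectivization.mk_rep (add _ _), ← Projectivization.mk_rep P,
      Projectivization.mk_eq_mk_iff']
    refine ⟨c⁻¹, ?_⟩
    have h2 : P.rep = c • (add (Projectivization.mk Qbar x hx0)
        (Projectivization.mk Qbar x hx0)).rep := by
      rw [← h1]
      exact (funext hxP).symm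
    rw [h2, smul_smul, inv_mul_cancel₀ hc, one_smul]
  · intro P
    refine Set.Finite.subset ((hs2 P.rep).image fun x =>
      if hx : x ≠ 0 then Projectivization.mk Qbar x hx else P) ?_
    rintro Q ⟨hQ, hQP⟩
    obtain ⟨c, hc, h1⟩ := hdbl Q.rep Q.rep_nonzero (by rw [Projectivization.mk_rep]; exact hQ)
    rw [Projectivization.mk_rep, hQP] at h1
    obtain ⟨r, hr⟩ := IsAlgClosed.exists_pow_nat_eq c⁻¹ (show 0 < 4 by norm_num)
    have hr0 : r ≠ 0 := by
      rintro rfl
      have : c⁻¹ ≠ 0 := inv_ne_zero hc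
      apply this
      rw [← hr]
      norm_num
    refine ⟨r • Q.rep, ⟨cone_smul hT' ((rep_mem_iff hA).mp hQ) r, fun l => ?_⟩, ?_⟩
    · rw [hom_eval_smul' (hhom l), hr]
      have h2 := congrFun h1 l
      rw [h2, Pi.smul_apply, smul_eq_mul, inv_mul_cancel_left₀ hc]
    · have h3 : r • Q.rep ≠ 0 := smul_ne_zero hr0 Q.rep_nonzero
      simp only [dif_pos h3]
      refine Eq.trans ?_ (Projectivization.mk_rep Q)
      rw [Projectivization.mk_eq_mk_iff']
      exact ⟨r, rfl⟩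

end Run7.h385
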