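import Mathlib
import Pool.Agent.Run7.h385.AbBasic

set_option autoImplicit false

/-!
# Abelian varieties in a projective model: heights
-/

namespace Run7.h385

open MvPolynomial
open Pool.Agent.Helper259.AbsHt

/-- a bihomogeneous form is a bilinear form in the products of the variables -/
lemma exists_bilinear {a b : ℕ} {F : MvPolynomial (Fin (a + 1) ⊕ Fin (b + 1)) Qbar} {d e : ℕ}
    (hF : IsBihomogeneous F d e) :
    ∃ B : (Fin d → Fin (a + 1)) × (Fin e → Fin (b + 1)) → Qbar,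
      ∀ (x : Fin (a + 1) → Qbar) (y : Fin (b + 1) → Qbar), eval (Sum.elim x y) F =
        ∑ I, B I * ((∏ s, x (I.1 s)) * ∏ s, y (I.2 s)) := by
  classical
  have h1 : ∀ s : (Fin (a + 1) ⊕ Fin (b + 1)) →₀ ℕ,
      ∃ B : (Fin d → Fin (a + 1)) × (Fin e → Fin (b + 1)) → Qbar,
      F.coeff s ≠ 0 → ∀ (x : Fin (a + 1) → Qbar) (y : Fin (b + 1) → Qbar),
        ∏ i, (Sum.elim x y i) ^ s i = ∑ I, B I * ((∏ s, x (I.1 s)) * ∏ s, y (I.2 s)) := by
    intro s
    by_cases hs : F.coeff s = 0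
    · exact ⟨0, fun h => absurd hs h⟩
    obtain ⟨hd, he⟩ := hF s hs
    have hp : (∏ i, (X i : MvPolynomial (Fin (a + 1)) Qbar) ^ s (Sum.inl i)).IsHomogeneous d := by
      have := IsHomogeneous.prod Finset.univ
        (fun i => (X i : MvPolynomial (Fin (a + 1)) Qbar) ^ s (Sum.inl i))
        (fun i => s (Sum.inl i)) (fun i _ => by
          have := (isHomogeneous_X Qbar i).pow (s (Sum.inl i))
          rwa [one_mul] at this)
      rwa [hd] at this
    have hq : (∏ i, (X i : MvPolynomial (Fin (b + 1)) Qbar) ^ s (Sum.inr i)).IsHomogeneous e := by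
      have := IsHomogeneous.prod Finset.univ
        (fun i => (X i : MvPolynomial (Fin (b + 1)) Qbar) ^ s (Sum.inr i))
        (fun i => s (Sum.inr i)) (fun i _ => by
          have := (isHomogeneous_X Qbar i).pow (s (Sum.inr i))
          rwa [one_mul] at this)
      rwa [he] at this
    obtain ⟨P, hP⟩ := exists_linear d _ hp
    obtain ⟨Q, hQ⟩ := exists_linear e _ hq
    refine ⟨fun I => P I.1 * Q I.2, fun _ x y => ?_⟩
    have e1 := hP x
    have e2 := hQ y
    simp only [map_prod, map_pow, eval_X] at e1 e2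
    rw [Fintype.prod_sum_type]
    simp only [Sum.elim_inl, Sum.elim_inr]
    rw [e1, e2, Finset.sum_mul_sum, Fintype.sum_prod_type]
    refine Finset.sum_congr rfl fun I _ => Finset.sum_congr rfl fun J _ => ?_
    ring
  choose B hB using h1
  refine ⟨fun I => ∑ s ∈ F.support, F.coeff s * B s I, fun x y => ?_⟩
  rw [eval_eq']
  simp_rw [Finset.sum_mul]
  rw [Finset.sum_comm]
  refine Finset.sum_congr rfl fun s hs => ?_
  rw [hB s (mem_support_iff.mp hs) x y, Finset.mul_sum]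
  refine Finset.sum_congr rfl fun I _ => ?_
  ring

lemma veronese_ne {ι : Type*} {x : ι → Qbar} (hx : x ≠ 0) (d : ℕ) :
    (fun I : Fin d → ι => ∏ s, x (I s)) ≠ 0 := by
  obtain ⟨i, hi⟩ : ∃ i, x i ≠ 0 := by
    by_contra h
    push Not at h
    exact hx (funext h)
  intro h
  have h1 := congrFun h fun _ => i
  simp only [Finset.prod_const, Pi.zero_apply] at h1
  exact pow_ne_zero _ hi h1

/-- heights of values of bihomogeneous forms, sharp version -/
lemma ht_bihom_sharp {lam : Type} [Finite lam] {a b : ℕ}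
    (F : lam → MvPolynomial (Fin (a + 1) ⊕ Fin (b + 1)) Qbar)
    (d e : ℕ) (hF : ∀ i, IsBihomogeneous (F i) d e) :
    ∃ C : ℝ, ∀ (x : Fin (a + 1) → Qbar) (y : Fin (b + 1) → Qbar), x ≠ 0 → y ≠ 0 →
      absLogHeight (fun i => eval (Sum.elim x y) (F i)) ≤
        C + d * absLogHeight x + e * absLogHeight y := by
  classical
  choose B hB using fun i => exists_bilinear (hF i)
  refine ⟨Real.log (Nat.card ((Fin d → Fin (a + 1)) × (Fin e → Fin (b + 1)))) +
    absLogHeight (fun s : lam × ((Fin d → Fin (a + 1)) × (Fin e → Fin (b + 1))) => B s.1 s.2),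
    fun x y hx hy => ?_⟩
  have h1 := absLogHeight_linear
    (fun s : lam × ((Fin d → Fin (a + 1)) × (Fin e → Fin (b + 1))) => B s.1 s.2)
    (fun I => (∏ s, x (I.1 s)) * ∏ s, y (I.2 s))
  have h2 := absLogHeight_segre (veronese_ne hx d) (veronese_ne hy e)
  rw [absLogHeight_veronese, absLogHeight_veronese] at h2
  rw [h2] at h1
  have e1 : (fun i => eval (Sum.elim x y) (F i)) =
      fun j => ∑ I, B j I * ((∏ s, x (I.1 s)) * ∏ s, y (I.2 s)) := by
    funext j
    exact hB j x y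
  rw [e1]
  linarith

/-- forms of degree `d` without common zeros on a cone: the height is multiplied by at least `d` -/
theorem ht_forms_lower {ι lam : Type} [Fintype ι] [Fintype lam]
    (T : Set (MvPolynomial ι Qbar)) (hT : ∀ f ∈ T, ∃ e : ℕ, f.IsHomogeneous e)
    (F : lam → MvPolynomial ι Qbar) (d : ℕ) (hF : ∀ l, (F l).IsHomogeneous d)
    (h0 : ∀ x ∈ cone T, (∀ l, eval x (F l) = 0) → x = 0) :
    ∃ C : ℝ, ∀ x ∈ cone T, x ≠ 0 →
      d * absLogHeight x ≤ C + absLogHeight (fun l => eval x (F l)) := by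
  classical
  obtain ⟨m, hdm, hm0, hnull⟩ := null_identity T hT F d hF (fun x hx h => h0 x hx h)
  set v : (Fin m → ι) → ι →₀ ℕ := fun I => ∑ a, Finsupp.single (I a) 1 with hv
  have hvdeg : ∀ I, (v I).degree = m := by
    intro I
    rw [hv, map_sum]
    simp
  have hvev : ∀ (I : Fin m → ι) (x : ι → Qbar), eval x (monomial (v I) (1 : Qbar)) = ∏ a, x (I a) := by
    intro I x
    have h1 : (monomial (v I) (1 : Qbar)) = ∏ a, X (I a) := by
      rw [hv]
      simp only
      rw [monomial_sum_one]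
      rfl
    rw [h1, map_prod]
    simp only [eval_X]
  choose G hG hGe using fun I => hnull (v I) (hvdeg I)
  choose B hB using fun (I : Fin m → ι) (l : lam) => exists_linear (m - d) (G I l) (hG I l)
  refine ⟨Real.log (Nat.card ((Fin (m - d) → ι) × lam)) +
    absLogHeight (fun s : (Fin m → ι) × ((Fin (m - d) → ι) × lam) => B s.1 s.2.2 s.2.1),
    fun x hx hx0 => ?_⟩
  have hFx : (fun l => eval x (F l)) ≠ 0 := fun h => hx0 (h0 x hx (congrFun h))
  have h1 := absLogHeight_linear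
    (fun s : (Fin m → ι) × ((Fin (m - d) → ι) × lam) => B s.1 s.2.2 s.2.1)
    (fun s : (Fin (m - d) → ι) × lam => (∏ a, x (s.1 a)) * eval x (F s.2))
  have h2 := absLogHeight_segre (veronese_ne hx0 (m - d)) hFx
  rw [absLogHeight_veronese] at h2
  rw [h2] at h1
  have e1 : (fun I : Fin m → ι => ∏ a, x (I a)) =
      fun I => ∑ s : (Fin (m - d) → ι) × lam, B I s.2 s.1 * ((∏ a, x (s.1 a)) * eval x (F s.2)) := by
    funext I
    rw [← hvev I x, hGe I x hx, Fintype.sum_prod_type_right]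
    refine Finset.sum_congr rfl fun l _ => ?_
    rw [hB I l x, Finset.sum_mul]
    refine Finset.sum_congr rfl fun J _ => ?_
    ring
  have h3 := absLogHeight_veronese m x
  rw [e1] at h3
  rw [h3, Nat.cast_sub hdm] at h1
  linarith

variable {N : ℕ} {A : Set (PSpace N)} {add : PSpace N → PSpace N → PSpace N}
  {neg : PSpace N → PSpace N} {zero : PSpace N}

theorem IsAbelianModel.ht_par (h : IsAbelianModel A add neg zero) :
    ∃ C : ℝ, ∀ P ∈ A, ∀ Q ∈ A, ht (add P Q) + ht (add P (neg Q)) ≤ C + 2 * ht P + 2 * ht Q := by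
  obtain ⟨F, hF, hF'⟩ := h.forms
  obtain ⟨C, hC⟩ := ht_bihom_sharp (fun s : Fin (N + 1) × Fin (N + 1) => F s.1 s.2) 2 2
    (fun s => hF s.1 s.2)
  refine ⟨C, fun P hP Q hQ => ?_⟩
  obtain ⟨c, hc, h1⟩ := hF' P hP Q hQ
  have h2 := hC P.rep Q.rep P.rep_nonzero Q.rep_nonzero
  have h3 : (fun s : Fin (N + 1) × Fin (N + 1) => eval (Sum.elim P.rep Q.rep) (F s.1 s.2)) =
      c • fun s : Fin (N + 1) × Fin (N + 1) => (add P Q).rep s.1 * (add P (neg Q)).rep s.2 := by
    funext s
    rw [h1]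
    rfl
  rw [h3, absLogHeight_smul _ hc, absLogHeight_segre (Projectivization.rep_nonzero _)
    (Projectivization.rep_nonzero _)] at h2
  have h4 : absLogHeight P.rep = ht P := rfl
  have h5 : absLogHeight Q.rep = ht Q := rfl
  have h6 : absLogHeight (add P Q).rep = ht (add P Q) := rfl
  have h7 : absLogHeight (add P (neg Q)).rep = ht (add P (neg Q)) := rfl
  rw [h4, h5, h6, h7] at h2
  push_cast at h2
  exact h2

theorem IsAbelianModel.ht_dbl (h : IsAbelianModel A add neg zero) :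
    ∃ C : ℝ, ∀ P ∈ A, 4 * ht P ≤ C + ht (add P P) := by
  obtain ⟨F, hF, hF'⟩ := h.forms
  obtain ⟨T, hT, hA⟩ := h.variety.closed
  have hT' : ∀ F ∈ T, ∃ e : ℕ, F.IsHomogeneous e := fun F hF => (hT F hF).1
  obtain ⟨j₀, hj₀⟩ : ∃ j, zero.rep j ≠ 0 := by
    by_contra hcon
    push Not at hcon
    exact zero.rep_nonzero (funext hcon)
  have hhom : ∀ i, (dblForm F j₀ i).IsHomogeneous 4 := fun i =>
    IsHomogeneous.rename_isHomogeneous (hF i j₀).isHomogeneous
  have hsub : ∀ P ∈ A, add P (neg P) = zero := by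
    intro P hP
    rw [h.add_comm P hP (neg P) (h.neg_mem P hP), h.neg_add P hP]
  have hdbl : ∀ (x : Fin (N + 1) → Qbar) (hx : x ≠ 0) (hxA : Projectivization.mk Qbar x hx ∈ A),
      ∃ c : Qbar, c ≠ 0 ∧ (fun i => eval x (dblForm F j₀ i)) =
        c • (add (Projectivization.mk Qbar x hx) (Projectivization.mk Qbar x hx)).rep := by
    intro x hx hxA
    obtain ⟨c, hc, h1⟩ := eval_forms hF hF' hx hx hxA hxA
    refine ⟨c * zero.rep j₀, mul_ne_zero hc hj₀, ?_⟩
    funext i
    rw [eval_dblForm, h1, hsub _ hxA, Pi.smul_apply, smul_eq_mul]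
    ring
  obtain ⟨C, hC⟩ := ht_forms_lower T hT' (dblForm F j₀) 4 hhom (fun x hx hx0 => by
    by_contra hne
    obtain ⟨c, hc, h1⟩ := hdbl x hne ((mk_mem_iff hT' hA hne).mpr hx)
    have h2 : (fun i => eval x (dblForm F j₀ i)) = 0 := funext hx0
    rw [h2] at h1
    exact (smul_ne_zero hc (Projectivization.rep_nonzero _)) h1.symm)
  refine ⟨C, fun P hP => ?_⟩
  have h1 := hC P.rep ((rep_mem_iff hA).mp hP) P.rep_nonzero
  obtain ⟨c, hc, h2⟩ := hdbl P.rep P.rep_nonzero (by rw [Projectivization.mk_rep]; exact hP)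
  rw [Projectivization.mk_rep] at h2
  rw [h2, absLogHeight_smul _ hc] at h1
  push_cast at h1
  exact h1

/-- the descent inequality -/
theorem IsAbelianModel.ht_half (h : IsAbelianModel A add neg zero) {R : PSpace N} (hR : R ∈ A) :
    ∃ C : ℝ, ∀ P ∈ A, ∀ Q ∈ A, P = add R (add Q Q) → ht Q ≤ ht P / 2 + C := by
  obtain ⟨C₁, h1⟩ := h.ht_par
  obtain ⟨C₂, h2⟩ := h.ht_dbl
  refine ⟨(C₂ + C₁ + 2 * ht R) / 4, fun P hP Q hQ hPQ => ?_⟩
  have h3 : add P (neg R) = add Q Q := by
    let _ := h.group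
    have h4 : (⟨R, hR⟩ + (⟨Q, hQ⟩ + ⟨Q, hQ⟩) + -⟨R, hR⟩ : A) = ⟨Q, hQ⟩ + ⟨Q, hQ⟩ := by
      abel
    rw [hPQ]
    exact congrArg Subtype.val h4
  have h4 := h1 P hP R hR
  rw [h3] at h4
  have h5 := h2 Q hQ
  have h6 := ht_nonneg (add P R)
  linarith

end Run7.h385
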