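import Mathlib
import Pool.Agent.Run7.h385.AbBasic
import Pool.Agent.Run7.h385.GroupOrder

set_option autoImplicit false

/-!
# The Galois action on projective space; normalised coordinates
-/

namespace Run7.h385

open MvPolynomial
open Pool.Agent.Helper259.AbsHt

variable {L : IntermediateField ℚ Qbar} {n : ℕ}

lemma comp_ne (σ : Qbar ≃ₐ[L] Qbar) {x : Fin (n + 1) → Qbar} (hx : x ≠ 0) :
    (fun i => σ (x i)) ≠ 0 := by
  intro h
  apply hx
  funext i
  have := congrFun h i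
  rw [Pi.zero_apply, map_eq_zero_iff σ σ.injective] at this
  exact this

/-- the action of an automorphism on the points of projective space -/
noncomputable def gal (σ : Qbar ≃ₐ[L] Qbar) (P : PSpace n) : PSpace n :=
  Projectivization.mk Qbar (fun i => σ (P.rep i)) (comp_ne σ P.rep_nonzero)

lemma gal_mk (σ : Qbar ≃ₐ[L] Qbar) {x : Fin (n + 1) → Qbar} (hx : x ≠ 0) :
    gal σ (Projectivization.mk Qbar x hx) =
      Projectivization.mk Qbar (fun i => σ (x i)) (comp_ne σ hx) := by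
  obtain ⟨a, ha, hra⟩ := exists_rep x hx
  rw [gal, Projectivization.mk_eq_mk_iff']
  refine ⟨σ a, ?_⟩
  funext i
  rw [hra, Pi.smul_apply, Pi.smul_apply, smul_eq_mul, smul_eq_mul, map_mul]

lemma isGalois_Qbar (L : IntermediateField ℚ Qbar) : IsGalois L Qbar := by
  have h0 : Algebra.IsAlgebraic ℚ Qbar := AlgebraicClosure.isAlgebraic ℚ
  have hint : Algebra.IsIntegral ℚ Qbar := h0.isIntegral
  have h1 : Algebra.IsSeparable ℚ Qbar := Algebra.IsAlgebraic.isSeparable_of_perfectField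
  have h3 : IsAlgClosure ℚ Qbar := ⟨inferInstance, h0⟩
  have h2 : Normal ℚ Qbar := IsAlgClosure.normal ℚ Qbar
  have : IsGalois ℚ Qbar := ⟨⟩
  exact IsGalois.tower_top_of_isGalois ℚ L Qbar

lemma fixed_mem (x : Qbar) (h : ∀ σ : Qbar ≃ₐ[L] Qbar, σ x = x) : x ∈ L := by
  have := isGalois_Qbar L
  have h1 := (InfiniteGalois.mem_range_algebraMap_iff_fixed (k := L) (K := Qbar) x).mpr h
  obtain ⟨y, hy⟩ := h1
  rw [← hy]
  exact y.2

lemma mem_fixed {x : Qbar} (h : x ∈ L) (σ : Qbar ≃ₐ[L] Qbar) : σ x = x :=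
  σ.commutes (⟨x, h⟩ : L)

lemma gal_rat {P : PSpace n} (hP : P ∈ ratPts L n) (σ : Qbar ≃ₐ[L] Qbar) : gal σ P = P := by
  obtain ⟨x, hx, hx0, rfl⟩ := hP
  rw [gal_mk]
  congr 1
  funext i
  exact mem_fixed (hx i) σ

lemma rat_of_gal {P : PSpace n} (h : ∀ σ : Qbar ≃ₐ[L] Qbar, gal σ P = P) : P ∈ ratPts L n := by
  obtain ⟨i₀, hi₀⟩ : ∃ i, P.rep i ≠ 0 := by
    by_contra hcon
    push Not at hcon
    exact P.rep_nonzero (funext hcon)
  have hne : (P.rep i₀)⁻¹ • P.rep ≠ 0 := smul_ne_zero (inv_ne_zero hi₀) P.rep_nonzero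
  refine ⟨(P.rep i₀)⁻¹ • P.rep, fun i => ?_, hne, ?_⟩
  · apply fixed_mem
    intro σ
    have h1 := h σ
    nth_rewrite 2 [← Projectivization.mk_rep P] at h1
    rw [gal, Projectivization.mk_eq_mk_iff'] at h1
    obtain ⟨a, ha⟩ := h1
    have h2 := fun i => congrFun ha i
    simp only [Pi.smul_apply, smul_eq_mul] at h2
    rw [Pi.smul_apply, smul_eq_mul, map_mul, map_inv₀, ← h2, ← h2]
    have ha0 : a ≠ 0 := by
      rintro rfl
      have h3 := h2 i₀
      rw [zero_mul] at h3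
      exact hi₀ ((map_eq_zero_iff σ σ.injective).mp h3.symm)
    field_simp
  · nth_rewrite 1 [← Projectivization.mk_rep P]
    rw [Projectivization.mk_eq_mk_iff']
    refine ⟨P.rep i₀, ?_⟩
    rw [smul_smul, mul_inv_cancel₀ hi₀, one_smul]

lemma eval_gal {ι : Type*} (σ : Qbar ≃ₐ[L] Qbar) {F : MvPolynomial ι Qbar}
    (hF : ∀ s, F.coeff s ∈ L) (x : ι → Qbar) : eval (fun i => σ (x i)) F = σ (eval x F) := by
  rw [eval_eq, eval_eq, map_sum]
  refine Finset.sum_congr rfl fun s _ => ?_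
  rw [map_mul, map_prod, mem_fixed (hF s) σ]
  simp only [map_pow]

/-- normalised coordinates with respect to a linear form -/
noncomputable def nrm (c : Fin (n + 1) → Qbar) (P : PSpace n) : Fin (n + 1) → Qbar :=
  (∑ i, c i * P.rep i)⁻¹ • P.rep

lemma nrm_mk (c : Fin (n + 1) → Qbar) {x : Fin (n + 1) → Qbar} (hx : x ≠ 0) :
    nrm c (Projectivization.mk Qbar x hx) = (∑ i, c i * x i)⁻¹ • x := by
  obtain ⟨a, ha, hra⟩ := exists_rep x hx
  rw [nrm, hra]
  have h1 : ∑ i, c i * (a • x) i = a * ∑ i, c i * x i := by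
    rw [Finset.mul_sum]
    refine Finset.sum_congr rfl fun i _ => ?_
    rw [Pi.smul_apply, smul_eq_mul]
    ring
  rw [h1, smul_smul]
  congr 1
  rw [mul_inv, mul_assoc, mul_comm _ a, ← mul_assoc, inv_mul_cancel₀ ha, one_mul]

lemma nrm_gal (σ : Qbar ≃ₐ[L] Qbar) {c : Fin (n + 1) → Qbar} (hc : ∀ i, σ (c i) = c i)
    (P : PSpace n) (i : Fin (n + 1)) : nrm c (gal σ P) i = σ (nrm c P i) := by
  rw [gal, nrm_mk, nrm, Pi.smul_apply, Pi.smul_apply, smul_eq_mul, smul_eq_mul, map_mul, map_inv₀,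
    map_sum]
  congr 2
  refine Finset.sum_congr rfl fun j _ => ?_
  rw [map_mul, hc]

lemma nrm_inj {c : Fin (n + 1) → Qbar} {P Q : PSpace n} (hP : ∑ i, c i * P.rep i ≠ 0)
    (h : nrm c P = nrm c Q) : P = Q := by
  have hQ : ∑ i, c i * Q.rep i ≠ 0 := by
    intro h0
    rw [nrm, nrm, h0, inv_zero, zero_smul] at h
    exact (smul_ne_zero (inv_ne_zero hP) P.rep_nonzero) h
  rw [← Projectivization.mk_rep P, ← Projectivization.mk_rep Q, Projectivization.mk_eq_mk_iff']
  refine ⟨(∑ i, c i * P.rep i) * (∑ i, c i * Q.rep i)⁻¹, ?_⟩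
  rw [mul_smul]
  have h1 : (∑ i, c i * Q.rep i)⁻¹ • Q.rep = (∑ i, c i * P.rep i)⁻¹ • P.rep := h.symm
  rw [h1, smul_smul, mul_inv_cancel₀ hP, one_smul]

/-- a linear form with integral coefficients which does not vanish at finitely many points -/
lemma exists_linear_form {κ Θ : Type*} [Field κ] [Fintype Θ] (x : Θ → Fin (n + 1) → κ)
    (hx : ∀ τ, x τ ≠ 0)
    (hint : ∀ m : ℕ, 0 < m → m ≤ Fintype.card Θ * n → (m : κ) ≠ 0) :
    ∃ s : ℕ, ∀ τ, ∑ i : Fin (n + 1), (s : κ) ^ (i : ℕ) * x τ i ≠ 0 := by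
  classical
  set g : Θ → Polynomial κ := fun τ => ∑ i : Fin (n + 1), Polynomial.C (x τ i) * Polynomial.X ^ (i : ℕ)
    with hg
  have hgev : ∀ τ (s : κ), (g τ).eval s = ∑ i : Fin (n + 1), s ^ (i : ℕ) * x τ i := by
    intro τ s
    rw [hg, Polynomial.eval_finsetSum]
    refine Finset.sum_congr rfl fun i _ => ?_
    rw [Polynomial.eval_mul, Polynomial.eval_C, Polynomial.eval_pow, Polynomial.eval_X, mul_comm]
  have hg0 : ∀ τ, g τ ≠ 0 := by
    intro τ h0
    apply hx τ
    funext j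
    have h1 := congrArg (fun p => Polynomial.coeff p (j : ℕ)) h0
    simp only [hg, Polynomial.finsetSum_coeff, Polynomial.coeff_C_mul, Polynomial.coeff_X_pow,
      Polynomial.coeff_zero] at h1
    rw [Finset.sum_eq_single j] at h1
    · simpa using h1
    · intro i _ hij
      rw [if_neg, mul_zero]
      intro h
      exact hij (Fin.ext h.symm)
    · intro h
      exact absurd (Finset.mem_univ _) h
  have hgd : ∀ τ, (g τ).natDegree ≤ n := by
    intro τ
    refine Polynomial.natDegree_sum_le_of_forall_le _ _ fun i _ => ?_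
    refine (Polynomial.natDegree_C_mul_X_pow_le _ _).trans ?_
    omega
  by_contra hcon
  push Not at hcon
  have h1 : ∏ τ, g τ = 0 := by
    refine Polynomial.eq_zero_of_natDegree_lt_card_of_eval_eq_zero _
      (f := fun i : Fin (Fintype.card Θ * n + 1) => ((i : ℕ) : κ)) ?_ ?_ ?_
    · have h3 : ∀ i j : Fin (Fintype.card Θ * n + 1), i < j → ((i : ℕ) : κ) ≠ ((j : ℕ) : κ) := by
        intro i j hij heq
        have h4 := hint (j - i) (by omega) (by omega)
        rw [Nat.cast_sub (by exact_mod_cast hij.le), heq, sub_self] at h4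
        exact h4 rfl
      intro i j hij
      rcases lt_trichotomy i j with h | h | h
      · exact absurd hij (h3 i j h)
      · exact h
      · exact absurd hij.symm (h3 j i h)
    · intro i
      obtain ⟨τ, hτ⟩ := hcon i
      rw [Polynomial.eval_prod, Finset.prod_eq_zero (Finset.mem_univ τ)]
      rw [hgev]
      exact hτ
    · rw [Fintype.card_fin]
      refine Nat.lt_succ_of_le ((Polynomial.natDegree_prod_le _ _).trans ?_)
      refine (Finset.sum_le_card_nsmul _ _ n fun τ _ => hgd τ).trans ?_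
      simp
  rw [Finset.prod_eq_zero_iff] at h1
  obtain ⟨τ, -, hτ⟩ := h1
  exact hg0 τ hτ

end Run7.h385
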