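import Mathlib
import Pool.Agent.Run7.h385.AbBasic

set_option autoImplicit false

/-!
# Abelian varieties in a projective model: good reduction outside a finite set of elements
-/

namespace Run7.h385

open MvPolynomial
open Pool.Agent.Helper259.AbsHt

/-- polynomials with coefficients in a valuation ring -/
lemma exists_lift {σ : Type*} (O : ValuationSubring Qbar) (F : MvPolynomial σ Qbar)
    (hF : ∀ s, F.coeff s ∈ O) : ∃ F' : MvPolynomial σ O,
      ∀ x : σ → O, eval (fun i => (x i : Qbar)) F = (eval x F' : O) := by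
  classical
  have h1 : F ∈ Set.range (map (σ := σ) O.subtype) := by
    rw [mem_range_map_iff_coeffs_subset]
    intro c hc
    rw [coeffs, Finset.coe_image] at hc
    obtain ⟨s, -, rfl⟩ := hc
    exact ⟨⟨_, hF s⟩, rfl⟩
  obtain ⟨F', hF'⟩ := h1
  refine ⟨F', fun x => ?_⟩
  rw [← hF', eval_map]
  change eval₂ O.subtype (O.subtype ∘ x) F' = O.subtype (eval x F')
  rw [eval₂_comp]

lemma residue_eval {σ : Type*} {O : ValuationSubring Qbar} (F' : MvPolynomial σ O) (x : σ → O) :
    IsLocalRing.residue O (eval x F') =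
      eval (fun i => IsLocalRing.residue O (x i)) (map (IsLocalRing.residue O) F') := by
  rw [eval_map]
  change _ = eval₂ (IsLocalRing.residue O) ((IsLocalRing.residue O) ∘ x) F'
  rw [eval₂_comp]

variable {N : ℕ} {A : Set (PSpace N)} {add : PSpace N → PSpace N → PSpace N}
  {neg : PSpace N → PSpace N} {zero : PSpace N}

lemma IsAbelianModel.two_torsion_finite (h : IsAbelianModel A add neg zero) :
    {τ | τ ∈ A ∧ add τ τ = zero}.Finite := h.doubling.2 zero

/-- good reduction -/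
theorem IsAbelianModel.good_reduction (h : IsAbelianModel A add neg zero) :
    ∃ E : Set Qbar, E.Finite ∧ (∀ c ∈ E, c ≠ 0) ∧ ∀ O : ValuationSubring Qbar,
      (∀ c ∈ E, c ∈ O ∧ c⁻¹ ∈ O) →
      ∀ (x x' : Fin (N + 1) → O) (hx : (fun i => (x i : Qbar)) ≠ 0)
        (hx' : (fun i => (x' i : Qbar)) ≠ 0), Projectivization.mk Qbar _ hx ∈ A →
        Projectivization.mk Qbar _ hx' ∈ A →
        Projectivization.mk Qbar _ hx ≠ Projectivization.mk Qbar _ hx' →
        add (Projectivization.mk Qbar _ hx) (Projectivization.mk Qbar _ hx) =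
          add (Projectivization.mk Qbar _ hx') (Projectivization.mk Qbar _ hx') →
        (∀ i, IsLocalRing.residue O (x i) = IsLocalRing.residue O (x' i)) →
        ∀ i, IsLocalRing.residue O (x i) = 0 := by
  classical
  obtain ⟨F, hF, hF'⟩ := h.forms
  obtain ⟨T, hT, hA⟩ := h.variety.closed
  have hT' : ∀ F ∈ T, ∃ e : ℕ, F.IsHomogeneous e := fun F hF => (hT F hF).1
  have hsub : ∀ P ∈ A, add P (neg P) = zero := by
    intro P hP
    rw [h.add_comm P hP (neg P) (h.neg_mem P hP), h.neg_add P hP]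
  obtain ⟨j₀, hj₀⟩ : ∃ j, zero.rep j ≠ 0 := by
    by_contra hcon
    push Not at hcon
    exact zero.rep_nonzero (funext hcon)
  have hhom : ∀ s : Fin (N + 1) × Fin (N + 1), (dblForm F s.2 s.1).IsHomogeneous 4 := fun s =>
    IsHomogeneous.rename_isHomogeneous (hF s.1 s.2).isHomogeneous
  obtain ⟨m, -, hm0, hnull⟩ := null_identity T hT' (fun s : Fin (N + 1) × Fin (N + 1) =>
    dblForm F s.2 s.1) 4 hhom (fun x hx hx0 => by
      by_contra hne
      obtain ⟨c, hc, h1⟩ := eval_forms hF hF' hne hne ((mk_mem_iff hT' hA hne).mpr hx)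
        ((mk_mem_iff hT' hA hne).mpr hx)
      obtain ⟨i₁, hi₁⟩ : ∃ j, (add (Projectivization.mk Qbar x hne)
          (Projectivization.mk Qbar x hne)).rep j ≠ 0 := by
        by_contra hcon
        push Not at hcon
        exact (add (Projectivization.mk Qbar x hne)
          (Projectivization.mk Qbar x hne)).rep_nonzero (funext hcon)
      have h2 := hx0 (i₁, j₀)
      simp only at h2
      rw [eval_dblForm, h1, hsub _ ((mk_mem_iff hT' hA hne).mpr hx)] at h2
      exact (mul_ne_zero hc (mul_ne_zero hi₁ hj₀)) h2)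
  have hdeg : ∀ a : Fin (N + 1), (Finsupp.single a m).degree = m := fun a => by
    simp
  choose G _ hGe using fun a : Fin (N + 1) => hnull (Finsupp.single a m) (hdeg a)
  -- the finite set
  have hΘ := h.two_torsion_finite
  set coF : Set Qbar := ⋃ s : Fin (N + 1) × Fin (N + 1), (fun t => (F s.1 s.2).coeff t) ''
    ((F s.1 s.2).support : Set ((Fin (N + 1) ⊕ Fin (N + 1)) →₀ ℕ)) with hcoF
  set coG : Set Qbar := ⋃ s : Fin (N + 1) × (Fin (N + 1) × Fin (N + 1)),
    (fun t => (G s.1 s.2).coeff t) '' ((G s.1 s.2).support : Set (Fin (N + 1) →₀ ℕ)) with hcoG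
  set coT : Set Qbar := ⋃ i : Fin (N + 1), (fun P : PSpace N => P.rep i) ''
    {τ | τ ∈ A ∧ add τ τ = zero} with hcoT
  set coM : Set Qbar := ⋃ s : Fin (N + 1) × Fin (N + 1), (fun P : PSpace N =>
    P.rep s.1 * zero.rep s.2 - P.rep s.2 * zero.rep s.1) '' {τ | τ ∈ A ∧ add τ τ = zero} with hcoM
  refine ⟨(coF ∪ coG ∪ coT ∪ coM) \ {0}, ?_, fun c hc => hc.2, ?_⟩
  · refine Set.Finite.subset (Set.Finite.union (Set.Finite.union (Set.Finite.union ?_ ?_) ?_) ?_)
      Set.sdiff_subset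
    · exact Set.finite_iUnion fun s => (Finset.finite_toSet _).image _
    · exact Set.finite_iUnion fun s => (Finset.finite_toSet _).image _
    · exact Set.finite_iUnion fun s => hΘ.image _
    · exact Set.finite_iUnion fun s => hΘ.image _
  intro O hO x x' hx hx' hxA hx'A hne hdbl hres
  have hcF : ∀ i j s, (F i j).coeff s ∈ O := by
    intro i j s
    by_cases hs : (F i j).coeff s = 0
    · rw [hs]
      exact O.zero_mem
    · exact (hO _ ⟨Or.inl (Or.inl (Or.inl (Set.mem_iUnion.mpr ⟨(i, j), s,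
        mem_support_iff.mpr hs, rfl⟩))), hs⟩).1
  have hcG : ∀ a l s, (G a l).coeff s ∈ O := by
    intro a l s
    by_cases hs : (G a l).coeff s = 0
    · rw [hs]
      exact O.zero_mem
    · exact (hO _ ⟨Or.inl (Or.inl (Or.inr (Set.mem_iUnion.mpr ⟨(a, l), s,
        mem_support_iff.mpr hs, rfl⟩))), hs⟩).1
  have hcT : ∀ τ ∈ A, add τ τ = zero → ∀ i, τ.rep i ∈ O := by
    intro τ hτ hτ2 i
    by_cases hs : τ.rep i = 0
    · rw [hs]
      exact O.zero_mem
    · exact (hO _ ⟨Or.inl (Or.inr (Set.mem_iUnion.mpr ⟨i, τ, ⟨hτ, hτ2⟩, rfl⟩)), hs⟩).1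
  have hcM : ∀ τ ∈ A, add τ τ = zero → ∀ j k,
      τ.rep j * zero.rep k - τ.rep k * zero.rep j ≠ 0 →
      (τ.rep j * zero.rep k - τ.rep k * zero.rep j)⁻¹ ∈ O := by
    intro τ hτ hτ2 j k hs
    exact (hO _ ⟨Or.inr (Set.mem_iUnion.mpr ⟨(j, k), τ, ⟨hτ, hτ2⟩, rfl⟩), hs⟩).2
  choose F₀ hF₀ using fun i j => exists_lift O (F i j) (hcF i j)
  choose G₀ hG₀ using fun a l => exists_lift O (G a l) (hcG a l)
  set P := Projectivization.mk Qbar _ hx with hP
  set P' := Projectivization.mk Qbar _ hx' with hP'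
  set θ := add P (neg P') with hθ
  have hθA : θ ∈ A := h.add_mem _ hxA _ (h.neg_mem _ hx'A)
  have h0A := h.zero_mem
  have hθ2 : add θ θ = zero := by
    let _ := h.group
    have h1 : (⟨P, hxA⟩ + ⟨P, hxA⟩ : A) = ⟨P', hx'A⟩ + ⟨P', hx'A⟩ := Subtype.ext hdbl
    have h2 : ((⟨P, hxA⟩ + -⟨P', hx'A⟩) + (⟨P, hxA⟩ + -⟨P', hx'A⟩) : A) = 0 := by
      calc ((⟨P, hxA⟩ + -⟨P', hx'A⟩) + (⟨P, hxA⟩ + -⟨P', hx'A⟩) : A)
          = (⟨P, hxA⟩ + ⟨P, hxA⟩) - (⟨P', hx'A⟩ + ⟨P', hx'A⟩) := by abel
        _ = 0 := by rw [h1, sub_self]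
    exact congrArg Subtype.val h2
  have hθne : θ ≠ zero := by
    intro h1
    apply hne
    let _ := h.group
    have h2 : (⟨P, hxA⟩ + -⟨P', hx'A⟩ : A) = 0 := Subtype.ext h1
    have h3 : (⟨P, hxA⟩ : A) = ⟨P', hx'A⟩ := by
      rw [← sub_eq_zero, ← h2, sub_eq_add_neg]
    exact congrArg Subtype.val h3
  have h02 : add zero zero = zero := h.zero_add _ h0A
  -- a nonzero minor
  obtain ⟨j₁, k₁, hjk⟩ : ∃ j k, θ.rep j * zero.rep k - θ.rep k * zero.rep j ≠ 0 := by
    by_contra hcon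
    push Not at hcon
    apply hθne
    rw [← Projectivization.mk_rep θ, ← Projectivization.mk_rep zero,
      Projectivization.mk_eq_mk_iff']
    refine ⟨θ.rep j₀ / zero.rep j₀, ?_⟩
    funext k
    have := hcon j₀ k
    rw [Pi.smul_apply, smul_eq_mul, div_mul_eq_mul_div, div_eq_iff hj₀]
    linear_combination this
  set t : Fin (N + 1) → O := fun i => ⟨θ.rep i, hcT θ hθA hθ2 i⟩ with ht
  set o : Fin (N + 1) → O := fun i => ⟨zero.rep i, hcT zero h0A h02 i⟩ with ho
  obtain ⟨c, hc, h1⟩ := eval_forms hF hF' hx hx' hxA hx'A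
  obtain ⟨c', hc', h2⟩ := eval_forms hF hF' hx hx hxA hxA
  rw [← hP, hsub _ hxA] at h2
  rw [← hP, ← hP', ← hθ] at h1
  have eF : ∀ (i j : Fin (N + 1)) (y y' : Fin (N + 1) → O),
      eval (Sum.elim (fun i => (y i : Qbar)) (fun i => (y' i : Qbar))) (F i j) =
        (eval (Sum.elim y y') (F₀ i j) : O) := by
    intro i j y y'
    rw [← hF₀]
    congr 2
    funext s
    rcases s with s | s <;> rfl
  have r1 : ∀ i j k, eval (Sum.elim x x') (F₀ i j) * t k = eval (Sum.elim x x') (F₀ i k) * t j := by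
    intro i j k
    apply Subtype.ext
    change ((eval (Sum.elim x x') (F₀ i j) : O) : Qbar) * θ.rep k =
      ((eval (Sum.elim x x') (F₀ i k) : O) : Qbar) * θ.rep j
    rw [← eF, ← eF, h1, h1]
    ring
  have r2 : ∀ i j k, eval (Sum.elim x x) (F₀ i j) * o k = eval (Sum.elim x x) (F₀ i k) * o j := by
    intro i j k
    apply Subtype.ext
    change ((eval (Sum.elim x x) (F₀ i j) : O) : Qbar) * zero.rep k =
      ((eval (Sum.elim x x) (F₀ i k) : O) : Qbar) * zero.rep j
    rw [← eF, ← eF, h2, h2]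
    ring
  set res := IsLocalRing.residue O with hresdef
  have hcong : ∀ i j, res (eval (Sum.elim x x') (F₀ i j)) = res (eval (Sum.elim x x) (F₀ i j)) := by
    intro i j
    rw [residue_eval, residue_eval]
    congr 2
    funext s
    rcases s with s | s
    · rfl
    · exact (hres s).symm
  -- not all forms vanish
  by_contra hcon
  push Not at hcon
  obtain ⟨a, ha⟩ := hcon
  obtain ⟨i₂, j₂, hij⟩ : ∃ i j, res (eval (Sum.elim x x) (F₀ i j)) ≠ 0 := by
    by_contra hall
    push Not at hall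
    have e1 := hGe a (fun i => (x i : Qbar)) ((mk_mem_iff hT' hA hx).mp hxA)
    have e2 : (x a) ^ m = ∑ l : Fin (N + 1) × Fin (N + 1), eval x (G₀ a l) *
        eval (Sum.elim x x) (F₀ l.1 l.2) := by
      apply Subtype.ext
      have e3 : ((x a ^ m : O) : Qbar) = eval (fun i => (x i : Qbar))
          (monomial (Finsupp.single a m) (1 : Qbar)) := by
        rw [eval_monomial, one_mul]
        exact (Finsupp.prod_single_index (h := fun n e => ((x n : O) : Qbar) ^ e)
          (pow_zero _)).symm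
      rw [e3, e1]
      have e4 : ((∑ l : Fin (N + 1) × Fin (N + 1), eval x (G₀ a l) *
          eval (Sum.elim x x) (F₀ l.1 l.2) : O) : Qbar) =
          O.subtype (∑ l : Fin (N + 1) × Fin (N + 1), eval x (G₀ a l) *
            eval (Sum.elim x x) (F₀ l.1 l.2)) := rfl
      rw [e4, map_sum]
      refine Finset.sum_congr rfl fun l _ => ?_
      rw [map_mul, hG₀, eval_dblForm, eF]
      rfl
    have e5 := congrArg res e2
    rw [map_pow, map_sum] at e5
    rw [Finset.sum_eq_zero (fun l _ => by rw [map_mul, hall, mul_zero])] at e5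
    exact ha (pow_eq_zero_iff hm0.ne' |>.mp e5)
  set w : Fin (N + 1) → IsLocalRing.ResidueField O := fun j =>
    res (eval (Sum.elim x x) (F₀ i₂ j)) with hw
  have hwj : w j₂ ≠ 0 := hij
  have q1 : ∀ j k, w j * res (t k) = w k * res (t j) := by
    intro j k
    have := congrArg res (r1 i₂ j k)
    rw [map_mul, map_mul, hcong, hcong] at this
    exact this
  have q2 : ∀ j k, w j * res (o k) = w k * res (o j) := by
    intro j k
    have := congrArg res (r2 i₂ j k)
    rw [map_mul, map_mul] at this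
    exact this
  have q3 : res (t j₁) * res (o k₁) - res (t k₁) * res (o j₁) = 0 := by
    have e1 := q1 j₂ j₁
    have e2 := q1 j₂ k₁
    have e3 := q2 j₂ j₁
    have e4 := q2 j₂ k₁
    have e5 : w j₂ * w j₂ * (res (t j₁) * res (o k₁) - res (t k₁) * res (o j₁)) = 0 := by
      calc w j₂ * w j₂ * (res (t j₁) * res (o k₁) - res (t k₁) * res (o j₁))
          = (w j₂ * res (t j₁)) * (w j₂ * res (o k₁)) -
            (w j₂ * res (t k₁)) * (w j₂ * res (o j₁)) := by ring
        _ = 0 := by rw [e1, e2, e3, e4]; ring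
    exact (mul_eq_zero.mp e5).resolve_left (mul_ne_zero hwj hwj)
  rw [← map_mul, ← map_mul, ← map_sub, IsLocalRing.residue_eq_zero_iff,
    IsLocalRing.mem_maximalIdeal, mem_nonunits_iff] at q3
  apply q3
  refine IsUnit.of_mul_eq_one ⟨_, hcM θ hθA hθ2 j₁ k₁ hjk⟩ ?_
  apply Subtype.ext
  change (θ.rep j₁ * zero.rep k₁ - θ.rep k₁ * zero.rep j₁) *
    (θ.rep j₁ * zero.rep k₁ - θ.rep k₁ * zero.rep j₁)⁻¹ = 1
  exact mul_inv_cancel₀ hjk

end Run7.h385
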