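import Mathlib
import Pool.Agent.Run7.h385.GalAct
import Pool.Agent.Run7.h385.GoodRed

set_option autoImplicit false

/-!
# The Galois action on the points of an abelian variety
-/

namespace Run7.h385

open MvPolynomial
open Pool.Agent.Helper259.AbsHt

lemma finite_cone {k ι : Type} [Field k] [Finite ι] (T : Set (MvPolynomial ι k)) :
    ∃ T₀ : Set (MvPolynomial ι k), T₀.Finite ∧ T₀ ⊆ T ∧ cone T₀ = cone T := by
  have h1 : (Ideal.span T).FG := IsNoetherian.noetherian _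
  obtain ⟨T₀, hT₀, he⟩ := (Submodule.fg_span_iff_fg_span_finset_subset T).mp h1
  refine ⟨T₀, T₀.finite_toSet, hT₀, Set.Subset.antisymm (fun x hx f hf => ?_)
    (fun x hx f hf => hx f (hT₀ hf))⟩
  have h2 : Ideal.span (T₀ : Set (MvPolynomial ι k)) ≤ RingHom.ker (eval x) :=
    Ideal.span_le.mpr fun g hg => hx g hg
  have h3 : f ∈ Ideal.span (T₀ : Set (MvPolynomial ι k)) := by
    have h4 : f ∈ Ideal.span T := Ideal.subset_span hf
    have h5 : Ideal.span T = Ideal.span (T₀ : Set (MvPolynomial ι k)) := he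
    rwa [h5] at h4
  exact h2 h3

variable {N : ℕ} {A : Set (PSpace N)} {add : PSpace N → PSpace N → PSpace N}
  {neg : PSpace N → PSpace N} {zero : PSpace N}

/-- the Galois action is compatible with the group law -/
theorem IsAbelianModel.gal_add (h : IsAbelianModel A add neg zero) :
    ∃ s : Set Qbar, s.Finite ∧ ∀ L : IntermediateField ℚ Qbar, (∀ c ∈ s, c ∈ L) →
      (∀ τ ∈ A, add τ τ = zero → τ ∈ ratPts L N) ∧ ∀ σ : Qbar ≃ₐ[L] Qbar,
      (∀ P ∈ A, gal σ P ∈ A) ∧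
      (∀ P ∈ A, ∀ Q ∈ A, gal σ (add P Q) = add (gal σ P) (gal σ Q)) := by
  classical
  obtain ⟨F, hF, hF'⟩ := h.forms
  obtain ⟨T, hT, hA⟩ := h.variety.closed
  have hT' : ∀ F ∈ T, ∃ e : ℕ, F.IsHomogeneous e := fun F hF => (hT F hF).1
  obtain ⟨T₀, hT₀f, hT₀, hcone⟩ := finite_cone T
  have hT₀fin : Finite T₀ := hT₀f
  have hΘ := h.two_torsion_finite
  refine ⟨{c : Qbar | ∃ (t : Fin (N + 1) × Fin (N + 1)) (s : _), c = (F t.1 t.2).coeff s} ∪
    {c : Qbar | ∃ (t : T₀) (s : _), c = (t : MvPolynomial (Fin (N + 1)) Qbar).coeff s} ∪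
    ⋃ i : Fin (N + 1), (fun P : PSpace N => P.rep i) '' {τ | τ ∈ A ∧ add τ τ = zero}, ?_, ?_⟩
  · exact (Set.Finite.union (coeff_finite _) (coeff_finite _)).union
      (Set.finite_iUnion fun s => hΘ.image _)
  intro L hL
  have hLF : ∀ i j s, (F i j).coeff s ∈ L := fun i j s => hL _ (Or.inl (Or.inl ⟨(i, j), s, rfl⟩))
  have hLT : ∀ f ∈ T₀, ∀ s, f.coeff s ∈ L := fun f hf s => hL _ (Or.inl (Or.inr ⟨⟨f, hf⟩, s, rfl⟩))
  have hLΘ : ∀ τ ∈ A, add τ τ = zero → ∀ i, τ.rep i ∈ L := fun τ hτ hτ2 i =>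
    hL _ (Or.inr (Set.mem_iUnion.mpr ⟨i, τ, ⟨hτ, hτ2⟩, rfl⟩))
  refine ⟨fun τ hτ hτ2 => ⟨τ.rep, hLΘ τ hτ hτ2, τ.rep_nonzero, (Projectivization.mk_rep τ).symm⟩,
    fun σ => ?_⟩
  have hgalA : ∀ P ∈ A, gal σ P ∈ A := by
    intro P hP
    rw [gal, mk_mem_iff hT' hA, ← hcone]
    intro f hf
    rw [eval_gal σ (hLT f hf)]
    have h1 := (rep_mem_iff hA).mp hP
    rw [h1 f (hT₀ hf), map_zero]
  refine ⟨hgalA, fun P hP Q hQ => ?_⟩
  obtain ⟨c, hc, h1⟩ := hF' P hP Q hQ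
  obtain ⟨c', hc', h2⟩ := eval_forms hF hF' (comp_ne σ P.rep_nonzero) (comp_ne σ Q.rep_nonzero)
    (hgalA P hP) (hgalA Q hQ)
  have h3 : ∀ i j, eval (Sum.elim (fun i => σ (P.rep i)) (fun i => σ (Q.rep i))) (F i j) =
      σ c * (σ ((add P Q).rep i) * σ ((add P (neg Q)).rep j)) := by
    intro i j
    have h4 := eval_gal σ (hLF i j) (Sum.elim P.rep Q.rep)
    rw [h1, map_mul, map_mul] at h4
    rw [← h4]
    congr 2
    funext s
    rcases s with s | s <;> rfl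
  have h5 : ∀ i j, σ c * (σ ((add P Q).rep i) * σ ((add P (neg Q)).rep j)) =
      c' * ((add (gal σ P) (gal σ Q)).rep i * (add (gal σ P) (neg (gal σ Q))).rep j) :=
    fun i j => (h3 i j).symm.trans (h2 i j)
  have hσ0 : ∀ x : Qbar, x ≠ 0 → σ x ≠ 0 := fun x hx => (map_ne_zero_iff σ σ.injective).mpr hx
  obtain ⟨j, hj⟩ : ∃ j, (add P (neg Q)).rep j ≠ 0 := by
    by_contra hcon
    push Not at hcon
    exact (add P (neg Q)).rep_nonzero (funext hcon)
  obtain ⟨i, hi⟩ : ∃ i, (add P Q).rep i ≠ 0 := by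
    by_contra hcon
    push Not at hcon
    exact (add P Q).rep_nonzero (funext hcon)
  have h6 : (add (gal σ P) (neg (gal σ Q))).rep j ≠ 0 := by
    intro h0
    have h7 := h5 i j
    rw [h0, mul_zero, mul_zero] at h7
    exact mul_ne_zero (hσ0 c hc) (mul_ne_zero (hσ0 _ hi) (hσ0 _ hj)) h7
  rw [gal, ← Projectivization.mk_rep (add (gal σ P) (gal σ Q)), Projectivization.mk_eq_mk_iff']
  refine ⟨(σ c * σ ((add P (neg Q)).rep j))⁻¹ *
    (c' * (add (gal σ P) (neg (gal σ Q))).rep j), ?_⟩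
  funext l
  have h8 := h5 l j
  rw [Pi.smul_apply, smul_eq_mul, mul_assoc, inv_mul_eq_iff_eq_mul₀
    (mul_ne_zero (hσ0 c hc) (hσ0 _ hj))]
  linear_combination -h8

end Run7.h385
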