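import Mathlib

set_option autoImplicit false

/-!
# Finiteness of the fixed points modulo 2 from the finiteness of characters
-/

namespace Run7.h385

/-- the elements of order dividing 2 -/
def twoTors (M : Type*) [AddCommGroup M] : AddSubgroup M where
  carrier := {τ | τ + τ = 0}
  zero_mem' := by simp
  add_mem' := by
    intro a b ha hb
    have h : a + b + (a + b) = (a + a) + (b + b) := by abel
    rw [Set.mem_ofPred_eq] at ha hb ⊢
    rw [h, ha, hb, add_zero]
  neg_mem' := by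
    intro a ha
    rw [Set.mem_ofPred_eq] at ha ⊢
    have h : -a + -a = -(a + a) := by abel
    rw [h, ha, neg_zero]

lemma mem_twoTors {M : Type*} [AddCommGroup M] {τ : M} : τ ∈ twoTors M ↔ τ + τ = 0 := Iff.rfl

/-- elements of order 2 are separated by characters -/
lemma twoTors_separate {M : Type*} [AddCommGroup M] (τ : twoTors M)
    (h : ∀ ℓ : twoTors M →+ ZMod 2, ℓ τ = 0) : τ = 0 := by
  have h2 : ∀ x : twoTors M, 2 • x = 0 := by
    intro x
    rw [two_nsmul]
    exact Subtype.ext x.2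
  let _ : Module (ZMod 2) (twoTors M) := AddCommGroup.zmodModule h2
  have : Fact (Nat.Prime 2) := ⟨Nat.prime_two⟩
  exact (Module.forall_dual_apply_eq_zero_iff (ZMod 2) τ).mp fun f => h f.toAddMonoidHom

theorem finite_descent {M G : Type*} [AddCommGroup M] (φ : G → M →+ M)
    (hdiv : ∀ P : M, ∃ Q, Q + Q = P) (hfin : Finite (twoTors M))
    (S : (twoTors M →+ ZMod 2) → Set (G → ZMod 2)) (hS : ∀ ℓ, (S ℓ).Finite)
    (hℓ : ∀ ℓ (Q : M), (∀ g, φ g (Q + Q) = Q + Q) → ∃ f ∈ S ℓ, ∀ g
      (hg : φ g Q - Q ∈ twoTors M), f g = ℓ ⟨φ g Q - Q, hg⟩) :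
    ∃ R : Set M, R.Finite ∧ (∀ r ∈ R, ∀ g, φ g r = r) ∧
      ∀ P, (∀ g, φ g P = P) → ∃ r ∈ R, ∃ Q, (∀ g, φ g Q = Q) ∧ P = r + (Q + Q) := by
  classical
  choose half hhalf using hdiv
  have hfix : ∀ P : {P : M // ∀ g, φ g P = P}, ∀ g,
      φ g (half P.1 + half P.1) = half P.1 + half P.1 := by
    intro P g
    rw [hhalf]
    exact P.2 g
  choose Φ hΦS hΦ using fun (P : {P : M // ∀ g, φ g P = P}) (ℓ : twoTors M →+ ZMod 2) =>
    hℓ ℓ (half P.1) (hfix P)
  have hfinH : Finite (twoTors M →+ ZMod 2) := DFunLike.finite _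
  have hrange : (Set.range Φ).Finite := by
    refine Set.Finite.subset (Set.Finite.pi' hS) ?_
    rintro _ ⟨P, rfl⟩ ℓ
    exact hΦS P ℓ
  have htors : ∀ (P : {P : M // ∀ g, φ g P = P}) (g : G), φ g (half P.1) - half P.1 ∈ twoTors M := by
    intro P g
    rw [mem_twoTors]
    have h1 := hfix P g
    rw [map_add] at h1
    have h2 : φ g (half P.1) - half P.1 + (φ g (half P.1) - half P.1) =
      (φ g (half P.1) + φ g (half P.1)) - (half P.1 + half P.1) := by abel
    rw [h2, h1, sub_self]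
  have key : ∀ P P' : {P : M // ∀ g, φ g P = P}, Φ P = Φ P' →
      ∀ g, φ g (half P.1 - half P'.1) = half P.1 - half P'.1 := by
    intro P P' heq g
    have h1 : (⟨_, htors P g⟩ : twoTors M) - ⟨_, htors P' g⟩ = 0 := by
      apply twoTors_separate
      intro ℓ
      rw [map_sub, ← hΦ P ℓ g (htors P g), ← hΦ P' ℓ g (htors P' g), heq, sub_self]
    have h2 : (φ g (half P.1) - half P.1) - (φ g (half P'.1) - half P'.1) = 0 :=
      congrArg Subtype.val h1
    rw [map_sub, ← sub_eq_zero]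
    rw [← h2]
    abel
  have hrep : ∀ F : Set.range Φ, ∃ P, Φ P = F.1 := fun F => F.2
  choose rep hrepe using hrep
  have := hrange.to_subtype
  refine ⟨Set.range fun F : Set.range Φ => (rep F).1, Set.finite_range _, ?_, ?_⟩
  · rintro _ ⟨F, rfl⟩ g
    exact (rep F).2 g
  · intro P hP
    set F : Set.range Φ := ⟨Φ ⟨P, hP⟩, ⟨_, rfl⟩⟩ with hF
    refine ⟨(rep F).1, ⟨F, rfl⟩, half P - half (rep F).1,
      key ⟨P, hP⟩ (rep F) (hrepe F).symm, ?_⟩
    have h1 := hhalf P
    have h2 := hhalf (rep F).1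
    calc P = half P + half P := h1.symm
      _ = (half (rep F).1 + half (rep F).1) + ((half P - half (rep F).1) +
          (half P - half (rep F).1)) := by abel
      _ = _ := by rw [h2]

end Run7.h385
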