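import Mathlib

set_option autoImplicit false

/-!
# Extension of valuations to extension fields
-/

namespace Run7.h385

/-- every valuation ring of a field is the trace of a valuation ring of an extension field -/
theorem exists_ext_valuation {K E Γ₀ : Type*} [Field K] [Field E] [Algebra K E]
    [LinearOrderedCommGroupWithZero Γ₀] (v : Valuation K Γ₀) :
    ∃ O : ValuationSubring E, ∀ x : K, algebraMap K E x ∈ O ↔ v x ≤ 1 := by
  obtain ⟨O, h, hloc⟩ := IsLocalRing.exists_factor_valuationRing
    ((algebraMap K E).comp v.valuationSubring.subtype)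
  have h1 : ∀ x : K, v x ≤ 1 → algebraMap K E x ∈ O := fun x hx => h ⟨x, hx⟩
  refine ⟨O, fun x => ⟨fun hx => ?_, h1 x⟩⟩
  by_contra hcon
  push Not at hcon
  have hx0 : x ≠ 0 := by
    rintro rfl
    rw [map_zero] at hcon
    exact absurd hcon (not_lt.mpr zero_le)
  have hinv : v x⁻¹ < 1 := by
    rw [map_inv₀]
    exact inv_lt_one_of_one_lt₀ hcon
  have hmem : x⁻¹ ∈ v.valuationSubring := hinv.le
  have hunit : IsUnit (((algebraMap K E).comp v.valuationSubring.subtype).codRestrict
      O.toSubring h ⟨x⁻¹, hmem⟩) := by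
    refine IsUnit.of_mul_eq_one ⟨algebraMap K E x, hx⟩ ?_
    apply Subtype.ext
    change algebraMap K E x⁻¹ * algebraMap K E x = 1
    rw [← map_mul, inv_mul_cancel₀ hx0, map_one]
  have h2 := hloc.map_nonunit _ hunit
  obtain ⟨y, hy⟩ := h2.exists_right_inv
  have h3 : x⁻¹ * (y : K) = 1 := congrArg Subtype.val hy
  have h4 : v x⁻¹ * v (y : K) = 1 := by rw [← map_mul, h3, map_one]
  have h5 : v (y : K) ≤ 1 := y.2
  have h6 : v x⁻¹ * v (y : K) < 1 := by
    calc v x⁻¹ * v (y : K) ≤ v x⁻¹ * 1 := by gcongr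
      _ < 1 := by rwa [mul_one]
  exact absurd h4 h6.ne

end Run7.h385
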