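import Mathlib

set_option autoImplicit false

/-!
# Separation of points by monomials; a parity criterion
-/

namespace Run7.h385

open MvPolynomial IsDedekindDomain NumberField

/-- finitely many points are separated by monomials -/
theorem separate {κ ι Θ : Type*} [Field κ] [Fintype ι] [Fintype Θ] (y : Θ → ι → κ)
    (hy : Function.Injective y) (χ : Θ → κ) (τ₀ : Θ) (hχ : χ τ₀ ≠ 0) :
    ∃ s : ι → ℕ, ∑ τ, χ τ * ∏ i, y τ i ^ s i ≠ 0 := by
  classical
  by_contra hcon
  push Not at hcon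
  have h1 : ∀ b : MvPolynomial ι κ, ∑ τ, χ τ * eval (y τ) b = 0 := by
    intro b
    have h2 : ∀ τ, eval (y τ) b = ∑ d ∈ b.support, b.coeff d * ∏ i, y τ i ^ d i := fun τ => by
      rw [eval_eq']
    simp_rw [h2, Finset.mul_sum]
    rw [Finset.sum_comm]
    refine Finset.sum_eq_zero fun d _ => ?_
    have h3 : ∑ τ, χ τ * (b.coeff d * ∏ i, y τ i ^ d i) =
        b.coeff d * ∑ τ, χ τ * ∏ i, y τ i ^ d i := by
      rw [Finset.mul_sum]
      refine Finset.sum_congr rfl fun τ _ => ?_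
      ring
    rw [h3, hcon, mul_zero]
  have h4 : ∀ τ, τ ≠ τ₀ → ∃ i, y τ₀ i ≠ y τ i := by
    intro τ hτ
    by_contra h
    push Not at h
    exact hτ (hy (funext h)).symm
  choose idx hidx using h4
  have h5 := h1 (∏ τ : {τ : Θ // τ ≠ τ₀}, (X (idx τ.1 τ.2) - C (y τ.1 (idx τ.1 τ.2))))
  rw [Finset.sum_eq_single τ₀] at h5
  · rw [mul_eq_zero, map_prod, Finset.prod_eq_zero_iff] at h5
    rcases h5 with h5 | ⟨τ, -, h5⟩
    · exact hχ h5
    · rw [map_sub, eval_X, eval_C, sub_eq_zero] at h5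
      exact hidx τ.1 τ.2 h5
  · intro τ _ hτ
    rw [map_prod, Finset.prod_eq_zero (Finset.mem_univ (⟨τ, hτ⟩ : {τ : Θ // τ ≠ τ₀})), mul_zero]
    rw [map_sub, eval_X, eval_C, sub_self]
  · intro h
    exact absurd (Finset.mem_univ _) h

/-- the parity criterion -/
theorem parity {L E ι Θ : Type*} [Field L] [NumberField L] [Field E] [Algebra L E]
    (v : HeightOneSpectrum (𝓞 L)) (O : ValuationSubring E)
    (hO : ∀ x : L, algebraMap L E x ∈ O ↔ v.valuation L x ≤ 1) [Fintype ι] [Fintype Θ] [Nonempty Θ]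
    (y : Θ → ι → O) (hy : Function.Injective fun τ i => IsLocalRing.residue O (y τ i))
    (χ : Θ → ℤ) (hχ : ∀ τ, χ τ = 1 ∨ χ τ = -1) (z : E) (a : Lˣ)
    (ha : z ^ 2 = algebraMap L E a)
    (hT : ∀ s : ι → ℕ, ∃ h : L,
      ∑ τ, (χ τ : E) * ∏ i, (y τ i : E) ^ s i = z * algebraMap L E h) :
    Even (Multiplicative.toAdd (v.valuationOfNeZero a)) := by
  classical
  by_contra hodd
  obtain ⟨τ₀⟩ : Nonempty Θ := inferInstance
  have hne : ((χ τ₀ : ℤ) : IsLocalRing.ResidueField O) ≠ 0 := by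
    rcases hχ τ₀ with h | h <;> rw [h]
    · rw [Int.cast_one]
      exact one_ne_zero
    · rw [Int.cast_neg, Int.cast_one]
      exact neg_ne_zero.mpr one_ne_zero
  obtain ⟨s, hs⟩ := separate (fun τ i => IsLocalRing.residue O (y τ i)) hy
    (fun τ => ((χ τ : ℤ) : IsLocalRing.ResidueField O)) τ₀ hne
  apply hs
  obtain ⟨h, hh⟩ := hT s
  set T : O := ∑ τ, (χ τ : O) * ∏ i, (y τ i) ^ s i with hTdef
  have hTE : (T : E) = z * algebraMap L E h := by
    rw [← hh, hTdef]
    have : ((∑ τ, (χ τ : O) * ∏ i, (y τ i) ^ s i : O) : E) =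
        O.subtype (∑ τ, (χ τ : O) * ∏ i, (y τ i) ^ s i) := rfl
    rw [this, map_sum]
    refine Finset.sum_congr rfl fun τ _ => ?_
    rw [map_mul, map_prod, map_intCast]
    congr 1
  have hres : IsLocalRing.residue O T =
      ∑ τ, ((χ τ : ℤ) : IsLocalRing.ResidueField O) *
        ∏ i, IsLocalRing.residue O (y τ i) ^ s i := by
    rw [hTdef, map_sum]
    refine Finset.sum_congr rfl fun τ _ => ?_
    rw [map_mul, map_prod, map_intCast]
    congr 1
  rw [← hres, IsLocalRing.residue_eq_zero_iff, IsLocalRing.mem_maximalIdeal, mem_nonunits_iff]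
  intro hunit
  obtain ⟨w, hw⟩ := hunit.exists_right_inv
  have hwE : (T : E) * (w : E) = 1 := congrArg Subtype.val hw
  have hT2 : (T : E) ^ 2 = algebraMap L E (a * h ^ 2) := by
    rw [hTE, mul_pow, ha, map_mul, map_pow]
  have hw2 : (w : E) ^ 2 = algebraMap L E (a * h ^ 2)⁻¹ := by
    rw [map_inv₀, ← hT2]
    apply eq_inv_of_mul_eq_one_right
    rw [← mul_pow, hwE, one_pow]
  have h1 : v.valuation L (a * h ^ 2) ≤ 1 := by
    rw [← hO, ← hT2]
    exact (T ^ 2).2
  have h2 : v.valuation L (a * h ^ 2)⁻¹ ≤ 1 := by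
    rw [← hO, ← hw2]
    exact (w ^ 2).2
  have hh0 : h ≠ 0 := by
    rintro rfl
    rw [map_zero, mul_zero] at hTE
    rw [hTE, zero_mul] at hwE
    exact zero_ne_one hwE
  have h3 : v.valuation L (a * h ^ 2) = 1 := by
    refine le_antisymm h1 ?_
    rw [map_inv₀] at h2
    have hne : v.valuation L ((a : L) * h ^ 2) ≠ 0 := by
      rw [Valuation.ne_zero_iff]
      exact mul_ne_zero a.ne_zero (pow_ne_zero _ hh0)
    exact (inv_le_one₀ (zero_lt_iff.mpr hne)).mp h2
  have h4 : v.valuationOfNeZero (a * (Units.mk0 h hh0) ^ 2) = 1 := by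
    have h5 := v.valuationOfNeZero_eq (a * (Units.mk0 h hh0) ^ 2)
    rw [Units.val_mul, Units.val_pow_eq_pow_val, Units.val_mk0, h3] at h5
    exact_mod_cast h5
  rw [map_mul, map_pow] at h4
  have h6 := congrArg Multiplicative.toAdd h4
  rw [toAdd_mul, toAdd_pow, toAdd_one] at h6
  apply hodd
  have h7 : Multiplicative.toAdd (v.valuationOfNeZero a) =
      2 * (-Multiplicative.toAdd (v.valuationOfNeZero (Units.mk0 h hh0))) := by
    rw [nsmul_eq_mul, Nat.cast_ofNat] at h6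
    linarith
  rw [h7]
  exact even_two_mul _

end Run7.h385
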