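import Mathlib
import Pool.Agent.Run7.h385.AbGal
import Pool.Agent.Run7.h385.Descent
import Pool.Agent.Run7.h385.ExtVal
import Pool.Agent.Run7.h385.Parity
import Pool.Agent.H437R2.Man.MWWeak

set_option autoImplicit false

/-!
# Kummer theory for the multiplication by 2
-/

namespace Run7.h385

open MvPolynomial IsDedekindDomain NumberField
open Pool.Agent.Helper259.AbsHt

/-- the sign attached to an element of `ℤ/2` -/
def sgn (a : ZMod 2) : ℤ := if a = 0 then 1 else -1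

lemma sgn_add (a b : ZMod 2) : sgn (a + b) = sgn a * sgn b := by
  revert a b
  decide

lemma sgn_sq (a : ZMod 2) : sgn a * sgn a = 1 := by
  revert a
  decide

lemma sgn_cases (a : ZMod 2) : sgn a = 1 ∨ sgn a = -1 := by
  revert a
  decide

lemma exists_primitive {n : ℕ} (O : ValuationSubring Qbar) {x : Fin (n + 1) → Qbar} (hx : x ≠ 0) :
    ∃ i, x i ≠ 0 ∧ ∀ j, x j / x i ∈ O := by
  obtain ⟨i, hi⟩ := Finite.exists_max fun i => O.valuation (x i)
  have hi0 : x i ≠ 0 := by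
    intro h0
    apply hx
    funext j
    have h1 := hi j
    rw [h0, map_zero, le_zero_iff, Valuation.zero_iff] at h1
    exact h1
  refine ⟨i, hi0, fun j => ?_⟩
  rw [← ValuationSubring.valuation_le_one_iff, map_div₀]
  exact div_le_one_of_le₀ (hi j) zero_le

variable {N : ℕ} {A : Set (PSpace N)} [AddCommGroup A] {L : IntermediateField ℚ Qbar}

/-- the Kummer sums -/
noncomputable def kum [Fintype (twoTors A)] (ℓ : twoTors A →+ ZMod 2) (Q : A)
    (c : Fin (N + 1) → Qbar) (s : Fin (N + 1) → ℕ) : Qbar :=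
  ∑ τ : twoTors A, ((sgn (ℓ τ) : ℤ) : Qbar) * ∏ i, nrm c ((Q + τ.1 : A) : PSpace N) i ^ s i

lemma kum_gal [Fintype (twoTors A)] (φ : (Qbar ≃ₐ[L] Qbar) → A →+ A)
    (hφ : ∀ σ (P : A), ((φ σ P : A) : PSpace N) = gal σ (P : PSpace N))
    (htor : ∀ σ (τ : A), τ + τ = 0 → φ σ τ = τ) (ℓ : twoTors A →+ ZMod 2) (Q : A)
    (σ : Qbar ≃ₐ[L] Qbar) (hσ : φ σ Q - Q ∈ twoTors A) {c : Fin (N + 1) → Qbar}
    (hc : ∀ i, σ (c i) = c i) (s : Fin (N + 1) → ℕ) :
    σ (kum ℓ Q c s) = ((sgn (ℓ ⟨φ σ Q - Q, hσ⟩) : ℤ) : Qbar) * kum ℓ Q c s := by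
  classical
  set f : twoTors A := ⟨φ σ Q - Q, hσ⟩ with hf
  rw [kum, map_sum, Finset.mul_sum,
    ← Equiv.sum_comp (Equiv.addLeft f) (fun τ : twoTors A => ((sgn (ℓ f) : ℤ) : Qbar) *
      (((sgn (ℓ τ) : ℤ) : Qbar) * ∏ i, nrm c ((Q + τ.1 : A) : PSpace N) i ^ s i))]
  refine Finset.sum_congr rfl fun τ _ => ?_
  rw [map_mul, map_intCast, map_prod, Equiv.coe_addLeft, map_add, sgn_add, ← mul_assoc,
    Int.cast_mul, ← mul_assoc, ← Int.cast_mul, sgn_sq, Int.cast_one, one_mul]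
  congr 1
  refine Finset.prod_congr rfl fun i _ => ?_
  have h1 : (Q + (f + τ : twoTors A).1 : A) = φ σ (Q + τ.1) := by
    rw [map_add, htor σ τ.1 τ.2]
    change Q + ((φ σ Q - Q) + τ.1) = _
    abel
  rw [map_pow, ← nrm_gal σ hc, ← hφ, ← h1]

/-- the Kummer element of a point -/
theorem kummer_z [FiniteDimensional ℚ L] (φ : (Qbar ≃ₐ[L] Qbar) → A →+ A)
    (hφ : ∀ σ (P : A), ((φ σ P : A) : PSpace N) = gal σ (P : PSpace N))
    (htor : ∀ σ (τ : A), τ + τ = 0 → φ σ τ = τ) (hΘ : Finite (twoTors A))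
    (E : Set Qbar) (hEL : ∀ c ∈ E, c ∈ L)
    (hgood : ∀ O : ValuationSubring Qbar, (∀ c ∈ E, c ∈ O ∧ c⁻¹ ∈ O) →
      ∀ (x x' : Fin (N + 1) → O) (hx : (fun i => (x i : Qbar)) ≠ 0)
        (hx' : (fun i => (x' i : Qbar)) ≠ 0) (P P' : A), (P : PSpace N) = Projectivization.mk Qbar _ hx →
        (P' : PSpace N) = Projectivization.mk Qbar _ hx' → P ≠ P' → P + P = P' + P' →
        (∀ i, IsLocalRing.residue O (x i) = IsLocalRing.residue O (x' i)) →
        ∀ i, IsLocalRing.residue O (x i) = 0)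
    (hint : ∀ m : ℕ, 0 < m → m ≤ Nat.card (twoTors A) * N → (m : Qbar) ∈ E)
    (ℓ : twoTors A →+ ZMod 2) (Q : A) (hQ : ∀ σ, φ σ (Q + Q) = Q + Q) :
    ∃ z : Qbar, z ≠ 0 ∧ (∀ σ (hσ : φ σ Q - Q ∈ twoTors A),
      σ z = ((sgn (ℓ ⟨φ σ Q - Q, hσ⟩) : ℤ) : Qbar) * z) ∧
      ∀ a : Lˣ, z ^ 2 = ((a : L) : Qbar) → ∀ v : HeightOneSpectrum (𝓞 L),
        (∀ c : L, (c : Qbar) ∈ E → v.valuation L c = 1) →
        Even (Multiplicative.toAdd (v.valuationOfNeZero a)) := by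
  classical
  have := Fintype.ofFinite (twoTors A)
  have hnf : NumberField L := inferInstance
  have hσmem : ∀ σ, φ σ Q - Q ∈ twoTors A := by
    intro σ
    rw [mem_twoTors]
    have h1 := hQ σ
    rw [map_add] at h1
    have h2 : φ σ Q - Q + (φ σ Q - Q) = (φ σ Q + φ σ Q) - (Q + Q) := by abel
    rw [h2, h1, sub_self]
  have hpow : ∀ (σ : Qbar ≃ₐ[L] Qbar) (s : ℕ) (i : Fin (N + 1)),
      σ ((s : Qbar) ^ (i : ℕ)) = (s : Qbar) ^ (i : ℕ) := fun σ s i => by
    rw [map_pow, map_natCast]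
  have hQτ : ∀ τ τ' : twoTors A, (Q + τ.1 : A) + (Q + τ.1) = (Q + τ'.1) + (Q + τ'.1) := by
    intro τ τ'
    have h1 : (Q + τ.1 : A) + (Q + τ.1) = (Q + Q) + (τ.1 + τ.1) := by abel
    have h2 : (Q + τ'.1 : A) + (Q + τ'.1) = (Q + Q) + (τ'.1 + τ'.1) := by abel
    rw [h1, h2, mem_twoTors.mp τ.2, mem_twoTors.mp τ'.2]
  -- a linear form over Qbar
  obtain ⟨s₀, hs₀⟩ := exists_linear_form (κ := Qbar)
    (fun τ : twoTors A => ((Q + τ.1 : A) : PSpace N).rep)
    (fun τ => ((Q + τ.1 : A) : PSpace N).rep_nonzero) (fun m hm _ => by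
      exact_mod_cast hm.ne')
  set c₀ : Fin (N + 1) → Qbar := fun i => (s₀ : Qbar) ^ (i : ℕ) with hc₀
  have hinj : Function.Injective fun (τ : twoTors A) => nrm c₀ ((Q + τ.1 : A) : PSpace N) := by
    intro τ τ' h
    have h1 := nrm_inj (hs₀ τ) h
    exact Subtype.ext (add_left_cancel (Subtype.ext h1))
  obtain ⟨s₁, hs₁⟩ := separate (fun (τ : twoTors A) => nrm c₀ ((Q + τ.1 : A) : PSpace N)) hinj
    (fun τ => ((sgn (ℓ τ) : ℤ) : Qbar)) 0 (by
      rcases sgn_cases (ℓ 0) with h | h <;> rw [h] <;> norm_num)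
  set z := kum ℓ Q c₀ s₁ with hz
  have hz0 : z ≠ 0 := hs₁
  have hzσ : ∀ σ (hσ : φ σ Q - Q ∈ twoTors A),
      σ z = ((sgn (ℓ ⟨φ σ Q - Q, hσ⟩) : ℤ) : Qbar) * z := fun σ hσ =>
    kum_gal φ hφ htor ℓ Q σ hσ (fun i => hpow σ s₀ i) s₁
  refine ⟨z, hz0, hzσ, fun a ha v hv => ?_⟩
  obtain ⟨O, hO⟩ := exists_ext_valuation (K := L) (E := Qbar) (v.valuation L)
  have hO' : ∀ x : L, (x : Qbar) ∈ O ↔ v.valuation L x ≤ 1 := hO
  have hEO : ∀ c ∈ E, c ∈ O ∧ c⁻¹ ∈ O := by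
    intro c hc
    have h1 := hv ⟨c, hEL c hc⟩ hc
    constructor
    · exact (hO' ⟨c, hEL c hc⟩).mpr h1.le
    · have h2 := (hO' (⟨c, hEL c hc⟩ : L)⁻¹).mpr (by rw [map_inv₀, h1, inv_one])
      exact h2
  -- primitive coordinates
  choose idx hidx0 hidxO using fun τ : twoTors A =>
    exists_primitive O ((Q + τ.1 : A) : PSpace N).rep_nonzero
  set x : twoTors A → Fin (N + 1) → O := fun τ j =>
    ⟨((Q + τ.1 : A) : PSpace N).rep j / ((Q + τ.1 : A) : PSpace N).rep (idx τ), hidxO τ j⟩ with hx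
  have hx1 : ∀ τ, x τ (idx τ) = 1 := by
    intro τ
    apply Subtype.ext
    change ((Q + τ.1 : A) : PSpace N).rep (idx τ) / ((Q + τ.1 : A) : PSpace N).rep (idx τ) = 1
    exact div_self (hidx0 τ)
  have hm : ∀ m : ℕ, 0 < m → m ≤ Fintype.card (twoTors A) * N →
      (m : IsLocalRing.ResidueField O) ≠ 0 := by
    intro m hm0 hmle
    have h1 := hEO m (hint m hm0 (by rwa [Nat.card_eq_fintype_card]))
    have h2 : IsUnit (m : O) := by
      refine IsUnit.of_mul_eq_one ⟨_, h1.2⟩ ?_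
      apply Subtype.ext
      change ((m : O) : Qbar) * (m : Qbar)⁻¹ = 1
      have h3 : ((m : O) : Qbar) = m := map_natCast O.subtype m
      rw [h3]
      exact mul_inv_cancel₀ (by exact_mod_cast hm0.ne')
    have h3 := h2.map (IsLocalRing.residue O)
    rw [map_natCast] at h3
    exact h3.ne_zero
  obtain ⟨s, hs⟩ := exists_linear_form (κ := IsLocalRing.ResidueField O)
    (fun τ j => IsLocalRing.residue O (x τ j)) (fun τ h0 => by
      have h1 := congrFun h0 (idx τ)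
      simp only [hx1, map_one, Pi.zero_apply] at h1
      exact one_ne_zero h1) hm
  set c : Fin (N + 1) → Qbar := fun i => (s : Qbar) ^ (i : ℕ) with hc
  set u : twoTors A → O := fun τ => ∑ i : Fin (N + 1), (s : O) ^ (i : ℕ) * x τ i with hu
  have hunit : ∀ τ, IsUnit (u τ) := by
    intro τ
    have h1 := hs τ
    have h2 : IsLocalRing.residue O (u τ) =
        ∑ i : Fin (N + 1), (s : IsLocalRing.ResidueField O) ^ (i : ℕ) *
          IsLocalRing.residue O (x τ i) := by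
      rw [hu, map_sum]
      refine Finset.sum_congr rfl fun i _ => ?_
      rw [map_mul, map_pow, map_natCast]
    rw [← h2] at h1
    by_contra hcon
    apply h1
    rw [IsLocalRing.residue_eq_zero_iff, IsLocalRing.mem_maximalIdeal, mem_nonunits_iff]
    exact hcon
  choose w hw using fun τ => (hunit τ).exists_right_inv
  have huE : ∀ τ, ((u τ : O) : Qbar) = ∑ i, c i * (x τ i : Qbar) := by
    intro τ
    have h1 : ((u τ : O) : Qbar) = O.subtype (u τ) := rfl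
    rw [h1, hu, map_sum]
    refine Finset.sum_congr rfl fun i _ => ?_
    rw [map_mul, map_pow, map_natCast]
    rfl
  have hwE : ∀ τ, ((w τ : O) : Qbar) = (∑ i, c i * (x τ i : Qbar))⁻¹ := by
    intro τ
    rw [← huE]
    apply eq_inv_of_mul_eq_one_right
    exact congrArg Subtype.val (hw τ)
  have hxne : ∀ τ, (fun i => (x τ i : Qbar)) ≠ 0 := by
    intro τ h0
    have h1 := congrFun h0 (idx τ)
    simp only [hx1, Pi.zero_apply] at h1
    exact one_ne_zero h1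
  have hPx : ∀ τ : twoTors A, ((Q + τ.1 : A) : PSpace N) = Projectivization.mk Qbar _ (hxne τ) := by
    intro τ
    rw [← Projectivization.mk_rep ((Q + τ.1 : A) : PSpace N), Projectivization.mk_eq_mk_iff']
    refine ⟨((Q + τ.1 : A) : PSpace N).rep (idx τ), ?_⟩
    funext j
    rw [Pi.smul_apply, smul_eq_mul, hx]
    exact mul_div_cancel₀ _ (hidx0 τ)
  have hy : ∀ τ : twoTors A, ∀ i, ((w τ * x τ i : O) : Qbar) =
      nrm c ((Q + τ.1 : A) : PSpace N) i := by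
    intro τ i
    rw [hPx, nrm_mk, Pi.smul_apply, smul_eq_mul, ← hwE]
    rfl
  have hwne : ∀ τ, ((w τ : O) : Qbar) ≠ 0 := by
    intro τ h0
    have h1 := congrArg Subtype.val (hw τ)
    have h2 : ((u τ : O) : Qbar) * ((w τ : O) : Qbar) = 1 := h1
    rw [h0, mul_zero] at h2
    exact zero_ne_one h2
  have hyne : ∀ τ, (fun i => ((w τ * x τ i : O) : Qbar)) ≠ 0 := by
    intro τ h0
    have h1 := congrFun h0 (idx τ)
    simp only [hx1, mul_one, Pi.zero_apply] at h1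
    exact hwne τ h1
  have hPy : ∀ τ : twoTors A, ((Q + τ.1 : A) : PSpace N) = Projectivization.mk Qbar _ (hyne τ) := by
    intro τ
    rw [hPx, Projectivization.mk_eq_mk_iff']
    refine ⟨((w τ : O) : Qbar)⁻¹, ?_⟩
    funext j
    rw [Pi.smul_apply, smul_eq_mul]
    change ((w τ : O) : Qbar)⁻¹ * (((w τ : O) : Qbar) * (x τ j : Qbar)) = _
    rw [inv_mul_cancel_left₀ (hwne τ)]
  refine parity v O hO (fun (τ : twoTors A) i => w τ * x τ i) ?_ (fun τ => sgn (ℓ τ))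
    (fun τ => sgn_cases _) z a ha ?_
  · intro τ τ' heq
    by_contra hne
    have h1 := hgood O hEO (fun i => w τ * x τ i) (fun i => w τ' * x τ' i) (hyne τ) (hyne τ')
      (Q + τ.1) (Q + τ'.1) (hPy τ) (hPy τ') (fun h => hne (Subtype.ext (add_left_cancel h)))
      (hQτ τ τ') (fun i => congrFun heq i) (idx τ)
    rw [hx1, mul_one] at h1
    have h2 := congrArg (IsLocalRing.residue O) (hw τ)
    rw [map_mul, h1, mul_zero, map_one] at h2
    exact zero_ne_one h2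
  · intro s'
    have h1 : kum ℓ Q c s' / z ∈ L := by
      apply fixed_mem
      intro σ
      rw [map_div₀, kum_gal φ hφ htor ℓ Q σ (hσmem σ) (fun i => hpow σ s i) s',
        hzσ σ (hσmem σ)]
      apply mul_div_mul_left
      rcases sgn_cases (ℓ ⟨φ σ Q - Q, hσmem σ⟩) with h | h <;> rw [h] <;> norm_num
    refine ⟨⟨_, h1⟩, ?_⟩
    have h2 : algebraMap L Qbar ⟨_, h1⟩ = kum ℓ Q c s' / z := rfl
    rw [h2, mul_div_cancel₀ _ hz0, kum]
    refine Finset.sum_congr rfl fun τ _ => ?_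
    congr 1
    refine Finset.prod_congr rfl fun i _ => ?_
    rw [hy]

end Run7.h385
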