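import Mathlib
import Pool.Agent.Run7.h385.Kummer

set_option autoImplicit false

/-!
# The weak Mordell-Weil theorem for abelian varieties in a projective model
-/

namespace Run7.h385

open MvPolynomial IsDedekindDomain NumberField
open Pool.Agent.Helper259.AbsHt

section abs

variable {N : ℕ} {A : Set (PSpace N)} [AddCommGroup A] {L : IntermediateField ℚ Qbar}

theorem kummer_finite [FiniteDimensional ℚ L] (φ : (Qbar ≃ₐ[L] Qbar) → A →+ A)
    (hφ : ∀ σ (P : A), ((φ σ P : A) : PSpace N) = gal σ (P : PSpace N))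
    (htor : ∀ σ (τ : A), τ + τ = 0 → φ σ τ = τ) (hΘ : Finite (twoTors A))
    (E : Set Qbar) (hEfin : E.Finite) (hE0 : ∀ c ∈ E, c ≠ 0) (hEL : ∀ c ∈ E, c ∈ L)
    (hgood : ∀ O : ValuationSubring Qbar, (∀ c ∈ E, c ∈ O ∧ c⁻¹ ∈ O) →
      ∀ (x x' : Fin (N + 1) → O) (hx : (fun i => (x i : Qbar)) ≠ 0)
        (hx' : (fun i => (x' i : Qbar)) ≠ 0) (P P' : A), (P : PSpace N) = Projectivization.mk Qbar _ hx →
        (P' : PSpace N) = Projectivization.mk Qbar _ hx' → P ≠ P' → P + P = P' + P' →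
        (∀ i, IsLocalRing.residue O (x i) = IsLocalRing.residue O (x' i)) →
        ∀ i, IsLocalRing.residue O (x i) = 0)
    (hint : ∀ m : ℕ, 0 < m → m ≤ Nat.card (twoTors A) * N → (m : Qbar) ∈ E) :
    ∃ S : Set ((Qbar ≃ₐ[L] Qbar) → ZMod 2), S.Finite ∧
      ∀ (ℓ : twoTors A →+ ZMod 2) (Q : A), (∀ σ, φ σ (Q + Q) = Q + Q) → ∃ f ∈ S,
        ∀ σ (hσ : φ σ Q - Q ∈ twoTors A), f σ = ℓ ⟨φ σ Q - Q, hσ⟩ := by
  classical
  have hnf : NumberField L := inferInstance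
  set B : Set (HeightOneSpectrum (𝓞 L)) :=
    ⋃ c ∈ {c : L | (c : Qbar) ∈ E}, {v | v.valuation L c ≠ 1} with hB
  have hBfin : B.Finite := by
    refine Set.Finite.biUnion ?_ ?_
    · exact hEfin.preimage Subtype.val_injective.injOn
    · intro c hc
      refine Pool.Agent.H437R2.Man.MW.finite_val_ne_one c ?_
      rintro rfl
      exact hE0 _ hc rfl
  obtain ⟨T, hT0, hT⟩ := Pool.Agent.H437R2.Man.MW.sel_finite B hBfin
  choose r hr using fun t : L => IsAlgClosed.exists_pow_nat_eq (t : Qbar) (show 0 < 2 by norm_num)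
  refine ⟨(fun (t : L) (σ : Qbar ≃ₐ[L] Qbar) => if σ (r t) = r t then (0 : ZMod 2) else 1) ''
    (T : Set L), T.finite_toSet.image _, fun ℓ Q hQ => ?_⟩
  obtain ⟨z, hz0, hzσ, hzv⟩ := kummer_z φ hφ htor hΘ E hEL hgood hint ℓ Q hQ
  have hσmem : ∀ σ, φ σ Q - Q ∈ twoTors A := by
    intro σ
    rw [mem_twoTors]
    have h1 := hQ σ
    rw [map_add] at h1
    have h2 : φ σ Q - Q + (φ σ Q - Q) = (φ σ Q + φ σ Q) - (Q + Q) := by abel
    rw [h2, h1, sub_self]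
  have hz2 : z ^ 2 ∈ L := by
    apply fixed_mem
    intro σ
    rw [map_pow, hzσ σ (hσmem σ), mul_pow]
    rcases sgn_cases (ℓ ⟨φ σ Q - Q, hσmem σ⟩) with h | h <;> rw [h] <;> norm_num
  set a : Lˣ := Units.mk0 ⟨z ^ 2, hz2⟩ (by
    intro h
    have h1 := congrArg Subtype.val h
    exact pow_ne_zero 2 hz0 h1) with ha
  have haz : z ^ 2 = ((a : L) : Qbar) := rfl
  obtain ⟨t, ht, b, hb0, htb⟩ := hT a (fun v hv => hzv a haz v (fun c hc => by
    by_contra hne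
    exact hv (Set.mem_iUnion₂.mpr ⟨c, hc, hne⟩)))
  have hbq : ((b : L) : Qbar) ≠ 0 := by
    intro h
    exact hb0 (Subtype.ext h)
  have h1 : z ^ 2 = (t : Qbar) * (b : Qbar) ^ 2 := by
    rw [haz, htb]
    rfl
  have h2 : (z / b) ^ 2 = r t ^ 2 := by
    rw [hr, div_pow, h1]
    field_simp
  have hrt0 : r t ≠ 0 := by
    intro h0
    have h3 := hr t
    rw [h0] at h3
    apply hT0 t ht
    apply Subtype.ext
    rw [← h3]
    norm_num
  have h3 : ∀ σ (hσ : φ σ Q - Q ∈ twoTors A),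
      σ (r t) = ((sgn (ℓ ⟨φ σ Q - Q, hσ⟩) : ℤ) : Qbar) * r t := by
    intro σ hσ
    have h4 : σ (z / b) = ((sgn (ℓ ⟨φ σ Q - Q, hσ⟩) : ℤ) : Qbar) * (z / b) := by
      rw [map_div₀, hzσ σ hσ, mem_fixed b.2 σ, mul_div_assoc]
    rcases sq_eq_sq_iff_eq_or_eq_neg.mp h2 with h5 | h5
    · rw [← h5]
      exact h4
    · have h6 : r t = -(z / b) := by rw [h5, neg_neg]
      rw [h6, map_neg, h4, mul_neg]
  refine ⟨_, ⟨t, ht, rfl⟩, fun σ hσ => ?_⟩
  have h4 := h3 σ hσ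
  by_cases h5 : ℓ ⟨φ σ Q - Q, hσ⟩ = 0
  · rw [h5] at h4 ⊢
    have h6 : σ (r t) = r t := by
      rw [h4]
      norm_num [sgn]
    simp only [if_pos h6]
  · have h7 : ℓ ⟨φ σ Q - Q, hσ⟩ = 1 := by
      have : ∀ x : ZMod 2, x ≠ 0 → x = 1 := by decide
      exact this _ h5
    rw [h7] at h4 ⊢
    have h6 : σ (r t) ≠ r t := by
      intro h8
      rw [h8] at h4
      have h9 : sgn (1 : ZMod 2) = -1 := by decide
      rw [h9] at h4
      apply hrt0
      have h10 : (2 : Qbar) * r t = 0 := by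
        push_cast at h4
        linear_combination h4
      exact (mul_eq_zero.mp h10).resolve_left (by norm_num)
    simp only [if_neg h6]

end abs

variable {N : ℕ} {A : Set (PSpace N)} {add : PSpace N → PSpace N → PSpace N}
  {neg : PSpace N → PSpace N} {zero : PSpace N}

/-- the weak Mordell-Weil theorem -/
theorem IsAbelianModel.weak_mw (h : IsAbelianModel A add neg zero) :
    ∃ s : Set Qbar, s.Finite ∧ ∀ L : IntermediateField ℚ Qbar, FiniteDimensional ℚ L →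
      (∀ c ∈ s, c ∈ L) →
      ∃ R : Set (PSpace N), R.Finite ∧ R ⊆ A ∧ ∀ P ∈ A, P ∈ ratPts L N →
        ∃ r ∈ R, ∃ Q ∈ A, Q ∈ ratPts L N ∧ P = add r (add Q Q) := by
  classical
  obtain ⟨s₁, hs₁f, hs₁⟩ := h.gal_add
  obtain ⟨E, hEf, hE0, hE⟩ := h.good_reduction
  let _ := h.group
  have hΘf : Finite (twoTors A) := by
    have h1 := h.two_torsion_finite
    have h2 : Finite {τ | τ ∈ A ∧ add τ τ = zero} := h1
    refine Finite.of_injective (β := {τ | τ ∈ A ∧ add τ τ = zero})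
      (fun τ : twoTors A => ⟨τ.1.1, τ.1.2, congrArg Subtype.val τ.2⟩) ?_
    intro τ τ' hττ'
    have h3 := congrArg Subtype.val hττ'
    exact Subtype.ext (Subtype.ext h3)
  set E' : Set Qbar := E ∪ (fun m : ℕ => (m : Qbar)) '' {m | 0 < m ∧ m ≤ Nat.card (twoTors A) * N}
    with hE'
  have hE'f : E'.Finite := by
    refine hEf.union (Set.Finite.image _ ?_)
    exact (Set.finite_Iic (Nat.card (twoTors A) * N)).subset fun m hm => hm.2
  refine ⟨s₁ ∪ E', hs₁f.union hE'f, fun L hL hLs => ?_⟩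
  obtain ⟨htor, hgal⟩ := hs₁ L fun c hc => hLs c (Or.inl hc)
  let φ : (Qbar ≃ₐ[L] Qbar) → A →+ A := fun σ => AddMonoidHom.mk'
    (fun P => ⟨gal σ P, (hgal σ).1 P P.2⟩) (fun P Q => Subtype.ext ((hgal σ).2 P P.2 Q Q.2))
  have hφ : ∀ σ (P : A), ((φ σ P : A) : PSpace N) = gal σ (P : PSpace N) := fun σ P => rfl
  have htor' : ∀ σ (τ : A), τ + τ = 0 → φ σ τ = τ := by
    intro σ τ hτ
    apply Subtype.ext
    rw [hφ]
    exact gal_rat (htor τ τ.2 (congrArg Subtype.val hτ)) σ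
  obtain ⟨S, hSf, hS⟩ := kummer_finite φ hφ htor' hΘf E' hE'f (by
      rintro c (hc | ⟨m, hm, rfl⟩)
      · exact hE0 c hc
      · exact Nat.cast_ne_zero.mpr hm.1.ne') (fun c hc => hLs c (Or.inr hc))
    (by
      intro O hO x x' hx hx' P P' hP hP' hne hdbl hres
      refine hE O (fun c hc => hO c (Or.inl hc)) x x' hx hx' ?_ ?_ ?_ ?_ hres
      · rw [← hP]
        exact P.2
      · rw [← hP']
        exact P'.2
      · rw [← hP, ← hP']
        exact fun h => hne (Subtype.ext h)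
      · rw [← hP, ← hP']
        exact congrArg Subtype.val hdbl)
    (fun m hm hm' => Or.inr ⟨m, ⟨hm, hm'⟩, rfl⟩)
  obtain ⟨R, hRf, -, hR⟩ := finite_descent φ (fun P => by
      obtain ⟨Q, hQ, hQP⟩ := h.doubling.1 P P.2
      exact ⟨⟨Q, hQ⟩, Subtype.ext hQP⟩) hΘf (fun _ => S) (fun _ => hSf) hS
  refine ⟨Subtype.val '' R, hRf.image _, ?_, ?_⟩
  · rintro _ ⟨r, -, rfl⟩
    exact r.2
  · intro P hP hPL
    obtain ⟨r, hr, Q, hQ, hPQ⟩ := hR ⟨P, hP⟩ fun σ => Subtype.ext (gal_rat hPL σ)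
    refine ⟨r, ⟨r, hr, rfl⟩, Q, Q.2, rat_of_gal fun σ => ?_, congrArg Subtype.val hPQ⟩
    exact congrArg Subtype.val (hQ σ)

end Run7.h385
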