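import Mathlib
import Pool.Agent.Run7.h385.WeakMW
import Pool.Agent.Run7.h385.AbHeight

set_option autoImplicit false

/-!
# The number of points of bounded height on an abelian variety
-/

namespace Run7.h385

open MvPolynomial
open Pool.Agent.Helper259.AbsHt

lemma ratPts_mono {n : ℕ} {L L' : IntermediateField ℚ Qbar} (h : L ≤ L') :
    ratPts L n ⊆ ratPts L' n := by
  rintro P ⟨x, hx, h0, rfl⟩
  exact ⟨x, fun i => h (hx i), h0, rfl⟩

variable {N : ℕ} {A : Set (PSpace N)} {add : PSpace N → PSpace N → PSpace N}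
  {neg : PSpace N → PSpace N} {zero : PSpace N}

/-- the number of rational points of height at most `B` of an abelian variety is bounded by a power
of `B + 1` -/
theorem IsAbelianModel.count_le (h : IsAbelianModel A add neg zero)
    (L : IntermediateField ℚ Qbar) [FiniteDimensional ℚ L] :
    ∃ (D : ℝ) (κ : ℕ), 0 < D ∧ ∀ B : ℝ, 0 ≤ B →
      {P : PSpace N | P ∈ A ∧ P ∈ ratPts L N ∧ ht P ≤ B}.Finite ∧
      ({P : PSpace N | P ∈ A ∧ P ∈ ratPts L N ∧ ht P ≤ B}.ncard : ℝ) ≤ D * (B + 1) ^ κ := by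
  classical
  obtain ⟨s, hs, hmw⟩ := h.weak_mw
  obtain ⟨L', hLL', hfd, hsL'⟩ := exists_field L s hs
  obtain ⟨R, hRf, hRA, hR⟩ := hmw L' hfd hsL'
  set S : ℝ → Set (PSpace N) := fun B => {P | P ∈ A ∧ P ∈ ratPts L' N ∧ ht P ≤ B} with hS
  have hSf : ∀ B, (S B).Finite := by
    intro B
    obtain ⟨_, _, -, -, hc⟩ := count_rat L' N
    refine (hc (max B 0) (le_max_right _ _)).1.subset ?_
    rintro P ⟨-, h2, h3⟩
    exact ⟨h2, h3.trans (le_max_left _ _)⟩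
  have hSmono : ∀ B B', B ≤ B' → (S B).ncard ≤ (S B').ncard := by
    intro B B' hB
    refine Set.ncard_le_ncard ?_ (hSf B')
    rintro P ⟨h1, h2, h3⟩
    exact ⟨h1, h2, h3.trans hB⟩
  choose C hC using fun r : R => h.ht_half (hRA r.2)
  have := hRf.to_subtype
  have := Fintype.ofFinite R
  set C₀ : ℝ := ∑ r : R, |C r| with hC₀
  have hC₀' : ∀ r : R, C r ≤ C₀ := fun r => (le_abs_self _).trans
    (Finset.single_le_sum (f := fun r : R => |C r|) (fun _ _ => abs_nonneg _) (Finset.mem_univ r))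
  have hstep : ∀ B, (S B).ncard ≤ R.ncard * (S (B / 2 + C₀)).ncard := by
    intro B
    have hsub : S B ⊆ (fun p : PSpace N × PSpace N => add p.1 (add p.2 p.2)) ''
        (R ×ˢ S (B / 2 + C₀)) := by
      rintro P ⟨h1, h2, h3⟩
      obtain ⟨r, hr, Q, hQ, hQL, rfl⟩ := hR P h1 h2
      refine ⟨(r, Q), ⟨hr, hQ, hQL, ?_⟩, rfl⟩
      have h4 := hC ⟨r, hr⟩ _ h1 Q hQ rfl
      have h5 := hC₀' ⟨r, hr⟩
      linarith
    have hfin : (R ×ˢ S (B / 2 + C₀)).Finite := hRf.prod (hSf _)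
    calc (S B).ncard ≤ _ := Set.ncard_le_ncard hsub (hfin.image _)
      _ ≤ (R ×ˢ S (B / 2 + C₀)).ncard := Set.ncard_image_le hfin
      _ = _ := Set.ncard_prod
  obtain ⟨B₀, κ, hB₀, hκ, hb⟩ := Run7.h385.doubling (u := fun n : ℕ =>
      ((S ((n : ℝ) + (2 * C₀ + 1))).ncard : ℝ) + 1) (K := (R.ncard : ℝ) + 1)
    (fun n => by
      have : (0 : ℝ) ≤ ((S ((n : ℝ) + (2 * C₀ + 1))).ncard : ℝ) := Nat.cast_nonneg _
      linarith)
    (fun n hn => by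
      have h1 := hstep ((n : ℝ) + (2 * C₀ + 1))
      have h2 : (n : ℝ) ≤ 2 * ((n / 2 : ℕ) : ℝ) + 1 := by
        have : n ≤ 2 * (n / 2) + 1 := by omega
        exact_mod_cast this
      have h3 := hSmono (((n : ℝ) + (2 * C₀ + 1)) / 2 + C₀) (((n / 2 : ℕ) : ℝ) + (2 * C₀ + 1))
        (by linarith)
      have h4 : ((S ((n : ℝ) + (2 * C₀ + 1))).ncard : ℝ) ≤
          R.ncard * (S (((n / 2 : ℕ) : ℝ) + (2 * C₀ + 1))).ncard := by
        exact_mod_cast h1.trans (Nat.mul_le_mul_left _ h3)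
      have h5 : (0 : ℝ) ≤ R.ncard := Nat.cast_nonneg _
      have h6 : (0 : ℝ) ≤ (S (((n / 2 : ℕ) : ℝ) + (2 * C₀ + 1))).ncard := Nat.cast_nonneg _
      nlinarith)
  refine ⟨B₀ * 2 ^ κ, κ, by positivity, fun B hB => ?_⟩
  have hsub : {P : PSpace N | P ∈ A ∧ P ∈ ratPts L N ∧ ht P ≤ B} ⊆
      S ((⌈B⌉₊ : ℝ) + (2 * C₀ + 1)) := by
    rintro P ⟨h1, h2, h3⟩
    refine ⟨h1, ratPts_mono hLL' h2, ?_⟩
    have h4 := Nat.le_ceil B
    have h5 : 0 ≤ C₀ := Finset.sum_nonneg fun _ _ => abs_nonneg _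
    linarith
  refine ⟨(hSf _).subset hsub, ?_⟩
  have h1 : ({P : PSpace N | P ∈ A ∧ P ∈ ratPts L N ∧ ht P ≤ B}.ncard : ℝ) ≤
      (S ((⌈B⌉₊ : ℝ) + (2 * C₀ + 1))).ncard := by
    exact_mod_cast Set.ncard_le_ncard hsub (hSf _)
  have h2 := hb ⌈B⌉₊
  have h3 : ((⌈B⌉₊ : ℕ) : ℝ) + 1 ≤ 2 * (B + 1) := by
    have := (Nat.ceil_lt_add_one hB).le
    linarith
  have h4 : (((⌈B⌉₊ : ℕ) : ℝ) + 1) ^ κ ≤ (2 * (B + 1)) ^ κ :=
    pow_le_pow_left₀ (by positivity) h3 κ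
  have h5 : B₀ * (((⌈B⌉₊ : ℕ) : ℝ) + 1) ^ κ ≤ B₀ * (2 * (B + 1)) ^ κ :=
    mul_le_mul_of_nonneg_left h4 hB₀.le
  rw [mul_pow, ← mul_assoc] at h5
  linarith

end Run7.h385
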