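import Mathlib
import Pool.Agent.Run7.h385.GalAct

set_option autoImplicit false

/-!
# Open sets defined over a smaller field
-/

namespace Run7.h385

open MvPolynomial
open Pool.Agent.Helper259.AbsHt

variable {K : IntermediateField ℚ Qbar} {n : ℕ}

lemma map_aut_eval {ι : Type*} (σ : Qbar ≃ₐ[K] Qbar) (F : MvPolynomial ι Qbar) (x : ι → Qbar) :
    eval (fun i => σ (x i)) (map (σ : Qbar →+* Qbar) F) = σ (eval x F) := by
  rw [eval_map]
  change eval₂ (σ : Qbar →+* Qbar) ((σ : Qbar →+* Qbar) ∘ x) F = (σ : Qbar →+* Qbar) (eval x F)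
  rw [eval₂_comp]

/-- the conjugates of a polynomial are finite in number -/
lemma conj_finite {ι : Type*} (F : MvPolynomial ι Qbar) :
    (Set.range fun σ : Qbar ≃ₐ[K] Qbar => map (σ : Qbar →+* Qbar) F).Finite := by
  classical
  have h0 : Algebra.IsAlgebraic ℚ Qbar := AlgebraicClosure.isAlgebraic ℚ
  have h1 : Algebra.IsAlgebraic K Qbar := Algebra.IsAlgebraic.tower_top (K := ℚ) K
  have h2 : ∀ s : F.support, {y : Qbar | Polynomial.aeval y (minpoly K (F.coeff s)) = 0}.Finite := by
    intro s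
    have h3 : minpoly K (F.coeff s) ≠ 0 := minpoly.ne_zero (h1.isAlgebraic _).isIntegral
    have h4 : {y : Qbar | Polynomial.aeval y (minpoly K (F.coeff s)) = 0} ⊆
        (((minpoly K (F.coeff s)).aroots Qbar).toFinset : Set Qbar) := by
      intro y hy
      rw [Finset.mem_coe, Multiset.mem_toFinset, Polynomial.mem_aroots]
      exact ⟨h3, hy⟩
    exact (Finset.finite_toSet _).subset h4
  refine Set.Finite.subset ((Set.Finite.pi' h2).image fun c : F.support → Qbar =>
    ∑ s : F.support, monomial s.1 (c s)) ?_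
  rintro _ ⟨σ, rfl⟩
  refine ⟨fun s => σ (F.coeff s), fun s => ?_, ?_⟩
  · change Polynomial.aeval (σ (F.coeff s)) (minpoly K (F.coeff s)) = 0
    have h3 := Polynomial.aeval_algHom_apply (σ : Qbar →ₐ[K] Qbar) (F.coeff s)
      (minpoly K (F.coeff s))
    rw [minpoly.aeval, map_zero] at h3
    exact h3
  · change ∑ s : F.support, monomial s.1 (σ (F.coeff s)) = map (σ : Qbar →+* Qbar) F
    conv_rhs => rw [F.as_sum, map_sum]
    rw [← Finset.sum_coe_sort F.support (fun s => map (σ : Qbar →+* Qbar) (monomial s (F.coeff s)))]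
    refine Finset.sum_congr rfl fun s _ => ?_
    rw [map_monomial]
    rfl

lemma variety_gal {X : Set (PSpace n)} (hX : IsVarietyOver K X) (σ : Qbar ≃ₐ[K] Qbar)
    {P : PSpace n} (hP : P ∈ X) : gal σ P ∈ X := by
  obtain ⟨T, hT, hX'⟩ := hX.closed
  have hT' : ∀ F ∈ T, ∃ e : ℕ, F.IsHomogeneous e := fun F hF => (hT F hF).1
  rw [gal, mk_mem_iff hT' hX']
  intro f hf
  rw [eval_gal σ (hT f hf).2]
  have h1 := (rep_mem_iff hX').mp hP
  rw [h1 f hf, map_zero]

/-- a nonempty open set over `Qbar` contains one over `K` -/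
theorem norm_form {X : Set (PSpace n)} (hX : IsVarietyOver K X)
    {F : MvPolynomial (Fin (n + 1)) Qbar} (hF : ∃ e : ℕ, F.IsHomogeneous e)
    (hFX : ∃ P ∈ X, eval P.rep F ≠ 0) :
    ∃ F' : MvPolynomial (Fin (n + 1)) Qbar, IsFormOver K F' ∧ (∃ P ∈ X, eval P.rep F' ≠ 0) ∧
      ∀ x : Fin (n + 1) → Qbar, eval x F' ≠ 0 → eval x F ≠ 0 := by
  classical
  obtain ⟨e, he⟩ := hF
  set O : Finset (MvPolynomial (Fin (n + 1)) Qbar) := (conj_finite (K := K) F).toFinset with hO
  have hmem : ∀ G, G ∈ O ↔ ∃ σ : Qbar ≃ₐ[K] Qbar, map (σ : Qbar →+* Qbar) F = G := by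
    intro G
    rw [hO, Set.Finite.mem_toFinset]
    rfl
  have hhom : ∀ G ∈ O, G.IsHomogeneous e := by
    intro G hG
    obtain ⟨σ, rfl⟩ := (hmem G).mp hG
    exact he.map _
  refine ⟨∏ G ∈ O, G, ⟨⟨∑ _ ∈ O, e, IsHomogeneous.prod O (fun G => G) (fun _ => e) hhom⟩,
    fun s => ?_⟩, ?_, fun x hx => ?_⟩
  · apply fixed_mem
    intro σ
    have h1 : map (σ : Qbar →+* Qbar) (∏ G ∈ O, G) = ∏ G ∈ O, G := by
      rw [map_prod]
      refine Finset.prod_nbij' (fun G => map (σ : Qbar →+* Qbar) G)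
        (fun G => map (σ.symm : Qbar →+* Qbar) G) ?_ ?_ ?_ ?_ ?_
      · intro G hG
        obtain ⟨τ, rfl⟩ := (hmem G).mp hG
        rw [hmem]
        refine ⟨τ.trans σ, ?_⟩
        rw [map_map]
        rfl
      · intro G hG
        obtain ⟨τ, rfl⟩ := (hmem G).mp hG
        rw [hmem]
        refine ⟨τ.trans σ.symm, ?_⟩
        rw [map_map]
        rfl
      · intro G _
        rw [map_map]
        have : (σ.symm : Qbar →+* Qbar).comp (σ : Qbar →+* Qbar) = RingHom.id _ := by
          ext x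
          exact σ.symm_apply_apply x
        rw [this, map_id]
      · intro G _
        rw [map_map]
        have : (σ : Qbar →+* Qbar).comp (σ.symm : Qbar →+* Qbar) = RingHom.id _ := by
          ext x
          exact σ.apply_symm_apply x
        rw [this, map_id]
      · intro G _
        rfl
    have h2 := congrArg (fun p => coeff s p) h1
    simp only [coeff_map] at h2
    exact h2
  · by_contra hcon
    push Not at hcon
    have key : ∀ O' : Finset (MvPolynomial (Fin (n + 1)) Qbar), (∀ G ∈ O', G.IsHomogeneous e) →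
        (∀ P ∈ X, eval P.rep (∏ G ∈ O', G) = 0) → ∃ G ∈ O', ∀ P ∈ X, eval P.rep G = 0 := by
      intro O'
      induction O' using Finset.induction_on with
      | empty =>
        intro _ h
        obtain ⟨P, hP⟩ := hX.nonempty
        have := h P hP
        rw [Finset.prod_empty, map_one] at this
        exact absurd this one_ne_zero
      | insert G O' hG ih =>
        intro hh h
        rw [Finset.prod_insert hG] at h
        rcases hX.irreducible G (∏ G ∈ O', G) ⟨e, hh G (Finset.mem_insert_self _ _)⟩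
          ⟨∑ _ ∈ O', e, IsHomogeneous.prod O' (fun G => G) (fun _ => e)
            fun G hG => hh G (Finset.mem_insert_of_mem hG)⟩ h with h1 | h1
        · exact ⟨G, Finset.mem_insert_self _ _, h1⟩
        · obtain ⟨G', hG', h2⟩ := ih (fun G hG => hh G (Finset.mem_insert_of_mem hG)) h1
          exact ⟨G', Finset.mem_insert_of_mem hG', h2⟩
    obtain ⟨G, hG, hG0⟩ := key O hhom hcon
    obtain ⟨σ, rfl⟩ := (hmem G).mp hG
    obtain ⟨P, hP, hPF⟩ := hFX
    apply hPF
    have h1 := hG0 _ (variety_gal hX σ hP)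
    rw [gal, eval_mk_ne (hhom _ hG), map_aut_eval] at h1
    exact (map_eq_zero_iff σ σ.injective).mp h1
  · rw [map_prod, Finset.prod_ne_zero_iff] at hx
    refine hx F ((hmem F).mpr ⟨AlgEquiv.refl, ?_⟩)
    have : ((AlgEquiv.refl : Qbar ≃ₐ[K] Qbar) : Qbar →+* Qbar) = RingHom.id _ := rfl
    rw [this, map_id]

end Run7.h385
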