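import Mathlib
import Pool.Agent.Run7.h385.AbCount
import Pool.Agent.Run7.h385.NormTrick

set_option autoImplicit false

/-!
# Varieties with a generically finite rational map to an abelian variety
-/

namespace Run7.h385

open MvPolynomial Filter Topology
open Pool.Agent.Helper259.AbsHt

/-- counting along a map with bounded fibres -/
lemma ncard_le_of_fibres {α β : Type*} {S : Set α} {S' : Set β} (g : α → β) (hS' : S'.Finite)
    (hS : S.Finite) (hg : ∀ x ∈ S, g x ∈ S') (M : ℕ)
    (hM : ∀ y, {x | x ∈ S ∧ g x = y}.encard ≤ M) : S.ncard ≤ M * S'.ncard := by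
  classical
  have h1 : hS.toFinset.card ≤ M * (hS.toFinset.image g).card := by
    refine Finset.card_le_mul_card_image _ M fun y _ => ?_
    have h2 := hM y
    have h3 : {x | x ∈ S ∧ g x = y} = ((hS.toFinset.filter fun x => g x = y : Finset α) : Set α) := by
      ext x
      simp
    rw [h3, Set.encard_coe_eq_coe_finsetCard] at h2
    exact_mod_cast h2
  rw [Set.ncard_eq_toFinset_card _ hS, Set.ncard_eq_toFinset_card _ hS']
  refine h1.trans (Nat.mul_le_mul_left _ (Finset.card_le_card ?_))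
  intro y hy
  obtain ⟨x, hx, rfl⟩ := Finset.mem_image.mp hy
  rw [Set.Finite.mem_toFinset] at hx ⊢
  exact hg x hx

/-- from a polynomial bound to a bound of the logarithm -/
lemma log_upper {N : ℝ → ℕ} {D a b : ℝ} {κ : ℕ} (hD : 0 ≤ D) (ha : 0 ≤ a) (hb : 0 ≤ b)
    (h : ∀ T : ℝ, 1 ≤ T → (N T : ℝ) ≤ D * (a * Real.log T + b) ^ κ) :
    ∃ β C : ℝ, ∀ᶠ T in atTop, Real.log (N T) ≤ β * Real.log^[1 + 1] T + C := by
  refine ⟨κ, Real.log (D + 1) + κ * Real.log (a + b + 1), ?_⟩
  have h1 := Real.tendsto_log_atTop.eventually_ge_atTop 1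
  filter_upwards [h1, eventually_ge_atTop (1 : ℝ)] with T hT hT1
  have h2 : Real.log^[1 + 1] T = Real.log (Real.log T) := rfl
  rw [h2]
  have h3 : 0 ≤ Real.log (Real.log T) := Real.log_nonneg hT
  have h4 : 0 ≤ Real.log (D + 1) := Real.log_nonneg (by linarith)
  have h5 : 0 ≤ Real.log (a + b + 1) := Real.log_nonneg (by linarith)
  rcases Nat.eq_zero_or_pos (N T) with h0 | h0
  · rw [h0, Nat.cast_zero, Real.log_zero]
    positivity
  have h0' : (0 : ℝ) < N T := by exact_mod_cast h0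
  have h6 : (N T : ℝ) ≤ (D + 1) * ((a + b + 1) * Real.log T) ^ κ := by
    refine (h T hT1).trans ?_
    have h7 : a * Real.log T + b ≤ (a + b + 1) * Real.log T := by nlinarith
    have h8 : 0 ≤ a * Real.log T + b := by positivity
    have h9 := pow_le_pow_left₀ h8 h7 κ
    have h10 : 0 ≤ ((a + b + 1) * Real.log T) ^ κ := by positivity
    nlinarith
  have h7 := Real.log_le_log h0' h6
  have hpos : (0 : ℝ) < a + b + 1 := by linarith
  have hlog : (0 : ℝ) < Real.log T := by linarith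
  rw [Real.log_mul (by positivity) (by positivity), Real.log_pow,
    Real.log_mul hpos.ne' hlog.ne'] at h7
  linarith

/-- the upper bound for a variety with a generically finite rational map to an abelian variety -/
theorem ab_upper {K : IntermediateField ℚ Qbar} {n N : ℕ}
    {X : Set (PSpace n)} (hX : IsVarietyOver K X) {H : PSpace n → ℝ} (hH : IsAmpleHeight X H)
    {A : Set (PSpace N)} {add : PSpace N → PSpace N → PSpace N} {neg : PSpace N → PSpace N}
    {zero : PSpace N} (hA : IsAbelianModel A add neg zero)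
    {f : Fin (N + 1) → MvPolynomial (Fin (n + 1)) Qbar} (hf : IsGenFiniteRationalMap X A f) :
    ∃ U₀ : Set (PSpace n), IsOpenOver K X U₀ ∧ U₀.Nonempty ∧ ∀ U ⊆ U₀,
      ∀ L : IntermediateField ℚ Qbar, FiniteDimensional ℚ L →
        ∃ β C : ℝ, ∀ᶠ T in atTop, Real.log (count H U L T) ≤ β * Real.log^[1 + 1] T + C := by
  classical
  obtain ⟨d, hfd⟩ := hf.homogeneous
  obtain ⟨F, M, hFe, hFX, hFf, hFM⟩ := hf.finite
  obtain ⟨F', hF'K, ⟨P₀, hP₀, hP₀F⟩, hF'F⟩ := norm_form hX hFe hFX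
  refine ⟨{P | P ∈ X ∧ ∃ G ∈ ({F'} : Set _), eval P.rep G ≠ 0},
    ⟨{F'}, fun G hG => by rw [Set.mem_singleton_iff.mp hG]; exact hF'K, rfl⟩,
    ⟨P₀, hP₀, F', rfl, hP₀F⟩, fun U hU L hL => ?_⟩
  have hUX : U ⊆ X := fun P hP => (hU hP).1
  have hUF : ∀ P ∈ U, eval P.rep F ≠ 0 := by
    intro P hP
    obtain ⟨-, G, hG, hGP⟩ := hU hP
    rw [Set.mem_singleton_iff.mp hG] at hGP
    exact hF'F _ hGP
  have hUf : ∀ P ∈ U, (fun i => eval P.rep (f i)) ≠ 0 := fun P hP => hFf P (hUX hP) (hUF P hP)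
  obtain ⟨L', hLL', hL'fd, hL'⟩ := exists_field L _ (coeff_finite f)
  obtain ⟨C₀, hC₀, hcmp⟩ := ample_compare hH
  obtain ⟨C₁, hC₁⟩ := absLogHeight_eval d f hfd
  obtain ⟨D, κ, hD, hcount⟩ := hA.count_le L'
  set φ : PSpace n → PSpace N := fun P =>
    if h : (fun i => eval P.rep (f i)) ≠ 0 then Projectivization.mk Qbar _ h else zero with hφ
  have hφe : ∀ P (hP : P ∈ U), φ P = Projectivization.mk Qbar _ (hUf P hP) := by
    intro P hP
    rw [hφ]
    exact dif_pos (hUf P hP)
  refine log_upper (N := count H U L) (D := (M : ℝ) * D) (a := d * C₀) (b := d * C₀ + |C₁| + 1)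
    (κ := κ) (by positivity) (by positivity) (by positivity) fun T hT => ?_
  have hlog : 0 ≤ Real.log T := Real.log_nonneg hT
  set B : ℝ := d * C₀ * Real.log T + (d * C₀ + |C₁|) with hB
  have hB0 : 0 ≤ B := by positivity
  obtain ⟨hfin, hcard⟩ := hcount B hB0
  have h1 : count H U L T ≤ M * {P : PSpace N | P ∈ A ∧ P ∈ ratPts L' N ∧ ht P ≤ B}.ncard := by
    refine ncard_le_of_fibres φ hfin (finite_pts hH hUX L T) ?_ M ?_
    · rintro P ⟨hPU, hPL, hPT⟩
      rw [hφe P hPU]
      refine ⟨hf.maps P (hUX hPU) _, ?_, ?_⟩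
      · obtain ⟨c, x, hc, hx, hxL, hPx⟩ := ratPts_mk hPL
        have hsc : ∀ i, eval P.rep (f i) = c ^ d * eval x (f i) := by
          intro i
          rw [hPx, hom_eval_smul' (hfd i)]
        have hne : (fun i => eval x (f i)) ≠ 0 := by
          intro h0
          apply hUf P hPU
          funext i
          rw [hsc, congrFun h0 i]
          simp
        refine ⟨fun i => eval x (f i), fun i => mv_eval_mem L' (fun s => hL' _ ⟨i, s, rfl⟩)
          (fun j => hLL' (hxL j)), hne, ?_⟩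
        rw [Projectivization.mk_eq_mk_iff']
        exact ⟨c ^ d, by
          funext i
          rw [Pi.smul_apply, smul_eq_mul, hsc]⟩
      · rw [ht_mk]
        obtain ⟨g1, -, g3⟩ := hcmp P (hUX hPU)
        have h2 := hC₁ P.rep
        have h3 : absLogHeight P.rep = ht P := rfl
        rw [h3] at h2
        have h4 : Real.log (H P) ≤ Real.log T := Real.log_le_log (by linarith) hPT
        have h5 : ht P ≤ C₀ * (Real.log T + 1) := g3.trans (by gcongr)
        have h6 : (d : ℝ) * ht P ≤ d * (C₀ * (Real.log T + 1)) := by gcongr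
        have h7 := le_abs_self C₁
        rw [hB]
        linarith
    · intro y
      refine le_trans (Set.encard_le_encard ?_) (hFM y)
      rintro P ⟨⟨hPU, -, -⟩, hPy⟩
      rw [hφe P hPU] at hPy
      exact ⟨hUX hPU, hUF P hPU, hUf P hPU, hPy⟩
  have h2 : (count H U L T : ℝ) ≤ M * (D * (B + 1) ^ κ) := by
    calc (count H U L T : ℝ) ≤
        ((M * {P : PSpace N | P ∈ A ∧ P ∈ ratPts L' N ∧ ht P ≤ B}.ncard : ℕ) : ℝ) := by
          exact_mod_cast h1
      _ ≤ M * (D * (B + 1) ^ κ) := by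
        push_cast
        gcongr
  refine h2.trans (le_of_eq ?_)
  rw [hB]
  ring

/-- the order is 1 -/
theorem ab_order {K : IntermediateField ℚ Qbar} [FiniteDimensional ℚ K] {n N : ℕ}
    {X : Set (PSpace n)} (hX : IsVarietyOver K X) {H : PSpace n → ℝ} (hH : IsAmpleHeight X H)
    (hd : ZariskiDenseIn (groupLocus X) X)
    {A : Set (PSpace N)} {add : PSpace N → PSpace N → PSpace N} {neg : PSpace N → PSpace N}
    {zero : PSpace N} (hA : IsAbelianModel A add neg zero)
    {f : Fin (N + 1) → MvPolynomial (Fin (n + 1)) Qbar} (hf : IsGenFiniteRationalMap X A f) :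
    HasOrder K X H 1 := by
  obtain ⟨U₀, hU₀, hU₀ne, hup⟩ := ab_upper hX hH hA hf
  refine order_eq_of_bounds 1 U₀ hU₀ hU₀ne fun U hU hUU hne => ?_
  obtain ⟨L₀, hK, hfd, hlow⟩ := group_lower hd hH U hU hne
  refine ⟨L₀, hK, hfd, fun L hL hLfd => ?_⟩
  obtain ⟨α, c, hα, h1⟩ := hlow L hL hLfd
  obtain ⟨β, C, h2⟩ := hup U hUU L hLfd
  exact ⟨α, c, β, C, hα, h1.and h2⟩

end Run7.h385
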