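import Pool.Agent.Run7.h385.Growth

set_option autoImplicit false

/-!
# Upper bounds of the counting function exclude small arithmetic orders
-/

namespace Run7.h385

open MvPolynomial Filter Topology
open Pool.Agent.Helper259.AbsHt (Qbar)

/-- iterated logarithms are eventually monotone and positive -/
lemma iter_mono (m : ℕ) : ∃ B : ℝ, ∀ x y : ℝ, B ≤ x → x ≤ y →
    0 < Real.log^[m] x ∧ Real.log^[m] x ≤ Real.log^[m] y := by
  induction m with
  | zero => exact ⟨1, fun x y hx hxy => ⟨by simpa using (by linarith : (0 : ℝ) < x), hxy⟩⟩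
  | succ m ih =>
    obtain ⟨B, hB⟩ := ih
    obtain ⟨B', hB'⟩ := Filter.eventually_atTop.mp ((tendsto_iter (m + 1)).eventually_gt_atTop 0)
    refine ⟨max B B', fun x y hx hxy => ?_⟩
    obtain ⟨h1, h2⟩ := hB x y ((le_max_left _ _).trans hx) hxy
    refine ⟨hB' x ((le_max_right _ _).trans hx), ?_⟩
    rw [Function.iterate_succ_apply', Function.iterate_succ_apply']
    exact Real.log_le_log h1 h2

/-- an upper bound for iterated logarithms of natural numbers -/
lemma iter_upper {N : ℝ → ℕ} {v : ℝ → ℝ} (hv : Tendsto v atTop atTop) {β C : ℝ}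
    (h1 : ∀ᶠ T in atTop, Real.log (N T) ≤ β * v T + C) (j : ℕ) :
    ∀ᶠ T in atTop, Real.log^[j + 2] (N T : ℝ) ≤ 2 * Real.log^[j + 1] (v T) := by
  obtain ⟨B, hB⟩ := iter_mono (j + 1)
  set γ : ℝ := |β| + 1 with hγ
  have hγ0 : 0 < γ := by positivity
  -- large values of `log N`
  have hu : Tendsto (fun T => γ * v T + |C|) atTop atTop :=
    tendsto_atTop_add_const_right _ _ (hv.const_mul_atTop hγ0)
  have h2 := iter_lower (u := v) (v := fun T => γ * v T + |C|) hu (α := 1 / γ) (c := |C| / γ)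
    (by positivity) (Filter.Eventually.of_forall fun T => by
      field_simp
      linarith) j
  have hit : Tendsto (fun T => Real.log^[j + 1] (v T)) atTop atTop := (tendsto_iter (j + 1)).comp hv
  -- the small values
  obtain ⟨M, hM⟩ : ∃ M : ℝ, ∀ k : ℕ, Real.log k ≤ B → Real.log^[j + 2] (k : ℝ) ≤ M := by
    obtain ⟨K, hK⟩ := exists_nat_gt (Real.exp B)
    have hne : (Finset.range (K + 1)).Nonempty := ⟨0, by simp⟩
    refine ⟨(Finset.range (K + 1)).sup' hne fun k => Real.log^[j + 2] (k : ℝ), fun k hk => ?_⟩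
    refine Finset.le_sup' (f := fun k : ℕ => Real.log^[j + 2] (k : ℝ)) ?_
    rw [Finset.mem_range]
    by_contra hcon
    push Not at hcon
    have h3 : (K : ℝ) < k := by exact_mod_cast hcon
    have h4 : 0 < Real.exp B := Real.exp_pos B
    have h5 : B < Real.log k := by
      rw [Real.lt_log_iff_exp_lt (by linarith)]
      linarith
    linarith
  filter_upwards [h1, h2, hv.eventually_ge_atTop 0, hit.eventually_ge_atTop (|M|)]
    with T g1 g2 g3 g4
  by_cases hc : Real.log (N T) ≤ B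
  · have h5 := hM (N T) hc
    have h6 := le_abs_self M
    have h7 := abs_nonneg M
    linarith
  · push Not at hc
    have h5 : Real.log (N T) ≤ γ * v T + |C| := by
      have h6 := le_abs_self β
      have h7 := le_abs_self C
      have h8 : β * v T ≤ γ * v T := mul_le_mul_of_nonneg_right (by linarith) g3
      linarith
    have h6 := (hB _ _ hc.le h5).2
    have h7 : Real.log^[j + 2] (N T : ℝ) = Real.log^[j + 1] (Real.log (N T)) :=
      Function.iterate_succ_apply _ _ _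
    rw [h7]
    linarith

variable {n : ℕ}

/-- the intersection of two nonempty open subsets of an irreducible variety -/
lemma open_inter {K : IntermediateField ℚ Qbar} {X : Set (PSpace n)} (hX : IsVarietyOver K X)
    {U V : Set (PSpace n)} (hU : IsOpenOver K X U) (hV : IsOpenOver K X V) (hUn : U.Nonempty)
    (hVn : V.Nonempty) :
    ∃ W : Set (PSpace n), IsOpenOver K X W ∧ W ⊆ U ∧ W ⊆ V ∧ W.Nonempty := by
  obtain ⟨T, hT, rfl⟩ := hU
  obtain ⟨T', hT', rfl⟩ := hV
  obtain ⟨P, hP, F, hF, hFP⟩ := hUn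
  obtain ⟨Q, hQ, G, hG, hGQ⟩ := hVn
  obtain ⟨⟨d, hd⟩, hFK⟩ := hT F hF
  obtain ⟨⟨e, he⟩, hGK⟩ := hT' G hG
  refine ⟨{P | P ∈ X ∧ ∃ E ∈ ({F * G} : Set _), eval P.rep E ≠ 0}, ⟨{F * G}, ?_, rfl⟩, ?_, ?_, ?_⟩
  · intro E hE
    rw [Set.mem_singleton_iff.mp hE]
    refine ⟨⟨d + e, hd.mul he⟩, fun s => ?_⟩
    rw [coeff_mul]
    exact sum_mem fun x _ => mul_mem (hFK _) (hGK _)
  · rintro R ⟨hR, E, hE, hER⟩
    rw [Set.mem_singleton_iff.mp hE, map_mul] at hER
    exact ⟨hR, F, hF, left_ne_zero_of_mul hER⟩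
  · rintro R ⟨hR, E, hE, hER⟩
    rw [Set.mem_singleton_iff.mp hE, map_mul] at hER
    exact ⟨hR, G, hG, right_ne_zero_of_mul hER⟩
  · by_contra hcon
    rw [Set.not_nonempty_iff_eq_empty] at hcon
    have h1 : ∀ R ∈ X, eval R.rep (F * G) = 0 := by
      intro R hR
      by_contra hne
      have h2 : R ∈ {P | P ∈ X ∧ ∃ E ∈ ({F * G} : Set _), eval P.rep E ≠ 0} := ⟨hR, F * G, rfl, hne⟩
      rw [hcon] at h2
      exact h2
    rcases hX.irreducible F G ⟨d, hd⟩ ⟨e, he⟩ h1 with h2 | h2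
    · exact hFP (h2 P hP)
    · exact hGQ (h2 Q hQ)

/-- An upper bound of the size of `log^(b+1)`, valid on a nonempty open set, excludes the orders
smaller than `b`. -/
theorem order_ge_of_upper {K : IntermediateField ℚ Qbar} {X : Set (PSpace n)}
    (hX : IsVarietyOver K X) {H : PSpace n → ℝ} (b : ℕ)
    (hup : ∃ U₀ : Set (PSpace n), IsOpenOver K X U₀ ∧ U₀.Nonempty ∧ ∀ U ⊆ U₀,
      ∀ L : IntermediateField ℚ Qbar, FiniteDimensional ℚ L →
        ∃ β C : ℝ, ∀ᶠ T in atTop, Real.log (count H U L T) ≤ β * Real.log^[b + 1] T + C) :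
    ∀ a, HasOrder K X H a → b ≤ a := by
  rintro a ⟨m, hm, V₀, hV₀, hV₀n, h⟩
  obtain ⟨U₀, hU₀, hU₀n, hup⟩ := hup
  by_contra hab
  push Not at hab
  obtain ⟨W, hW, hWU, hWV, hWn⟩ := open_inter hX hU₀ hV₀ hU₀n hV₀n
  obtain ⟨L₀, hK, hfd, h1⟩ := h W hW hWV hWn
  have h2 := h1 L₀ (le_refl _) hfd
  obtain ⟨β, C, h3⟩ := hup W hWU L₀ hfd
  obtain ⟨j, rfl⟩ : ∃ j, m = j + 2 := ⟨m - 2, by omega⟩
  have h4 := iter_upper (tendsto_iter (b + 1)) h3 j
  obtain ⟨k, rfl⟩ : ∃ k, b = a + (k + 1) := ⟨b - a - 1, by omega⟩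
  -- the ratio `log^(j+2+b) T / log^(j+2+a) T` tends to `0`
  have h5 : Tendsto (fun T : ℝ => 2 * (Real.log^[j + 2 + (a + (k + 1))] T /
      Real.log^[j + 2 + a] T)) atTop (𝓝 (2 * 0)) := by
    refine Tendsto.const_mul 2 ?_
    have h6 := (tendsto_div_iter k).comp (tendsto_iter (j + 2 + a))
    have h7 := h6.inv_tendsto_atTop
    refine h7.congr fun T => ?_
    rw [Pi.inv_apply, Function.comp_apply, inv_div, ← Function.iterate_add_apply]
    congr 2
    ring_nf
  have h8 : ∀ᶠ T in atTop, Real.log^[j + 2] (count H W L₀ T : ℝ) / Real.log^[j + 2 + a] T ≤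
      2 * (Real.log^[j + 2 + (a + (k + 1))] T / Real.log^[j + 2 + a] T) := by
    filter_upwards [h4, (tendsto_iter (j + 2 + a)).eventually_gt_atTop 0] with T g1 g2
    rw [← mul_div_assoc]
    refine div_le_div_of_nonneg_right (g1.trans (le_of_eq ?_)) g2.le
    rw [← Function.iterate_add_apply]
    congr 2
    ring_nf
  have h9 := le_of_tendsto_of_tendsto h2 h5 h8
  norm_num at h9

end Run7.h385
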