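import Mathlib
import Pool.Agent.Run7.h385.AbOrder
import Pool.Agent.Run7.h385.GrowthUpper

set_option autoImplicit false

/-!
# Varieties of maximal Albanese dimension do not have arithmetic order 0
-/

namespace Run7.h385

open MvPolynomial Filter Topology
open Pool.Agent.Helper259.AbsHt

theorem ab_positive {K : IntermediateField ℚ Qbar} {n N : ℕ}
    {X : Set (PSpace n)} (hX : IsVarietyOver K X) {H : PSpace n → ℝ} (hH : IsAmpleHeight X H)
    {A : Set (PSpace N)} {add : PSpace N → PSpace N → PSpace N} {neg : PSpace N → PSpace N}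
    {zero : PSpace N} (hA : IsAbelianModel A add neg zero)
    {f : Fin (N + 1) → MvPolynomial (Fin (n + 1)) Qbar} (hf : IsGenFiniteRationalMap X A f) :
    ∀ a, HasOrder K X H a → 1 ≤ a :=
  order_ge_of_upper hX 1 (ab_upper hX hH hA hf)

end Run7.h385
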