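import Pool.Agent.Run7.h385.Basic

set_option autoImplicit false

namespace Run7.h385

open Filter Topology
open Pool.Agent.Helper259.AbsHt (Qbar)

/-- iterated logarithms tend to infinity -/
lemma tendsto_iter (k : ℕ) : Tendsto (fun T : ℝ => Real.log^[k] T) atTop atTop := by
  induction k with
  | zero => exact tendsto_id
  | succ k ih =>
    simp only [Function.iterate_succ_apply']
    exact Real.tendsto_log_atTop.comp ih

lemma log_ratio {u v : ℝ → ℝ} (hv : Tendsto v atTop atTop) {α c β C : ℝ} (hα : 0 < α)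
    (h1 : ∀ᶠ T in atTop, α * v T - c ≤ u T) (h2 : ∀ᶠ T in atTop, u T ≤ β * v T + C) :
    Tendsto (fun T => Real.log (u T) / Real.log (v T)) atTop (𝓝 1) := by
  set γ : ℝ := |β| + |C| + 1 with hγ
  have hγ0 : 0 < γ := by positivity
  have hlv : Tendsto (fun T => Real.log (v T)) atTop atTop := Real.tendsto_log_atTop.comp hv
  have e1 : Tendsto (fun T => 1 + Real.log (α / 2) / Real.log (v T)) atTop (𝓝 1) := by
    have := (tendsto_const_nhds (x := Real.log (α / 2))).div_atTop hlv
    simpa using this.const_add 1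
  have e2 : Tendsto (fun T => 1 + Real.log γ / Real.log (v T)) atTop (𝓝 1) := by
    have := (tendsto_const_nhds (x := Real.log γ)).div_atTop hlv
    simpa using this.const_add 1
  have hbig : ∀ᶠ T in atTop, max 1 (2 * |c| / α) ≤ v T := hv.eventually_ge_atTop _
  have hlpos : ∀ᶠ T in atTop, 0 < Real.log (v T) := hlv.eventually_gt_atTop 0
  refine tendsto_of_tendsto_of_tendsto_of_le_of_le' e1 e2 ?_ ?_
  · filter_upwards [h1, hbig, hlpos] with T g1 g2 g3
    have hv1 : 1 ≤ v T := (le_max_left _ _).trans g2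
    have hv2 : 2 * |c| / α ≤ v T := (le_max_right _ _).trans g2
    rw [div_le_iff₀ hα] at hv2
    have hlow : α / 2 * v T ≤ u T := by
      have := le_abs_self c
      nlinarith
    have hpos : 0 < α / 2 * v T := by positivity
    have := Real.log_le_log hpos hlow
    rw [Real.log_mul (by positivity) (by positivity)] at this
    rw [le_div_iff₀ g3, add_mul, one_mul, div_mul_cancel₀ _ g3.ne']
    linarith
  · filter_upwards [h1, h2, hbig, hlpos] with T g0 g1 g2 g3
    have hv1 : 1 ≤ v T := (le_max_left _ _).trans g2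
    have hv2 : 2 * |c| / α ≤ v T := (le_max_right _ _).trans g2
    rw [div_le_iff₀ hα] at hv2
    have hlow : α / 2 * v T ≤ u T := by
      have := le_abs_self c
      nlinarith
    have hup : u T ≤ γ * v T := by
      have := le_abs_self C
      have := le_abs_self β
      have h0 : 0 ≤ |C| := abs_nonneg C
      rw [hγ]
      nlinarith
    have hpos : 0 < u T := lt_of_lt_of_le (by positivity) hlow
    have := Real.log_le_log hpos hup
    rw [Real.log_mul (by positivity) (by positivity)] at this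
    rw [div_le_iff₀ g3, add_mul, one_mul, div_mul_cancel₀ _ g3.ne']
    linarith

lemma iter_lower {u v : ℝ → ℝ} (hv : Tendsto v atTop atTop) {α c : ℝ} (hα : 0 < α)
    (h1 : ∀ᶠ T in atTop, α * v T - c ≤ u T) (j : ℕ) :
    ∀ᶠ T in atTop, 1 / 2 * Real.log^[j + 1] (v T) ≤ Real.log^[j + 1] (u T) := by
  have hit : ∀ j, Tendsto (fun T => Real.log^[j] (v T)) atTop atTop := fun j =>
    (tendsto_iter j).comp hv
  induction j with
  | zero =>
    simp only [zero_add, Function.iterate_one]
    have h3 := (hit 1).eventually_ge_atTop (2 * |Real.log (α / 2)|)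
    have hbig : ∀ᶠ T in atTop, max 1 (2 * |c| / α) ≤ v T := hv.eventually_ge_atTop _
    filter_upwards [h1, h3, hbig] with T g1 g2 g3
    simp only [Function.iterate_one] at g2
    have hv1 : 1 ≤ v T := (le_max_left _ _).trans g3
    have hv2 : 2 * |c| / α ≤ v T := (le_max_right _ _).trans g3
    rw [div_le_iff₀ hα] at hv2
    have hlow : α / 2 * v T ≤ u T := by
      have := le_abs_self c
      nlinarith
    have hpos : 0 < α / 2 * v T := by positivity
    have := Real.log_le_log hpos hlow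
    rw [Real.log_mul (by positivity) (by positivity)] at this
    have := neg_abs_le (Real.log (α / 2))
    linarith
  | succ j ih =>
    have h3 := (hit (j + 2)).eventually_ge_atTop (2 * Real.log 2)
    have h4 := (hit (j + 1)).eventually_gt_atTop 0
    filter_upwards [ih, h3, h4] with T g1 g2 g3
    have e1 : ∀ x : ℝ, Real.log^[j + 1 + 1] x = Real.log (Real.log^[j + 1] x) := fun x =>
      Function.iterate_succ_apply' _ _ _
    rw [e1, e1]
    rw [show j + 2 = j + 1 + 1 from rfl, e1] at g2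
    have hpos : 0 < 1 / 2 * Real.log^[j + 1] (v T) := by positivity
    have := Real.log_le_log hpos g1
    rw [Real.log_mul (by norm_num) g3.ne', one_div, Real.log_inv] at this
    linarith

lemma iter_le_log (k : ℕ) : ∀ᶠ w : ℝ in atTop, Real.log^[k + 1] w ≤ Real.log w := by
  induction k with
  | zero => simp
  | succ k ih =>
    have h := (tendsto_iter (k + 1)).eventually_gt_atTop 0
    filter_upwards [ih, h] with w g1 g2
    rw [Function.iterate_succ_apply']
    exact (Real.log_le_self g2.le).trans g1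

/-- `w / log^(k) w` tends to infinity -/
lemma tendsto_div_iter (k : ℕ) :
    Tendsto (fun w : ℝ => w / Real.log^[k + 1] w) atTop atTop := by
  have h0 : Tendsto (fun w : ℝ => w / Real.log w) atTop atTop := by
    have h := Real.isLittleO_log_id_atTop
    have h1 : Tendsto (fun w : ℝ => Real.log w / w) atTop (𝓝 0) := h.tendsto_div_nhds_zero
    have h2 : Tendsto (fun w : ℝ => (Real.log w / w)⁻¹) atTop atTop := by
      refine Tendsto.inv_tendsto_nhdsGT_zero ?_
      rw [tendsto_nhdsWithin_iff]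
      refine ⟨h1, ?_⟩
      filter_upwards [eventually_gt_atTop (1 : ℝ)] with w hw
      exact div_pos (Real.log_pos hw) (by linarith)
    simpa using h2
  refine tendsto_atTop_mono' _ ?_ h0
  filter_upwards [iter_le_log k, (tendsto_iter (k + 1)).eventually_gt_atTop 0,
    eventually_gt_atTop (0 : ℝ)] with w g1 g2 g3
  exact div_le_div_of_nonneg_left g3.le g2 g1

variable {n : ℕ}

/-- A lower bound of the size of `log^(b+1)`, valid on all nonempty open subsets over all large
fields, excludes the orders greater than `b`. -/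
theorem order_le_of_lower {K : IntermediateField ℚ Qbar} {X : Set (PSpace n)}
    {H : PSpace n → ℝ} (b : ℕ)
    (hlow : ∀ U : Set (PSpace n), IsOpenOver K X U → U.Nonempty →
      ∃ L₀ : IntermediateField ℚ Qbar, K ≤ L₀ ∧ FiniteDimensional ℚ L₀ ∧
      ∀ L : IntermediateField ℚ Qbar, L₀ ≤ L → FiniteDimensional ℚ L →
        ∃ α c : ℝ, 0 < α ∧ ∀ᶠ T in atTop,
          α * Real.log^[b + 1] T - c ≤ Real.log (count H U L T)) :
    (∀ a, HasOrder K X H a → a ≤ b) ∧ ¬ HasOrderTop K X H := by
  have key : ∀ m, 2 ≤ m → ∀ U : Set (PSpace n), IsOpenOver K X U → U.Nonempty →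
      ∃ L₀ : IntermediateField ℚ Qbar, K ≤ L₀ ∧ FiniteDimensional ℚ L₀ ∧
      ∀ L : IntermediateField ℚ Qbar, L₀ ≤ L → FiniteDimensional ℚ L →
        ∀ᶠ T in atTop, 1 / 2 * Real.log^[m + b] T ≤ Real.log^[m] (count H U L T : ℝ) := by
    intro m hm U hU hne
    obtain ⟨L₀, hK, hL₀, h⟩ := hlow U hU hne
    refine ⟨L₀, hK, hL₀, fun L hL hfd => ?_⟩
    obtain ⟨α, c, hα, h1⟩ := h L hL hfd
    obtain ⟨j, rfl⟩ : ∃ j, m = j + 1 + 1 := ⟨m - 2, by omega⟩
    have := iter_lower (u := fun T => Real.log (count H U L T))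
      (v := fun T => Real.log^[b + 1] T) (tendsto_iter (b + 1)) hα h1 j
    filter_upwards [this] with T hT
    rw [← Function.iterate_add_apply, ← Function.iterate_succ_apply] at hT
    rw [show j + 1 + 1 + b = j + 1 + (b + 1) by ring]
    exact hT
  constructor
  · rintro a ⟨m, hm, U₀, hU₀, hne, h⟩
    by_contra hab
    push Not at hab
    obtain ⟨L₁, hK₁, hfd₁, h1⟩ := h U₀ hU₀ (subset_refl _) hne
    obtain ⟨L₂, hK₂, hfd₂, h2⟩ := key m hm U₀ hU₀ hne
    have hfd : FiniteDimensional ℚ (L₁ ⊔ L₂ : IntermediateField ℚ Qbar) :=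
      IntermediateField.finiteDimensional_sup L₁ L₂
    have g1 := h1 (L₁ ⊔ L₂) le_sup_left hfd
    have g2 := h2 (L₁ ⊔ L₂) le_sup_right hfd
    obtain ⟨k, rfl⟩ : ∃ k, a = b + (k + 1) := ⟨a - b - 1, by omega⟩
    have g3 : Tendsto (fun T : ℝ => 1 / 2 * (Real.log^[m + b] T / Real.log^[m + (b + (k + 1))] T))
        atTop atTop := by
      have := (tendsto_div_iter k).comp (tendsto_iter (m + b))
      have := this.const_mul_atTop (show (0 : ℝ) < 1 / 2 by norm_num)
      refine this.congr fun T => ?_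
      simp only [Function.comp_apply]
      rw [← Function.iterate_add_apply]
      congr 3
      ring_nf
    have g4 : Tendsto (fun T : ℝ => Real.log^[m] (count H U₀ (L₁ ⊔ L₂) T : ℝ) /
        Real.log^[m + (b + (k + 1))] T) atTop atTop := by
      refine tendsto_atTop_mono' _ ?_ g3
      filter_upwards [g2, (tendsto_iter (m + (b + (k + 1)))).eventually_gt_atTop 0] with T e1 e2
      rw [← mul_div_assoc]
      exact div_le_div_of_nonneg_right e1 e2.le
    exact not_tendsto_nhds_of_tendsto_atTop g4 1 g1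
  · rintro ⟨m, hm, U₀, hU₀, hne, h⟩
    obtain ⟨L₁, hK₁, hfd₁, h1⟩ := h U₀ hU₀ (subset_refl _) hne
    obtain ⟨L₂, hK₂, hfd₂, h2⟩ := key m hm U₀ hU₀ hne
    have hfd : FiniteDimensional ℚ (L₁ ⊔ L₂ : IntermediateField ℚ Qbar) :=
      IntermediateField.finiteDimensional_sup L₁ L₂
    have g1 := h1 (L₁ ⊔ L₂) le_sup_left hfd b
    have g2 := h2 (L₁ ⊔ L₂) le_sup_right hfd
    have g3 : ∀ᶠ T in atTop, (1 : ℝ) / 2 ≤ Real.log^[m] (count H U₀ (L₁ ⊔ L₂) T : ℝ) /
        Real.log^[m + b] T := by
      filter_upwards [g2, (tendsto_iter (m + b)).eventually_gt_atTop 0] with T e1 e2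
      rw [le_div_iff₀ e2]
      exact e1
    have := ge_of_tendsto g1 g3
    norm_num at this

/-- Two-sided bounds give the order. -/
theorem order_eq_of_bounds {K : IntermediateField ℚ Qbar} {X : Set (PSpace n)}
    {H : PSpace n → ℝ} (b : ℕ) (U₀ : Set (PSpace n)) (hU₀ : IsOpenOver K X U₀)
    (hne : U₀.Nonempty)
    (hb : ∀ U : Set (PSpace n), IsOpenOver K X U → U ⊆ U₀ → U.Nonempty →
      ∃ L₀ : IntermediateField ℚ Qbar, K ≤ L₀ ∧ FiniteDimensional ℚ L₀ ∧
      ∀ L : IntermediateField ℚ Qbar, L₀ ≤ L → FiniteDimensional ℚ L →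
        ∃ α c β C : ℝ, 0 < α ∧ ∀ᶠ T in atTop,
          α * Real.log^[b + 1] T - c ≤ Real.log (count H U L T) ∧
          Real.log (count H U L T) ≤ β * Real.log^[b + 1] T + C) :
    HasOrder K X H b := by
  refine ⟨2, le_refl _, U₀, hU₀, hne, fun U hU hUU hUn => ?_⟩
  obtain ⟨L₀, hK, hL₀, h⟩ := hb U hU hUU hUn
  refine ⟨L₀, hK, hL₀, fun L hL hfd => ?_⟩
  obtain ⟨α, c, β, C, hα, h1⟩ := h L hL hfd
  have := log_ratio (u := fun T => Real.log (count H U L T))
    (v := fun T => Real.log^[b + 1] T) (tendsto_iter (b + 1)) hα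
    (h1.mono fun T hT => hT.1) (h1.mono fun T hT => hT.2)
  refine this.congr fun T => ?_
  rw [show 2 + b = b + 1 + 1 by ring, Function.iterate_succ_apply' _ (b + 1)]
  rfl

/-- from families of points to a lower bound of the logarithm of the counting function -/
lemma lower_gen {N : ℝ → ℕ} {y : ℝ → ℝ} (hy : Tendsto y atTop atTop) {D e : ℝ} (hD : 0 < D)
    (h : ∀ᶠ T in atTop, ∀ M : ℕ, (M : ℝ) + 1 ≤ y T → (M : ℝ) ≤ D * N T + e) :
    ∀ᶠ T in atTop, Real.log (y T) - Real.log (2 * D) ≤ Real.log (N T) := by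
  filter_upwards [h, hy.eventually_ge_atTop (max 1 (2 * (2 + |e|)))] with T g1 g2
  have g3 : 1 ≤ y T := (le_max_left _ _).trans g2
  have g4 : 2 * (2 + |e|) ≤ y T := (le_max_right _ _).trans g2
  obtain ⟨M, hM⟩ : ∃ M : ℕ, ⌊y T⌋₊ = M + 1 :=
    ⟨⌊y T⌋₊ - 1, by have : 1 ≤ ⌊y T⌋₊ := Nat.le_floor (by simpa using g3); omega⟩
  have g5 : (M : ℝ) + 1 ≤ y T := by
    have := Nat.floor_le (show (0 : ℝ) ≤ y T by linarith)
    rw [hM] at this
    exact_mod_cast this
  have g6 : y T < (M : ℝ) + 2 := by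
    have := Nat.lt_floor_add_one (y T)
    rw [hM] at this
    push_cast at this
    linarith
  have g7 := g1 M g5
  have g8 := le_abs_self e
  have g9 : y T ≤ 2 * D * N T := by nlinarith
  have g10 : (0 : ℝ) < N T := by
    by_contra hN
    have : (N T : ℝ) = 0 := le_antisymm (not_lt.mp hN) (Nat.cast_nonneg _)
    rw [this] at g9
    linarith
  have := Real.log_le_log (by linarith) g9
  rw [Real.log_mul (by positivity) g10.ne'] at this
  linarith

lemma lower_poly {N : ℝ → ℕ} {D e C : ℝ} (hD : 0 < D) (hC : 0 < C)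
    (h : ∀ M : ℕ, ∀ T : ℝ, 1 ≤ T → C * (Real.log (M + 1) + 1) ≤ Real.log T →
      (M : ℝ) ≤ D * N T + e) :
    ∃ α c : ℝ, 0 < α ∧ ∀ᶠ T in atTop, α * Real.log^[0 + 1] T - c ≤ Real.log (N T) := by
  refine ⟨1 / C, 1 + Real.log (2 * D), by positivity, ?_⟩
  have hy : Tendsto (fun T : ℝ => Real.exp (1 / C * Real.log T - 1)) atTop atTop := by
    refine Real.tendsto_exp_atTop.comp ?_
    have h1 : Tendsto (fun T : ℝ => 1 / C * Real.log T) atTop atTop :=
      Real.tendsto_log_atTop.const_mul_atTop (by positivity)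
    exact tendsto_atTop_add_const_right _ (-1) h1
  have := lower_gen (N := N) (e := e) hy hD ((eventually_ge_atTop (1 : ℝ)).mono fun T h1T M hM => h M T h1T (by
    have h2 : Real.log (M + 1) ≤ 1 / C * Real.log T - 1 := by
      rw [← Real.log_exp (1 / C * Real.log T - 1)]
      exact Real.log_le_log (by positivity) hM
    have h3 : Real.log (M + 1) + 1 ≤ 1 / C * Real.log T := by linarith
    calc C * (Real.log (M + 1) + 1) ≤ C * (1 / C * Real.log T) :=
          mul_le_mul_of_nonneg_left h3 hC.le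
      _ = Real.log T := by field_simp))
  filter_upwards [this] with T hT
  rw [Real.log_exp] at hT
  simp only [zero_add, Function.iterate_one]
  linarith

lemma zero_add_one_iterate (T : ℝ) : Real.log^[1] T = Real.log T := rfl

lemma lower_log {N : ℝ → ℕ} {D e C : ℝ} (k : ℕ) (hk : 0 < k) (hD : 0 < D) (hC : 0 < C)
    (h : ∀ M : ℕ, ∀ T : ℝ, 1 ≤ T → C * ((M : ℝ) + 1) ^ k ≤ Real.log T →
      (M : ℝ) ≤ D * N T + e) :
    ∃ α c : ℝ, 0 < α ∧ ∀ᶠ T in atTop, α * Real.log^[1 + 1] T - c ≤ Real.log (N T) := by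
  have hk' : (0 : ℝ) < k := by exact_mod_cast hk
  refine ⟨1 / k, 1 / k * Real.log C + Real.log (2 * D), by positivity, ?_⟩
  have hy : Tendsto (fun T : ℝ => (Real.log T / C) ^ (1 / (k : ℝ))) atTop atTop := by
    have h1 : Tendsto (fun T : ℝ => Real.log T / C) atTop atTop :=
      Real.tendsto_log_atTop.atTop_div_const hC
    exact (tendsto_rpow_atTop (by positivity)).comp h1
  have hpos := Real.tendsto_log_atTop.eventually_gt_atTop 0
  have := lower_gen (N := N) (e := e) hy hD (by
    filter_upwards [hpos, eventually_ge_atTop (1 : ℝ)] with T hT h1T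
    intro M hM
    refine h M T h1T ?_
    have h0 : (0 : ℝ) ≤ Real.log T / C := by positivity
    have h2 : ((M : ℝ) + 1) ^ k ≤ Real.log T / C := by
      have h3 : ((M : ℝ) + 1) ^ k ≤ ((Real.log T / C) ^ (1 / (k : ℝ))) ^ k :=
        pow_le_pow_left₀ (by positivity) hM k
      rwa [← Real.rpow_natCast ((Real.log T / C) ^ (1 / (k : ℝ))) k, ← Real.rpow_mul h0,
        one_div_mul_cancel hk'.ne', Real.rpow_one] at h3
    rw [le_div_iff₀ hC] at h2
    linarith)
  filter_upwards [this, hpos] with T hT hT0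
  rw [Real.log_rpow (by positivity), Real.log_div hT0.ne' hC.ne'] at hT
  rw [Function.iterate_succ_apply', zero_add_one_iterate T]
  have e1 : 1 / (k : ℝ) * (Real.log (Real.log T) - Real.log C) =
    1 / k * Real.log (Real.log T) - 1 / k * Real.log C := by ring
  linarith

end Run7.h385
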